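import Pool.Agent.CUB.Main

/-!
# Alternating sums of arbitrary cycles of lines (package AltAll)

PROOF. If there is no line then every `z j` is `0`, so `alt z = 0` for `n = 1`. Otherwise fix a line
`l₀`, take `N₀` from `CUB.main`, `A` = the cycles of degree zero (kernel of the sum of the
coefficients), `B` = the span of `single l₀ 1`, `n = N₀ + 2`, and apply `alt_sup (rsys hF)`: the
alternating sum of two multiples of `single l₀ 1` is zero (`exists_altM`: `alt` is multilinear; the
alternating sum of two equal cycles is zero), and every cycle is the sum of one in `A` and one in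
`B`.
-/

set_option autoImplicit false

noncomputable section

namespace Pool.Agent.CUB.FLN

open Pool.Agent.ZCyc Pool.Agent.Dess Pool.Agent.GT
open scoped Classical

variable {k : Type} [Field k] [IsAlgClosed k] [CharZero k] {F : MvPolynomial (Fin 6) k}

/-- alternating sums of arbitrary cycles (no condition on the degrees) are relations -/
theorem alt_all (hF : Smooth F) :
    ∃ n : ℕ, 0 < n ∧ ∀ z : Fin n → (Ln F k →₀ ℚ), alt z ∈ Rel F n := by
  rcases isEmpty_or_nonempty (Ln F k) with he | ⟨⟨l₀⟩⟩
  · refine ⟨1, one_pos, fun z => ?_⟩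
    have : IsEmpty (Fin 1 → Ln F k) := ⟨fun x => he.false (x 0)⟩
    rw [Subsingleton.elim (alt z) 0]
    exact Submodule.zero_mem _
  obtain ⟨N₀, hN⟩ := main hF
  let A : Submodule ℚ (Ln F k →₀ ℚ) :=
    LinearMap.ker (Finsupp.linearCombination ℚ fun _ : Ln F k => (1 : ℚ))
  let B : Submodule ℚ (Ln F k →₀ ℚ) := Submodule.span ℚ {Finsupp.single l₀ (1 : ℚ)}
  have hA : ∀ z : Fin N₀ → (Ln F k →₀ ℚ), (∀ j, z j ∈ A) → alt z ∈ Rel F N₀ := by
    intro z hz
    refine hN N₀ le_rfl z fun j => ?_
    have h := LinearMap.mem_ker.1 (hz j)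
    rw [Finsupp.linearCombination_apply] at h
    simpa using h
  have hB : ∀ z : Fin 2 → (Ln F k →₀ ℚ), (∀ j, z j ∈ B) → alt z ∈ Rel F 2 := by
    intro z hz
    refine alt_span (G := {Finsupp.single l₀ (1 : ℚ)}) ?_ z hz
    intro w hw
    have hw' : w = fun _ => Finsupp.single l₀ (1 : ℚ) := funext fun j => hw j
    have h0 : alt w = 0 := by
      rw [hw']
      unfold alt
      rw [← Finset.sum_smul]
      have : ∑ τ : Equiv.Perm (Fin 2), ((Equiv.Perm.sign τ : ℤˣ) : ℤ) = 0 := by decide
      rw [this, zero_smul]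
    rw [h0]
    exact Submodule.zero_mem _
  refine ⟨N₀ + 2, by omega, fun z => alt_sup (rsys hF) hA hB le_rfl z fun j => ?_⟩
  have h1 : z j = (z j - (Finsupp.linearCombination ℚ (fun _ : Ln F k => (1 : ℚ)) (z j)) •
      Finsupp.single l₀ (1 : ℚ)) + (Finsupp.linearCombination ℚ (fun _ : Ln F k => (1 : ℚ))
      (z j)) • Finsupp.single l₀ (1 : ℚ) := by
    rw [sub_add_cancel]
  rw [h1]
  refine Submodule.add_mem _ ?_ ?_
  · refine Submodule.mem_sup_left (Submodule.mem_sup_right ?_)
    change _ ∈ LinearMap.ker _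
    rw [LinearMap.mem_ker, map_sub, map_smul, Finsupp.linearCombination_single]
    simp
  · exact Submodule.mem_sup_right (Submodule.smul_mem _ _ (Submodule.mem_span_singleton_self _))

end Pool.Agent.CUB.FLN
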