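import Mathlib

/-!
# Binary forms: factorisation into linear forms, uniqueness
-/

set_option autoImplicit false

noncomputable section

namespace Pool.Agent.CUB.FLN

open Polynomial
open scoped Classical

variable {L : Type} [Field L] {n m : ℕ} {G H : (Fin 2 → L) → L} {p q : L[X]}

/-- the function `G` is the binary form of degree `n` given by the polynomial `p` -/
structure BF (n : ℕ) (G : (Fin 2 → L) → L) (p : L[X]) : Prop where
  deg : p.natDegree ≤ n
  ne : ∀ s : Fin 2 → L, s 1 ≠ 0 → G s = s 1 ^ n * p.eval (s 0 / s 1)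
  zero : ∀ s : Fin 2 → L, s 1 = 0 → G s = p.coeff n * s 0 ^ n

theorem BF.mul (hG : BF n G p) (hH : BF m H q) : BF (n + m) (fun s => G s * H s) (p * q) where
  deg := (natDegree_mul_le).trans (add_le_add hG.deg hH.deg)
  ne s hs := by
    rw [hG.ne s hs, hH.ne s hs, eval_mul]
    ring
  zero s hs := by
    rw [hG.zero s hs, hH.zero s hs, coeff_mul_add_eq_of_natDegree_le hG.deg hH.deg]
    ring

theorem BF.add (hG : BF n G p) (hH : BF n H q) : BF n (fun s => G s + H s) (p + q) where
  deg := natDegree_add_le_of_degree_le hG.deg hH.deg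
  ne s hs := by
    rw [hG.ne s hs, hH.ne s hs, eval_add]
    ring
  zero s hs := by
    rw [hG.zero s hs, hH.zero s hs, coeff_add]
    ring

theorem BF.const (c : L) : BF 0 (fun _ => c) (C c) where
  deg := by simp
  ne s hs := by simp
  zero s hs := by simp

theorem BF.lin (a b : L) : BF 1 (fun s => a * s 0 + b * s 1) (C a * X + C b) where
  deg := natDegree_linear_le
  ne s hs := by
    simp only [eval_add, eval_mul, eval_C, eval_X]
    field_simp
  zero s hs := by
    simp [hs]

theorem BF.congr {G' : (Fin 2 → L) → L} {m : ℕ} (hG : BF n G p) (h : ∀ s, G' s = G s)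
    (hm : n = m) : BF m G' p := by
  subst hm
  exact ⟨hG.deg, fun s hs => by rw [h, hG.ne s hs], fun s hs => by rw [h, hG.zero s hs]⟩

/-- a multiset with `n` elements is the image of a function on `Fin n` -/
private theorem exists_fn {α : Type} (M : Multiset α) (h : Multiset.card M = n) :
    ∃ f : Fin n → α, Finset.univ.val.map f = M := by
  subst h
  refine ⟨fun i => M.toList.get (i.cast (by simp)), ?_⟩
  conv_rhs => rw [← Multiset.coe_toList M]
  have h1 : (Finset.univ : Finset (Fin (Multiset.card M))).val =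
      (List.finRange (Multiset.card M) : List _) := rfl
  rw [h1, Multiset.map_coe]
  congr 1
  have h2 : Multiset.card M = M.toList.length := by simp
  apply List.ext_get
  · simp
  · intro j h3 h4
    simp

theorem BF.factor [IsAlgClosed L] (h : BF n G p) (hG : ∃ s, G s ≠ 0) :
    ∃ (c : L) (ρ : Fin n → Fin 2 → L), c ≠ 0 ∧ (∀ i, ρ i ≠ 0) ∧
      ∀ s, G s = c * ∏ i, (s 0 * ρ i 1 - s 1 * ρ i 0) := by
  have hp : p ≠ 0 := by
    rintro rfl
    obtain ⟨s, hs⟩ := hG
    by_cases h1 : s 1 = 0
    · exact hs (by rw [h.zero s h1]; simp)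
    · exact hs (by rw [h.ne s h1]; simp)
  have hsp := IsAlgClosed.splits p
  have hcard : Multiset.card p.roots = p.natDegree := hsp.natDegree_eq_card_roots.symm
  have hfac : p = C p.leadingCoeff * (p.roots.map fun a => X - C a).prod :=
    (C_leadingCoeff_mul_prod_multiset_X_sub_C hcard).symm
  have hd := h.deg
  obtain ⟨ρ, hρ⟩ := exists_fn (n := n) (p.roots.map (fun a => (![a, 1] : Fin 2 → L)) +
    Multiset.replicate (n - p.natDegree) (![-1, 0] : Fin 2 → L)) (by
      rw [Multiset.card_add, Multiset.card_map, Multiset.card_replicate, hcard]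
      omega)
  have hprod : ∀ s : Fin 2 → L, ∏ i, (s 0 * ρ i 1 - s 1 * ρ i 0) =
      (p.roots.map fun a => s 0 - s 1 * a).prod * s 1 ^ (n - p.natDegree) := by
    intro s
    have h1 : ∏ i, (s 0 * ρ i 1 - s 1 * ρ i 0) =
        ((Finset.univ.val.map ρ).map fun r => s 0 * r 1 - s 1 * r 0).prod := by
      rw [Multiset.map_map]
      rfl
    rw [h1, hρ, Multiset.map_add, Multiset.prod_add, Multiset.map_map, Multiset.map_replicate,
      Multiset.prod_replicate]
    congr 1
    · simp [Function.comp_def]
    · simp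
  refine ⟨p.leadingCoeff, ρ, leadingCoeff_ne_zero.2 hp, ?_, ?_⟩
  · intro i hi
    have h1 : ρ i ∈ Finset.univ.val.map ρ := Multiset.mem_map_of_mem ρ (Finset.mem_univ_val i)
    rw [hρ, Multiset.mem_add] at h1
    rcases h1 with h1 | h1
    · obtain ⟨a, -, ha⟩ := Multiset.mem_map.1 h1
      have := congrFun (ha.trans hi) 1
      simp at this
    · have := congrFun ((Multiset.eq_of_mem_replicate h1).symm.trans hi) 0
      simp at this
  · intro s
    rw [hprod]
    by_cases h1 : s 1 = 0
    · rw [h.zero s h1]
      by_cases h2 : p.natDegree = n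
      · have h3 : p.coeff n = p.leadingCoeff := by rw [← h2]; rfl
        rw [h3, h2, Nat.sub_self, pow_zero, mul_one, h1]
        simp [hcard, h2]
      · have h3 : p.coeff n = 0 := coeff_eq_zero_of_natDegree_lt (by omega)
        rw [h3, h1, zero_pow (by omega)]
        ring
    · rw [h.ne s h1]
      conv_lhs => rw [hfac]
      rw [eval_mul, eval_C, eval_multiset_prod, Multiset.map_map]
      have h2 : (p.roots.map fun a => s 0 - s 1 * a).prod =
          s 1 ^ p.natDegree * (p.roots.map ((eval (s 0 / s 1)) ∘ fun a => X - C a)).prod := by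
        rw [← hcard, ← Multiset.prod_replicate, ← Multiset.map_const', ← Multiset.prod_map_mul]
        congr 1
        refine Multiset.map_congr rfl fun a _ => ?_
        simp only [Function.comp_apply, eval_sub, eval_X, eval_C]
        field_simp
      rw [h2]
      have h3 : s 1 ^ n = s 1 ^ p.natDegree * s 1 ^ (n - p.natDegree) := by
        rw [← pow_add]
        congr 1
        omega
      rw [h3]
      ring

/-- the linear polynomial of a vector -/
def lp (r : Fin 2 → L) : L[X] := C (r 1) * X - C (r 0)

/-- the class of a vector which is not zero -/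
def kap (r : Fin 2 → L) : Option L := if r 1 = 0 then none else some (r 0 / r 1)

theorem lp_ne {r : Fin 2 → L} (h : r ≠ 0) : lp r ≠ 0 := by
  intro h0
  apply h
  have h1 := congrArg (fun p => coeff p 1) h0
  have h2 := congrArg (fun p => coeff p 0) h0
  simp [lp] at h1 h2
  funext i
  fin_cases i
  · exact h2
  · exact h1

theorem lp_roots {r : Fin 2 → L} (t : L) :
    Multiset.count t (lp r).roots = if kap r = some t then 1 else 0 := by
  unfold kap lp
  by_cases h : r 1 = 0
  · rw [h, if_pos rfl]
    simp only [C_0, zero_mul, zero_sub, reduceCtorEq, if_false]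
    rw [roots_neg, roots_C]
    simp
  · rw [if_neg h]
    have h1 : C (r 1) * X - C (r 0) = C (r 1) * (X - C (r 0 / r 1)) := by
      rw [mul_sub, ← C_mul]
      congr 2
      field_simp
    rw [h1, roots_C_mul _ h, roots_X_sub_C, Multiset.count_singleton]
    simp only [Option.some.injEq]
    by_cases h2 : t = r 0 / r 1
    · rw [if_pos h2, if_pos h2.symm]
    · rw [if_neg h2, if_neg fun h3 => h2 h3.symm]

theorem lp_card {r : Fin 2 → L} :
    Multiset.card (lp r).roots = if kap r = none then 0 else 1 := by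
  unfold kap lp
  by_cases h : r 1 = 0
  · rw [h, if_pos rfl]
    simp only [C_0, zero_mul, zero_sub, if_true]
    rw [roots_neg, roots_C]
    simp
  · rw [if_neg h]
    have h1 : C (r 1) * X - C (r 0) = C (r 1) * (X - C (r 0 / r 1)) := by
      rw [mul_sub, ← C_mul]
      congr 2
      field_simp
    rw [h1, roots_C_mul _ h, roots_X_sub_C]
    simp

theorem kap_eq {r r' : Fin 2 → L} (hr : r ≠ 0) (hr' : r' ≠ 0) (h : kap r = kap r') :
    ∃ l : L, l ≠ 0 ∧ r' = l • r := by
  unfold kap at h
  by_cases h1 : r 1 = 0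
  · rw [if_pos h1] at h
    have h2 : r' 1 = 0 := by
      by_contra h2
      rw [if_neg h2] at h
      exact absurd h (by simp)
    have h3 : r 0 ≠ 0 := by
      intro h3
      apply hr
      funext i
      fin_cases i
      · exact h3
      · exact h1
    have h4 : r' 0 ≠ 0 := by
      intro h3
      apply hr'
      funext i
      fin_cases i
      · exact h3
      · exact h2
    refine ⟨r' 0 / r 0, div_ne_zero h4 h3, ?_⟩
    funext i
    fin_cases i
    · simp [h3]
    · simp [h1, h2]
  · rw [if_neg h1] at h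
    have h2 : r' 1 ≠ 0 := by
      intro h2
      rw [if_pos h2] at h
      exact absurd h (by simp)
    rw [if_neg h2] at h
    have h3 := Option.some.inj h
    refine ⟨r' 1 / r 1, div_ne_zero h2 h1, ?_⟩
    funext i
    fin_cases i
    · simp only [Fin.zero_eta, Pi.smul_apply, smul_eq_mul]
      rw [div_eq_div_iff h1 h2] at h3
      field_simp
      linear_combination -h3
    · simp [h1]

private theorem count_fn {ρ : Fin n → Fin 2 → L} (t : L) (hρ : ∀ i, ρ i ≠ 0) :
    Multiset.count t (∏ i, lp (ρ i)).roots =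
      Multiset.count (some t) (Finset.univ.val.map fun i => kap (ρ i)) := by
  rw [roots_prod _ _ (Finset.prod_ne_zero_iff.2 fun i _ => lp_ne (hρ i)), Multiset.count_bind,
    Multiset.count_map]
  have h1 : ∀ i, Multiset.count t ((fun i => (lp (ρ i)).roots) i) =
      if kap (ρ i) = some t then 1 else 0 := fun i => lp_roots t
  simp only [h1]
  change ∑ i, (if kap (ρ i) = some t then 1 else 0) = _
  rw [← Finset.filter_val, Finset.card_val, Finset.sum_ite, Finset.sum_const_zero, add_zero,
    Finset.sum_const, smul_eq_mul, mul_one]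
  congr 1
  ext i
  simp [eq_comm]

private theorem card_fn {ρ : Fin n → Fin 2 → L} (hρ : ∀ i, ρ i ≠ 0) :
    Multiset.card (∏ i, lp (ρ i)).roots +
      Multiset.count none (Finset.univ.val.map fun i => kap (ρ i)) = n := by
  rw [roots_prod _ _ (Finset.prod_ne_zero_iff.2 fun i _ => lp_ne (hρ i)), Multiset.card_bind,
    Multiset.count_map]
  have h1 : ∀ i, Multiset.card ((fun i => (lp (ρ i)).roots) i) =
      if kap (ρ i) = none then 0 else 1 := fun i => lp_card
  simp only [Function.comp_def]
  change ∑ i, Multiset.card ((fun i => (lp (ρ i)).roots) i) + _ = _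
  simp only [h1]
  rw [← Finset.filter_val, Finset.card_val, Finset.sum_ite, Finset.sum_const_zero, zero_add,
    Finset.sum_const, smul_eq_mul, mul_one]
  have h2 : Finset.filter (fun a => none = kap (ρ a)) Finset.univ =
      Finset.filter (fun a => kap (ρ a) = none) Finset.univ := by
    ext i
    simp [eq_comm]
  rw [h2, add_comm, Finset.card_filter_add_card_filter_not]
  simp

/-- functions with the same multiset of values -/
private theorem exists_perm {α : Type} (f g : Fin n → α)
    (h : Finset.univ.val.map f = Finset.univ.val.map g) : ∃ σ : Equiv.Perm (Fin n),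
      ∀ i, g (σ i) = f i := by
  have hc : ∀ a, Fintype.card {i // f i = a} = Fintype.card {i // g i = a} := by
    intro a
    have h1 := congrArg (Multiset.count a) h
    rw [Multiset.count_map, Multiset.count_map, ← Finset.filter_val, ← Finset.filter_val,
      Finset.card_val, Finset.card_val] at h1
    rw [Fintype.card_subtype, Fintype.card_subtype]
    convert h1 using 2 <;> · ext i; simp [eq_comm]
  choose e he using fun a => Fintype.card_eq.1 (hc a) |>.elim fun e => (⟨e, trivial⟩ :
    ∃ _ : {i // f i = a} ≃ {i // g i = a}, True)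
  refine ⟨((Equiv.sigmaFiberEquiv f).symm.trans (Equiv.sigmaCongrRight e)).trans
    (Equiv.sigmaFiberEquiv g), fun i => ?_⟩
  simp only [Equiv.trans_apply]
  exact (e (f i) ⟨i, rfl⟩).2

/-- the factors of a binary form are unique -/
theorem fac_unique [Infinite L] {c c' : L} {ρ ρ' : Fin n → Fin 2 → L} (hc : c ≠ 0) (hc' : c' ≠ 0)
    (hρ : ∀ i, ρ i ≠ 0) (hρ' : ∀ i, ρ' i ≠ 0)
    (h : ∀ s : Fin 2 → L, c * ∏ i, (s 0 * ρ i 1 - s 1 * ρ i 0) =
      c' * ∏ i, (s 0 * ρ' i 1 - s 1 * ρ' i 0)) :
    ∃ (σ : Equiv.Perm (Fin n)) (l : Fin n → L), ∀ i, l i ≠ 0 ∧ ρ' (σ i) = l i • ρ i := by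
  have h1 : C c * ∏ i, lp (ρ i) = C c' * ∏ i, lp (ρ' i) := by
    apply Polynomial.funext
    intro t
    have h2 := h ![t, 1]
    simp only [Matrix.cons_val_zero, Matrix.cons_val_one, Matrix.cons_val_fin_one, one_mul] at h2
    rw [eval_mul, eval_mul, eval_C, eval_C, eval_prod, eval_prod]
    simp only [lp, eval_sub, eval_mul, eval_C, eval_X]
    simp only [mul_comm (_ : L) t]
    exact h2
  have hr : (∏ i, lp (ρ i)).roots = (∏ i, lp (ρ' i)).roots := by
    have h2 := congrArg roots h1
    rwa [roots_C_mul _ hc, roots_C_mul _ hc'] at h2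
  obtain ⟨σ, hσ⟩ := exists_perm (fun i => kap (ρ i)) (fun i => kap (ρ' i)) (by
    ext o
    cases o with
    | none =>
      have h2 := card_fn hρ
      have h3 := card_fn hρ'
      rw [hr] at h2
      omega
    | some t => rw [← count_fn t hρ, ← count_fn t hρ', hr])
  choose l hl using fun i => kap_eq (hρ i) (hρ' (σ i)) (hσ i).symm
  exact ⟨σ, l, hl⟩

/-- a point which is no zero of a product of linear forms -/
theorem exists_avoid [Infinite L] {ρ : Fin n → Fin 2 → L} (hρ : ∀ i, ρ i ≠ 0) :
    ∃ s : Fin 2 → L, ∏ i, (s 0 * ρ i 1 - s 1 * ρ i 0) ≠ 0 := by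
  have h1 : (∏ i, lp (ρ i)) ≠ 0 := Finset.prod_ne_zero_iff.2 fun i _ => lp_ne (hρ i)
  obtain ⟨t, ht⟩ : ∃ t, (∏ i, lp (ρ i)).eval t ≠ 0 := by
    by_contra hcon
    push Not at hcon
    exact h1 (Polynomial.funext fun t => by rw [hcon t]; simp)
  refine ⟨![t, 1], ?_⟩
  rw [eval_prod] at ht
  have h2 : ∀ i, (![t, 1] : Fin 2 → L) 0 * ρ i 1 - (![t, 1] : Fin 2 → L) 1 * ρ i 0 =
      (lp (ρ i)).eval t := by
    intro i
    simp only [lp, Matrix.cons_val_zero, Matrix.cons_val_one, Matrix.cons_val_fin_one, one_mul,
      eval_sub, eval_mul, eval_C, eval_X]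
    ring
  simp only [h2]
  exact ht

end Pool.Agent.CUB.FLN
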