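import Pool.Agent.ZIso.SFT

/-!
# Permutations of blocks (package Blk)

`r` positions are divided into `N` blocks, the positions in a block are indexed by `B`. The
alternating sum over the permutations of the blocks kills the tensors in `D` dimensions if
`D ^ |B| < N`.

PROOF of `kills_blk`. For words `w`, `w'` exchange the sums: the sum over the `σ` with `w ∘ σ = w'` of
`∑ τ, [blk e τ = σ] sign τ` is the sum of `sign τ` over the `τ` with `w ∘ blk e τ = w'`. There are
`D ^ |B| < N` words of the length `|B|`, so there are `i ≠ j` with `w (e.symm (i, b)) = w (e.symm (j, b))`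
for all `b` (`Fintype.exists_ne_map_eq_of_card_lt`). Then `w ∘ blk e (swap i j) = w`, and
`τ ↦ swap i j * τ` is a sign reversing involution of the set of these `τ`, as
`blk e (swap i j * τ) = blk e (swap i j) * blk e τ` (`Finset.sum_involution`).
PROOF of `sum_blk`: exchange the sums.
-/

set_option autoImplicit false

open Finset

namespace Pool.Agent.CUB.FLN

variable {r N : ℕ} {B : Type}

/-- the permutation of the positions given by a permutation of the blocks -/
def blk (e : Fin r ≃ Fin N × B) (τ : Equiv.Perm (Fin N)) : Equiv.Perm (Fin r) :=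
  (e.trans (Equiv.prodCongr τ (Equiv.refl B))).trans e.symm

theorem blk_apply (e : Fin r ≃ Fin N × B) (τ : Equiv.Perm (Fin N)) (i : Fin N) (b : B) :
    blk e τ (e.symm (i, b)) = e.symm (τ i, b) := by
  simp [blk]

private theorem blk_mul (e : Fin r ≃ Fin N × B) (σ τ : Equiv.Perm (Fin N)) :
    blk e (σ * τ) = blk e σ * blk e τ := by
  ext x
  obtain ⟨⟨i, b⟩, rfl⟩ := e.symm.surjective x
  rw [Equiv.Perm.mul_apply, blk_apply, blk_apply, blk_apply, Equiv.Perm.mul_apply]

open Classical in
theorem kills_blk {D : ℕ} [Fintype B] (e : Fin r ≃ Fin N × B) (h : D ^ Fintype.card B < N) :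
    ZIso.KillsTensors D fun σ : Equiv.Perm (Fin r) =>
      ∑ τ : Equiv.Perm (Fin N), if blk e τ = σ then ((Equiv.Perm.sign τ : ℤ) : ℚ) else 0 := by
  intro w w'
  rw [sum_comm]
  have h1 : ∀ τ : Equiv.Perm (Fin N),
      ∑ σ ∈ univ.filter (fun σ : Equiv.Perm (Fin r) => w ∘ ⇑σ = w'),
        (if blk e τ = σ then ((Equiv.Perm.sign τ : ℤ) : ℚ) else 0) =
      if w ∘ ⇑(blk e τ) = w' then ((Equiv.Perm.sign τ : ℤ) : ℚ) else 0 := by
    intro τ
    rw [Finset.sum_ite_eq]
    simp only [mem_filter, mem_univ, true_and]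
  rw [sum_congr rfl fun τ _ => h1 τ, ← sum_filter]
  obtain ⟨i, j, hij, hw⟩ := Fintype.exists_ne_map_eq_of_card_lt
    (fun (i : Fin N) (b : B) => w (e.symm (i, b))) (by simpa using h)
  have hswap : w ∘ ⇑(blk e (Equiv.swap i j)) = w := by
    funext x
    obtain ⟨⟨k, b⟩, rfl⟩ := e.symm.surjective x
    rw [Function.comp_apply, blk_apply]
    have hb : w (e.symm (i, b)) = w (e.symm (j, b)) := congrFun hw b
    rcases eq_or_ne k i with rfl | hki
    · rw [Equiv.swap_apply_left]
      exact hb.symm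
    rcases eq_or_ne k j with rfl | hkj
    · rw [Equiv.swap_apply_right]
      exact hb
    · rw [Equiv.swap_apply_of_ne_of_ne hki hkj]
  refine Finset.sum_involution (fun τ _ => Equiv.swap i j * τ) ?_ ?_ ?_ ?_
  · intro τ _
    rw [map_mul, Equiv.Perm.sign_swap hij]
    push_cast
    ring
  · intro τ _ _ hτ
    have h2 : Equiv.swap i j = 1 := mul_eq_right.1 hτ
    exact hij (Equiv.swap_eq_refl_iff.1 h2)
  · intro τ hτ
    rw [mem_filter] at hτ ⊢
    refine ⟨mem_univ _, ?_⟩
    rw [blk_mul, Equiv.Perm.coe_mul, ← Function.comp_assoc, hswap]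
    exact hτ.2
  · intro τ _
    rw [← mul_assoc, Equiv.swap_mul_self, one_mul]

open Classical in
theorem sum_blk {T : Type} [AddCommGroup T] [Module ℚ T] (e : Fin r ≃ Fin N × B)
    (f : Equiv.Perm (Fin r) → T) :
    ∑ σ : Equiv.Perm (Fin r), (∑ τ : Equiv.Perm (Fin N),
      if blk e τ = σ then ((Equiv.Perm.sign τ : ℤ) : ℚ) else 0) • f σ =
    ∑ τ : Equiv.Perm (Fin N), ((Equiv.Perm.sign τ : ℤ) : ℚ) • f (blk e τ) := by
  simp only [sum_smul]
  rw [sum_comm]
  refine sum_congr rfl fun τ _ => ?_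
  simp only [ite_smul, zero_smul]
  rw [Finset.sum_ite_eq]
  simp only [mem_univ, if_true]

end Pool.Agent.CUB.FLN
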