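import Mathlib

/-!
# The correspondence of type (2, 1), (1, 2) on the product of two projective lines

`t 0 * a 0 (s) + t 1 * a 1 (s) = 0` and `s 0 * b 0 (t) + s 1 * b 1 (t) = 0`, where `a j`, `b i` are
binary quadratic forms: elimination of `t` and elimination of `s` give quintic forms with the same
zeros (with multiplicities).
-/

set_option autoImplicit false

noncomputable section

namespace Pool.Agent.CUB.FLN

variable {K : Type} [Field K]

/-- the binary quadratic form with the coefficients `x`, `y`, `z` -/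
def qf (x y z : K) (s : Fin 2 → K) : K := x * s 0 ^ 2 + y * (s 0 * s 1) + z * s 1 ^ 2

/-- the resultant of two binary quadratic forms -/
def res2 (x y z x' y' z' : K) : K :=
  (x * z' - x' * z) ^ 2 - (x * y' - x' * y) * (y * z' - y' * z)

theorem qf_mul (x y z P Y Z : K) (α β : Fin 2 → K) (hP : P = α 1 * β 1)
    (hY : Y = -(α 1 * β 0 + α 0 * β 1)) (hZ : Z = α 0 * β 0) :
    qf x y z α * qf x y z β = res2 P Y Z x y z := by
  unfold qf res2
  rw [hP, hY, hZ]
  ring

/-- factorisation of a binary quadratic form -/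
theorem qf_fac [IsAlgClosed K] [CharZero K] (x y z : K) : ∃ α β : Fin 2 → K, x = α 1 * β 1 ∧
    y = -(α 1 * β 0 + α 0 * β 1) ∧ z = α 0 * β 0 := by
  by_cases hx : x = 0
  · refine ⟨![z, -y], ![1, 0], ?_, ?_, ?_⟩
    · simp [hx]
    · simp
    · simp
  · obtain ⟨d, hd⟩ := IsAlgClosed.exists_pow_nat_eq (y ^ 2 - 4 * x * z) (n := 2) (by norm_num)
    refine ⟨![(-y + d) / 2, x], ![(-y - d) / (2 * x), 1], ?_, ?_, ?_⟩
    · simp
    · simp only [Matrix.cons_val_zero, Matrix.cons_val_one, Matrix.cons_val_fin_one]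
      field_simp
      ring
    · simp only [Matrix.cons_val_zero]
      field_simp
      linear_combination hd

theorem qf_eq {x y z : K} {α β : Fin 2 → K} (hx : x = α 1 * β 1)
    (hy : y = -(α 1 * β 0 + α 0 * β 1)) (hz : z = α 0 * β 0) (s : Fin 2 → K) :
    qf x y z s = (s 0 * α 1 - s 1 * α 0) * (s 0 * β 1 - s 1 * β 0) := by
  unfold qf
  rw [hx, hy, hz]
  ring

theorem qf_smul (x y z c : K) (s : Fin 2 → K) : qf x y z (c • s) = c ^ 2 * qf x y z s := by
  unfold qf
  simp only [Pi.smul_apply, smul_eq_mul]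
  ring

/-- the resultant of two forms without common zero is not zero -/
theorem res2_ne [IsAlgClosed K] [CharZero K] {x y z x' y' z' : K}
    (h : ∀ s : Fin 2 → K, qf x y z s = 0 → qf x' y' z' s = 0 → s = 0) :
    res2 x y z x' y' z' ≠ 0 := by
  obtain ⟨α, β, h1, h2, h3⟩ := qf_fac x y z
  by_cases h0 : α = 0 ∨ β = 0
  · -- the first form is zero
    have hz : ∀ s : Fin 2 → K, qf x y z s = 0 := by
      intro s
      rw [qf_eq h1 h2 h3]
      rcases h0 with h0 | h0 <;> rw [h0] <;> simp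
    obtain ⟨α', β', h1', h2', h3'⟩ := qf_fac x' y' z'
    exfalso
    have hα : α' = 0 := h α' (hz _) (by rw [qf_eq h1' h2' h3']; ring)
    have : ∀ s : Fin 2 → K, s = 0 := fun s => h s (hz s) (by rw [qf_eq h1' h2' h3', hα]; simp)
    have h5 := congrFun (this ![1, 0]) 0
    simp at h5
  · push Not at h0
    rw [← qf_mul x' y' z' x y z α β h1 h2 h3]
    refine mul_ne_zero (fun h4 => h0.1 (h α ?_ h4)) fun h4 => h0.2 (h β ?_ h4)
    · rw [qf_eq h1 h2 h3]
      ring
    · rw [qf_eq h1 h2 h3]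
      ring

/-- The main identity: `Q s` is the quintic form obtained by elimination of `t`, the right side is
the quintic form obtained by elimination of `s`. -/
theorem quintic_symm [IsAlgClosed K] [CharZero K] (x y z p q r : Fin 2 → K)
    {n : ℕ} (hn : n ≠ 0) {c : K} {ρ : Fin n → Fin 2 → K}
    (hQ : ∀ s : Fin 2 → K, ∑ i, s i * qf (p i) (q i) (r i)
      ![-qf (x 1) (y 1) (z 1) s, qf (x 0) (y 0) (z 0) s] = c * ∏ i, (s 0 * ρ i 1 - s 1 * ρ i 0))
    (t : Fin 2 → K) :
    res2 (x 0) (y 0) (z 0) (x 1) (y 1) (z 1) ^ 2 * ∑ j, t j * qf (x j) (y j) (z j)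
      ![-qf (p 1) (q 1) (r 1) t, qf (p 0) (q 0) (r 0) t] =
    c ^ 2 * ∏ i, (t 0 * qf (x 0) (y 0) (z 0) (ρ i) + t 1 * qf (x 1) (y 1) (z 1) (ρ i)) := by
  by_cases ht : t = 0
  · subst ht
    have : ∏ i : Fin n, ((0 : Fin 2 → K) 0 * qf (x 0) (y 0) (z 0) (ρ i) +
        (0 : Fin 2 → K) 1 * qf (x 1) (y 1) (z 1) (ρ i)) = 0 :=
      Finset.prod_eq_zero (Finset.mem_univ ⟨0, Nat.pos_of_ne_zero hn⟩) (by simp)
    rw [this]
    simp
  obtain ⟨α, β, h1, h2, h3⟩ := qf_fac (t 0 * x 0 + t 1 * x 1) (t 0 * y 0 + t 1 * y 1)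
    (t 0 * z 0 + t 1 * z 1)
  have hA : ∀ s : Fin 2 → K, t 0 * qf (x 0) (y 0) (z 0) s + t 1 * qf (x 1) (y 1) (z 1) s =
      (s 0 * α 1 - s 1 * α 0) * (s 0 * β 1 - s 1 * β 0) := by
    intro s
    rw [← qf_eq h1 h2 h3]
    unfold qf
    ring
  -- the values at `α` and `β`
  have hα := hQ α
  have hβ := hQ β
  have hprod : (c * ∏ i, (α 0 * ρ i 1 - α 1 * ρ i 0)) * (c * ∏ i, (β 0 * ρ i 1 - β 1 * ρ i 0)) =
      c ^ 2 * ∏ i, (t 0 * qf (x 0) (y 0) (z 0) (ρ i) + t 1 * qf (x 1) (y 1) (z 1) (ρ i)) := by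
    have : ∏ i, (t 0 * qf (x 0) (y 0) (z 0) (ρ i) + t 1 * qf (x 1) (y 1) (z 1) (ρ i)) =
        (∏ i, (α 0 * ρ i 1 - α 1 * ρ i 0)) * ∏ i, (β 0 * ρ i 1 - β 1 * ρ i 0) := by
      rw [← Finset.prod_mul_distrib]
      refine Finset.prod_congr rfl fun i _ => ?_
      rw [hA]
      ring
    rw [this]
    ring
  rw [← hprod, ← hα, ← hβ]
  -- the proportionality factors
  obtain ⟨l, m, hl, hm, hlm⟩ : ∃ l m : K,
      (![-qf (x 1) (y 1) (z 1) α, qf (x 0) (y 0) (z 0) α] : Fin 2 → K) = l • t ∧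
      (![-qf (x 1) (y 1) (z 1) β, qf (x 0) (y 0) (z 0) β] : Fin 2 → K) = m • t ∧
      l * m = res2 (x 0) (y 0) (z 0) (x 1) (y 1) (z 1) := by
    have ea := hA α
    have eb := hA β
    have e0 := qf_mul (x 0) (y 0) (z 0) _ _ _ α β h1 h2 h3
    have e1 := qf_mul (x 1) (y 1) (z 1) _ _ _ α β h1 h2 h3
    have ea' : t 0 * qf (x 0) (y 0) (z 0) α + t 1 * qf (x 1) (y 1) (z 1) α = 0 := by
      rw [ea]; ring
    have eb' : t 0 * qf (x 0) (y 0) (z 0) β + t 1 * qf (x 1) (y 1) (z 1) β = 0 := by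
      rw [eb]; ring
    by_cases h0 : t 0 = 0
    · have h10 : t 1 ≠ 0 := by
        intro h
        apply ht
        funext i
        fin_cases i
        · exact h0
        · exact h
      refine ⟨qf (x 0) (y 0) (z 0) α / t 1, qf (x 0) (y 0) (z 0) β / t 1, ?_, ?_, ?_⟩
      · funext i
        fin_cases i
        · simp only [Fin.zero_eta, Matrix.cons_val_zero, Pi.smul_apply, smul_eq_mul, h0, mul_zero]
          rw [h0, zero_mul, zero_add] at ea'
          rcases mul_eq_zero.1 ea' with h | h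
          · exact absurd h h10
          · rw [h, neg_zero]
        · simp only [Fin.mk_one, Matrix.cons_val_one, Matrix.cons_val_fin_one, Pi.smul_apply,
            smul_eq_mul]
          field_simp
      · funext i
        fin_cases i
        · simp only [Fin.zero_eta, Matrix.cons_val_zero, Pi.smul_apply, smul_eq_mul, h0, mul_zero]
          rw [h0, zero_mul, zero_add] at eb'
          rcases mul_eq_zero.1 eb' with h | h
          · exact absurd h h10
          · rw [h, neg_zero]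
        · simp only [Fin.mk_one, Matrix.cons_val_one, Matrix.cons_val_fin_one, Pi.smul_apply,
            smul_eq_mul]
          field_simp
      · rw [div_mul_div_comm, e0]
        unfold res2
        field_simp
        rw [h0]
        ring
    · refine ⟨-qf (x 1) (y 1) (z 1) α / t 0, -qf (x 1) (y 1) (z 1) β / t 0, ?_, ?_, ?_⟩
      · funext i
        fin_cases i
        · simp only [Fin.zero_eta, Matrix.cons_val_zero, Pi.smul_apply, smul_eq_mul]
          field_simp
        · simp only [Fin.mk_one, Matrix.cons_val_one, Matrix.cons_val_fin_one, Pi.smul_apply,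
            smul_eq_mul]
          field_simp
          linear_combination ea'
      · funext i
        fin_cases i
        · simp only [Fin.zero_eta, Matrix.cons_val_zero, Pi.smul_apply, smul_eq_mul]
          field_simp
        · simp only [Fin.mk_one, Matrix.cons_val_one, Matrix.cons_val_fin_one, Pi.smul_apply,
            smul_eq_mul]
          field_simp
          linear_combination eb'
      · rw [div_mul_div_comm, neg_mul_neg, e1]
        unfold res2
        field_simp
        ring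
  rw [hl, hm]
  simp only [qf_smul, Fin.sum_univ_two]
  rw [← hlm]
  -- the identity for the linear forms
  unfold qf
  simp only [Matrix.cons_val_zero, Matrix.cons_val_one]
  have g0 : t 0 * x 0 = α 1 * β 1 - t 1 * x 1 := by rw [← h1]; ring
  linear_combination (l ^ 2 * m ^ 2) * (
    (p 1 * t 0 ^ 2 + q 1 * (t 0 * t 1) + r 1 * t 1 ^ 2) ^ 2 * h1 -
    (p 1 * t 0 ^ 2 + q 1 * (t 0 * t 1) + r 1 * t 1 ^ 2) *
      (p 0 * t 0 ^ 2 + q 0 * (t 0 * t 1) + r 0 * t 1 ^ 2) * h2 +
    (p 0 * t 0 ^ 2 + q 0 * (t 0 * t 1) + r 0 * t 1 ^ 2) ^ 2 * h3)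

end Pool.Agent.CUB.FLN
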