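import Pool.Agent.FLN.Phi
import Pool.Agent.FLN.SymA

/-!
# A polynomial certificate for good pairs

`vc F u w s` is the product of the resultant of the two binary quadratic forms
`z ↦ tri z z (w j)`, `z = cmb u (.)`, and of the value of the quintic form at the point with the constant
coordinates `s`. It is a polynomial in the coordinates of `u`, `w`.

The resultant of `A s0² + B s0 s1 + C s1²` and `A' s0² + B' s0 s1 + C' s1²` is
`(A C' - A' C)² - (A B' - A' B) (B C' - B' C)`; over an algebraically closed field it is zero iff the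
forms have a common zero `≠ 0`. If it is not zero then `u` is independent (a vector `s ≠ 0` with
`cmb u s = 0` would be a common zero), and `w` is independent (otherwise the two forms are proportional,
a form has a zero). If `dd F w z ≠ 0`, `z = cmb u s`, then for `w' ∈ y.W`, `w' ≠ 0`,
`tri z z w' = 0` implies that `w'` is proportional to `ys F w z` (`tri z z` is not zero on `y`), so
`tri z w' w' ≠ 0`. `k` is infinite: a binary form over `L` which is not zero has a value `≠ 0` at a
point with coordinates in `k`.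
-/

set_option autoImplicit false

noncomputable section

namespace Pool.Agent.CUB.FLN

open Pool.Agent.ZCyc Pool.Agent.Dess Pool.Agent.GT
open Pool.Agent.VFP (Om tt)
open scoped Classical

variable {k : Type} [Field k] {F : MvPolynomial (Fin 6) k} {L : Type} [Field L] [Algebra k L]

/-- the resultant of two binary quadratic forms -/
def rq (a b : Fin 3 → L) : L :=
  (a 0 * b 2 - b 0 * a 2) ^ 2 - (a 0 * b 1 - b 0 * a 1) * (a 1 * b 2 - b 1 * a 2)

/-- the coefficients of the quadratic form `s ↦ tri (cmb u s) (cmb u s) y` -/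
def qv (F : MvPolynomial (Fin 6) k) (u : Fin 2 → Fin 6 → L) (y : Fin 6 → L) : Fin 3 → L :=
  ![tri F (u 0) (u 0) y, 2 * tri F (u 0) (u 1) y, tri F (u 1) (u 1) y]

/-- the certificate -/
def vc (F : MvPolynomial (Fin 6) k) (u w : Fin 2 → Fin 6 → L) (s : Fin 2 → k) : L :=
  rq (qv F u (w 0)) (qv F u (w 1)) * dd F w (cmb u (em L s))

/-! ### the same over a commutative ring -/

private def trg (F : MvPolynomial (Fin 6) k) {R : Type} [CommRing R] [Algebra k R]
    (x y z : Fin 6 → R) : R :=
  ∑ i, ∑ j, ∑ l, algebraMap k R (cf F i j l) * x i * y j * z l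

private theorem trg_map {R : Type} [CommRing R] [Algebra k R] {M : Type} [Field M] [Algebra k M]
    (φ : R →ₐ[k] M) (x y z : Fin 6 → R) : φ (trg F x y z) =
      tri F (fun i => φ (x i)) (fun i => φ (y i)) fun i => φ (z i) := by
  unfold trg tri
  simp only [map_sum, map_mul, AlgHom.commutes]

private def ddg (F : MvPolynomial (Fin 6) k) {R : Type} [CommRing R] [Algebra k R]
    (w : Fin 2 → Fin 6 → R) (z : Fin 6 → R) : R :=
  trg F z (fun i => trg F z z (w 0) * w 1 i - trg F z z (w 1) * w 0 i)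
    fun i => trg F z z (w 0) * w 1 i - trg F z z (w 1) * w 0 i

private theorem ddg_map {R : Type} [CommRing R] [Algebra k R] {M : Type} [Field M] [Algebra k M]
    (φ : R →ₐ[k] M) (w : Fin 2 → Fin 6 → R) (z : Fin 6 → R) : φ (ddg F w z) =
      dd F (fun j i => φ (w j i)) fun i => φ (z i) := by
  unfold ddg dd
  rw [trg_map]
  have h : (fun i => φ (trg F z z (w 0) * w 1 i - trg F z z (w 1) * w 0 i)) =
      ys F (fun j i => φ (w j i)) fun i => φ (z i) := by
    funext i
    unfold ys
    simp only [map_sub, map_mul, trg_map, Pi.sub_apply, Pi.smul_apply, smul_eq_mul]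
  rw [h]

private def rqg {R : Type} [CommRing R] (a0 a1 a2 b0 b1 b2 : R) : R :=
  (a0 * b2 - b0 * a2) ^ 2 - (a0 * b1 - b0 * a1) * (a1 * b2 - b1 * a2)

private def vcg (F : MvPolynomial (Fin 6) k) {R : Type} [CommRing R] [Algebra k R]
    (u w : Fin 2 → Fin 6 → R) (s : Fin 2 → k) : R :=
  rqg (trg F (u 0) (u 0) (w 0)) (2 * trg F (u 0) (u 1) (w 0)) (trg F (u 1) (u 1) (w 0))
    (trg F (u 0) (u 0) (w 1)) (2 * trg F (u 0) (u 1) (w 1)) (trg F (u 1) (u 1) (w 1)) *
    ddg F w fun i => algebraMap k R (s 0) * u 0 i + algebraMap k R (s 1) * u 1 i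

private theorem vcg_map {R : Type} [CommRing R] [Algebra k R] {M : Type} [Field M] [Algebra k M]
    (φ : R →ₐ[k] M) (u w : Fin 2 → Fin 6 → R) (s : Fin 2 → k) : φ (vcg F u w s) =
      vc F (fun j i => φ (u j i)) (fun j i => φ (w j i)) s := by
  unfold vcg vc
  rw [map_mul, ddg_map]
  have h : (fun i => φ (algebraMap k R (s 0) * u 0 i + algebraMap k R (s 1) * u 1 i)) =
      cmb (fun j i => φ (u j i)) (em M s) := by
    funext i
    unfold cmb em
    simp only [map_add, map_mul, AlgHom.commutes, Pi.add_apply, Pi.smul_apply, smul_eq_mul]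
  rw [h]
  congr 1
  unfold rqg rq qv
  simp only [map_sub, map_mul, map_pow, trg_map, map_ofNat, Matrix.cons_val_zero,
    Matrix.cons_val_one, Matrix.cons_val]

private theorem vc_eq (u w : Fin 2 → Fin 6 → L) (s : Fin 2 → k) :
    vc F u w s = vcg F u w s :=
  (vcg_map (AlgHom.id k L) u w s).symm

/-! ### elementary facts -/

private theorem tri_cmb (u : Fin 2 → Fin 6 → L) (s : Fin 2 → L) (y : Fin 6 → L) :
    tri F (cmb u s) (cmb u s) y =
      qv F u y 0 * s 0 ^ 2 + qv F u y 1 * (s 0 * s 1) + qv F u y 2 * s 1 ^ 2 := by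
  unfold cmb qv
  simp only [tri_add1, tri_add2, tri_smul1, tri_smul2, Matrix.cons_val_zero,
    Matrix.cons_val_one, Matrix.cons_val]
  rw [tri_swap12 F (u 1) (u 0) y]
  ring

/-- forms with a resultant which is not zero have no common zero -/
private theorem no_zero {a b : Fin 3 → L} (h : rq a b ≠ 0) {s : Fin 2 → L}
    (ha : a 0 * s 0 ^ 2 + a 1 * (s 0 * s 1) + a 2 * s 1 ^ 2 = 0)
    (hb : b 0 * s 0 ^ 2 + b 1 * (s 0 * s 1) + b 2 * s 1 ^ 2 = 0) : s = 0 := by
  unfold rq at h
  by_cases h0 : s 0 = 0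
  · by_cases h1 : s 1 = 0
    · funext i
      fin_cases i
      · exact h0
      · exact h1
    · exfalso
      rw [h0] at ha hb
      have ha2 : a 2 = 0 := by
        have : a 2 * s 1 ^ 2 = 0 := by linear_combination ha
        exact (mul_eq_zero.1 this).resolve_right (pow_ne_zero 2 h1)
      have hb2 : b 2 = 0 := by
        have : b 2 * s 1 ^ 2 = 0 := by linear_combination hb
        exact (mul_eq_zero.1 this).resolve_right (pow_ne_zero 2 h1)
      apply h
      rw [ha2, hb2]
      ring
  · exfalso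
    by_cases h1 : s 1 = 0
    · rw [h1] at ha hb
      have ha0 : a 0 = 0 := by
        have : a 0 * s 0 ^ 2 = 0 := by linear_combination ha
        exact (mul_eq_zero.1 this).resolve_right (pow_ne_zero 2 h0)
      have hb0 : b 0 = 0 := by
        have : b 0 * s 0 ^ 2 = 0 := by linear_combination hb
        exact (mul_eq_zero.1 this).resolve_right (pow_ne_zero 2 h0)
      apply h
      rw [ha0, hb0]
      ring
    · have e1 : (a 0 * b 1 - b 0 * a 1) * s 0 + (a 0 * b 2 - b 0 * a 2) * s 1 = 0 := by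
        have : s 1 * ((a 0 * b 1 - b 0 * a 1) * s 0 + (a 0 * b 2 - b 0 * a 2) * s 1) = 0 := by
          linear_combination a 0 * hb - b 0 * ha
        exact (mul_eq_zero.1 this).resolve_left h1
      have e2 : (a 0 * b 2 - b 0 * a 2) * s 0 + (a 1 * b 2 - b 1 * a 2) * s 1 = 0 := by
        have : s 0 * ((a 0 * b 2 - b 0 * a 2) * s 0 + (a 1 * b 2 - b 1 * a 2) * s 1) = 0 := by
          linear_combination b 2 * ha - a 2 * hb
        exact (mul_eq_zero.1 this).resolve_left h0
      have e3 : ((a 0 * b 2 - b 0 * a 2) ^ 2 - (a 0 * b 1 - b 0 * a 1) *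
          (a 1 * b 2 - b 1 * a 2)) * s 1 = 0 := by
        linear_combination (a 0 * b 2 - b 0 * a 2) * e1 - (a 0 * b 1 - b 0 * a 1) * e2
      exact h ((mul_eq_zero.1 e3).resolve_right h1)

private theorem bas_mem {x : Ln F L} {u : Fin 2 → Fin 6 → L} (hu : Bas x u) (s : Fin 2 → L) :
    cmb u s ∈ x.W := by
  rw [hu.2]
  exact Submodule.mem_span_pair.2 ⟨s 0, s 1, rfl⟩

private theorem bas_ex {x : Ln F L} {u : Fin 2 → Fin 6 → L} (hu : Bas x u) {z : Fin 6 → L}
    (hz : z ∈ x.W) : ∃ s : Fin 2 → L, z = cmb u s := by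
  rw [hu.2] at hz
  obtain ⟨a, b, rfl⟩ := Submodule.mem_span_pair.1 hz
  exact ⟨![a, b], rfl⟩

private theorem bas_ne {x : Ln F L} {u : Fin 2 → Fin 6 → L} (hu : Bas x u) {s : Fin 2 → L}
    (hs : cmb u s = 0) : s = 0 := by
  have h := LinearIndependent.pair_iff.1 hu.1 (s 0) (s 1) hs
  funext i
  fin_cases i
  · exact h.1
  · exact h.2

variable [CharZero k]

theorem li_of_vc [IsAlgClosed L] {u w : Fin 2 → Fin 6 → L} {s : Fin 2 → k}
    (h : vc F u w s ≠ 0) : LinearIndependent L ![u 0, u 1] ∧ LinearIndependent L ![w 0, w 1] := by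
  have h1 : rq (qv F u (w 0)) (qv F u (w 1)) ≠ 0 := left_ne_zero_of_mul h
  constructor
  · rw [LinearIndependent.pair_iff]
    intro a b hab
    have h2 : cmb u ![a, b] = 0 := hab
    have h3 : ∀ y, qv F u y 0 * (![a, b] : Fin 2 → L) 0 ^ 2 +
        qv F u y 1 * ((![a, b] : Fin 2 → L) 0 * (![a, b] : Fin 2 → L) 1) +
        qv F u y 2 * (![a, b] : Fin 2 → L) 1 ^ 2 = 0 := by
      intro y
      rw [← tri_cmb, h2, tri_zero1]
    have h4 := no_zero h1 (h3 (w 0)) (h3 (w 1))
    exact ⟨congrFun h4 0, congrFun h4 1⟩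
  · rw [LinearIndependent.pair_iff]
    intro a b hab
    have h2 : ∀ p q, a * tri F p q (w 0) + b * tri F p q (w 1) = 0 := by
      intro p q
      rw [← tri_smul3, ← tri_smul3, ← tri_add3, hab, tri_zero3]
    have h3 : ∀ i, a * qv F u (w 0) i + b * qv F u (w 1) i = 0 := by
      intro i
      fin_cases i
      · exact h2 (u 0) (u 0)
      · change a * (2 * tri F (u 0) (u 1) (w 0)) + b * (2 * tri F (u 0) (u 1) (w 1)) = 0
        linear_combination 2 * h2 (u 0) (u 1)
      · exact h2 (u 1) (u 1)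
    by_contra hcon
    apply h1
    unfold rq
    have key : ∀ i j, qv F u (w 0) i * qv F u (w 1) j - qv F u (w 1) i * qv F u (w 0) j = 0 := by
      intro i j
      by_cases ha : a = 0
      · have hb : b ≠ 0 := fun hb => hcon ⟨ha, hb⟩
        have : b * (qv F u (w 0) i * qv F u (w 1) j - qv F u (w 1) i * qv F u (w 0) j) = 0 := by
          linear_combination qv F u (w 0) i * h3 j - qv F u (w 0) j * h3 i
        exact (mul_eq_zero.1 this).resolve_left hb
      · have : a * (qv F u (w 0) i * qv F u (w 1) j - qv F u (w 1) i * qv F u (w 0) j) = 0 := by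
          linear_combination qv F u (w 1) j * h3 i - qv F u (w 1) i * h3 j
        exact (mul_eq_zero.1 this).resolve_left ha
    rw [key 0 2, key 0 1]
    ring

theorem vg_of_vc [IsAlgClosed L] (hF : Smooth F) {x y : Ln F L} {u w : Fin 2 → Fin 6 → L}
    (hu : Bas x u) (hw : Bas y w) {s : Fin 2 → k} (h : vc F u w s ≠ 0) : Vg x y := by
  have h1 : rq (qv F u (w 0)) (qv F u (w 1)) ≠ 0 := left_ne_zero_of_mul h
  have h2 : dd F w (cmb u (em L s)) ≠ 0 := right_ne_zero_of_mul h
  have hw0 : w 0 ∈ y.W := by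
    rw [hw.2]
    exact Submodule.subset_span (by simp)
  have hw1 : w 1 ∈ y.W := by
    rw [hw.2]
    exact Submodule.subset_span (by simp)
  refine ⟨?_, cmb u (em L s), bas_mem hu _, ?_⟩
  · intro z hz hz0
    obtain ⟨t, rfl⟩ := bas_ex hu hz
    by_contra hcon
    push Not at hcon
    have e0 := hcon _ hw0
    have e1 := hcon _ hw1
    rw [tri_cmb] at e0 e1
    apply hz0
    rw [no_zero h1 e0 e1]
    unfold cmb
    simp
  · intro w' hw' hw'0 hz
    set z := cmb u (em L s) with hzd
    obtain ⟨a, rfl⟩ := bas_ex hw hw'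
    have e : a 0 * tri F z z (w 0) + a 1 * tri F z z (w 1) = 0 := by
      rw [← hz]
      unfold cmb
      rw [tri_add3, tri_smul3, tri_smul3]
    -- proportional
    obtain ⟨c, hc⟩ : ∃ c : L, cmb w a = c • ys F w z := by
      by_cases h0 : tri F z z (w 0) = 0
      · by_cases h3 : tri F z z (w 1) = 0
        · exfalso
          apply h2
          unfold dd ys
          rw [h0, h3, zero_smul, zero_smul, sub_zero, tri_zero3]
        · refine ⟨-(a 0) / tri F z z (w 1), ?_⟩
          have ha1 : a 1 = 0 := by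
            rw [h0, mul_zero, zero_add] at e
            exact (mul_eq_zero.1 e).resolve_right h3
          funext i
          unfold cmb ys
          simp only [Pi.add_apply, Pi.smul_apply, smul_eq_mul, Pi.sub_apply, ha1, h0]
          field_simp
          ring
      · refine ⟨a 1 / tri F z z (w 0), ?_⟩
        funext i
        unfold cmb ys
        simp only [Pi.add_apply, Pi.smul_apply, smul_eq_mul, Pi.sub_apply]
        field_simp
        linear_combination w 0 i * e
    have hc0 : c ≠ 0 := by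
      rintro rfl
      rw [zero_smul] at hc
      exact hw'0 hc
    rw [hc, tri_smul2, tri_smul3]
    exact mul_ne_zero hc0 (mul_ne_zero hc0 h2)

theorem exists_vc [IsAlgClosed L] (hF : Smooth F) {x y : Ln F L} {u w : Fin 2 → Fin 6 → L}
    (hu : Bas x u) (hw : Bas y w) (h : Vg x y) : ∃ s : Fin 2 → k, vc F u w s ≠ 0 := by
  have hL : CharZero L := charZero_of_injective_algebraMap (algebraMap k L).injective
  have hspan : ∀ z, tri F z z (w 0) = 0 → tri F z z (w 1) = 0 → ∀ w' ∈ y.W,
      tri F z z w' = 0 := by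
    intro z h0 h1 w' hw'
    obtain ⟨a, rfl⟩ := bas_ex hw hw'
    unfold cmb
    rw [tri_add3, tri_smul3, tri_smul3, h0, h1]
    ring
  have h1 : rq (qv F u (w 0)) (qv F u (w 1)) ≠ 0 := by
    refine res2_ne (x := qv F u (w 0) 0) (y := qv F u (w 0) 1) (z := qv F u (w 0) 2)
      (x' := qv F u (w 1) 0) (y' := qv F u (w 1) 1) (z' := qv F u (w 1) 2) ?_
    intro s h0 h1
    unfold FLN.qf at h0 h1
    rw [← tri_cmb] at h0 h1
    by_contra hs
    obtain ⟨w', hw', h2⟩ := h.tan (cmb u s) (bas_mem hu s) fun h3 => hs (bas_ne hu h3)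
    exact h2 (hspan _ h0 h1 w' hw')
  obtain ⟨z, hz, h2⟩ := h.fin
  obtain ⟨σ, rfl⟩ := bas_ex hu hz
  have hw0 : w 0 ∈ y.W := by
    rw [hw.2]
    exact Submodule.subset_span (by simp)
  have hw1 : w 1 ∈ y.W := by
    rw [hw.2]
    exact Submodule.subset_span (by simp)
  have hw00 : w 0 ≠ 0 := hw.1.ne_zero 0
  have hz0 : cmb u σ ≠ 0 := by
    intro h3
    rw [h3] at h2
    exact h2 (w 0) hw0 hw00 (tri_zero1 F _ _) (tri_zero1 F _ _)
  have h3 : ys F w (cmb u σ) ≠ 0 := by
    intro h4
    have h5 := LinearIndependent.pair_iff.1 hw.1 (-tri F (cmb u σ) (cmb u σ) (w 1))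
      (tri F (cmb u σ) (cmb u σ) (w 0)) (by
        rw [← h4]
        unfold ys
        module)
    obtain ⟨w', hw', h6⟩ := h.tan _ hz hz0
    exact h6 (hspan _ h5.2 (neg_eq_zero.1 h5.1) w' hw')
  have hysW : ys F w (cmb u σ) ∈ y.W := by
    unfold ys
    exact y.W.sub_mem (y.W.smul_mem _ hw1) (y.W.smul_mem _ hw0)
  have h4 : dd F w (cmb u σ) ≠ 0 := by
    refine h2 _ hysW h3 ?_
    unfold ys
    rw [sub_eq_add_neg, ← neg_smul, tri_add3, tri_smul3, tri_smul3]
    ring
  -- the polynomial
  let P : MvPolynomial (Fin 2) L := ddg F (fun j i => MvPolynomial.C (w j i))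
    fun i => MvPolynomial.X 0 * MvPolynomial.C (u 0 i) + MvPolynomial.X 1 * MvPolynomial.C (u 1 i)
  have hP : ∀ t : Fin 2 → L, MvPolynomial.eval t P = dd F w (cmb u t) := by
    intro t
    have h5 := ddg_map (F := F)
      ((MvPolynomial.aeval t : MvPolynomial (Fin 2) L →ₐ[L] L).restrictScalars k)
      (fun j i => MvPolynomial.C (w j i)) fun i =>
        MvPolynomial.X 0 * MvPolynomial.C (u 0 i) + MvPolynomial.X 1 * MvPolynomial.C (u 1 i)
    simp only [AlgHom.coe_restrictScalars', MvPolynomial.aeval_eq_eval, map_add, map_mul,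
      RingHom.coe_coe, MvPolynomial.eval_C, MvPolynomial.eval_X, MvPolynomial.coe_aeval_eq_eval] at h5
    exact h5
  have hP0 : P ≠ 0 := by
    intro h5
    apply h4
    rw [← hP, h5, map_zero]
  obtain ⟨t, ht, ht0⟩ : ∃ t ∈ Set.pi Set.univ (fun _ : Fin 2 => Set.range (algebraMap k L)),
      MvPolynomial.eval t P ≠ 0 := by
    by_contra hcon
    push Not at hcon
    apply hP0
    refine MvPolynomial.funext_set (fun _ : Fin 2 => Set.range (algebraMap k L))
      (fun _ => Set.infinite_range_of_injective (algebraMap k L).injective) fun t ht => ?_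
    rw [hcon t ht, map_zero]
  choose s hs using fun i => ht i (Set.mem_univ i)
  refine ⟨s, mul_ne_zero h1 ?_⟩
  have hst : em L s = t := funext hs
  rw [hst, ← hP]
  exact ht0

omit [CharZero k] in
theorem vc_map {L' : Type} [Field L'] [Algebra k L'] (φ : L →ₐ[k] L') (u w : Fin 2 → Fin 6 → L)
    (s : Fin 2 → k) : φ (vc F u w s) = vc F (fun j i => φ (u j i)) (fun j i => φ (w j i)) s := by
  rw [vc_eq, vcg_map]

omit [CharZero k] in
theorem vc_at {V : Place k L} {u w : Fin 2 → Fin 6 → L} {u' w' : Fin 2 → Fin 6 → k}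
    (hu : ∀ j i, V.At (u j i) (u' j i)) (hw : ∀ j i, V.At (w j i) (w' j i)) (s : Fin 2 → k) :
    V.At (vc F u w s) (vc F u' w' s) := by
  have h2 : V.At (2 : L) (2 : k) := by
    have := Place.at_const (v := V) (2 : k)
    rwa [map_ofNat] at this
  have hz : ∀ i, V.At (cmb u (em L s) i) (cmb u' (em k s) i) := by
    intro i
    unfold cmb em
    simp only [Pi.add_apply, Pi.smul_apply, smul_eq_mul, Algebra.algebraMap_self,
      RingHom.id_apply]
    exact ((Place.at_const (s 0)).mul (hu 0 i)).add ((Place.at_const (s 1)).mul (hu 1 i))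
  have hq : ∀ j i, V.At (qv F u (w j) i) (qv F u' (w' j) i) := by
    intro j i
    fin_cases i
    · exact tri_at F (hu 0) (hu 0) (hw j)
    · exact h2.mul (tri_at F (hu 0) (hu 1) (hw j))
    · exact tri_at F (hu 1) (hu 1) (hw j)
  have hy : ∀ i, V.At (ys F w (cmb u (em L s)) i) (ys F w' (cmb u' (em k s)) i) := by
    intro i
    unfold ys
    simp only [Pi.sub_apply, Pi.smul_apply, smul_eq_mul]
    exact ((tri_at F hz hz (hw 0)).mul (hw 1 i)).sub ((tri_at F hz hz (hw 1)).mul (hw 0 i))
  unfold vc rq dd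
  exact (((((hq 0 0).mul (hq 1 2)).sub ((hq 1 0).mul (hq 0 2))).pow 2).sub
    ((((hq 0 0).mul (hq 1 1)).sub ((hq 1 0).mul (hq 0 1))).mul
      (((hq 0 1).mul (hq 1 2)).sub ((hq 1 1).mul (hq 0 2))))).mul (tri_at F hz hy hy)

/-- the certificate as a polynomial in the coordinates of `u` and `w` -/
theorem vc_pol (F : MvPolynomial (Fin 6) k) (s : Fin 2 → k) : ∃ P : MvPolynomial
    ((Fin 2 × Fin 6) ⊕ (Fin 2 × Fin 6)) k, ∀ (M : Type) [Field M] [Algebra k M]
      (u w : Fin 2 → Fin 6 → M), MvPolynomial.aeval (Sum.elim (fun p => u p.1 p.2)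
        fun p => w p.1 p.2) P = vc F u w s := by
  refine ⟨vcg F (fun j i => MvPolynomial.X (Sum.inl (j, i)))
    (fun j i => MvPolynomial.X (Sum.inr (j, i))) s, fun M _ _ u w => ?_⟩
  rw [vcg_map]
  simp only [MvPolynomial.aeval_X, Sum.elim_inl, Sum.elim_inr]

end Pool.Agent.CUB.FLN
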