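import Pool.Agent.FLN.Span

/-!
# Successive choice of pairs of lines (package Cho)

PROOF. Claim: for every finite set `T` of indices, all lines `l i`, and all pairs of lines `a i`, `b i`
for `i ∈ T` which are good (as in `h`, for the indices in `T`), `A w = 0`, where
`w i = ph hF (a i) (b i)` for `i ∈ T` and `w i = cl hF (l i)` otherwise. Downward induction over `T`
(`Finset.induction` over the complement): `T = univ` is the hypothesis. Step from `insert i₀ T` to `T`:
`cl hF (l i₀)` is by `span_ph` (with `S` = the set of the lines `a i`, `b i`, `i ∈ T`) in the span of the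
classes `ph a b` with `a`, `b` good with respect to each other and to the lines in `S`; `A` is linear in
the coordinate `i₀` (`MultilinearMap.toLinearMap`, `Submodule.span_le`), for these classes the value is
zero by the claim for `insert i₀ T` (change `a i₀`, `b i₀`). `T = ∅` is the theorem.
-/

set_option autoImplicit false

noncomputable section

namespace Pool.Agent.CUB.FLN

open Pool.Agent.ZCyc Pool.Agent.Dess Pool.Agent.GT
open scoped Classical

variable {k : Type} [Field k] [IsAlgClosed k] [CharZero k] {F : MvPolynomial (Fin 6) k}

private theorem cho_aux (hF : Smooth F) {ι : Type} [Fintype ι] {V : Type} [AddCommGroup V]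
    [Module ℚ V] (A : MultilinearMap ℚ (fun _ : ι => CH (PX F) Unit) V)
    (h : ∀ u : ι → Fin 2 → Ln F k,
      (∀ i b i' b', (i, b) ≠ (i', b') → Gp (u i b) (u i' b')) →
        A (fun i => ph hF (u i 0) (u i 1)) = 0)
    (l : ι → Ln F k) : ∀ (m : ℕ) (T : Finset ι), Tᶜ.card = m → ∀ u : ι → Fin 2 → Ln F k,
      (∀ i ∈ T, ∀ i' ∈ T, ∀ b b', (i, b) ≠ (i', b') → Gp (u i b) (u i' b')) →
        A (fun i => if i ∈ T then ph hF (u i 0) (u i 1) else cl hF (l i)) = 0 := by
  intro m
  induction m with
  | zero =>
    intro T hT u hu
    have hT' : T = Finset.univ := by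
      rw [Finset.card_eq_zero] at hT
      exact (Finset.compl_eq_empty_iff T).1 hT
    subst hT'
    have h1 := h u fun i b i' b' hne => hu i (Finset.mem_univ _) i' (Finset.mem_univ _) b b' hne
    simpa using h1
  | succ m ih =>
    intro T hT u hu
    obtain ⟨i₀, hi₀⟩ : Tᶜ.Nonempty := by
      rw [← Finset.card_pos, hT]
      exact Nat.succ_pos m
    have hi₀T : i₀ ∉ T := Finset.mem_compl.1 hi₀
    set w : ι → CH (PX F) Unit :=
      fun i => if i ∈ T then ph hF (u i 0) (u i 1) else cl hF (l i) with hw
    have hwi : w i₀ = cl hF (l i₀) := by
      rw [hw]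
      simp only [if_neg hi₀T]
    have hupd : A w = A.toLinearMap w i₀ (cl hF (l i₀)) := by
      rw [MultilinearMap.toLinearMap_apply, ← hwi, Function.update_eq_self]
    have hspan := span_ph hF ((T ×ˢ (Finset.univ : Finset (Fin 2))).image fun p => u p.1 p.2)
      (l i₀)
    have hle : Submodule.span ℚ {c | ∃ a b : Ln F k, Gp a b ∧
        (∀ s ∈ (T ×ˢ (Finset.univ : Finset (Fin 2))).image (fun p => u p.1 p.2),
          Gp s a ∧ Gp s b) ∧ c = ph hF a b} ≤ LinearMap.ker (A.toLinearMap w i₀) := by
      rw [Submodule.span_le]
      rintro c ⟨a, b, hab, hS, rfl⟩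
      rw [SetLike.mem_coe, LinearMap.mem_ker, MultilinearMap.toLinearMap_apply]
      have hS' : ∀ i ∈ T, ∀ j : Fin 2, Gp (u i j) a ∧ Gp (u i j) b := fun i hi j =>
        hS _ (Finset.mem_image.2 ⟨(i, j), Finset.mem_product.2 ⟨hi, Finset.mem_univ _⟩, rfl⟩)
      set u' : ι → Fin 2 → Ln F k := Function.update u i₀ ![a, b] with hu'
      have hu0 : u' i₀ = ![a, b] := by
        rw [hu', Function.update_self]
      have hune : ∀ i ∈ T, u' i = u i := by
        intro i hi
        rw [hu', Function.update_of_ne]
        rintro rfl
        exact hi₀T hi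
      have hcard : (insert i₀ T)ᶜ.card = m := by
        have h1 := Finset.card_compl_add_card T
        have h2 := Finset.card_compl_add_card (insert i₀ T)
        rw [Finset.card_insert_of_notMem hi₀T] at h2
        omega
      have hgood : ∀ i ∈ T, ∀ j j' : Fin 2, Gp (u' i₀ j) (u i j') := by
        intro i hi j j'
        rw [hu0]
        fin_cases j
        · exact (hS' i hi j').1.symm
        · exact (hS' i hi j').2.symm
      have h1 := ih (insert i₀ T) hcard u' (by
        intro i hi i' hi' j j' hne
        rw [Finset.mem_insert] at hi hi'
        rcases hi with rfl | hi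
        · rcases hi' with rfl | hi'
          · rw [hu0]
            have hjj : j ≠ j' := fun h0 => hne (by rw [h0])
            fin_cases j <;> fin_cases j'
            · exact absurd rfl hjj
            · exact hab
            · exact hab.symm
            · exact absurd rfl hjj
          · rw [hune i' hi']
            exact hgood i' hi' j j'
        · rcases hi' with rfl | hi'
          · rw [hune i hi]
            exact (hgood i hi j' j).symm
          · rw [hune i hi, hune i' hi']
            exact hu i hi i' hi' j j' hne)
      rw [← h1]
      congr 1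
      funext i
      by_cases hi : i = i₀
      · subst hi
        rw [Function.update_self, if_pos (Finset.mem_insert_self _ _), hu0]
        rfl
      · rw [Function.update_of_ne hi]
        by_cases hiT : i ∈ T
        · rw [if_pos (Finset.mem_insert_of_mem hiT), hune i hiT, hw]
          simp only [if_pos hiT]
        · rw [if_neg (by
            rw [Finset.mem_insert]
            rintro (h0 | h0)
            · exact hi h0
            · exact hiT h0), hw]
          simp only [if_neg hiT]
    rw [hupd]
    exact LinearMap.mem_ker.1 (hle hspan)

/-- a multilinear map which is zero on the classes of transversals of lines in general position is zero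
on the classes of lines -/
theorem choose_ph (hF : Smooth F) {ι : Type} [Fintype ι] {V : Type} [AddCommGroup V] [Module ℚ V]
    (A : MultilinearMap ℚ (fun _ : ι => CH (PX F) Unit) V)
    (h : ∀ u : ι → Fin 2 → Ln F k,
      (∀ i b i' b', (i, b) ≠ (i', b') → Gp (u i b) (u i' b')) →
        A (fun i => ph hF (u i 0) (u i 1)) = 0)
    (l : ι → Ln F k) : A (fun i => cl hF (l i)) = 0 := by
  have h1 := cho_aux hF A h l _ ∅ rfl (fun i _ => l i) (by simp)
  simpa using h1

end Pool.Agent.CUB.FLN
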