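import Pool.Agent.ZIso.SFT

/-!
# Alternating sums over the permutations of a set of positions (package Cos)

`fixing J` is the set of the permutations which fix all positions outside `J`.

PROOF of `fixing_sub`. For `ρ ∈ fixing J'`, `J' ⊆ J`, the map `π ↦ π * ρ` is a permutation of
`fixing J`, so `S = ∑ π ∈ fixing J, sign π • f (τ * π)` is equal to
`∑ π ∈ fixing J, sign (π * ρ) • f (τ * (π * ρ))`. Sum over all `ρ`: `|fixing J'| • S` is the sum over
`π ∈ fixing J` of `sign π • ∑ ρ ∈ fixing J', sign ρ • f ((τ * π) * ρ) = 0`. As `1 ∈ fixing J'` and `T`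
is a vector space over `ℚ`, `S = 0`.
PROOF of `fixing_emb`. Let `g : Fin n ↪ Fin r` have the image `J'`. `τ ↦ τ.viaFintypeEmbedding g`
(or `Equiv.Perm.extendDomain` with the equivalence of `Fin n` and the range) is a bijection of
`Perm (Fin n)` with `fixing J'` which preserves the sign (see `sum_fixing` in `GT/Sft.lean`).
-/

set_option autoImplicit false

open Finset

namespace Pool.Agent.CUB.FLN

open Pool.Agent.ZIso

variable {r : ℕ} {T : Type} [AddCommGroup T] [Module ℚ T]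

private theorem Cos_mem {J : Finset (Fin r)} {π : Equiv.Perm (Fin r)} :
    π ∈ fixing J ↔ ∀ i ∉ J, π i = i := by
  simp [fixing]

theorem fixing_sub {J J' : Finset (Fin r)} (h : J' ⊆ J) {f : Equiv.Perm (Fin r) → T}
    (hf : ∀ τ : Equiv.Perm (Fin r),
      ∑ ρ ∈ fixing J', ((Equiv.Perm.sign ρ : ℤ) : ℚ) • f (τ * ρ) = 0)
    (τ : Equiv.Perm (Fin r)) :
    ∑ π ∈ fixing J, ((Equiv.Perm.sign π : ℤ) : ℚ) • f (τ * π) = 0 := by
  set S := ∑ π ∈ fixing J, ((Equiv.Perm.sign π : ℤ) : ℚ) • f (τ * π) with hS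
  have h1 : ∀ ρ ∈ fixing J', S = ∑ π ∈ fixing J,
      ((Equiv.Perm.sign π : ℤ) : ℚ) • (((Equiv.Perm.sign ρ : ℤ) : ℚ) • f (τ * π * ρ)) := by
    intro ρ hρ
    symm
    refine Finset.sum_bij (fun π _ => π * ρ) ?_ ?_ ?_ ?_
    · intro π hπ
      rw [Cos_mem] at hπ hρ ⊢
      intro i hi
      rw [Equiv.Perm.mul_apply, hρ i (fun h' => hi (h h')), hπ i hi]
    · intro π _ π' _ h2
      exact mul_right_cancel h2
    · intro π hπ
      refine ⟨π * ρ⁻¹, ?_, by group⟩
      rw [Cos_mem] at hπ hρ ⊢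
      intro i hi
      have h3 : ρ⁻¹ i = i := by
        rw [Equiv.Perm.inv_eq_iff_eq, hρ i (fun h' => hi (h h'))]
      rw [Equiv.Perm.mul_apply, h3, hπ i hi]
    · intro π _
      rw [smul_smul, Equiv.Perm.sign_mul, mul_assoc]
      push_cast
      rfl
  have h2 : ((fixing J').card : ℚ) • S = 0 := by
    have h3 : ∑ ρ ∈ fixing J', S = ((fixing J').card : ℚ) • S := by
      rw [Finset.sum_const, Nat.cast_smul_eq_nsmul]
    rw [← h3, Finset.sum_congr rfl h1, Finset.sum_comm]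
    refine Finset.sum_eq_zero fun π _ => ?_
    rw [← Finset.smul_sum, hf (τ * π), smul_zero]
  have h3 : (1 : Equiv.Perm (Fin r)) ∈ fixing J' := Cos_mem.2 fun _ _ => rfl
  have h4 : ((fixing J').card : ℚ) ≠ 0 := by
    have h5 : 0 < (fixing J').card := Finset.card_pos.2 ⟨1, h3⟩
    exact_mod_cast h5.ne'
  exact (smul_eq_zero.1 h2).resolve_left h4

/-- the permutations of the positions `g 0, .., g (n - 1)` -/
theorem fixing_emb {n : ℕ} (g : Fin n ↪ Fin r) : ∃ E : Equiv.Perm (Fin n) → Equiv.Perm (Fin r),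
    (∀ τ a, E τ (g a) = g (τ a)) ∧ (∀ τ i, (∀ a, g a ≠ i) → E τ i = i) ∧
    (∀ τ, Equiv.Perm.sign (E τ) = Equiv.Perm.sign τ) ∧
    ∀ f : Equiv.Perm (Fin r) → T, ∑ ρ ∈ fixing (Finset.univ.map g), f ρ = ∑ τ, f (E τ) := by
  have e1 : ∀ (τ : Equiv.Perm (Fin n)) (a : Fin n),
      τ.viaFintypeEmbedding g (g a) = g (τ a) := fun τ a =>
    Equiv.Perm.viaFintypeEmbedding_apply_image τ g a
  have e2 : ∀ (τ : Equiv.Perm (Fin n)) (i : Fin r), (∀ a, g a ≠ i) →
      τ.viaFintypeEmbedding g i = i := fun τ i hi =>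
    Equiv.Perm.viaFintypeEmbedding_apply_notMem_range τ g (by
      rintro ⟨a, ha⟩
      exact hi a ha)
  refine ⟨fun τ => τ.viaFintypeEmbedding g, e1, e2,
    fun τ => Equiv.Perm.viaFintypeEmbedding_sign τ g, fun f => ?_⟩
  have hmap : ∀ i, i ∈ Finset.univ.map g ↔ ∃ a, g a = i := by
    intro i
    simp
  symm
  refine Finset.sum_bij (fun τ _ => τ.viaFintypeEmbedding g) ?_ ?_ ?_ ?_
  · intro τ _
    rw [Cos_mem]
    intro i hi
    refine e2 τ i fun a ha => hi ((hmap i).2 ⟨a, ha⟩)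
  · intro τ _ τ' _ h
    apply Equiv.ext
    intro a
    apply g.injective
    rw [← e1, ← e1]
    exact congrArg (fun σ : Equiv.Perm (Fin r) => σ (g a)) h
  · intro ρ hρ
    rw [Cos_mem] at hρ
    have h1 : ∀ a, ∃ b, g b = ρ (g a) := by
      intro a
      by_contra hcon
      have h2 : ρ (g a) ∉ Finset.univ.map g := fun h2 => hcon ((hmap _).1 h2)
      have h3 := ρ.injective (hρ _ h2)
      exact hcon ⟨a, h3.symm⟩
    choose t ht using h1
    have hinj : Function.Injective t := by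
      intro a b hab
      apply g.injective
      apply ρ.injective
      rw [← ht, ← ht, hab]
    refine ⟨Equiv.ofBijective t (Finite.injective_iff_bijective.1 hinj), Finset.mem_univ _, ?_⟩
    apply Equiv.ext
    intro i
    by_cases hi : ∃ a, g a = i
    · obtain ⟨a, rfl⟩ := hi
      rw [e1, Equiv.ofBijective_apply, ht]
    · rw [hρ i fun h2 => hi ((hmap i).1 h2)]
      exact e2 _ i fun a ha => hi ⟨a, ha⟩
  · intro τ _
    rfl

end Pool.Agent.CUB.FLN
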