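import Pool.Agent.CUB.RelB
import Pool.Agent.GT.Alt

/-!
# Transversals of two lines on a cubic fourfold

`Vg x y`: no tangent hyperplane of a point of `x` contains `y`, and some point of `x` is on no line of
the fourfold which meets `y`. Then the lines which meet `x` and `y` are given by the five roots of a
binary quintic form (`IsPhi x y m`), `ph x y` is the class of their sum.
-/

set_option autoImplicit false

noncomputable section

namespace Pool.Agent.CUB.FLN

open Pool.Agent.ZCyc Pool.Agent.Dess Pool.Agent.GT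
open Pool.Agent.VFP (Om tt)
open scoped Classical

variable {k : Type} [Field k] {F : MvPolynomial (Fin 6) k} {K : Type} [Field K] [Algebra k K]

/-- the point with the coordinates `s` on the line with the basis `u` -/
def cmb (u : Fin 2 → Fin 6 → K) (s : Fin 2 → K) : Fin 6 → K := s 0 • u 0 + s 1 • u 1

/-- the point of the line with the basis `w` in the tangent hyperplane of `z` -/
def ys (F : MvPolynomial (Fin 6) k) (w : Fin 2 → Fin 6 → K) (z : Fin 6 → K) : Fin 6 → K :=
  tri F z z (w 0) • w 1 - tri F z z (w 1) • w 0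

/-- the quintic form in `z`: it is zero iff `z` and the point `ys w z` span a line on the fourfold -/
def dd (F : MvPolynomial (Fin 6) k) (w : Fin 2 → Fin 6 → K) (z : Fin 6 → K) : K :=
  tri F z (ys F w z) (ys F w z)

/-- the pair of lines `x`, `y` is good -/
structure Vg (x y : Ln F K) : Prop where
  tan : ∀ z ∈ x.W, z ≠ 0 → ∃ w ∈ y.W, tri F z z w ≠ 0
  fin : ∃ z ∈ x.W, ∀ w ∈ y.W, w ≠ 0 → tri F z z w = 0 → tri F z w w ≠ 0

/-- good in both orders -/
def Gp (x y : Ln F K) : Prop := Vg x y ∧ Vg y x

theorem Gp.symm {x y : Ln F K} (h : Gp x y) : Gp y x := ⟨h.2, h.1⟩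

/-- the vectors are a basis of the line -/
def Bas (x : Ln F K) (u : Fin 2 → Fin 6 → K) : Prop :=
  LinearIndependent K ![u 0, u 1] ∧ x.W = Submodule.span K {u 0, u 1}

/-- `m 0, .., m 4` are the transversals of `x` and `y`, with multiplicities: the quintic form of `y` on
`x` is the product of linear forms with the zeros `ρ i`, and the line `m i` contains the point of `x`
with the coordinates `ρ i` and the point of `y` in its tangent hyperplane. -/
def IsPhi (x y : Ln F K) (m : Fin 5 → Ln F K) : Prop :=
  ∃ (u w : Fin 2 → Fin 6 → K) (c : K) (ρ : Fin 5 → Fin 2 → K), Bas x u ∧ Bas y w ∧ c ≠ 0 ∧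
    (∀ i, ρ i ≠ 0) ∧ (∀ s, dd F w (cmb u s) = c * ∏ i, (s 0 * ρ i 1 - s 1 * ρ i 0)) ∧
    ∀ i, cmb u (ρ i) ∈ (m i).W ∧ ys F w (cmb u (ρ i)) ∈ (m i).W

variable [CharZero k]

/-- the class of a line in the Chow group of zero-cycles of the variety of lines -/
def cl (hF : Smooth F) (l : Ln F k) : CH (PX F) Unit :=
  cl1 (PX F) (Finsupp.single ((pe hF k).symm l) 1)

/-- the class of the sum of the transversals -/
def ph (hF : Smooth F) (x y : Ln F k) : CH (PX F) Unit :=
  if h : ∃ m, IsPhi x y m then ∑ i, cl hF (h.choose i) else 0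

end Pool.Agent.CUB.FLN
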