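import Pool.Agent.GTC.Cvr
import Pool.Agent.GT.Mov
import Pool.Agent.GT.OddC

/-!
# Divisors of functions and cycles over `Om k` (package DvLim)

PROOF. `K` is generated over `k` by finitely many elements (a transcendental element and a basis of the
finite extension; `IsCurve`). Take `K' ⊆ Om k` from `exists_field` for the images of these generators in
`Γ` and the points in `Z` (as `mov_field` in `GT/Mov.lean`), a cycle `z'` over `K'` with the image `Z`,
and `φ : K →ₐ[k] K'` with `K'.val ∘ φ = σ`. Put `C' v = C v` for `v ∈ D.support` and `C' v = 0`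
otherwise, `G w = C' v` for the place `v` of `K` below `w` (`cvr_below` in `GTC/CvrA.lean` or so). By
`cvr_div` the sum `∑ w, ord w (φ f) • G w` is `N • ∑ v, ord v f • C' v`, `N > 0`. If `ord w (φ f) ≠ 0`
then `ord v f ≠ 0` (`cvr_ord`), so `v ∈ D.support`, and for a place `V` of `Om k` above `w`
(`exists_above`) `lim w z' = lim V Z = C v = G w` (`lim_map`). So the left hand side is
`∑ w, ord w (φ f) • lim w z' = 0` (`sum_lim`). `D v = ord v f` (`ord_eq`; see `trI_rat` in
`GTC/TrB.lean` for all these steps).
-/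

set_option autoImplicit false

noncomputable section

namespace Pool.Agent.CUB.FLN

open Pool.Agent.ZCyc Pool.Agent.Dess Pool.Agent.GT Pool.Agent.GTC Pool.Agent.TInc
open Pool.Agent.VFP (Om tt)
open scoped Classical

variable {k : Type} [Field k] [IsAlgClosed k] [CharZero k] {m : ℕ}
  {X : Set (MvPolynomial (Fin (m + 1)) k)}

omit [IsAlgClosed k] [CharZero k] in
/-- a function field of a curve is generated by finitely many elements -/
private theorem dvl_gen {K : Type} [Field K] [Algebra k K] (hK : IsCurve k K) :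
    ∃ Γ₀ : Finset K, ∀ M : IntermediateField k K, (∀ g ∈ Γ₀, g ∈ M) → ∀ x : K, x ∈ M := by
  obtain ⟨t, -, hfin⟩ := hK
  let b := Module.finBasis (IntermediateField.adjoin k {t}) K
  refine ⟨insert t (Finset.univ.image b), fun M hM x => ?_⟩
  have hle : IntermediateField.adjoin k {t} ≤ M := by
    rw [IntermediateField.adjoin_simple_le_iff]
    exact hM t (Finset.mem_insert_self _ _)
  have hx := b.sum_repr x
  rw [← hx]
  refine sum_mem fun i _ => ?_
  have h1 : (b.repr x i) • b i = ((b.repr x i : IntermediateField.adjoin k {t}) : K) * b i := rfl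
  rw [h1]
  exact mul_mem (hle (b.repr x i).2)
    (hM _ (Finset.mem_insert_of_mem (Finset.mem_image_of_mem _ (Finset.mem_univ i))))

private theorem dvl_field (hX : Hom X) {ι : Type} [Finite ι] {K : Type} [Field K] [Algebra k K]
    (hK : IsCurve k K) (σ : K →ₐ[k] Om k) (z : (ι → Pt X (Om k)) →₀ ℚ) :
    ∃ (K' : IntermediateField k (Om k)) (z' : (ι → Pt X K') →₀ ℚ), IsCurve k K' ∧
      (∀ x, σ x ∈ K') ∧ Finsupp.mapDomain (fun x j => (x j).map K'.val hX) z' = z := by
  obtain ⟨Γ₀, hΓ₀⟩ := dvl_gen hK
  obtain ⟨K', y, hK', hΓ, -, hy⟩ := exists_field hX (Γ₀.image σ) (J := z.support × ι)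
    (fun p => p.1.1 p.2)
  refine ⟨K', ∑ x : z.support, Finsupp.single (fun j => y (x, j)) (z x), hK', ?_, ?_⟩
  · refine hΓ₀ (K'.comap σ) fun g hg => ?_
    exact hΓ (Finset.mem_coe.2 (Finset.mem_image_of_mem σ hg))
  rw [Finsupp.mapDomain_finsetSum]
  have h1 : ∀ x : z.support, Finsupp.mapDomain (fun (x : ι → Pt X K') j => (x j).map K'.val hX)
      (Finsupp.single (fun j => y (x, j)) (z x)) = Finsupp.single (x : ι → Pt X (Om k)) (z x) := by
    intro x
    rw [Finsupp.mapDomain_single]
    congr 1
    funext j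
    exact hy (x, j)
  rw [Finset.sum_congr rfl fun x _ => h1 x]
  rw [Finset.sum_coe_sort z.support fun x => Finsupp.single x (z x)]
  exact Finsupp.sum_single z

/-- The divisor `D` of a function `f` on the curve with the function field `K`, a cycle `Z` over
`Om k`, whose limits above the places in the support of `D` depend only on the place of `K`. -/
theorem dv_lim (hX : Hom X) {ι : Type} [Finite ι] {K : Type} [Field K] [Algebra k K]
    (hK : IsCurve k K) (σ : K →ₐ[k] Om k) (Z : (ι → Pt X (Om k)) →₀ ℚ) {f : K} (hf : f ≠ 0)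
    {D : Place k K →₀ ℤ} (hD : ∀ v, HasOrd v f (D v)) (C : Place k K → CH X ι)
    (h : ∀ v ∈ D.support, ∀ V : Place k (Om k), V.ring.comap (σ : K →+* Om k) = v.ring →
      lim hX V Z = C v) : (D.sum fun v a => (a : ℚ) • C v) = 0 := by
  obtain ⟨K', z', hK', hσ, hz⟩ := dvl_field hX hK σ Z
  have hres : HasRes k K' := hasRes_of_isCurve hK'
  let φ : K →ₐ[k] K' :=
    { toFun := fun x => ⟨σ x, hσ x⟩
      map_one' := Subtype.ext (map_one σ)
      map_mul' := fun x y => Subtype.ext (map_mul σ x y)
      map_zero' := Subtype.ext (map_zero σ)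
      map_add' := fun x y => Subtype.ext (map_add σ x y)
      commutes' := fun c => Subtype.ext (σ.commutes c) }
  have hDf : D = dv hK f := by
    refine Finsupp.ext fun v => ?_
    rw [dv_apply]
    exact (ord_eq hK hf (hD v)).symm
  have hf' : φ f ≠ 0 := (map_ne_zero φ).2 hf
  obtain ⟨N, hN, hdiv⟩ := cvr_div hK hK' φ
  choose b hb using cvr_below hK hK' φ
  let C' : Place k K → CH X ι := fun v => if v ∈ D.support then C v else 0
  have key := hdiv f hf C' (fun w => C' (b w)) (by
    intro w v hwv
    have h1 : b w = v := Place.ext ((hb w).symm.trans hwv)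
    rw [h1])
  have hleft : ((dv hK' (φ f)).sum fun w a => (a : ℚ) • C' (b w)) = 0 := by
    rw [← sum_lim hX hK' z' hf' (dv hK' (φ f)) fun w => ord_hasOrd hK' w hf']
    refine Finset.sum_congr rfl fun w hw => ?_
    rw [Finsupp.mem_support_iff, dv_apply] at hw
    have hbw : b w ∈ D.support := by
      rw [Finsupp.mem_support_iff, hDf, dv_apply]
      intro h0
      apply hw
      obtain ⟨e, -, he⟩ := cvr_ord hK hK' φ (hb w)
      rw [he f, h0, mul_zero]
    have h1 : C' (b w) = C (b w) := if_pos hbw
    obtain ⟨V, hV⟩ := exists_above hK' w K'.val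
    have h2 : lim hX V Z = lim hX w z' := by
      rw [← hz]
      exact lim_map hX (φ := K'.val) hV z'
    have h3 : V.ring.comap (σ : K →+* Om k) = (b w).ring := by
      rw [← hb w, ← hV]
      rfl
    beta_reduce
    rw [h1, ← h _ hbw V h3, h2]
  have hsum : (D.sum fun v a => (a : ℚ) • C v) = (dv hK f).sum fun v a => (a : ℚ) • C' v := by
    rw [← hDf]
    refine Finset.sum_congr rfl fun v hv => ?_
    have h1 : C' v = C v := if_pos hv
    beta_reduce
    rw [h1]
  rw [hsum]
  rw [hleft] at key
  have hN' : (N : ℚ) ≠ 0 := by exact_mod_cast hN.ne'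
  exact (smul_eq_zero.1 key.symm).resolve_left hN'

end Pool.Agent.CUB.FLN
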