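import Pool.Agent.FLN.GenA

/-!
# The Gauss map is finite: infinitesimal form

`gauss`. Let `δ` be a derivation of the algebraically closed field `E` over `k`,
`C = {e | δ e = 0}` the field of constants. `C` is algebraically closed in `E` (characteristic
zero: if
`e` is algebraic over `C` with minimal polynomial `p` then `0 = δ (p(e)) = p'(e) δ e`,
`p'(e) ≠ 0`), so `C` is
an algebraically closed field. Let `s i ≠ 0` and `s' = (s i)⁻¹ s`; then `s' i = 1`, and
`tri s' (dr δ s') w = μ' tri s' s' w` for all `w` (with another `μ'`). Suppose `dr δ s' ≠ 0`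
(otherwise
`dr δ s = c s`, `c = δ (s i) / s i`), so `δ (s' j) ≠ 0` for some `j`; `s' j` is transcendental over
`C`.
The functional `h w = tri s' s' w`: for constant `w` (`w = e_m`) we have `δ (h e_m) = 2 μ' h e_m`.
It is
not zero (`tri_ns_all`), let `h e_l ≠ 0`; then `c m = h e_m / h e_l ∈ C`. Let `M` be the field of
rational
functions in one variable `T` over `E` and `a = T s' ∈ M ^ 6`. `a i = T` and `a j = T s' j` are
algebraically independent over `C`. By `cone_zero` (over `C`, one equation `f z = tri z z e_l`, and
`g m z = tri z z e_m - c m * tri z z e_l` vanishes at `a`; `f`, `g m` are homogeneous polynomials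
of degree
two over `C`) there is `x ≠ 0` over `C` with `tri x x e_m = 0` for all `m`, contradiction to
`tri_ns_all` over `C` (`k → C`).
-/

set_option autoImplicit false

noncomputable section

namespace Pool.Agent.CUB.FLN

open Pool.Agent.ZCyc Pool.Agent.Dess Pool.Agent.GT Module
open scoped Classical

variable {k : Type} [Field k] [IsAlgClosed k] [CharZero k] {F : MvPolynomial (Fin 6) k}
  {E : Type} [Field E] [Algebra k E] [IsAlgClosed E]

/-- The field of constants. -/
private def Gauss_C (δ : Derivation k E E) : IntermediateField k E where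
  carrier := {e | δ e = 0}
  mul_mem' := by
    intro a b ha hb
    change δ (a * b) = 0
    have ha' : δ a = 0 := ha
    have hb' : δ b = 0 := hb
    rw [δ.leibniz, ha', hb', smul_zero, smul_zero, add_zero]
  add_mem' := by
    intro a b ha hb
    change δ (a + b) = 0
    have ha' : δ a = 0 := ha
    have hb' : δ b = 0 := hb
    rw [map_add, ha', hb', add_zero]
  algebraMap_mem' := fun r => δ.map_algebraMap r
  inv_mem' := by
    intro a ha
    change δ a⁻¹ = 0
    have ha' : δ a = 0 := ha
    rw [Derivation.leibniz_inv, ha', smul_zero]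

/-- The derivation over the field of constants. -/
private def Gauss_D (δ : Derivation k E E) : Derivation (Gauss_C δ) E E :=
  Derivation.mk'
    { toFun := δ
      map_add' := map_add δ
      map_smul' := by
        intro c x
        change δ ((c : E) * x) = (c : E) * δ x
        have hc : δ (c : E) = 0 := c.2
        rw [δ.leibniz, hc, smul_zero, add_zero, smul_eq_mul] }
    fun a b => δ.leibniz a b

omit [IsAlgClosed k] [IsAlgClosed E] in
private theorem Gauss_alg (δ : Derivation k E E) {e : E}
    (he : IsAlgebraic (Gauss_C δ) e) : δ e = 0 := by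
  have hch : CharZero (Gauss_C δ) :=
    charZero_of_injective_algebraMap (algebraMap k (Gauss_C δ)).injective
  have hi : IsIntegral (Gauss_C δ) e := he.isIntegral
  have hs : (minpoly (Gauss_C δ) e).Separable := (minpoly.irreducible hi).separable
  have h1 := hs.aeval_derivative_ne_zero (minpoly.aeval (Gauss_C δ) e)
  have h2 := Derivation.map_aeval (Gauss_D δ) (minpoly (Gauss_C δ) e) e
  rw [minpoly.aeval, map_zero, smul_eq_mul] at h2
  exact (mul_eq_zero.1 h2.symm).resolve_left h1

omit [IsAlgClosed k] in
private theorem Gauss_closed (δ : Derivation k E E) : IsAlgClosed (Gauss_C δ) := by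
  refine IsAlgClosed.of_exists_root _ fun p hm hp => ?_
  obtain ⟨e, he⟩ := IsAlgClosed.exists_aeval_eq_zero E p hp.degree_pos.ne'
  have h1 : δ e = 0 := Gauss_alg δ ⟨p, hp.ne_zero, he⟩
  refine ⟨⟨e, h1⟩, ?_⟩
  have h2 := Polynomial.aeval_algebraMap_apply_eq_algebraMap_eval (A := E)
    (⟨e, h1⟩ : Gauss_C δ) p
  have h3 : algebraMap (Gauss_C δ) E ⟨e, h1⟩ = e := rfl
  rw [h3, he] at h2
  exact ((algebraMap (Gauss_C δ) E).injective (by rw [map_zero]; exact h2.symm))

/-- `X` and `y X` are algebraically independent if `y` is transcendental. -/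
private theorem Gauss_indep {K L : Type} [Field K] [Field L] [Algebra K L] {y : L}
    (hy : Transcendental K y) :
    AlgebraicIndependent K (![Polynomial.X, Polynomial.C y * Polynomial.X] :
      Fin 2 → Polynomial L) := by
  rw [algebraicIndependent_iff]
  intro P hP
  by_contra hne
  obtain ⟨m, hm⟩ := MvPolynomial.ne_zero_iff.1 hne
  have e1 : MvPolynomial.aeval (![Polynomial.X, Polynomial.C y * Polynomial.X] :
      Fin 2 → Polynomial L) P = ∑ d ∈ P.support,
      Polynomial.C (algebraMap K L (P.coeff d) * y ^ d 1) * Polynomial.X ^ (d 0 + d 1) := by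
    rw [MvPolynomial.aeval_def, MvPolynomial.eval₂_eq']
    refine Finset.sum_congr rfl fun d _ => ?_
    rw [Fin.prod_univ_two]
    simp only [Matrix.cons_val_zero, Matrix.cons_val_one, Polynomial.algebraMap_apply,
      Polynomial.C_mul, Polynomial.C_pow]
    ring
  rw [e1] at hP
  have e2 := congrArg (fun Q => Polynomial.coeff Q (m 0 + m 1)) hP
  simp only [Polynomial.finsetSum_coeff, Polynomial.coeff_C_mul_X_pow,
    Polynomial.coeff_zero] at e2
  set Q : Polynomial K := ∑ d ∈ P.support,
    if m 0 + m 1 = d 0 + d 1 then Polynomial.C (P.coeff d) * Polynomial.X ^ d 1 else 0 with hQ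
  have e3 : Polynomial.aeval y Q = 0 := by
    rw [← e2, hQ, map_sum]
    refine Finset.sum_congr rfl fun d _ => ?_
    split_ifs
    · rw [map_mul, map_pow, Polynomial.aeval_X, Polynomial.aeval_C]
    · rw [map_zero]
  have e4 : Q = 0 := by
    by_contra h0
    exact hy ⟨Q, h0, e3⟩
  have e5 : Q.coeff (m 1) = P.coeff m := by
    rw [hQ, Polynomial.finsetSum_coeff, Finset.sum_eq_single m]
    · rw [if_pos rfl, Polynomial.coeff_C_mul_X_pow, if_pos rfl]
    · intro d _ hd
      split_ifs with h
      · rw [Polynomial.coeff_C_mul_X_pow, if_neg]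
        intro h1
        apply hd
        ext i
        fin_cases i
        · change d 0 = m 0
          omega
        · exact h1.symm
      · exact Polynomial.coeff_zero _
    · intro h
      rw [if_pos rfl, Polynomial.coeff_C_mul_X_pow, if_pos rfl]
      exact MvPolynomial.notMem_support_iff.1 h
  rw [e4, Polynomial.coeff_zero] at e5
  exact hm e5.symm

/-- The quadratic form `z ↦ tri F z z e_m` as a polynomial. -/
private def Gauss_q (F : MvPolynomial (Fin 6) k) (K : Type) [Field K] [Algebra k K] (m : Fin 6) :
    MvPolynomial (Fin 6) K :=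
  ∑ i, ∑ j, MvPolynomial.C (algebraMap k K (cf F i j m)) * (MvPolynomial.X i * MvPolynomial.X j)

omit [IsAlgClosed k] [CharZero k] in
private theorem Gauss_q_hom (F : MvPolynomial (Fin 6) k) (K : Type) [Field K] [Algebra k K]
    (m : Fin 6) : (Gauss_q F K m).IsHomogeneous 2 := by
  unfold Gauss_q
  refine MvPolynomial.IsHomogeneous.sum _ _ _ fun i _ =>
    MvPolynomial.IsHomogeneous.sum _ _ _ fun j _ => ?_
  have h1 := (MvPolynomial.isHomogeneous_C (Fin 6) (algebraMap k K (cf F i j m))).mul
    ((MvPolynomial.isHomogeneous_X K i).mul (MvPolynomial.isHomogeneous_X K j))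
  exact h1

omit [IsAlgClosed k] [CharZero k] in
private theorem Gauss_tri (F : MvPolynomial (Fin 6) k) {K : Type} [Field K] [Algebra k K]
    (z : Fin 6 → K) (m : Fin 6) : tri F z z (Pi.single m 1) =
      ∑ i, ∑ j, algebraMap k K (cf F i j m) * (z i * z j) := by
  unfold tri
  refine Finset.sum_congr rfl fun i _ => Finset.sum_congr rfl fun j _ => ?_
  rw [Finset.sum_eq_single m]
  · rw [Pi.single_eq_same, mul_one, mul_assoc]
  · intro b _ hb
    rw [Pi.single_eq_of_ne hb, mul_zero]
  · intro h
    exact absurd (Finset.mem_univ _) h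

omit [IsAlgClosed k] [CharZero k] in
private theorem Gauss_q_eval (F : MvPolynomial (Fin 6) k) {K : Type} [Field K] [Algebra k K]
    (z : Fin 6 → K) (m : Fin 6) :
    MvPolynomial.eval z (Gauss_q F K m) = tri F z z (Pi.single m 1) := by
  rw [Gauss_tri]
  unfold Gauss_q
  simp only [map_sum, map_mul, MvPolynomial.eval_C, MvPolynomial.eval_X]

/-- If the tangent hyperplane of `s` is constant for the derivation `δ` then so is `s`. -/
theorem gauss (hF : Smooth F) (δ : Derivation k E E) {s : Fin 6 → E} (hs : s ≠ 0) (μ : E)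
    (h : ∀ w, tri F s (dr δ s) w = μ * tri F s s w) : δ ∈ st (Submodule.span E {s}) := by
  obtain ⟨i, hi⟩ := Function.ne_iff.1 hs
  have hi0 : s i ≠ 0 := hi
  obtain ⟨c, hc⟩ : ∃ c : E, c = s i := ⟨_, rfl⟩
  rw [← hc] at hi0
  obtain ⟨s', hs'⟩ : ∃ s' : Fin 6 → E, s' = c⁻¹ • s := ⟨_, rfl⟩
  have hss : s = c • s' := by
    rw [hs', smul_smul, mul_inv_cancel₀ hi0, one_smul]
  have hone : s' i = 1 := by
    rw [hs', Pi.smul_apply, smul_eq_mul, ← hc, inv_mul_cancel₀ hi0]
  have hdr : dr δ s = c • dr δ s' + δ c • s' := by
    conv_lhs => rw [hss]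
    exact dr_smul δ c s'
  have h' : ∀ w, tri F s' (dr δ s') w = (μ - δ c / c) * tri F s' s' w := by
    intro w
    have h1 := h w
    rw [hdr, hss, tri_add2, tri_smul1, tri_smul1, tri_smul1, tri_smul2, tri_smul2,
      tri_smul2] at h1
    have h2 : c * c * (tri F s' (dr δ s') w) = c * c * ((μ - δ c / c) * tri F s' s' w) := by
      have h3 : c * c * ((μ - δ c / c) * tri F s' s' w) =
          c * c * μ * tri F s' s' w - c * δ c * tri F s' s' w := by
        field_simp
      rw [h3]
      linear_combination h1
    exact mul_left_cancel₀ (mul_ne_zero hi0 hi0) h2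
  set ν : E := μ - δ c / c with hν
  have hzero : dr δ s' = 0 := by
    by_contra hne
    obtain ⟨j, hj⟩ := Function.ne_iff.1 hne
    have hj0 : δ (s' j) ≠ 0 := hj
    have htr : Transcendental (Gauss_C δ) (s' j) := fun ha => hj0 (Gauss_alg δ ha)
    have hs0 : s' ≠ 0 := by
      intro h0
      rw [h0] at hone
      exact zero_ne_one hone
    have hconst : ∀ m, δ (tri F s' s' (Pi.single m 1)) = 2 * ν * tri F s' s' (Pi.single m 1) := by
      intro m
      have h1 : dr δ (Pi.single m 1 : Fin 6 → E) = 0 := by
        have h2 : (Pi.single m 1 : Fin 6 → E) = em E (Pi.single m 1 : Fin 6 → k) := by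
          funext a
          unfold em
          by_cases ha : a = m
          · rw [ha, Pi.single_eq_same, Pi.single_eq_same, map_one]
          · rw [Pi.single_eq_of_ne ha, Pi.single_eq_of_ne ha, map_zero]
        rw [h2, dr_em]
      rw [dr_tri, h1, tri_zero3, add_zero, tri_swap12, h' (Pi.single m 1)]
      ring
    obtain ⟨l, hl⟩ : ∃ l, tri F s' s' (Pi.single l 1) ≠ 0 := by
      by_contra hcon
      push Not at hcon
      apply hs0
      refine tri_ns_all hF fun z => ?_
      rw [tri_sum]
      exact Finset.sum_eq_zero fun a _ => by rw [hcon a, zero_mul]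
    have hcm : ∀ m, δ (tri F s' s' (Pi.single m 1) * (tri F s' s' (Pi.single l 1))⁻¹) = 0 := by
      intro m
      rw [δ.leibniz, Derivation.leibniz_inv, hconst, hconst]
      simp only [smul_eq_mul]
      field_simp
      ring
    have hclosed := Gauss_closed δ
    set C := Gauss_C δ with hC
    let cc : Fin 6 → C := fun m => ⟨_, hcm m⟩
    let a : Fin 6 → RatFunc E := fun b => algebraMap (Polynomial E) (RatFunc E)
      (Polynomial.C (s' b) * Polynomial.X)
    have hind : AlgebraicIndependent C fun b => a ((![i, j] : Fin 2 → Fin 6) b) := by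
      have h1 := (Gauss_indep htr).map' (f := (IsScalarTower.toAlgHom C (Polynomial E)
        (RatFunc E))) (RatFunc.algebraMap_injective E)
      have h3 : (fun b => a ((![i, j] : Fin 2 → Fin 6) b)) =
          ⇑(IsScalarTower.toAlgHom C (Polynomial E) (RatFunc E)) ∘
            (![Polynomial.X, Polynomial.C (s' j) * Polynomial.X] : Fin 2 → Polynomial E) := by
        funext b
        fin_cases b
        · change algebraMap (Polynomial E) (RatFunc E) (Polynomial.C (s' i) * Polynomial.X) =
            algebraMap (Polynomial E) (RatFunc E) Polynomial.X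
          rw [hone, map_one, one_mul]
        · rfl
      rw [h3]
      exact h1
    obtain ⟨x, hx0, hx1, hx2⟩ := cone_zero (K := C) (κ := Unit) a (![i, j] : Fin 2 → Fin 6) hind
      (fun _ => Gauss_q F C l) (fun _ => ⟨2, two_pos, Gauss_q_hom F C l⟩) (by simp)
    apply hx0
    have hl0 : tri F x x (Pi.single l 1) = 0 := by
      rw [← Gauss_q_eval]
      exact hx1 ()
    refine tri_ns_all hF fun z => ?_
    rw [tri_sum]
    refine Finset.sum_eq_zero fun m _ => ?_
    have hg : (Gauss_q F C m - MvPolynomial.C (cc m) * Gauss_q F C l).IsHomogeneous 2 := by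
      refine (Gauss_q_hom F C m).sub ?_
      have h1 := (MvPolynomial.isHomogeneous_C (Fin 6) (cc m)).mul (Gauss_q_hom F C l)
      rwa [zero_add] at h1
    have haev : ∀ m', MvPolynomial.aeval a (Gauss_q F C m') =
        algebraMap (Polynomial E) (RatFunc E)
          (Polynomial.C (tri F s' s' (Pi.single m' 1)) * Polynomial.X ^ 2) := by
      intro m'
      rw [Gauss_tri]
      unfold Gauss_q
      simp only [map_sum, map_mul, MvPolynomial.aeval_C, MvPolynomial.aeval_X, Finset.sum_mul]
      refine Finset.sum_congr rfl fun b _ => Finset.sum_congr rfl fun b' _ => ?_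
      have h1 : algebraMap C (RatFunc E) (algebraMap k C (cf F b b' m')) =
          algebraMap (Polynomial E) (RatFunc E) (Polynomial.C (algebraMap k E (cf F b b' m'))) := by
        rw [IsScalarTower.algebraMap_apply C (Polynomial E) (RatFunc E)]
        rfl
      rw [h1]
      simp only [a, map_mul, map_pow]
      ring
    have hga : MvPolynomial.aeval a (Gauss_q F C m - MvPolynomial.C (cc m) * Gauss_q F C l) = 0 := by
      rw [map_sub, map_mul, MvPolynomial.aeval_C, haev, haev]
      have h1 : algebraMap C (RatFunc E) (cc m) =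
          algebraMap (Polynomial E) (RatFunc E) (Polynomial.C
            (tri F s' s' (Pi.single m 1) * (tri F s' s' (Pi.single l 1))⁻¹)) := by
        rw [IsScalarTower.algebraMap_apply C (Polynomial E) (RatFunc E)]
        rfl
      rw [h1, ← map_mul, ← map_sub, ← mul_assoc, ← Polynomial.C_mul, mul_assoc,
        inv_mul_cancel₀ hl, mul_one, sub_self, map_zero]
    have h2 := hx2 _ 2 hg hga
    rw [map_sub, map_mul, MvPolynomial.eval_C, Gauss_q_eval, Gauss_q_eval, hl0, mul_zero,
      sub_zero] at h2
    rw [h2, zero_mul]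
  refine mem_st_span ?_
  rintro y rfl
  rw [hdr, hzero, smul_zero, zero_add, hs', smul_smul]
  exact Submodule.smul_mem _ _ (Submodule.mem_span_singleton_self _)

end Pool.Agent.CUB.FLN
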