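import Pool.Agent.FLN.Gauss

/-!
# The Gauss map is finite: two points with the same tangent hyperplane

Proof of `gauss_pt`. `c ≠ 0` by `tri_ns_all`. `dr δ z = μ z` (from `δ ∈ st ⟨z⟩`). For constant `w` (the
vectors `Pi.single i 1`, whose `dr δ` is zero): `2 tri s (dr δ s) w = δ (tri s s w) = δ (c tri z z w) =
δ c tri z z w + 2 c μ tri z z w = (δ c + 2 c μ) / c * tri s s w`. Both sides are linear in `w`, so this
holds for all `w`; `gauss`.
-/

set_option autoImplicit false

noncomputable section

namespace Pool.Agent.CUB.FLN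

open Pool.Agent.ZCyc Pool.Agent.Dess Pool.Agent.GT Module
open scoped Classical

variable {k : Type} [Field k] [IsAlgClosed k] [CharZero k] {F : MvPolynomial (Fin 6) k}
  {E : Type} [Field E] [Algebra k E] [IsAlgClosed E]

theorem gauss_pt (hF : Smooth F) {δ : Derivation k E E} {z s : Fin 6 → E} (hs : s ≠ 0) (c : E)
    (h : ∀ w, tri F s s w = c * tri F z z w) (hδ : δ ∈ st (Submodule.span E {z})) :
    δ ∈ st (Submodule.span E {s}) := by
  have hch : CharZero E := charZero_of_injective_algebraMap (algebraMap k E).injective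
  have hc : c ≠ 0 := by
    rintro rfl
    exact hs (tri_ns_all hF fun w => by rw [h w, zero_mul])
  obtain ⟨μ, hμ⟩ := Submodule.mem_span_singleton.1 (hδ z (Submodule.mem_span_singleton_self z))
  refine gauss hF δ hs ((δ c + 2 * c * μ) / (2 * c)) fun w => ?_
  have key : ∀ i, tri F s (dr δ s) (Pi.single i 1) =
      (δ c + 2 * c * μ) / (2 * c) * tri F s s (Pi.single i 1) := by
    intro i
    have he : (Pi.single i 1 : Fin 6 → E) = em E (Pi.single i 1 : Fin 6 → k) := by
      funext j
      unfold em
      by_cases hj : j = i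
      · subst hj
        rw [Pi.single_eq_same, Pi.single_eq_same, map_one]
      · rw [Pi.single_eq_of_ne hj, Pi.single_eq_of_ne hj, map_zero]
    have hd : dr δ (Pi.single i 1 : Fin 6 → E) = 0 := by
      rw [he]
      exact dr_em δ _
    have h1 := dr_tri F δ s s (Pi.single i 1 : Fin 6 → E)
    have h2 := dr_tri F δ z z (Pi.single i 1 : Fin 6 → E)
    rw [hd, tri_zero3, add_zero, tri_swap12 F (dr δ s)] at h1
    rw [hd, tri_zero3, add_zero, ← hμ, tri_smul1, tri_smul2] at h2
    rw [h, Derivation.leibniz, smul_eq_mul, smul_eq_mul, h2] at h1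
    rw [h, div_mul_eq_mul_div, eq_div_iff (mul_ne_zero two_ne_zero hc)]
    linear_combination (-c) * h1
  rw [tri_sum F s (dr δ s) w, tri_sum F s s w, Finset.mul_sum]
  refine Finset.sum_congr rfl fun i _ => ?_
  rw [key i]
  ring

end Pool.Agent.CUB.FLN
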