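import Pool.Agent.FLN.GenD
import Pool.Agent.CUB.Cone
import Pool.Agent.ZIso.Krull

/-!
# Smoothness over extensions, no linear spaces of dimension three, points on lines

`tri_ns_all`: otherwise the homogeneous polynomials `z ↦ tri F z z e_i` over `k` have the common zero
`x ≠ 0` over `L`, so by `descend_zero` they have one over `k`, contradiction to `tri_ns`.

`no_P3`: otherwise take `U' ≤ U` of dimension four. `tri u v w = 0` for `u, v, w ∈ U'` (polarisation,
`char = 0`). Take `e, e'` with `U' ⊔ ⟨e, e'⟩ = ⊤`; the two quadratic forms `u ↦ tri u u e`,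
`u ↦ tri u u e'` on `U'` (in coordinates: homogeneous polynomials in four variables) have a common zero
`u ≠ 0` (`ZIso/Krull`: fewer equations than unknowns), so `tri u u z = 0` for all `z`.

`point_on`: `cod_of_map` for `θ = mkQ ∘ drL w` to `(Fin 6 → E) ⧸ ⟨w⟩`, `T` = the image of `l.W`, of dimension one.
-/

set_option autoImplicit false

noncomputable section

namespace Pool.Agent.CUB.FLN

open Pool.Agent.ZCyc Pool.Agent.Dess Pool.Agent.GT Module
open scoped Classical

variable {k : Type} [Field k] [IsAlgClosed k] [CharZero k] {F : MvPolynomial (Fin 6) k}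
  {E : Type} [Field E] [Algebra k E] [IsAlgClosed E]

/-- the quadratic form `x ↦ tri F x x e_l` as a polynomial -/
private def gena_pol (F : MvPolynomial (Fin 6) k) (l : Fin 6) : MvPolynomial (Fin 6) k :=
  ∑ i, ∑ j, MvPolynomial.C (cf F i j l) * MvPolynomial.X i * MvPolynomial.X j

omit [IsAlgClosed k] [CharZero k] in
private theorem gena_aeval {K : Type} [Field K] [Algebra k K] (F : MvPolynomial (Fin 6) k)
    (x : Fin 6 → K) (l : Fin 6) :
    MvPolynomial.aeval x (gena_pol F l) = tri F x x (Pi.single l 1) := by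
  unfold gena_pol tri
  rw [map_sum]
  refine Finset.sum_congr rfl fun i _ => ?_
  rw [map_sum]
  refine Finset.sum_congr rfl fun j _ => ?_
  rw [map_mul, map_mul, MvPolynomial.aeval_C, MvPolynomial.aeval_X, MvPolynomial.aeval_X,
    Finset.sum_eq_single l]
  · rw [Pi.single_eq_same, mul_one]
  · intro b _ hb
    rw [Pi.single_eq_of_ne hb, mul_zero]
  · intro h
    exact absurd (Finset.mem_univ _) h

omit [IsAlgClosed E] in
theorem tri_ns_all (hF : Smooth F) {x : Fin 6 → E} (h : ∀ z, tri F x x z = 0) : x = 0 := by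
  by_contra hx
  obtain ⟨y, hy, hyS⟩ := descend_zero (K := k) (Set.range (gena_pol F)) x hx (by
    rintro _ ⟨l, rfl⟩
    rw [gena_aeval]
    exact h _)
  apply hy
  refine tri_ns hF fun z => ?_
  rw [tri_sum]
  refine Finset.sum_eq_zero fun l _ => ?_
  have h1 := hyS _ ⟨l, rfl⟩
  rw [← MvPolynomial.aeval_eq_eval, gena_aeval] at h1
  rw [h1, zero_mul]

omit [IsAlgClosed E] [IsAlgClosed k] in
private theorem gena_polar {U : Submodule E (Fin 6 → E)} (h : ∀ u ∈ U, tri F u u u = 0)
    {u v : Fin 6 → E} (hu : u ∈ U) (hv : v ∈ U) : tri F u u v = 0 := by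
  have : CharZero E := charZero_of_injective_algebraMap (algebraMap k E).injective
  have e1 := h (v + u) (U.add_mem hv hu)
  have e2 := h (v + (-1 : E) • u) (U.add_mem hv (U.smul_mem _ hu))
  simp only [tri_add1, tri_add2, tri_add3, tri_smul1, tri_smul2, tri_smul3] at e1 e2
  have h3 := h v hv
  have h1 : tri F u v u = tri F u u v := tri_swap23 F u v u
  have h2 : tri F v u u = tri F u u v := (tri_swap12 F v u u).trans h1
  rw [h1, h2] at e1 e2
  have e3 : (6 : E) * tri F u u v = 0 := by linear_combination e1 + e2 - 2 * h3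
  exact (mul_eq_zero.1 e3).resolve_left (by norm_num)

theorem no_P3 (hF : Smooth F) {U : Submodule E (Fin 6 → E)} (h : ∀ u ∈ U, tri F u u u = 0) :
    finrank E U ≤ 3 := by
  by_contra hcon
  push Not at hcon
  obtain ⟨W, hW⟩ := Submodule.exists_isCompl U
  have hdim : finrank E U + finrank E W = 6 := by
    rw [Submodule.finrank_add_eq_of_isCompl hW]
    simp
  let b := Module.finBasis E U
  let e := Module.finBasis E W
  let f : Fin (finrank E W) → MvPolynomial (Fin (finrank E U)) E := fun j =>
    ∑ i, ∑ i', MvPolynomial.C (tri F (b i : Fin 6 → E) (b i') (e j)) * MvPolynomial.X i *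
      MvPolynomial.X i'
  obtain ⟨c, hc, hcf⟩ := Pool.Agent.ZIso.exists_ne_zero (ι := Fin (finrank E U))
    (κ := Fin (finrank E W)) (by
      rw [Fintype.card_fin, Fintype.card_fin]
      omega) f (by
      intro j
      simp [f])
  set u : U := ∑ i, c i • b i with hu
  have hu0 : (u : Fin 6 → E) ≠ 0 := by
    intro h0
    have h1 : u = 0 := Subtype.ext h0
    apply hc
    funext i
    have h2 := Fintype.linearIndependent_iff.1 b.linearIndependent c (by rw [← hu]; exact h1)
    exact h2 i
  have huc : (u : Fin 6 → E) = ∑ i, c i • (b i : Fin 6 → E) := by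
    rw [hu]
    simp
  have hsum1 : ∀ (y z : Fin 6 → E), tri F (u : Fin 6 → E) y z = ∑ i, c i * tri F (b i) y z := by
    intro y z
    rw [tri_swap12, tri_swap23, ← trl_apply, huc, map_sum]
    refine Finset.sum_congr rfl fun i _ => ?_
    rw [map_smul, smul_eq_mul, trl_apply, tri_swap23 F y z, tri_swap12 F y]
  apply hu0
  refine tri_ns_all hF fun z => ?_
  have hz : z ∈ U ⊔ W := by
    rw [hW.sup_eq_top]
    exact Submodule.mem_top
  obtain ⟨z1, hz1, z2, hz2, rfl⟩ := Submodule.mem_sup.1 hz
  rw [tri_add3, gena_polar h u.2 hz1, zero_add]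
  have hz2' : z2 = ∑ j, (e.repr ⟨z2, hz2⟩ j) • (e j : Fin 6 → E) := by
    have h1 := congrArg Subtype.val (e.sum_repr ⟨z2, hz2⟩)
    have h3 : ((∑ j, e.repr ⟨z2, hz2⟩ j • e j : W) : Fin 6 → E) =
        ∑ j, (e.repr ⟨z2, hz2⟩ j) • (e j : Fin 6 → E) := by
      rw [Submodule.coe_sum]
      rfl
    exact h1.symm.trans h3
  rw [← trl_apply, hz2', map_sum]
  refine Finset.sum_eq_zero fun j _ => ?_
  rw [map_smul, trl_apply]
  have h1 := hcf j
  have h2 : tri F (u : Fin 6 → E) u (e j) = MvPolynomial.eval c (f j) := by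
    simp only [f, map_sum, map_mul, MvPolynomial.eval_C, MvPolynomial.eval_X]
    rw [hsum1]
    refine Finset.sum_congr rfl fun i _ => ?_
    rw [tri_swap12, hsum1, Finset.mul_sum]
    refine Finset.sum_congr rfl fun i' _ => ?_
    rw [tri_swap12 F (b i' : Fin 6 → E)]
    ring
  rw [h2, h1, smul_zero]

omit [IsAlgClosed E] [IsAlgClosed k] [CharZero k] in
/-- a point on a line which is preserved -/
theorem point_on (l : Ln F E) {w : Fin 6 → E} (hw : w ∈ l.W) (hw0 : w ≠ 0)
    (D : Submodule E (Derivation k E E)) [FiniteDimensional E D] (hD : D ≤ st l.W) :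
    Cod D (st (Submodule.span E {w})) 1 := by
  let Q := Submodule.mkQ (Submodule.span E {w})
  let φ : l.W →ₗ[E] ((Fin 6 → E) ⧸ Submodule.span E {w}) := Q.comp l.W.subtype
  have h1 := LinearMap.finrank_range_add_finrank_ker φ
  rw [l.two] at h1
  have h2 : 1 ≤ finrank E (LinearMap.ker φ) := by
    rw [Submodule.one_le_finrank_iff]
    intro h0
    have h3 : (⟨w, hw⟩ : l.W) ∈ LinearMap.ker φ := by
      rw [LinearMap.mem_ker]
      change Submodule.mkQ (Submodule.span E {w}) w = 0
      rw [Submodule.mkQ_apply, Submodule.Quotient.mk_eq_zero]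
      exact Submodule.mem_span_singleton_self w
    rw [h0, Submodule.mem_bot] at h3
    exact hw0 (congrArg Subtype.val h3)
  refine cod_of_map (Q.comp (drL w)) (LinearMap.range φ) (by omega) ?_ ?_
  · intro δ hδ
    exact ⟨⟨dr δ w, hD hδ w hw⟩, rfl⟩
  · intro δ _ h0
    refine mem_st_span ?_
    intro x hx
    rw [Set.mem_singleton_iff] at hx
    subst hx
    change Submodule.mkQ (Submodule.span E {x}) (dr δ x) = 0 at h0
    rw [Submodule.mkQ_apply, Submodule.Quotient.mk_eq_zero] at h0
    exact h0

end Pool.Agent.CUB.FLN
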