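import Pool.Agent.FLN.Key

/-!
# Derivations and subspaces: definitions for part C
-/

set_option autoImplicit false

noncomputable section

namespace Pool.Agent.CUB.FLN

open Pool.Agent.ZCyc Pool.Agent.Dess Pool.Agent.GT Module
open scoped Classical

variable {k : Type} [Field k] {E : Type} [Field E] [Algebra k E]

/-- a derivation applied to the coordinates of a vector -/
def dr (δ : Derivation k E E) (x : Fin 6 → E) : Fin 6 → E := fun i => δ (x i)

theorem dr_add (δ : Derivation k E E) (x y : Fin 6 → E) : dr δ (x + y) = dr δ x + dr δ y := by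
  funext i
  exact map_add δ _ _

theorem dr_sub (δ : Derivation k E E) (x y : Fin 6 → E) : dr δ (x - y) = dr δ x - dr δ y := by
  funext i
  exact map_sub δ _ _

theorem dr_smul (δ : Derivation k E E) (c : E) (x : Fin 6 → E) :
    dr δ (c • x) = c • dr δ x + δ c • x := by
  funext i
  change δ (c * x i) = c * δ (x i) + δ c * x i
  rw [Derivation.leibniz, smul_eq_mul, smul_eq_mul, mul_comm (x i)]

theorem dr_em (δ : Derivation k E E) (x : Fin 6 → k) : dr δ (em E x) = 0 := by
  funext i
  exact Derivation.map_algebraMap δ _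

/-- `dr δ x` as a linear map in `δ` -/
def drL (x : Fin 6 → E) : Derivation k E E →ₗ[E] (Fin 6 → E) where
  toFun δ := dr δ x
  map_add' _ _ := rfl
  map_smul' _ _ := rfl

theorem drL_apply (x : Fin 6 → E) (δ : Derivation k E E) : drL x δ = dr δ x := rfl

/-- the product rule for the trilinear form (its coefficients are in `k`) -/
theorem dr_tri (F : MvPolynomial (Fin 6) k) (δ : Derivation k E E) (x y z : Fin 6 → E) :
    δ (tri F x y z) = tri F (dr δ x) y z + tri F x (dr δ y) z + tri F x y (dr δ z) := by
  unfold tri
  simp only [map_sum, ← Finset.sum_add_distrib]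
  refine Finset.sum_congr rfl fun i _ => Finset.sum_congr rfl fun j _ =>
    Finset.sum_congr rfl fun l _ => ?_
  simp only [Derivation.leibniz, Derivation.map_algebraMap, smul_eq_mul, dr]
  ring

/-- the derivations which preserve a subspace -/
def st (W : Submodule E (Fin 6 → E)) : Submodule E (Derivation k E E) where
  carrier := {δ | ∀ x ∈ W, dr δ x ∈ W}
  add_mem' := fun {δ δ'} h h' x hx => by
    have h1 : dr (δ + δ') x = dr δ x + dr δ' x := rfl
    rw [h1]
    exact W.add_mem (h x hx) (h' x hx)
  zero_mem' := fun x _ => W.zero_mem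
  smul_mem' := fun c δ h x hx => W.smul_mem c (h x hx)

theorem mem_st {W : Submodule E (Fin 6 → E)} {δ : Derivation k E E} :
    δ ∈ st W ↔ ∀ x ∈ W, dr δ x ∈ W := Iff.rfl

/-- it is enough to check the vectors of a generating set -/
theorem mem_st_span {s : Set (Fin 6 → E)} {δ : Derivation k E E}
    (h : ∀ x ∈ s, dr δ x ∈ Submodule.span E s) : δ ∈ st (Submodule.span E s) := by
  intro x hx
  induction hx using Submodule.span_induction with
  | mem x hx => exact h x hx
  | zero =>
    have h1 : dr δ (0 : Fin 6 → E) = 0 := by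
      funext i
      exact map_zero δ
    rw [h1]
    exact Submodule.zero_mem _
  | add x y _ _ hx hy =>
    rw [dr_add]
    exact Submodule.add_mem _ hx hy
  | smul c x hx' hx =>
    rw [dr_smul]
    exact Submodule.add_mem _ (Submodule.smul_mem _ _ hx) (Submodule.smul_mem _ _ hx')

/-- the codimension of `D ⊓ S` in `D` is at most `n` -/
def Cod (D S : Submodule E (Derivation k E E)) (n : ℕ) : Prop :=
  finrank E D ≤ finrank E ↥(D ⊓ S) + n

theorem Cod.trans {D S S' : Submodule E (Derivation k E E)} {n n' : ℕ} (h : Cod D S n)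
    (h' : Cod (D ⊓ S) S' n') : Cod D (S ⊓ S') (n + n') := by
  unfold Cod at *
  rw [inf_assoc] at h'
  omega

theorem Cod.mono {D S S' : Submodule E (Derivation k E E)} [FiniteDimensional E D] {n : ℕ}
    (h : Cod D S n) (hS : D ⊓ S ≤ S') : Cod D S' n := by
  unfold Cod at *
  have h1 : D ⊓ S ≤ D ⊓ S' := le_inf inf_le_left hS
  have : FiniteDimensional E ↥(D ⊓ S') := Submodule.finiteDimensional_of_le inf_le_left
  have h2 := Submodule.finrank_mono h1
  omega

/-- A linear map from `D` with values in a space of dimension `n`, whose kernel is in `S`. -/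
theorem cod_of_map {D S : Submodule E (Derivation k E E)} [FiniteDimensional E D] {V : Type}
    [AddCommGroup V] [Module E V] (θ : Derivation k E E →ₗ[E] V) (T : Submodule E V)
    [FiniteDimensional E T] {n : ℕ} (hT : finrank E T ≤ n) (h : ∀ δ ∈ D, θ δ ∈ T)
    (hker : ∀ δ ∈ D, θ δ = 0 → δ ∈ S) : Cod D S n := by
  unfold Cod
  set φ : D →ₗ[E] V := θ.comp D.subtype with hφ
  have h1 := LinearMap.finrank_range_add_finrank_ker φ
  have h2 : LinearMap.range φ ≤ T := by
    rintro _ ⟨δ, rfl⟩
    exact h δ.1 δ.2
  have h3 := Submodule.finrank_mono h2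
  have h4 : finrank E (LinearMap.ker φ) ≤ finrank E ↥(D ⊓ S) := by
    have : FiniteDimensional E ↥(D ⊓ S) := Submodule.finiteDimensional_of_le inf_le_left
    let ψ : LinearMap.ker φ →ₗ[E] ↥(D ⊓ S) :=
      (D.subtype.comp (LinearMap.ker φ).subtype).codRestrict (D ⊓ S) fun δ =>
        ⟨δ.1.2, hker δ.1.1 δ.1.2 (LinearMap.mem_ker.1 δ.2)⟩
    refine LinearMap.finrank_le_finrank_of_injective (f := ψ) fun δ δ' hδ => ?_
    apply Subtype.ext
    apply Subtype.ext
    have h5 : ((ψ δ : ↥(D ⊓ S)) : Derivation k E E) = ψ δ' := congrArg Subtype.val hδ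
    exact h5
  omega

/-- the vectors `w` with `tri F z w = 0` -/
def kH (F : MvPolynomial (Fin 6) k) (z : Fin 6 → E) : Submodule E (Fin 6 → E) where
  carrier := {w | ∀ v, tri F z w v = 0}
  add_mem' := fun {w w'} h h' v => by rw [tri_add2, h, h', add_zero]
  zero_mem' := fun v => tri_zero2 F z v
  smul_mem' := fun c w h v => by rw [tri_smul2, h, mul_zero]

theorem mem_kH {F : MvPolynomial (Fin 6) k} {z w : Fin 6 → E} :
    w ∈ kH F z ↔ ∀ v, tri F z w v = 0 := Iff.rfl

/-- the quadratic form `tri F z` is zero on the tangent hyperplane of `z` -/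
def Eck (F : MvPolynomial (Fin 6) k) (z : Fin 6 → E) : Prop :=
  ∀ u v, tri F z z u = 0 → tri F z z v = 0 → tri F z u v = 0

variable [CharZero k]

/-- a line with constant basis is preserved by all derivations -/
theorem const_st {F : MvPolynomial (Fin 6) k} (x : Ln F k) {x' : Ln F E}
    (hx : ∀ a ∈ x.W, em E a ∈ x'.W) (δ : Derivation k E E) : δ ∈ st x'.W := by
  obtain ⟨a, b, h, hW⟩ := exists_basis x
  have haW : a ∈ x.W := by
    rw [hW]
    exact Submodule.subset_span (by simp)
  have hbW : b ∈ x.W := by
    rw [hW]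
    exact Submodule.subset_span (by simp)
  have hli : LinearIndependent E ![em E a, em E b] := by
    obtain ⟨g, hg⟩ := LinearMap.exists_leftInverse_of_injective
      (Fintype.linearCombination k ![a, b])
      (LinearMap.ker_eq_bot.2 ((linearIndependent_iff_injective_fintypeLinearCombination).1 h))
    have hga : ∀ j j', g (![a, b] j) j' = (Pi.single j 1 : Fin 2 → k) j' := by
      intro j j'
      have h1 := LinearMap.congr_fun hg (Pi.single j 1)
      rw [LinearMap.comp_apply, Fintype.linearCombination_apply_single, one_smul] at h1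
      rw [h1]
      rfl
    have hsum : ∀ (x : Fin 6 → k) (j' : Fin 2), g x j' = ∑ i, g (Pi.single i 1) j' * x i := by
      intro x j'
      conv_lhs => rw [← Finset.univ_sum_single x]
      rw [map_sum, Finset.sum_apply]
      refine Finset.sum_congr rfl fun i _ => ?_
      have h1 : (Pi.single i (x i) : Fin 6 → k) = x i • Pi.single i 1 := by
        rw [← Pi.single_smul, smul_eq_mul, mul_one]
      rw [h1, map_smul, Pi.smul_apply, smul_eq_mul, mul_comm]
    rw [LinearIndependent.pair_iff]
    intro s t hst
    have key : ∀ j' : Fin 2, s * algebraMap k E (g a j') + t * algebraMap k E (g b j') = 0 := by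
      intro j'
      rw [hsum a, hsum b, map_sum, map_sum, Finset.mul_sum, Finset.mul_sum,
        ← Finset.sum_add_distrib]
      refine Finset.sum_eq_zero fun i _ => ?_
      have h1 := congrFun hst i
      simp only [Pi.add_apply, Pi.smul_apply, smul_eq_mul, Pi.zero_apply, em] at h1
      rw [map_mul, map_mul]
      linear_combination algebraMap k E (g (Pi.single i 1) j') * h1
    have k0 := key 0
    have k1 := key 1
    have e00 : g a 0 = 1 := by simpa using hga 0 0
    have e01 : g a 1 = 0 := by simpa using hga 0 1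
    have e10 : g b 0 = 0 := by simpa using hga 1 0
    have e11 : g b 1 = 1 := by simpa using hga 1 1
    rw [e00, e10, map_one, map_zero, mul_one, mul_zero, add_zero] at k0
    rw [e01, e11, map_one, map_zero, mul_one, mul_zero, zero_add] at k1
    exact ⟨k0, k1⟩
  have hle : Submodule.span E {em E a, em E b} ≤ x'.W := by
    rw [Submodule.span_le]
    rintro z (rfl | rfl)
    · exact hx a haW
    · exact hx b hbW
  have heq : x'.W = Submodule.span E {em E a, em E b} := by
    refine (Submodule.eq_of_le_of_finrank_eq hle ?_).symm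
    rw [x'.two]
    have h1 := finrank_span_eq_card hli
    rwa [Matrix.range_cons, Matrix.range_cons, Matrix.range_empty, Set.union_empty,
      Set.singleton_union, Fintype.card_fin] at h1
  rw [heq]
  refine mem_st_span ?_
  rintro z (rfl | rfl)
  · rw [dr_em]
    exact Submodule.zero_mem _
  · rw [dr_em]
    exact Submodule.zero_mem _

end Pool.Agent.CUB.FLN
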