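import Pool.Agent.FLN.Gauss2

/-!
# Points whose tangent hyperplane contains a constant line

Proof of `inc`. If `z ∈ x'.W`: `δ ↦ dr δ z` has values in `x'.W` (`const_st`), its kernel is in
`st ⟨z⟩`. Otherwise `W = x'.W ⊔ ⟨z⟩` has dimension three. For `δ ∈ D` let `θ δ` be the functional
`w ↦ tri z (dr δ z) w`. It vanishes on `x'.W`: `0 = δ (tri z z w) = 2 tri z (dr δ z) w`, since
`dr δ w ∈ x'.W`, and at `z`: `0 = δ (tri z z z) = 3 tri z z (dr δ z)`. The functional `tri z z` is
not zero and vanishes on `W`; let `w₀` be a vector with `tri z z w₀ ≠ 0`. Subtract from `θ δ` the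
multiple of `tri z z` with the same value at `w₀`: this has values in the annihilator of
`W ⊔ ⟨w₀⟩`, of dimension two, and the kernel is in `st ⟨z⟩` by `gauss`.
-/

set_option autoImplicit false

noncomputable section

namespace Pool.Agent.CUB.FLN

open Pool.Agent.ZCyc Pool.Agent.Dess Pool.Agent.GT Module
open scoped Classical

variable {k : Type} [Field k] [IsAlgClosed k] [CharZero k] {F : MvPolynomial (Fin 6) k}
  {E : Type} [Field E] [Algebra k E] [IsAlgClosed E]

omit [IsAlgClosed k] [CharZero k] [IsAlgClosed E] in
/-- the functional `w ↦ tri z y w - (c * tri z y w₀) * tri z z w`, linear in `y` -/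
private def incFun (F : MvPolynomial (Fin 6) k) (z w₀ : Fin 6 → E) (c : E) :
    (Fin 6 → E) →ₗ[E] Dual E (Fin 6 → E) where
  toFun y := trl F z y - (c * tri F z y w₀) • trl F z z
  map_add' y y' := by
    ext w
    simp only [LinearMap.sub_apply, LinearMap.add_apply, LinearMap.smul_apply, smul_eq_mul,
      LinearMap.comp_apply, trl_apply, tri_add2]
    ring
  map_smul' a y := by
    ext w
    simp only [LinearMap.sub_apply, LinearMap.smul_apply, smul_eq_mul, RingHom.id_apply,
      LinearMap.comp_apply, trl_apply, tri_smul2]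
    ring

omit [IsAlgClosed k] [CharZero k] [IsAlgClosed E] in
private theorem incFun_apply (F : MvPolynomial (Fin 6) k) (z w₀ : Fin 6 → E) (c : E)
    (y w : Fin 6 → E) :
    incFun F z w₀ c y w = tri F z y w - (c * tri F z y w₀) * tri F z z w := rfl

private theorem inc_finrank {L V : Type} [Field L] [AddCommGroup V] [Module L V]
    [FiniteDimensional L V] (U : Submodule L V) {v : V} (hv : v ∉ U) :
    finrank L ↥(U ⊔ Submodule.span L {v}) = finrank L U + 1 := by
  have hv0 : v ≠ 0 := by
    rintro rfl
    exact hv U.zero_mem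
  have h1 := Submodule.finrank_sup_add_finrank_inf_eq U (Submodule.span L {v})
  have h2 : U ⊓ Submodule.span L {v} = ⊥ :=
    disjoint_iff.1 ((Submodule.disjoint_span_singleton' hv0).2 hv)
  rw [h2, finrank_bot, finrank_span_singleton hv0] at h1
  omega

theorem inc (hF : Smooth F) (x : Ln F k) {x' : Ln F E} (hx : ∀ a ∈ x.W, em E a ∈ x'.W)
    {z : Fin 6 → E} (hz : z ≠ 0) (h0 : tri F z z z = 0) (h : ∀ w ∈ x'.W, tri F z z w = 0)
    (D : Submodule E (Derivation k E E)) [FiniteDimensional E D] :
    Cod D (st (Submodule.span E {z})) 2 := by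
  have hchE : CharZero E := charZero_of_injective_algebraMap (algebraMap k E).injective
  by_cases hzW : z ∈ x'.W
  · refine cod_of_map (drL z) x'.W (le_of_eq x'.two) (fun δ _ => ?_) fun δ _ hδ => ?_
    · rw [drL_apply]
      exact const_st x hx δ z hzW
    · refine mem_st_span ?_
      rintro y rfl
      rw [drL_apply] at hδ
      rw [hδ]
      exact Submodule.zero_mem _
  · obtain ⟨w₀, hw₀⟩ : ∃ w₀, tri F z z w₀ ≠ 0 := by
      by_contra hcon
      push Not at hcon
      exact hz (tri_ns_all hF hcon)
    set W : Submodule E (Fin 6 → E) := x'.W ⊔ Submodule.span E {z} with hWdef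
    have hWz : ∀ w ∈ W, tri F z z w = 0 := by
      intro w hw
      have h1 : W ≤ LinearMap.ker (trl F z z) := by
        rw [hWdef]
        refine sup_le (fun u hu => ?_) ?_
        · rw [LinearMap.mem_ker]
          exact h u hu
        · rw [Submodule.span_singleton_le_iff_mem, LinearMap.mem_ker]
          exact h0
      exact LinearMap.mem_ker.1 (h1 hw)
    have hw₀W : w₀ ∉ W := fun hw => hw₀ (hWz w₀ hw)
    have hr : finrank E ↥(W ⊔ Submodule.span E {w₀}) = 4 := by
      rw [inc_finrank W hw₀W, hWdef, inc_finrank x'.W hzW, x'.two]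
    have hT : finrank E ↥(W ⊔ Submodule.span E {w₀}).dualAnnihilator = 2 := by
      have h1 := Subspace.finrank_add_finrank_dualAnnihilator_eq
        (W ⊔ Submodule.span E {w₀})
      rw [hr, finrank_fin_fun] at h1
      omega
    refine cod_of_map ((incFun F z w₀ (tri F z z w₀)⁻¹).comp (drL z))
      (W ⊔ Submodule.span E {w₀}).dualAnnihilator hT.le (fun δ _ => ?_) fun δ _ hδ => ?_
    · rw [Submodule.mem_dualAnnihilator, LinearMap.comp_apply, drL_apply]
      have h1 : W ⊔ Submodule.span E {w₀} ≤
          LinearMap.ker (incFun F z w₀ (tri F z z w₀)⁻¹ (dr δ z)) := by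
        rw [hWdef]
        refine sup_le (sup_le (fun u hu => ?_) ?_) ?_
        · rw [LinearMap.mem_ker, incFun_apply, h u hu, mul_zero, sub_zero]
          have h2 := dr_tri F δ z z u
          rw [h u hu, map_zero, tri_swap12 F (dr δ z) z u, h _ (const_st x hx δ u hu)] at h2
          have h3 : (2 : E) * tri F z (dr δ z) u = 0 := by linear_combination -h2
          exact (mul_eq_zero.1 h3).resolve_left two_ne_zero
        · rw [Submodule.span_singleton_le_iff_mem, LinearMap.mem_ker, incFun_apply, h0, mul_zero,
            sub_zero]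
          have h2 := dr_tri F δ z z z
          rw [h0, map_zero, tri_swap12 F (dr δ z) z z, ← tri_swap23 F z (dr δ z) z] at h2
          have h3 : (3 : E) * tri F z (dr δ z) z = 0 := by linear_combination -h2
          exact (mul_eq_zero.1 h3).resolve_left three_ne_zero
        · rw [Submodule.span_singleton_le_iff_mem, LinearMap.mem_ker, incFun_apply]
          field_simp
          ring
      exact fun w hw => LinearMap.mem_ker.1 (h1 hw)
    · rw [LinearMap.comp_apply, drL_apply] at hδ
      refine gauss hF δ hz ((tri F z z w₀)⁻¹ * tri F z (dr δ z) w₀) fun w => ?_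
      have h1 := LinearMap.congr_fun hδ w
      rw [incFun_apply, LinearMap.zero_apply] at h1
      exact sub_eq_zero.1 h1

end Pool.Agent.CUB.FLN
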