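import Pool.Agent.FLN.GenD

/-!
# The second condition for the exchanged pair

Proof of `vg_symm`. Suppose that for every `z ∈ y.W` there is `w ∈ x.W`, `w ≠ 0`, with `tri z z w = 0`, `tri z w w = 0`. Let
`y₀, y₁` be a basis of `y.W`, `z_t = y₀ + t y₁` for `t ∈ E`, `w_t` as above, `w_t = cmb u (s_t)`, `u` a basis of `x`, `s_t ≠ 0`.
`tri w_t w_t z_t = 0` (this is `tri z w w = 0`), `z_t ∈ y.W`, `z_t ≠ 0`, so by `Vg.tan` (`tri w_t w_t` is not zero on `y.W`) `z_t` is
proportional to `ys F (y₀, y₁) w_t ≠ 0`, and `dd F (y₀, y₁) w_t = 0` (from `tri w_t z_t z_t = 0`). The binary quintic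
form `s ↦ dd F (y₀, y₁) (cmb u s)` is not zero by `Vg.fin`, so it has at most five zeros up to proportionality, and
the zero `s_t` (up to proportionality) determines `ys F _ w_t` up to proportionality, so `t`. `E` is infinite.
-/

set_option autoImplicit false

noncomputable section

namespace Pool.Agent.CUB.FLN

open Pool.Agent.ZCyc Pool.Agent.Dess Pool.Agent.GT Module
open scoped Classical

variable {k : Type} [Field k] [IsAlgClosed k] [CharZero k] {F : MvPolynomial (Fin 6) k}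
  {E : Type} [Field E] [Algebra k E] [IsAlgClosed E]

omit [IsAlgClosed k] [CharZero k] [IsAlgClosed E] in
private theorem vgSymm_ys (y₀ y₁ z : Fin 6 → E) :
    ys F ![y₀, y₁] z = tri F z z y₀ • y₁ + (-tri F z z y₁) • y₀ := by
  change tri F z z y₀ • y₁ - tri F z z y₁ • y₀ = _
  rw [neg_smul, sub_eq_add_neg]

omit [IsAlgClosed k] [CharZero k] [IsAlgClosed E] in
private theorem vgSymm_dd (y₀ y₁ z : Fin 6 → E) :
    dd F ![y₀, y₁] z = tri F z z y₀ ^ 2 * tri F z y₁ y₁ -
      2 * tri F z z y₀ * tri F z z y₁ * tri F z y₀ y₁ + tri F z z y₁ ^ 2 * tri F z y₀ y₀ := by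
  unfold dd
  rw [vgSymm_ys]
  simp only [tri_add2, tri_add3, tri_smul2, tri_smul3]
  rw [tri_swap23 F z y₁ y₀]
  ring

omit [IsAlgClosed k] [CharZero k] [IsAlgClosed E] in
/-- the quintic polynomial -/
private theorem vgSymm_poly (F : MvPolynomial (Fin 6) k) (y₀ y₁ u v : Fin 6 → E) :
    ∃ P : Polynomial E, ∀ r : E, P.eval r = dd F ![y₀, y₁] (u + r • v) := by
  let A : (Fin 6 → E) → Polynomial E := fun y => Polynomial.C (tri F u u y) +
    Polynomial.C (2 * tri F u v y) * Polynomial.X + Polynomial.C (tri F v v y) * Polynomial.X ^ 2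
  let B : (Fin 6 → E) → (Fin 6 → E) → Polynomial E := fun y y' => Polynomial.C (tri F u y y') +
    Polynomial.C (tri F v y y') * Polynomial.X
  have hA : ∀ y r, (A y).eval r = tri F (u + r • v) (u + r • v) y := by
    intro y r
    simp only [A, tri_add1, tri_add2, tri_smul1, tri_smul2, Polynomial.eval_add,
      Polynomial.eval_mul, Polynomial.eval_C, Polynomial.eval_X, Polynomial.eval_pow]
    rw [tri_swap12 F v u y]
    ring
  have hB : ∀ y y' r, (B y y').eval r = tri F (u + r • v) y y' := by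
    intro y y' r
    simp only [B, tri_add1, tri_smul1, Polynomial.eval_add, Polynomial.eval_mul,
      Polynomial.eval_C, Polynomial.eval_X]
    ring
  refine ⟨A y₀ ^ 2 * B y₁ y₁ - 2 * A y₀ * A y₁ * B y₀ y₁ + A y₁ ^ 2 * B y₀ y₀, fun r => ?_⟩
  rw [vgSymm_dd]
  simp only [Polynomial.eval_add, Polynomial.eval_sub, Polynomial.eval_mul, Polynomial.eval_pow,
    Polynomial.eval_ofNat, hA, hB]

omit [IsAlgClosed k] [CharZero k] [IsAlgClosed E] in
/-- the point `y₀ + t y₁` is determined by `w` -/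
private theorem vgSymm_det {y₀ y₁ w : Fin 6 → E} {t : E}
    (h0 : ¬ (tri F w w y₀ = 0 ∧ tri F w w y₁ = 0)) (h1 : tri F w w (y₀ + t • y₁) = 0)
    (h2 : tri F w (y₀ + t • y₁) (y₀ + t • y₁) = 0) :
    t = -tri F w w y₀ / tri F w w y₁ ∧ dd F ![y₀, y₁] w = 0 := by
  rw [tri_add3, tri_smul3] at h1
  have h3 : tri F w w y₁ ≠ 0 := by
    intro h
    rw [h, mul_zero, add_zero] at h1
    exact h0 ⟨h1, h⟩
  refine ⟨?_, ?_⟩
  · rw [eq_div_iff h3]
    linear_combination h1
  · have h4 : tri F w w y₀ = -(t * tri F w w y₁) := by linear_combination h1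
    simp only [tri_add2, tri_add3, tri_smul2, tri_smul3] at h2
    rw [tri_swap23 F w y₁ y₀] at h2
    rw [vgSymm_dd, h4]
    linear_combination tri F w w y₁ ^ 2 * h2

omit [IsAlgClosed k] in
private theorem vgSymm_core {x : Ln F E} {y₀ y₁ u v : Fin 6 → E}
    (huv : x.W = Submodule.span E {u, v})
    (ht : ∀ w ∈ x.W, w ≠ 0 → ¬ (tri F w w y₀ = 0 ∧ tri F w w y₁ = 0)) {r₀ : E}
    (hr : dd F ![y₀, y₁] (u + r₀ • v) ≠ 0)
    (h : ∀ t : E, ∃ w ∈ x.W, w ≠ 0 ∧ tri F w w (y₀ + t • y₁) = 0 ∧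
      tri F w (y₀ + t • y₁) (y₀ + t • y₁) = 0) : False := by
  have hE : CharZero E := charZero_of_injective_algebraMap (algebraMap k E).injective
  have hinf : Infinite E := inferInstance
  obtain ⟨P, hP⟩ := vgSymm_poly F y₀ y₁ u v
  have hP0 : P ≠ 0 := by
    intro h0
    have h1 := hP r₀
    rw [h0, Polynomial.eval_zero] at h1
    exact hr h1.symm
  let G : (Fin 6 → E) → E := fun w => -tri F w w y₀ / tri F w w y₁
  have key : (Set.univ : Set E) ⊆ ((fun r : E => G (u + r • v)) '' {r | P.IsRoot r}) ∪ {G v} := by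
    intro t _
    obtain ⟨w, hw, hw0, h1, h2⟩ := h t
    obtain ⟨a, b, hab⟩ := Submodule.mem_span_pair.1 (huv ▸ hw)
    have hmem : ∀ (c : E) (w' : Fin 6 → E), w = c • w' → w' ≠ 0 → w' ∈ x.W →
        t = G w' ∧ dd F ![y₀, y₁] w' = 0 := by
      intro c w' hc hw'0 hw'
      have hc0 : c ≠ 0 := by
        rintro rfl
        exact hw0 (by rw [hc, zero_smul])
      have h3 : tri F w' w' (y₀ + t • y₁) = 0 := by
        rw [hc, tri_smul1, tri_smul2] at h1
        exact ((mul_eq_zero.1 ((mul_eq_zero.1 h1).resolve_left hc0))).resolve_left hc0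
      have h4 : tri F w' (y₀ + t • y₁) (y₀ + t • y₁) = 0 := by
        rw [hc, tri_smul1] at h2
        exact (mul_eq_zero.1 h2).resolve_left hc0
      exact vgSymm_det (ht w' hw' hw'0) h3 h4
    by_cases ha : a = 0
    · right
      rw [ha, zero_smul, zero_add] at hab
      have hv0 : v ≠ 0 := by
        rintro rfl
        exact hw0 (by rw [← hab, smul_zero])
      have hvW : v ∈ x.W := by
        rw [huv]
        exact Submodule.subset_span (by simp)
      exact (hmem b v hab.symm hv0 hvW).1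
    · left
      have e1 : w = a • (u + (b / a) • v) := by
        rw [← hab, smul_add, smul_smul, mul_div_cancel₀ _ ha]
      have hne : u + (b / a) • v ≠ 0 := by
        intro h0
        exact hw0 (by rw [e1, h0, smul_zero])
      have hW : u + (b / a) • v ∈ x.W := by
        rw [huv]
        exact Submodule.add_mem _ (Submodule.subset_span (by simp))
          (Submodule.smul_mem _ _ (Submodule.subset_span (by simp)))
      have h5 := hmem a _ e1 hne hW
      refine ⟨b / a, ?_, h5.1.symm⟩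
      change P.eval (b / a) = 0
      rw [hP, h5.2]
  have hfin : (((fun r : E => G (u + r • v)) '' {r | P.IsRoot r}) ∪ {G v}).Finite :=
    ((Polynomial.finite_setOfPred_isRoot hP0).image _).union (Set.finite_singleton _)
  exact Set.infinite_univ (hfin.subset key)

omit [IsAlgClosed k] in
theorem vg_symm (hF : Smooth F) {x y : Ln F E} (h : Vg x y)
    (ht : ∀ z ∈ y.W, z ≠ 0 → ∃ w ∈ x.W, tri F z z w ≠ 0) : Vg y x := by
  refine ⟨ht, ?_⟩
  by_contra hcon
  push Not at hcon
  obtain ⟨y₀, y₁, hy, hyW⟩ := exists_basis y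
  obtain ⟨a, b, hab, habW⟩ := exists_basis x
  have hy0 : y₀ ∈ y.W := by
    rw [hyW]
    exact Submodule.subset_span (by simp)
  have hy1 : y₁ ∈ y.W := by
    rw [hyW]
    exact Submodule.subset_span (by simp)
  have htan : ∀ w ∈ x.W, w ≠ 0 → ¬ (tri F w w y₀ = 0 ∧ tri F w w y₁ = 0) := by
    rintro w hw hw0 ⟨h0, h1⟩
    obtain ⟨v, hv, hv0⟩ := h.tan w hw hw0
    rw [hyW] at hv
    obtain ⟨s, t, rfl⟩ := Submodule.mem_span_pair.1 hv
    apply hv0
    rw [tri_add3, tri_smul3, tri_smul3, h0, h1, mul_zero, mul_zero, add_zero]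
  have hex : ∀ t : E, ∃ w ∈ x.W, w ≠ 0 ∧ tri F w w (y₀ + t • y₁) = 0 ∧
      tri F w (y₀ + t • y₁) (y₀ + t • y₁) = 0 := by
    intro t
    obtain ⟨w, hw, hw0, h1, h2⟩ := hcon (y₀ + t • y₁)
      (y.W.add_mem hy0 (y.W.smul_mem _ hy1))
    refine ⟨w, hw, hw0, ?_, ?_⟩
    · rw [tri_swap23, tri_swap12]
      exact h2
    · rw [tri_swap12, tri_swap23]
      exact h1
  obtain ⟨z, hz, hzf⟩ := h.fin
  have hz0 : z ≠ 0 := by
    rintro rfl
    have hy0' : y₀ ≠ 0 := hy.ne_zero 0
    exact hzf y₀ hy0 hy0' (tri_zero1 F _ _) (tri_zero1 F _ _)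
  have hzd : dd F ![y₀, y₁] z ≠ 0 := by
    refine hzf (ys F ![y₀, y₁] z) ?_ ?_ ?_
    · rw [vgSymm_ys]
      exact y.W.add_mem (y.W.smul_mem _ hy1) (y.W.smul_mem _ hy0)
    · intro h0
      rw [vgSymm_ys, add_comm] at h0
      obtain ⟨h1, h2⟩ := LinearIndependent.pair_iff.1 hy _ _ h0
      exact htan z hz hz0 ⟨h2, neg_eq_zero.1 h1⟩
    · rw [vgSymm_ys, tri_add3, tri_smul3, tri_smul3]
      ring
  obtain ⟨s, t, hst⟩ := Submodule.mem_span_pair.1 (habW ▸ hz)
  have hdd : ∀ (c : E) (w' : Fin 6 → E), z = c • w' → dd F ![y₀, y₁] w' ≠ 0 := by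
    intro c w' hc h0
    apply hzd
    rw [vgSymm_dd] at h0 ⊢
    rw [hc]
    simp only [tri_smul1, tri_smul2]
    linear_combination c ^ 5 * h0
  by_cases hs : s = 0
  · have hb : z = t • (b + (0 : E) • a) := by
      rw [← hst, hs, zero_smul, zero_add, add_zero]
    refine vgSymm_core (u := b) (v := a) (by rw [habW, Set.pair_comm]) htan
      (hdd t _ hb) hex
  · have hb : z = s • (a + (t / s) • b) := by
      rw [← hst, smul_add, smul_smul, mul_div_cancel₀ _ hs]
    exact vgSymm_core habW htan (hdd s _ hb) hex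

end Pool.Agent.CUB.FLN
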