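import Pool.Agent.FLN.GlFin
import Pool.Agent.FLN.Inc
import Pool.Agent.FLN.VgSymm

/-!
# A generic line is good with respect to constant lines

Proof of `gen_line`. `Vg x' y`: `gl_tan`, `gl_fin`. `Vg y x'` by `vg_symm`: let `z ∈ y.W`, `z ≠ 0`, with `tri z z w = 0` for all
`w ∈ x'.W`. `Cod D (st ⟨z⟩) 2` by `inc`; if `Eck F z`: `Cod D (st y.W) 2` by `eck_thru`; otherwise `thru` for `D ⊓ st ⟨z⟩`:
`Cod D (st y.W) 3`. Both contradict `h`.
-/

set_option autoImplicit false

noncomputable section

namespace Pool.Agent.CUB.FLN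

open Pool.Agent.ZCyc Pool.Agent.Dess Pool.Agent.GT Module
open scoped Classical

variable {k : Type} [Field k] [IsAlgClosed k] [CharZero k] {F : MvPolynomial (Fin 6) k}
  {E : Type} [Field E] [Algebra k E] [IsAlgClosed E]

/-- a line `y` which moves in at least four directions is good with respect to constant lines -/
theorem gen_line (hF : Smooth F) (D : Submodule E (Derivation k E E)) [FiniteDimensional E D]
    {y : Ln F E} (h : finrank E ↥(D ⊓ st y.W) + 4 ≤ finrank E D) (x : Ln F k) {x' : Ln F E}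
    (hx : ∀ a ∈ x.W, em E a ∈ x'.W) : Gp x' y := by
  have hv : Vg x' y := ⟨gl_tan hF D h x hx, gl_fin hF D h x hx⟩
  refine ⟨hv, vg_symm hF hv fun z hz hz0 => ?_⟩
  by_contra hcon
  push Not at hcon
  have h0 : tri F z z z = 0 := Ln.tri_zero hF y hz hz hz
  have c1 : Cod D (st (Submodule.span E {z})) 2 := inc hF x hx hz0 h0 hcon D
  by_cases hE : Eck F z
  · have c2 : Cod D (st y.W) 2 := eck_thru hF hz0 hE hz D
    unfold Cod at c2
    omega
  · have : FiniteDimensional E ↥(D ⊓ st (Submodule.span E {z})) :=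
      Submodule.finiteDimensional_of_le inf_le_left
    have c2 : Cod (D ⊓ st (Submodule.span E {z})) (st y.W) 1 :=
      thru hF hz0 hE hz _ inf_le_right
    have c3 := (c1.trans c2).mono (S' := st y.W) (inf_le_right.trans inf_le_right)
    unfold Cod at c3
    omega

end Pool.Agent.CUB.FLN
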