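import Pool.Agent.FLN.GenA

/-!
# The plane of two incident lines in special position

Proof of `plane_zero`. `dr δ x = μ x`, `dr δ a = σ x + ρ a`; let `b' = dr δ b`. `tri x x b = 0` gives `tri x x b' = 0`; `tri x b b = 0` gives
`tri x b b' = 0`; `tri x a b = 0` gives `tri x a b' = 0` (`tri x (dr δ a) b = 0`); `tri b b b = 0` gives `tri b b b' = 0`. The form
`tri x` on `T / ⟨x⟩` (`T = ker tri x x`, `T / ⟨x⟩` of dimension four) is nondegenerate, because `kH F x = ⊥`: if `tri x u v = 0` for all
`v ∈ T` then `tri x u = c tri x x`, so `u - c x ∈ kH F x`. `⟨a, b⟩` is a totally isotropic plane in it, so it is its own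
orthogonal space, and `b'` is orthogonal to `a`, `b`: `b' = μ' x + ν a + ρ' b`, `ν ≠ 0` because `b' ∉ ⟨x, b⟩`. So
`0 = tri b b b' = ν tri b b a`. Derivative of `tri b b a = 0`: `2 tri b b' a + tri b b (dr δ a) = 0`, the second term is zero, the first
one is `2 ν tri b a a`.
-/

set_option autoImplicit false

noncomputable section

namespace Pool.Agent.CUB.FLN

open Pool.Agent.ZCyc Pool.Agent.Dess Pool.Agent.GT Module
open scoped Classical

variable {k : Type} [Field k] [IsAlgClosed k] [CharZero k] {F : MvPolynomial (Fin 6) k}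
  {E : Type} [Field E] [Algebra k E] [IsAlgClosed E]

/-- the bilinear form `tri F x` -/
private def planeZ_B (F : MvPolynomial (Fin 6) k) (x : Fin 6 → E) :
    LinearMap.BilinForm E (Fin 6 → E) :=
  LinearMap.mk₂ E (tri F x) (fun u v w => tri_add2 F x u v w) (fun c u w => tri_smul2 F c x u w)
    (fun u v w => tri_add3 F x u v w) fun c u w => tri_smul3 F c x u w

omit [IsAlgClosed k] [CharZero k] [IsAlgClosed E] in
private theorem planeZ_B_apply (x u v : Fin 6 → E) : planeZ_B F x u v = tri F x u v := rfl

omit [IsAlgClosed k] [CharZero k] [IsAlgClosed E] in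
/-- a totally isotropic subspace of dimension three is its own orthogonal space -/
private theorem planeZ_mem {x a b : Fin 6 → E} (hli : LinearIndependent E ![x, a, b])
    (hH : kH F x = ⊥) (h1 : tri F x x x = 0) (h2 : tri F x x a = 0) (h3 : tri F x x b = 0)
    (h4 : tri F x a a = 0) (h5 : tri F x a b = 0) (h6 : tri F x b b = 0) {c : Fin 6 → E}
    (e1 : tri F x x c = 0) (e2 : tri F x a c = 0) (e3 : tri F x b c = 0) :
    c ∈ Submodule.span E {x, a, b} := by
  have hr : Set.range ![x, a, b] = {x, a, b} := by
    rw [Matrix.range_cons, Matrix.range_cons, Matrix.range_cons, Matrix.range_empty,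
      Set.union_empty]
    rfl
  have hf : finrank E ↥(Submodule.span E {x, a, b}) = 3 := by
    have h := finrank_span_eq_card hli
    rwa [hr, Fintype.card_fin] at h
  have hmem : ∀ z : Fin 6 → E, tri F x x z = 0 → tri F x a z = 0 → tri F x b z = 0 →
      z ∈ (planeZ_B F x).orthogonal (Submodule.span E {x, a, b}) := by
    intro z z1 z2 z3
    rw [LinearMap.BilinForm.mem_orthogonal_iff]
    intro n hn
    change planeZ_B F x n z = 0
    induction hn using Submodule.span_induction with
    | mem y hy =>
      rcases hy with rfl | rfl | rfl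
      · exact z1
      · exact z2
      · exact z3
    | zero => rw [map_zero, LinearMap.zero_apply]
    | add y y' _ _ hy hy' => rw [map_add, LinearMap.add_apply, hy, hy', add_zero]
    | smul r y _ hy => rw [map_smul, LinearMap.smul_apply, hy, smul_zero]
  have hk : LinearMap.ker (planeZ_B F x) = ⊥ := by
    rw [← hH]
    ext w
    rw [LinearMap.mem_ker, mem_kH]
    constructor
    · intro h v
      have h' := LinearMap.congr_fun h v
      exact h'
    · intro h
      exact LinearMap.ext fun v => h v
  have hle : Submodule.span E {x, a, b} ≤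
      (planeZ_B F x).orthogonal (Submodule.span E {x, a, b}) := by
    rw [Submodule.span_le]
    rintro y (rfl | rfl | rfl)
    · exact hmem _ h1 (by rw [tri_swap23, h2]) (by rw [tri_swap23, h3])
    · exact hmem _ h2 h4 (by rw [tri_swap23, h5])
    · exact hmem _ h3 h5 h6
  have hfin := LinearMap.BilinForm.finrank_add_finrank_orthogonal' (B := planeZ_B F x)
    (Submodule.span E {x, a, b})
  rw [hk, inf_bot_eq, finrank_bot, hf, Module.finrank_fin_fun] at hfin
  have heq := Submodule.eq_of_le_of_finrank_le hle (by omega)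
  rw [heq]
  exact hmem c e1 e2 e3

omit [IsAlgClosed k] [IsAlgClosed E] in
theorem plane_zero (hF : Smooth F) {x a b : Fin 6 → E} (ha : On F x a) (hb : On F x b)
    (hli : LinearIndependent E ![x, a, b]) (hH : kH F x = ⊥) {δ : Derivation k E E}
    (hδx : δ ∈ st (Submodule.span E {x})) (hδa : δ ∈ st (Submodule.span E {x, a}))
    (hδb : dr δ b ∉ Submodule.span E {x, b}) (h0 : tri F x a b = 0) :
    tri F a a b = 0 ∧ tri F a b b = 0 := by
  have hch : CharZero E := charZero_of_injective_algebraMap (algebraMap k E).injective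
  obtain ⟨μ, hμ⟩ := Submodule.mem_span_singleton.1
    (mem_st.1 hδx x (Submodule.mem_span_singleton_self x))
  obtain ⟨σ, ρ, hσ⟩ := Submodule.mem_span_pair.1
    (mem_st.1 hδa a (Submodule.subset_span (by simp)))
  have hxb := hb.xxa
  have hbb := hb.xaa
  -- the four derivatives
  have d1 := dr_tri F δ x x b
  rw [hxb, map_zero, ← hμ, tri_smul1, tri_smul2, hxb, mul_zero, zero_add, zero_add] at d1
  have d2 := dr_tri F δ x b b
  rw [hbb, map_zero, ← hμ, tri_smul1, hbb, mul_zero, zero_add, tri_swap23 F x (dr δ b) b] at d2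
  have e2 : tri F x b (dr δ b) = 0 := by
    have h2 : (2 : E) * tri F x b (dr δ b) = 0 := by linear_combination -d2
    exact (mul_eq_zero.1 h2).resolve_left two_ne_zero
  have d3 := dr_tri F δ x a b
  rw [h0, map_zero, ← hμ, tri_smul1, h0, mul_zero, zero_add, ← hσ, tri_add2, tri_smul2,
    tri_smul2, hxb, h0, mul_zero, mul_zero, add_zero, zero_add] at d3
  have d4 := dr_tri F δ b b b
  have e4 : tri F b b (dr δ b) = 0 := by
    rw [hb.aaa, map_zero, tri_swap12 F (dr δ b) b b, tri_swap23 F b (dr δ b) b] at d4
    have h3 : (3 : E) * tri F b b (dr δ b) = 0 := by linear_combination -d4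
    exact (mul_eq_zero.1 h3).resolve_left three_ne_zero
  have hm := planeZ_mem hli hH hb.xxx ha.xxa hxb ha.xaa h0 hbb d1.symm d3.symm e2
  obtain ⟨μ', y, hy, hb'⟩ := Submodule.mem_span_insert.1 hm
  obtain ⟨ν, ρ', rfl⟩ := Submodule.mem_span_pair.1 hy
  have hν : ν ≠ 0 := by
    rintro rfl
    apply hδb
    rw [hb', zero_smul, zero_add]
    exact Submodule.mem_span_pair.2 ⟨μ', ρ', rfl⟩
  have habb : tri F a b b = 0 := by
    rw [hb', tri_add3, tri_smul3, tri_add3, tri_smul3, tri_smul3, hb.aaa,
      tri_swap23 F b b x, tri_swap12 F b x b, hbb, mul_zero, mul_zero, zero_add, add_zero] at e4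
    have h1 := (mul_eq_zero.1 e4).resolve_left hν
    rwa [tri_swap23, tri_swap12] at h1
  refine ⟨?_, habb⟩
  have d5 := dr_tri F δ a b b
  rw [habb, map_zero, ← hσ, tri_add1, tri_smul1, tri_smul1, hbb, habb, mul_zero, mul_zero,
    add_zero, zero_add, tri_swap23 F a (dr δ b) b, hb', tri_add3, tri_smul3, tri_add3, tri_smul3,
    tri_smul3, habb, mul_zero, add_zero, tri_swap23 F a b x, tri_swap12 F a x b, h0, mul_zero,
    zero_add, tri_swap23 F a b a] at d5
  have h2 : (2 * ν) * tri F a a b = 0 := by linear_combination -d5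
  exact (mul_eq_zero.1 h2).resolve_left (mul_ne_zero two_ne_zero hν)

end Pool.Agent.CUB.FLN
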