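import Pool.Agent.FLN.GenA

/-!
# The third line

`ft F x a`: the line `⟨x, a⟩` is of the first type.

`exists_third`. `C = {e | δ e = 0}` is a subfield of `E`, algebraically closed in `E` (as in `gauss`), it contains the
coordinates of `x, a, b`, not `t`. The subspace `U = {v | tri x x v = tri x a v = tri x b v = 0}` of `E ^ 6` is defined by
equations over `C`; the three functionals are independent (`x, a, b` are independent and `kH F x = ⊥`), so `dim U = 3`, and `U`
has a basis `x, w, w'` with coordinates in `C` (`x ∈ U`). `v t = w + t w'`.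
* `A = tri a a (v t) = tri a a w + t tri a a w' ≠ 0`: otherwise `tri a a w = tri a a w' = 0` (both in `C`, `t ∉ C`), and
  `tri a a x = 0`, so `tri a a = 0` on `U`, so `tri a a = l₁ tri x x + l₂ tri x a + l₃ tri x b`; at `a`: `0 = l₃ tri x b a`, so `l₃ = 0`,
  contradiction to `ft F x a`. In the same way `B = tri b b (v t) ≠ 0`.
* `q = tri x (v t) (v t) ≠ 0`: it is a polynomial in `t` over `C`; `t` is transcendental over `C`; if it is the zero polynomial then
  `tri x` is zero on `⟨w, w'⟩`, so `tri x w v = 0` for all `v` in `⟨x, a, b, w, w'⟩ = ker tri x x` (dimension five; independent because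
  `tri x a b ≠ 0`), so `w - c x ∈ kH F x` for some `c`, contradiction.
* `γ = tri x a b`, `c₂ = - q / (2 γ) ≠ 0`. For `c = s² a + c₂ b + s (v t)`: `tri x x c = 0`, `tri x c c = 2 s² c₂ γ + s² q = 0`.
  `tri c c c` is a polynomial in `s` of degree at most six, the coefficients of `s⁶` and `s⁰` are `tri a a a = 0`, `c₂³ tri b b b = 0`, the
  coefficients of `s⁵`, `s¹` are `3 A`, `3 c₂² B`, not zero. So it has a root `s ≠ 0`.
* `tri x b c = s² γ`, `tri x a c = c₂ γ`; the number in `k1` is `c₂ γ tri a a b - γ (c₂ tri a a b + s A) = - s γ A`, the one in `k2` is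
  `s² γ tri a b b - γ (s² tri a b b + s B) = - s γ B`.
* `x, a, b, v t, w'` are independent, so `x, a, b, c` are independent, and `dr δ c = (..) a + (..) b + (δ s) (v t) + s w'` is not in
  `⟨x, a, b, c⟩ = ⟨x, a, b, v t⟩`.

`third_k3`. If the number in `k3` is zero there is `u = n a + r b ≠ 0` with `tri x c u = 0`, `tri c c u = 0` (the `2 x 2` determinant of these two
functionals on `⟨a, b⟩`). `{v | tri x x v = tri x c v = tri c c v = 0}` has dimension three by `ft F x c`, it contains `x`, `c`, `u`
(independent), and `dr δ c` (`δ` of `tri x x c = tri x c c = tri c c c = 0`, `dr δ x = 0`). So `dr δ c ∈ ⟨x, c, u⟩`.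
-/

set_option autoImplicit false

noncomputable section

namespace Pool.Agent.CUB.FLN

open Pool.Agent.ZCyc Pool.Agent.Dess Pool.Agent.GT Module
open scoped Classical

variable {k : Type} [Field k] [IsAlgClosed k] [CharZero k] {F : MvPolynomial (Fin 6) k}
  {E : Type} [Field E] [Algebra k E] [IsAlgClosed E]

/-- the line `⟨x, a⟩` is of the first type -/
def ft (F : MvPolynomial (Fin 6) k) (x a : Fin 6 → E) : Prop :=
  LinearIndependent E ![trl F x x, trl F x a, trl F a a]

section linear

variable {L : Type} [Field L]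

private theorem third_li3 {p q r : Fin 6 → L}
    (h : ∀ c₁ c₂ c₃ : L, c₁ • p + c₂ • q + c₃ • r = 0 → c₁ = 0 ∧ c₂ = 0 ∧ c₃ = 0) :
    LinearIndependent L ![p, q, r] := by
  rw [Fintype.linearIndependent_iff]
  intro g hg
  rw [Fin.sum_univ_three] at hg
  obtain ⟨h0, h1, h2⟩ := h (g 0) (g 1) (g 2) hg
  intro i
  fin_cases i
  · exact h0
  · exact h1
  · exact h2

private theorem third_li3' {p q r : Fin 6 → L} (h : LinearIndependent L ![p, q, r])
    {c₁ c₂ c₃ : L} (h' : c₁ • p + c₂ • q + c₃ • r = 0) : c₁ = 0 ∧ c₂ = 0 ∧ c₃ = 0 := by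
  rw [Fintype.linearIndependent_iff] at h
  have h1 := h ![c₁, c₂, c₃] (by rw [Fin.sum_univ_three]; exact h')
  exact ⟨h1 0, h1 1, h1 2⟩

private theorem third_li4 {p q r s : Fin 6 → L}
    (h : ∀ c₁ c₂ c₃ c₄ : L, c₁ • p + c₂ • q + c₃ • r + c₄ • s = 0 →
      c₁ = 0 ∧ c₂ = 0 ∧ c₃ = 0 ∧ c₄ = 0) : LinearIndependent L ![p, q, r, s] := by
  rw [Fintype.linearIndependent_iff]
  intro g hg
  rw [Fin.sum_univ_four] at hg
  obtain ⟨h0, h1, h2, h3⟩ := h (g 0) (g 1) (g 2) (g 3) hg
  intro i
  fin_cases i
  · exact h0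
  · exact h1
  · exact h2
  · exact h3

private theorem third_li4' {p q r s : Fin 6 → L} (h : LinearIndependent L ![p, q, r, s])
    {c₁ c₂ c₃ c₄ : L} (h' : c₁ • p + c₂ • q + c₃ • r + c₄ • s = 0) :
    c₁ = 0 ∧ c₂ = 0 ∧ c₃ = 0 ∧ c₄ = 0 := by
  rw [Fintype.linearIndependent_iff] at h
  have h1 := h ![c₁, c₂, c₃, c₄] (by rw [Fin.sum_univ_four]; exact h')
  exact ⟨h1 0, h1 1, h1 2, h1 3⟩

private theorem third_li5 {p q r s t : Fin 6 → L}
    (h : ∀ c₁ c₂ c₃ c₄ c₅ : L, c₁ • p + c₂ • q + c₃ • r + c₄ • s + c₅ • t = 0 →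
      c₁ = 0 ∧ c₂ = 0 ∧ c₃ = 0 ∧ c₄ = 0 ∧ c₅ = 0) :
    LinearIndependent L ![p, q, r, s, t] := by
  rw [Fintype.linearIndependent_iff]
  intro g hg
  rw [Fin.sum_univ_five] at hg
  obtain ⟨h0, h1, h2, h3, h4⟩ := h (g 0) (g 1) (g 2) (g 3) (g 4) hg
  intro i
  fin_cases i
  · exact h0
  · exact h1
  · exact h2
  · exact h3
  · exact h4

/-- the vectors on which all functionals of a family vanish -/
private theorem third_mem_co {m : ℕ} {g : Fin m → Module.Dual L (Fin 6 → L)} {v : Fin 6 → L} :
    v ∈ Submodule.dualCoannihilator (Submodule.span L (Set.range g)) ↔ ∀ i, g i v = 0 := by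
  rw [Submodule.mem_dualCoannihilator]
  constructor
  · intro h i
    exact h _ (Submodule.subset_span ⟨i, rfl⟩)
  · intro h φ hφ
    induction hφ using Submodule.span_induction with
    | mem φ hφ =>
      obtain ⟨i, rfl⟩ := hφ
      exact h i
    | zero => rfl
    | add φ ψ _ _ h1 h2 => rw [LinearMap.add_apply, h1, h2, add_zero]
    | smul c φ _ h1 => rw [LinearMap.smul_apply, h1, smul_zero]

private theorem third_finrank_co {m : ℕ} {g : Fin m → Module.Dual L (Fin 6 → L)}
    (hg : LinearIndependent L g) :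
    m + finrank L (Submodule.dualCoannihilator (Submodule.span L (Set.range g))) = 6 := by
  have h1 : finrank L (Submodule.span L (Set.range g)) = m := by
    rw [finrank_span_eq_card hg, Fintype.card_fin]
  have h5 := Subspace.finrank_add_finrank_dualCoannihilator_eq (Submodule.span L (Set.range g))
  have h6 : finrank L (Fin 6 → L) = 6 := by simp
  omega

private theorem third_le {m n : ℕ} {g : Fin m → Module.Dual L (Fin 6 → L)}
    (hg : LinearIndependent L g) {v : Fin n → Fin 6 → L} (hv : LinearIndependent L v)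
    (h : ∀ i j, g i (v j) = 0) : m + n ≤ 6 := by
  have h2 : Submodule.span L (Set.range v) ≤
      Submodule.dualCoannihilator (Submodule.span L (Set.range g)) := by
    rw [Submodule.span_le]
    rintro _ ⟨j, rfl⟩
    exact third_mem_co.2 fun i => h i j
  have h3 := Submodule.finrank_mono h2
  have h4 : finrank L (Submodule.span L (Set.range v)) = n := by
    rw [finrank_span_eq_card hv, Fintype.card_fin]
  have h5 := third_finrank_co hg
  omega

private theorem third_mem {m n : ℕ} (hmn : m + n = 6) {g : Fin m → Module.Dual L (Fin 6 → L)}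
    (hg : LinearIndependent L g) {v : Fin n → Fin 6 → L} (hv : LinearIndependent L v)
    (h : ∀ i j, g i (v j) = 0) {u : Fin 6 → L} (hu : ∀ i, g i u = 0) :
    u ∈ Submodule.span L (Set.range v) := by
  by_contra hcon
  have h1 := third_le hg (hv.finSnoc hcon) (fun i j => by
    refine Fin.lastCases ?_ (fun j => ?_) j
    · rw [Fin.snoc_last]
      exact hu i
    · rw [Fin.snoc_castSucc]
      exact h i j)
  omega

end linear

omit [IsAlgClosed k] [CharZero k] in
/-- A subspace which is stable under `dr δ` is generated by its constant vectors. -/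
private theorem third_const {E : Type} [Field E] [Algebra k E] (δ : Derivation k E E)
    (U : Submodule E (Fin 6 → E)) (h : ∀ u ∈ U, dr δ u ∈ U) :
    ∀ (n : ℕ) (u : Fin 6 → E), u ∈ U → (Finset.univ.filter fun i => u i ≠ 0).card ≤ n →
      u ∈ Submodule.span E {v | v ∈ U ∧ dr δ v = 0} := by
  intro n
  induction n with
  | zero =>
    intro u _ hn
    have h0 : u = 0 := by
      funext i
      by_contra hi
      have h1 : i ∈ Finset.univ.filter fun i => u i ≠ 0 := by
        rw [Finset.mem_filter]
        exact ⟨Finset.mem_univ _, hi⟩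
      rw [Nat.le_zero, Finset.card_eq_zero] at hn
      rw [hn] at h1
      exact absurd h1 (Finset.notMem_empty _)
    rw [h0]
    exact Submodule.zero_mem _
  | succ n ih =>
    intro u hu hn
    by_cases h0 : u = 0
    · rw [h0]
      exact Submodule.zero_mem _
    obtain ⟨i, hi⟩ : ∃ i, u i ≠ 0 := by
      by_contra h2
      push Not at h2
      exact h0 (funext h2)
    set u₁ : Fin 6 → E := (u i)⁻¹ • u with hu₁
    have hu₁U : u₁ ∈ U := U.smul_mem _ hu
    have hu₁i : u₁ i = 1 := inv_mul_cancel₀ hi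
    have hz : ∀ j, u₁ j = 0 ↔ u j = 0 := by
      intro j
      rw [hu₁, Pi.smul_apply, smul_eq_mul, mul_eq_zero, inv_eq_zero]
      exact or_iff_right hi
    -- smaller support
    have small : ∀ (w : Fin 6 → E) (l : Fin 6), u l ≠ 0 → w l = 0 → (∀ j, u j = 0 → w j = 0) →
        (Finset.univ.filter fun i => w i ≠ 0).card ≤ n := by
      intro w l hl hwl hw
      have h1 : (Finset.univ.filter fun i => w i ≠ 0) ⊆
          (Finset.univ.filter fun i => u i ≠ 0).erase l := by
        intro j hj
        rw [Finset.mem_filter] at hj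
        rw [Finset.mem_erase, Finset.mem_filter]
        refine ⟨?_, Finset.mem_univ _, fun h2 => hj.2 (hw j h2)⟩
        rintro rfl
        exact hj.2 hwl
      have h2 := Finset.card_le_card h1
      have h3 : l ∈ Finset.univ.filter fun i => u i ≠ 0 := by
        rw [Finset.mem_filter]
        exact ⟨Finset.mem_univ _, hl⟩
      rw [Finset.card_erase_of_mem h3] at h2
      omega
    set d := dr δ u₁ with hd
    have hdU : d ∈ U := h u₁ hu₁U
    have hdi : d i = 0 := by
      rw [hd, dr, hu₁i]
      exact Derivation.map_one_eq_zero δ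
    have hdz : ∀ j, u j = 0 → d j = 0 := by
      intro j hj
      rw [hd, dr, (hz j).2 hj]
      exact map_zero δ
    have hdV := ih d hdU (small d i hi hdi hdz)
    have hu₁V : u₁ ∈ Submodule.span E {v | v ∈ U ∧ dr δ v = 0} := by
      by_cases hd0 : d = 0
      · exact Submodule.subset_span ⟨hu₁U, hd0⟩
      · obtain ⟨j, hj⟩ : ∃ j, d j ≠ 0 := by
          by_contra h2
          push Not at h2
          exact hd0 (funext h2)
        have huj : u j ≠ 0 := fun h2 => hj (hdz j h2)
        have h3 := ih (u₁ - (u₁ j / d j) • d) (U.sub_mem hu₁U (U.smul_mem _ hdU))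
          (small _ j huj (by
            rw [Pi.sub_apply, Pi.smul_apply, smul_eq_mul, div_mul_cancel₀ _ hj, sub_self])
            (fun l hl => by
              rw [Pi.sub_apply, Pi.smul_apply, smul_eq_mul, hdz l hl, (hz l).2 hl, mul_zero,
                sub_zero]))
        have h4 : u₁ = (u₁ - (u₁ j / d j) • d) + (u₁ j / d j) • d := (sub_add_cancel _ _).symm
        rw [h4]
        exact Submodule.add_mem _ h3 (Submodule.smul_mem _ _ hdV)
    have h5 : u = u i • u₁ := by
      rw [hu₁, smul_smul, mul_inv_cancel₀ hi, one_smul]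
    rw [h5]
    exact Submodule.smul_mem _ _ hu₁V

omit [IsAlgClosed k] [CharZero k] [IsAlgClosed E] in
private theorem third_kH {x : Fin 6 → E} (hH : kH F x = ⊥) {y : Fin 6 → E}
    (h : ∀ v, tri F x y v = 0) : y = 0 := by
  have h1 : y ∈ kH F x := h
  rw [hH] at h1
  exact (Submodule.mem_bot E).1 h1

omit [IsAlgClosed k] [CharZero k] [IsAlgClosed E] in
/-- `v`, `w'` with constant coordinates, and the derivative of a quadratic expression in `t` -/
private theorem third_d {δ : Derivation k E E} {p q w : Fin 6 → E} (hp : dr δ p = 0)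
    (hq : dr δ q = 0) (hw : dr δ w = 0) : δ (tri F p q w) = 0 := by
  rw [dr_tri, hp, hq, hw, tri_zero1, tri_zero2, tri_zero3, add_zero, add_zero]

omit [IsAlgClosed k] [IsAlgClosed E] in
/-- the constant basis of `U` -/
private theorem third_basis {x a b : Fin 6 → E} (ha : On F x a) (hb : On F x b)
    (hli : LinearIndependent E ![x, a, b]) (hH : kH F x = ⊥)
    {δ : Derivation k E E} (hx : dr δ x = 0) (hda : dr δ a = 0) (hdb : dr δ b = 0) :
    ∃ w w' : Fin 6 → E, dr δ w = 0 ∧ dr δ w' = 0 ∧ LinearIndependent E ![x, w, w'] ∧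
      (tri F x x w = 0 ∧ tri F x a w = 0 ∧ tri F x b w = 0) ∧
      tri F x x w' = 0 ∧ tri F x a w' = 0 ∧ tri F x b w' = 0 := by
  set g : Fin 3 → Module.Dual E (Fin 6 → E) := ![trl F x x, trl F x a, trl F x b] with hg
  have hgli : LinearIndependent E g := by
    rw [Fintype.linearIndependent_iff]
    intro c hc
    rw [Fin.sum_univ_three] at hc
    have h1 : c 0 • x + c 1 • a + c 2 • b = 0 := by
      refine third_kH hH fun v => ?_
      rw [tri_add2, tri_add2, tri_smul2, tri_smul2, tri_smul2]
      exact LinearMap.congr_fun hc v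
    obtain ⟨h2, h3, h4⟩ := third_li3' hli h1
    intro i
    fin_cases i
    · exact h2
    · exact h3
    · exact h4
  set U : Submodule E (Fin 6 → E) :=
    Submodule.dualCoannihilator (Submodule.span E (Set.range g)) with hU
  have hmem : ∀ v, v ∈ U ↔ tri F x x v = 0 ∧ tri F x a v = 0 ∧ tri F x b v = 0 := by
    intro v
    rw [hU, third_mem_co]
    constructor
    · intro h
      exact ⟨h 0, h 1, h 2⟩
    · rintro ⟨h0, h1, h2⟩ i
      fin_cases i
      · exact h0
      · exact h1
      · exact h2
  have hfin : finrank E U = 3 := by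
    have h1 : 3 + finrank E U = 6 := third_finrank_co hgli
    omega
  have hst : ∀ u ∈ U, dr δ u ∈ U := by
    intro u hu
    rw [hmem] at hu ⊢
    obtain ⟨h0, h1, h2⟩ := hu
    have e0 := dr_tri F δ x x u
    have e1 := dr_tri F δ x a u
    have e2 := dr_tri F δ x b u
    rw [h0, map_zero, hx, tri_zero1, tri_zero2, zero_add, zero_add] at e0
    rw [h1, map_zero, hx, hda, tri_zero1, tri_zero2, zero_add, zero_add] at e1
    rw [h2, map_zero, hx, hdb, tri_zero1, tri_zero2, zero_add, zero_add] at e2
    exact ⟨e0.symm, e1.symm, e2.symm⟩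
  have hspan : ∀ u ∈ U, u ∈ Submodule.span E {v | v ∈ U ∧ dr δ v = 0} :=
    fun u hu => third_const δ U hst _ u hu le_rfl
  have hx0 : x ≠ 0 := by
    intro h
    have h1 := third_li3' hli (c₁ := 1) (c₂ := 0) (c₃ := 0) (by rw [h]; simp)
    exact one_ne_zero h1.1
  have hxli : LinearIndependent E (![x] : Fin 1 → Fin 6 → E) := by
    rw [Fintype.linearIndependent_iff]
    intro c hc i
    rw [Fin.sum_univ_one] at hc
    fin_cases i
    exact (smul_eq_zero.1 hc).resolve_right hx0
  -- a further constant vector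
  have step : ∀ (n : ℕ) (v : Fin n → Fin 6 → E), n < 3 → LinearIndependent E v →
      ∃ w, (w ∈ U ∧ dr δ w = 0) ∧ w ∉ Submodule.span E (Set.range v) := by
    intro n v hn hv
    by_contra hcon
    push Not at hcon
    have h1 : U ≤ Submodule.span E (Set.range v) := by
      intro u hu
      have h2 : Submodule.span E {v | v ∈ U ∧ dr δ v = 0} ≤ Submodule.span E (Set.range v) := by
        rw [Submodule.span_le]
        intro w hw
        exact hcon w hw
      exact h2 (hspan u hu)
    have h3 := Submodule.finrank_mono h1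
    rw [finrank_span_eq_card hv, Fintype.card_fin] at h3
    omega
  obtain ⟨w, ⟨hwU, hdw⟩, hw⟩ := step 1 ![x] (by norm_num) hxli
  have hli2 : LinearIndependent E ![x, w] := by
    have h1 := hxli.finSnoc hw
    have h2 : (Fin.snoc (![x] : Fin 1 → Fin 6 → E) w : Fin 2 → Fin 6 → E) = ![x, w] := by
      funext i
      fin_cases i <;> rfl
    rw [h2] at h1
    exact h1
  obtain ⟨w', ⟨hwU', hdw'⟩, hw'⟩ := step 2 ![x, w] (by norm_num) hli2
  have hli3 : LinearIndependent E ![x, w, w'] := by
    have h1 := hli2.finSnoc hw'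
    have h2 : (Fin.snoc (![x, w] : Fin 2 → Fin 6 → E) w' : Fin 3 → Fin 6 → E) = ![x, w, w'] := by
      funext i
      fin_cases i <;> rfl
    rw [h2] at h1
    exact h1
  exact ⟨w, w', hdw, hdw', hli3, (hmem w).1 hwU, (hmem w').1 hwU'⟩

omit [IsAlgClosed k] [IsAlgClosed E] in
/-- `tri a a (w + t w') ≠ 0` -/
private theorem third_A {x a b w w' : Fin 6 → E} {t : E} (ha : On F x a)
    (h0 : tri F x a b ≠ 0) (hfa : ft F x a) {δ : Derivation k E E} (hda : dr δ a = 0)
    (hdw : dr δ w = 0) (hdw' : dr δ w' = 0) (ht : δ t = 1)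
    (hli : LinearIndependent E ![x, w, w']) (hbx : tri F x b x = 0)
    (hw : tri F x x w = 0 ∧ tri F x a w = 0 ∧ tri F x b w = 0)
    (hw' : tri F x x w' = 0 ∧ tri F x a w' = 0 ∧ tri F x b w' = 0) :
    tri F a a w + t * tri F a a w' ≠ 0 := by
  intro hA
  have h1 := congrArg δ hA
  rw [map_add, Derivation.leibniz, third_d hda hda hdw, third_d hda hda hdw', ht, map_zero,
    smul_zero, zero_add, zero_add, smul_eq_mul, mul_one] at h1
  have h2 : tri F a a w = 0 := by
    rw [h1, mul_zero, add_zero] at hA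
    exact hA
  have h3 : a ∈ Submodule.span E (Set.range ![x, w, w']) := by
    refine third_mem (m := 3) (n := 3) rfl hfa hli ?_ ?_
    · intro i j
      fin_cases i <;> fin_cases j
      · exact ha.xxx
      · exact hw.1
      · exact hw'.1
      · exact (tri_swap23 F x a x).trans ha.xxa
      · exact hw.2.1
      · exact hw'.2.1
      · exact ((tri_swap23 F a a x).trans (tri_swap12 F a x a)).trans ha.xaa
      · exact h2
      · exact h1
    · intro i
      fin_cases i
      · exact ha.xxa
      · exact ha.xaa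
      · exact ha.aaa
  have h4 : Submodule.span E (Set.range ![x, w, w']) ≤ LinearMap.ker (trl F x b) := by
    rw [Submodule.span_le]
    rintro _ ⟨j, rfl⟩
    rw [SetLike.mem_coe, LinearMap.mem_ker]
    fin_cases j
    · exact hbx
    · exact hw.2.2
    · exact hw'.2.2
  have h5 := LinearMap.mem_ker.1 (h4 h3)
  exact h0 ((tri_swap23 F x a b).trans h5)

omit [IsAlgClosed k] [IsAlgClosed E] in
/-- `tri x (w + t w') (w + t w') ≠ 0` -/
private theorem third_q {x a b w w' : Fin 6 → E} {t : E} (ha : On F x a) (hb : On F x b)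
    (hH : kH F x = ⊥) (h0 : tri F x a b ≠ 0) {δ : Derivation k E E} (hx : dr δ x = 0)
    (hdw : dr δ w = 0) (hdw' : dr δ w' = 0) (ht : δ t = 1)
    (hli : LinearIndependent E ![x, w, w'])
    (hw : tri F x x w = 0 ∧ tri F x a w = 0 ∧ tri F x b w = 0)
    (hw' : tri F x x w' = 0 ∧ tri F x a w' = 0 ∧ tri F x b w' = 0) :
    tri F x w w + 2 * (t * tri F x w w') + t * t * tri F x w' w' ≠ 0 := by
  have hch : CharZero E := charZero_of_injective_algebraMap (algebraMap k E).injective
  intro hq
  have h1 := congrArg δ hq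
  have e2 : δ (2 : E) = 0 := by
    have h2 := δ.map_algebraMap (2 : k)
    rwa [map_ofNat] at h2
  simp only [map_add, Derivation.leibniz, third_d hx hdw hdw, third_d hx hdw hdw',
    third_d hx hdw' hdw', ht, e2, map_zero, smul_zero, zero_add, add_zero, smul_eq_mul,
    mul_one, mul_zero] at h1
  have h2 := congrArg δ h1
  simp only [map_add, Derivation.leibniz, third_d hx hdw hdw, third_d hx hdw hdw',
    third_d hx hdw' hdw', ht, e2, map_zero, smul_zero, zero_add, add_zero, smul_eq_mul,
    mul_one, mul_zero] at h2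
  have h3 : tri F x w' w' = 0 := by
    have h4 : (2 : E) * tri F x w' w' = 0 := by linear_combination h2
    exact (mul_eq_zero.1 h4).resolve_left two_ne_zero
  have h5 : tri F x w w' = 0 := by
    have h4 : (2 : E) * tri F x w w' = 0 := by linear_combination h1 - 2 * t * h3
    exact (mul_eq_zero.1 h4).resolve_left two_ne_zero
  have h6 : tri F x w w = 0 := by linear_combination hq - 2 * t * h5 - t * t * h3
  -- the two functionals
  have hg : LinearIndependent E (![trl F x x, trl F x w] : Fin 2 → Module.Dual E (Fin 6 → E)) := by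
    rw [Fintype.linearIndependent_iff]
    intro c hc
    rw [Fin.sum_univ_two] at hc
    have h7 : c 0 • x + c 1 • w + (0 : E) • w' = 0 := by
      rw [zero_smul, add_zero]
      refine third_kH hH fun v => ?_
      rw [tri_add2, tri_smul2, tri_smul2]
      exact LinearMap.congr_fun hc v
    obtain ⟨h8, h9, -⟩ := third_li3' hli h7
    intro i
    fin_cases i
    · exact h8
    · exact h9
  -- the five vectors
  have hv : LinearIndependent E ![x, a, b, w, w'] := by
    refine third_li5 fun c₁ c₂ c₃ c₄ c₅ hc => ?_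
    have e1 := congrArg (fun v => tri F x a v) hc
    have e2 := congrArg (fun v => tri F x b v) hc
    simp only [tri_add3, tri_smul3, tri_zero3] at e1 e2
    rw [(tri_swap23 F x a x).trans ha.xxa, ha.xaa, hw.2.1, hw'.2.1] at e1
    rw [(tri_swap23 F x b x).trans hb.xxa, hb.xaa, hw.2.2, hw'.2.2, tri_swap23 F x b a] at e2
    have h7 : c₃ = 0 := by
      have h8 : c₃ * tri F x a b = 0 := by linear_combination e1
      exact (mul_eq_zero.1 h8).resolve_right h0
    have h9 : c₂ = 0 := by
      have h8 : c₂ * tri F x a b = 0 := by linear_combination e2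
      exact (mul_eq_zero.1 h8).resolve_right h0
    rw [h7, h9, zero_smul, zero_smul, add_zero, add_zero] at hc
    obtain ⟨h10, h11, h12⟩ := third_li3' hli hc
    exact ⟨h10, h9, h7, h11, h12⟩
  have h7 := third_le hg hv (fun i j => by
    fin_cases i <;> fin_cases j
    · exact ha.xxx
    · exact ha.xxa
    · exact hb.xxa
    · exact hw.1
    · exact hw'.1
    · exact (tri_swap23 F x w x).trans hw.1
    · exact (tri_swap23 F x w a).trans hw.2.1
    · exact (tri_swap23 F x w b).trans hw.2.2
    · exact h6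
    · exact h5)
  omega

omit [IsAlgClosed k] [CharZero k] [IsAlgClosed E] in
/-- the cube of a combination of three vectors -/
private theorem third_cube (a b v : Fin 6 → E) (p q s : E) (haaa : tri F a a a = 0)
    (hbbb : tri F b b b = 0) :
    tri F (p • a + q • b + s • v) (p • a + q • b + s • v) (p • a + q • b + s • v) =
      3 * p ^ 2 * q * tri F a a b + 3 * p ^ 2 * s * tri F a a v + 3 * p * q ^ 2 * tri F a b b +
      6 * p * q * s * tri F a b v + 3 * p * s ^ 2 * tri F a v v + 3 * q ^ 2 * s * tri F b b v +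
      3 * q * s ^ 2 * tri F b v v + s ^ 3 * tri F v v v := by
  have a1 : tri F a b a = tri F a a b := tri_swap23 F a b a
  have a2 : tri F b a a = tri F a a b := (tri_swap12 F b a a).trans a1
  have a3 : tri F a v a = tri F a a v := tri_swap23 F a v a
  have a4 : tri F v a a = tri F a a v := (tri_swap12 F v a a).trans a3
  have a5 : tri F b a b = tri F a b b := tri_swap12 F b a b
  have a6 : tri F b b a = tri F a b b := (tri_swap23 F b b a).trans a5
  have a7 : tri F b v b = tri F b b v := tri_swap23 F b v b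
  have a8 : tri F v b b = tri F b b v := (tri_swap12 F v b b).trans a7
  have a9 : tri F v a v = tri F a v v := tri_swap12 F v a v
  have b1 : tri F v v a = tri F a v v := (tri_swap23 F v v a).trans a9
  have b2 : tri F v b v = tri F b v v := tri_swap12 F v b v
  have b3 : tri F v v b = tri F b v v := (tri_swap23 F v v b).trans b2
  have b4 : tri F a v b = tri F a b v := tri_swap23 F a v b
  have b5 : tri F b a v = tri F a b v := tri_swap12 F b a v
  have b6 : tri F b v a = tri F a b v := (tri_swap23 F b v a).trans b5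
  have b7 : tri F v a b = tri F a b v := (tri_swap12 F v a b).trans b4
  have b8 : tri F v b a = tri F a b v := (tri_swap23 F v b a).trans b7
  simp only [tri_add1, tri_add2, tri_add3, tri_smul1, tri_smul2, tri_smul3]
  rw [haaa, hbbb, a1, a2, a3, a4, a5, a6, a7, a8, a9, b1, b2, b3, b4, b5, b6, b7, b8]
  ring

/-- a quartic polynomial with a root which is not zero -/
private theorem third_root (r₄ r₃ r₂ r₁ r₀ : E) (h4 : r₄ ≠ 0) (h0 : r₀ ≠ 0) :
    ∃ s : E, s ≠ 0 ∧ r₄ * s ^ 4 + r₃ * s ^ 3 + r₂ * s ^ 2 + r₁ * s + r₀ = 0 := by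
  open Polynomial in
  set R : Polynomial E := C r₄ * X ^ 4 + C r₃ * X ^ 3 + C r₂ * X ^ 2 + C r₁ * X + C r₀ with hR
  have hdeg : R.degree ≠ 0 := by
    intro h
    have h1 : R = Polynomial.C (R.coeff 0) := Polynomial.eq_C_of_degree_le_zero h.le
    have h2 : R.coeff 4 = r₄ := by
      rw [hR]
      simp [Polynomial.coeff_X, Polynomial.coeff_C]
    rw [h1, Polynomial.coeff_C] at h2
    exact h4 (by simpa using h2.symm)
  obtain ⟨s, hs⟩ := IsAlgClosed.exists_root R hdeg
  have hs' : r₄ * s ^ 4 + r₃ * s ^ 3 + r₂ * s ^ 2 + r₁ * s + r₀ = 0 := by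
    have h1 := hs
    rw [Polynomial.IsRoot.def, hR] at h1
    simpa using h1
  refine ⟨s, ?_, hs'⟩
  rintro rfl
  apply h0
  simpa using hs'

theorem exists_third (hF : Smooth F) {x a b : Fin 6 → E} {t : E} (ha : On F x a) (hb : On F x b)
    (hli : LinearIndependent E ![x, a, b]) (hH : kH F x = ⊥) (h0 : tri F x a b ≠ 0)
    (hfa : ft F x a) (hfb : ft F x b) {δ : Derivation k E E} (hx : dr δ x = 0) (hda : dr δ a = 0)
    (hdb : dr δ b = 0) (ht : δ t = 1) :
    ∃ c, LinearIndependent E ![x, a, b, c] ∧ On F x c ∧ tri F x b c ≠ 0 ∧ tri F x a c ≠ 0 ∧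
      tri F x a c * tri F a a b - tri F x a b * tri F a a c ≠ 0 ∧
      tri F x b c * tri F a b b - tri F x a b * tri F b b c ≠ 0 ∧
      dr δ c ∉ Submodule.span E {x, a, b, c} := by
  have hch : CharZero E := charZero_of_injective_algebraMap (algebraMap k E).injective
  obtain ⟨w, w', hdw, hdw', hliw, hw, hw'⟩ := third_basis ha hb hli hH hx hda hdb
  have h0' : tri F x b a ≠ 0 := by
    rw [tri_swap23]
    exact h0
  have hA := third_A ha h0 hfa hda hdw hdw' ht hliw ((tri_swap23 F x b x).trans hb.xxa) hw hw'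
  have hB := third_A hb h0' hfb hdb hdw hdw' ht hliw ((tri_swap23 F x a x).trans ha.xxa)
    ⟨hw.1, hw.2.2, hw.2.1⟩ ⟨hw'.1, hw'.2.2, hw'.2.1⟩
  have hq := third_q ha hb hH h0 hx hdw hdw' ht hliw hw hw'
  set v : Fin 6 → E := w + t • w' with hv
  have hxxv : tri F x x v = 0 := by
    rw [hv, tri_add3, tri_smul3, hw.1, hw'.1, mul_zero, add_zero]
  have hxav : tri F x a v = 0 := by
    rw [hv, tri_add3, tri_smul3, hw.2.1, hw'.2.1, mul_zero, add_zero]
  have hxbv : tri F x b v = 0 := by
    rw [hv, tri_add3, tri_smul3, hw.2.2, hw'.2.2, mul_zero, add_zero]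
  have hA' : tri F a a v ≠ 0 := by
    rw [hv, tri_add3, tri_smul3]
    exact hA
  have hB' : tri F b b v ≠ 0 := by
    rw [hv, tri_add3, tri_smul3]
    exact hB
  have hq' : tri F x v v ≠ 0 := by
    have h1 : tri F x v v = tri F x w w + 2 * (t * tri F x w w') + t * t * tri F x w' w' := by
      rw [hv, tri_add2, tri_add3, tri_smul2, tri_add3, tri_smul3, tri_smul3, tri_swap23 F x w' w]
      ring
    rw [h1]
    exact hq
  set γ := tri F x a b with hγ
  set q := tri F x v v with hqd
  set c₂ : E := -q / (2 * γ) with hc₂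
  have hγ2 : (2 : E) * γ ≠ 0 := mul_ne_zero two_ne_zero h0
  have hc₂0 : c₂ ≠ 0 := div_ne_zero (neg_ne_zero.2 hq') hγ2
  have hc₂q : 2 * c₂ * γ + q = 0 := by
    rw [hc₂]
    field_simp
    ring
  obtain ⟨s, hs0, hs⟩ := third_root (3 * tri F a a v) (3 * c₂ * tri F a a b + 3 * tri F a v v)
    (6 * c₂ * tri F a b v + tri F v v v) (3 * c₂ ^ 2 * tri F a b b + 3 * c₂ * tri F b v v)
    (3 * c₂ ^ 2 * tri F b b v) (mul_ne_zero three_ne_zero hA')
    (mul_ne_zero (mul_ne_zero three_ne_zero (pow_ne_zero 2 hc₂0)) hB')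
  -- values of the trilinear form
  have haxx : tri F x a x = 0 := (tri_swap23 F x a x).trans ha.xxa
  have hbxx : tri F x b x = 0 := (tri_swap23 F x b x).trans hb.xxa
  have hxba : tri F x b a = γ := tri_swap23 F x b a
  have hxva : tri F x v a = 0 := (tri_swap23 F x v a).trans hxav
  have hxvb : tri F x v b = 0 := (tri_swap23 F x v b).trans hxbv
  have hbba : tri F b b a = tri F a b b :=
    (tri_swap23 F b b a).trans (tri_swap12 F b a b)
  set c : Fin 6 → E := s ^ 2 • a + c₂ • b + s • v with hc
  have hxac : tri F x a c = c₂ * γ := by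
    rw [hc, tri_add3, tri_add3, tri_smul3, tri_smul3, tri_smul3, ha.xaa, hxav]
    ring
  have hxbc : tri F x b c = s ^ 2 * γ := by
    rw [hc, tri_add3, tri_add3, tri_smul3, tri_smul3, tri_smul3, hb.xaa, hxbv, hxba]
    ring
  have haac : tri F a a c = c₂ * tri F a a b + s * tri F a a v := by
    rw [hc, tri_add3, tri_add3, tri_smul3, tri_smul3, tri_smul3, ha.aaa]
    ring
  have hbbc : tri F b b c = s ^ 2 * tri F a b b + s * tri F b b v := by
    rw [hc, tri_add3, tri_add3, tri_smul3, tri_smul3, tri_smul3, hb.aaa, hbba]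
    ring
  have hon : On F x c := by
    refine ⟨ha.xxx, ?_, ?_, ?_⟩
    · rw [hc, tri_add3, tri_add3, tri_smul3, tri_smul3, tri_smul3, ha.xxa, hb.xxa, hxxv]
      ring
    · rw [hc]
      simp only [tri_add2, tri_add3, tri_smul2, tri_smul3]
      rw [ha.xaa, hb.xaa, hxba, hxva, hxvb, hxav, hxbv, ← hγ, ← hqd]
      linear_combination s ^ 2 * hc₂q
    · rw [hc, third_cube a b v _ _ _ ha.aaa hb.aaa]
      linear_combination s * hs
  have hlic : LinearIndependent E ![x, a, b, c] := by
    refine third_li4 fun c₁ d₂ d₃ d₄ hd => ?_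
    have e1 := congrArg (fun v => tri F x a v) hd
    have e2 := congrArg (fun v => tri F x b v) hd
    simp only [tri_add3, tri_smul3, tri_zero3] at e1 e2
    rw [haxx, ha.xaa, hxac, ← hγ] at e1
    rw [hbxx, hb.xaa, hxbc, hxba] at e2
    have e3 : d₃ + d₄ * c₂ = 0 := by
      have h1 : (d₃ + d₄ * c₂) * γ = 0 := by linear_combination e1
      exact (mul_eq_zero.1 h1).resolve_right h0
    have e4 : d₂ + d₄ * s ^ 2 = 0 := by
      have h1 : (d₂ + d₄ * s ^ 2) * γ = 0 := by linear_combination e2
      exact (mul_eq_zero.1 h1).resolve_right h0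
    have e5 : c₁ • x + (d₄ * s) • w + (d₄ * s * t) • w' = 0 := by
      funext j
      have h1 := congrFun hd j
      simp only [hc, hv, Pi.add_apply, Pi.smul_apply, smul_eq_mul, Pi.zero_apply] at h1 ⊢
      linear_combination h1 - a j * e4 - b j * e3
    obtain ⟨h1, h2, -⟩ := third_li3' hliw e5
    have h3 : d₄ = 0 := (mul_eq_zero.1 h2).resolve_right hs0
    rw [h3, zero_mul, add_zero] at e3 e4
    exact ⟨h1, e4, e3, h3⟩
  refine ⟨c, hlic, hon, ?_, ?_, ?_, ?_, ?_⟩
  · rw [hxbc]
    exact mul_ne_zero (pow_ne_zero 2 hs0) h0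
  · rw [hxac]
    exact mul_ne_zero hc₂0 h0
  · rw [hxac, haac]
    have h1 : c₂ * γ * tri F a a b - γ * (c₂ * tri F a a b + s * tri F a a v) =
        -(s * γ * tri F a a v) := by ring
    rw [h1]
    exact neg_ne_zero.2 (mul_ne_zero (mul_ne_zero hs0 h0) hA')
  · rw [hxbc, hbbc]
    have h1 : s ^ 2 * γ * tri F a b b - γ * (s ^ 2 * tri F a b b + s * tri F b b v) =
        -(s * γ * tri F b b v) := by ring
    rw [h1]
    exact neg_ne_zero.2 (mul_ne_zero (mul_ne_zero hs0 h0) hB')
  · intro hmem
    have hdv : dr δ v = w' := by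
      rw [hv, dr_add, dr_smul, hdw, hdw', ht, smul_zero, zero_add, zero_add, one_smul]
    have hdc : dr δ c = δ (s ^ 2) • a + δ c₂ • b + (s • w' + δ s • v) := by
      rw [hc, dr_add, dr_add, dr_smul, dr_smul, dr_smul, hda, hdb, hdv, smul_zero, smul_zero,
        zero_add, zero_add]
    rw [Submodule.mem_span_insert] at hmem
    obtain ⟨c₁, z₁, hz₁, hmem⟩ := hmem
    rw [Submodule.mem_span_insert] at hz₁
    obtain ⟨d₂, z₂, hz₂, rfl⟩ := hz₁
    rw [Submodule.mem_span_pair] at hz₂
    obtain ⟨d₃, d₄, rfl⟩ := hz₂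
    rw [hdc] at hmem
    have e1 := congrArg (fun v => tri F x a v) hmem
    have e2 := congrArg (fun v => tri F x b v) hmem
    simp only [tri_add3, tri_smul3] at e1 e2
    rw [haxx, ha.xaa, hxac, ← hγ, hxav, hw'.2.1] at e1
    rw [hbxx, hb.xaa, hxbc, hxba, hxbv, hw'.2.2] at e2
    have e3 : δ c₂ - (d₃ + d₄ * c₂) = 0 := by
      have h1 : (δ c₂ - (d₃ + d₄ * c₂)) * γ = 0 := by linear_combination e1
      exact (mul_eq_zero.1 h1).resolve_right h0
    have e4 : δ (s ^ 2) - (d₂ + d₄ * s ^ 2) = 0 := by
      have h1 : (δ (s ^ 2) - (d₂ + d₄ * s ^ 2)) * γ = 0 := by linear_combination e2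
      exact (mul_eq_zero.1 h1).resolve_right h0
    have e5 : (-c₁) • x + (δ s - d₄ * s) • w + (s + (δ s - d₄ * s) * t) • w' = 0 := by
      funext j
      have h1 := congrFun hmem j
      simp only [Pi.add_apply, Pi.smul_apply, smul_eq_mul, Pi.zero_apply] at h1 ⊢
      have hcj : c j = s ^ 2 * a j + c₂ * b j + s * v j := rfl
      have hvj : v j = w j + t * w' j := rfl
      rw [hcj, hvj] at h1
      linear_combination h1 - a j * e4 - b j * e3
    obtain ⟨-, h2, h3⟩ := third_li3' hliw e5
    rw [h2, zero_mul, add_zero] at h3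
    exact hs0 h3

omit [IsAlgClosed k] [IsAlgClosed E] in
theorem third_k3 (hF : Smooth F) {x a b c : Fin 6 → E} (ha : On F x a) (hb : On F x b)
    (hc : On F x c) (hli : LinearIndependent E ![x, a, b, c]) (hfc : ft F x c)
    {δ : Derivation k E E} (hx : dr δ x = 0) (hd : dr δ c ∉ Submodule.span E {x, a, b, c}) :
    tri F x b c * tri F a c c - tri F x a c * tri F b c c ≠ 0 := by
  have hch : CharZero E := charZero_of_injective_algebraMap (algebraMap k E).injective
  intro hdet
  obtain ⟨n, r, hnr, h1, h2⟩ : ∃ n r : E, (n ≠ 0 ∨ r ≠ 0) ∧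
      n * tri F x a c + r * tri F x b c = 0 ∧ n * tri F a c c + r * tri F b c c = 0 := by
    by_cases h3 : tri F x a c = 0 ∧ tri F x b c = 0
    · by_cases h4 : tri F a c c = 0 ∧ tri F b c c = 0
      · exact ⟨1, 0, Or.inl one_ne_zero, by rw [h3.1, h3.2]; ring, by rw [h4.1, h4.2]; ring⟩
      · refine ⟨tri F b c c, -tri F a c c, ?_, by rw [h3.1, h3.2]; ring, by ring⟩
        by_contra h5
        push Not at h5
        exact h4 ⟨neg_eq_zero.1 h5.2, h5.1⟩
    · refine ⟨tri F x b c, -tri F x a c, ?_, by ring, by linear_combination hdet⟩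
      by_contra h5
      push Not at h5
      exact h3 ⟨neg_eq_zero.1 h5.2, h5.1⟩
  have hcc : tri F c c x = 0 := (tri_swap23 F c c x).trans ((tri_swap12 F c x c).trans hc.xaa)
  have hxcx : tri F x c x = 0 := (tri_swap23 F x c x).trans hc.xxa
  have hxca : tri F x c a = tri F x a c := tri_swap23 F x c a
  have hxcb : tri F x c b = tri F x b c := tri_swap23 F x c b
  have hcca : tri F c c a = tri F a c c := (tri_swap23 F c c a).trans (tri_swap12 F c a c)
  have hccb : tri F c c b = tri F b c c := (tri_swap23 F c c b).trans (tri_swap12 F c b c)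
  set u : Fin 6 → E := n • a + r • b with hu
  have hvli : LinearIndependent E ![x, c, u] := by
    refine third_li3 fun c₁ c₂ c₃ h3 => ?_
    have h4 : c₁ • x + (c₃ * n) • a + (c₃ * r) • b + c₂ • c = 0 := by
      rw [← h3, hu, smul_add, smul_smul, smul_smul]
      abel
    obtain ⟨h5, h6, h7, h8⟩ := third_li4' hli h4
    refine ⟨h5, h8, ?_⟩
    rcases hnr with hn | hr
    · exact (mul_eq_zero.1 h6).resolve_right hn
    · exact (mul_eq_zero.1 h7).resolve_right hr
  have e0 := dr_tri F δ x x c
  have e1 := dr_tri F δ x c c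
  have e2 := dr_tri F δ c c c
  rw [hc.xxa, map_zero, hx, tri_zero1, tri_zero2, zero_add, zero_add] at e0
  rw [hc.xaa, map_zero, hx, tri_zero1, zero_add, tri_swap23 F x (dr δ c) c] at e1
  rw [hc.aaa, map_zero, tri_swap12 F (dr δ c) c c, tri_swap23 F c (dr δ c) c] at e2
  have h3 : dr δ c ∈ Submodule.span E (Set.range ![x, c, u]) := by
    refine third_mem (m := 3) (n := 3) rfl hfc hvli ?_ ?_
    · intro i j
      fin_cases i <;> fin_cases j
      · exact hc.xxx
      · exact hc.xxa
      · change tri F x x u = 0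
        rw [hu, tri_add3, tri_smul3, tri_smul3, ha.xxa, hb.xxa, mul_zero, mul_zero, add_zero]
      · exact hxcx
      · exact hc.xaa
      · change tri F x c u = 0
        rw [hu, tri_add3, tri_smul3, tri_smul3, hxca, hxcb]
        exact h1
      · exact hcc
      · exact hc.aaa
      · change tri F c c u = 0
        rw [hu, tri_add3, tri_smul3, tri_smul3, hcca, hccb]
        exact h2
    · intro i
      fin_cases i
      · exact e0.symm
      · change tri F x c (dr δ c) = 0
        have h4 : (2 : E) * tri F x c (dr δ c) = 0 := by linear_combination -e1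
        exact (mul_eq_zero.1 h4).resolve_left two_ne_zero
      · change tri F c c (dr δ c) = 0
        have h4 : (3 : E) * tri F c c (dr δ c) = 0 := by linear_combination -e2
        exact (mul_eq_zero.1 h4).resolve_left three_ne_zero
  have h4 : Submodule.span E (Set.range ![x, c, u]) ≤ Submodule.span E {x, a, b, c} := by
    rw [Submodule.span_le]
    rintro _ ⟨j, rfl⟩
    fin_cases j
    · exact Submodule.subset_span (by simp)
    · exact Submodule.subset_span (by simp)
    · exact Submodule.add_mem _ (Submodule.smul_mem _ _ (Submodule.subset_span (by simp)))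
        (Submodule.smul_mem _ _ (Submodule.subset_span (by simp)))
  exact hd (h4 h3)

end Pool.Agent.CUB.FLN
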