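import Pool.Agent.FLN.ResMove
import Pool.Agent.FLN.PlaneZ
import Pool.Agent.FLN.Third

/-!
# A generic pair of incident lines

Proof of `gen_pair`. `S x = st ⟨x⟩`, `L a = st ⟨x, a⟩`, `S₃ = S x ⊓ L a ⊓ L b`; `l = ⟨x, a⟩`, `l' = ⟨x, b⟩` as lines (`exists_ln`).
(1) `finrank (D ⊓ S₃) ≤ 6`: `δ ∈ D ⊓ S₃` is determined by the numbers in `dr δ x = μ x`, `dr δ a = σ x + ρ a`,
`dr δ b = σ' x + ρ' b`, `δ t` (a linear map to `E ^ 6`, injective by `hinj`). So `finrank (D ⊓ S₃) + 6 ≤ finrank D`.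
(2) Not `Eck F x`: otherwise `eck_const`, `eck_thru` (for `D` and for `D ⊓ L a`) give `Cod D S₃ 4`. Let `c = finrank (kH F x)`: `hess`,
`thru` for `D ⊓ S x` and `l`, `thru` for `D ⊓ S x ⊓ L a` and `l'`: `finrank D + c ≤ finrank (D ⊓ S₃) + 6`. So `c = 0`, `kH F x = ⊥`,
`finrank (D ⊓ S₃) = 6 = finrank D - 6`, and the injective map of (1) is bijective: there is `δ₁ ∈ D ⊓ S₃` with `dr δ₁ x = dr δ₁ a =
dr δ₁ b = 0`, `δ₁ t = 1`. Also `finrank D ≤ finrank (D ⊓ S x ⊓ L a) + 5`, so there is `δ₂ ∈ D ⊓ S x ⊓ L a` which is not in `L b`;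
then `dr δ₂ b ∉ ⟨x, b⟩` (`mem_st_span`).
(3) `ft F x a`: otherwise `sec_type`, `sec_cod`: `Cod D (L a) 3`, `point_on`: `Cod (D ⊓ L a) (S x) 1`, `thru` (`D ⊓ L a ⊓ S x`, `l'`): in total
`Cod D S₃ 5`, contradiction to (1). In the same way `ft F x b`.
(4) If `tri x a b = 0`: `plane_zero` with `δ₂`. (5) Otherwise `exists_third` with `δ₁`: `c`. Let `L c = st ⟨x, c⟩`, `S₄ = S₃ ⊓ L c`. `δ₁ ∉ L c`
(`dr δ₁ c ∉ ⟨x, a, b, c⟩`), so `finrank (D ⊓ S₄) + 1 ≤ finrank (D ⊓ S₃)` and `finrank (D ⊓ S₄) + 7 ≤ finrank D`. `ft F x c`: otherwise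
`sec_cod` 3, `point_on` 1, `thru` for `a` 1, `thru` for `b` 1: `Cod D S₄ 6`, contradiction. `third_k3`. So `Cfg F x a b c`.
(6) `res_move` for `(a, b)`: by (1). For `(a, c)`: `thru` for `b` and `D ⊓ (S x ⊓ L a ⊓ L c)`: `finrank (D ⊓ (S x ⊓ L a ⊓ L c)) ≤
finrank (D ⊓ S₄) + 1`, so `+ 6 ≤ finrank D`. The same for `(b, c)`.
-/

set_option autoImplicit false

noncomputable section

namespace Pool.Agent.CUB.FLN

open Pool.Agent.ZCyc Pool.Agent.Dess Pool.Agent.GT Module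
open scoped Classical

variable {k : Type} [Field k] [IsAlgClosed k] [CharZero k] {F : MvPolynomial (Fin 6) k}
  {E : Type} [Field E] [Algebra k E] [IsAlgClosed E]

omit [IsAlgClosed k] [CharZero k] [IsAlgClosed E] in
private theorem gp_li2 {x a b : Fin 6 → E} (h : LinearIndependent E ![x, a, b]) :
    LinearIndependent E ![x, a] := by
  have h1 := h.comp ![0, 1] (by intro i j; fin_cases i <;> fin_cases j <;> simp)
  convert h1 using 1
  funext i
  fin_cases i <;> rfl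

omit [IsAlgClosed k] [CharZero k] [IsAlgClosed E] in
private theorem gp_li2' {x a b : Fin 6 → E} (h : LinearIndependent E ![x, a, b]) :
    LinearIndependent E ![x, b] := by
  have h1 := h.comp ![0, 2] (by intro i j; fin_cases i <;> fin_cases j <;> simp)
  convert h1 using 1
  funext i
  fin_cases i <;> rfl

omit [IsAlgClosed k] [CharZero k] [IsAlgClosed E] in
private theorem gp_li3 {x a b c : Fin 6 → E} (h : LinearIndependent E ![x, a, b, c]) :
    LinearIndependent E ![x, a, c] := by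
  have h1 := h.comp ![0, 1, 3] (by intro i j; fin_cases i <;> fin_cases j <;> simp)
  convert h1 using 1
  funext i
  fin_cases i <;> rfl

omit [IsAlgClosed k] [CharZero k] [IsAlgClosed E] in
private theorem gp_li3' {x a b c : Fin 6 → E} (h : LinearIndependent E ![x, a, b, c]) :
    LinearIndependent E ![x, b, c] := by
  have h1 := h.comp ![0, 2, 3] (by intro i j; fin_cases i <;> fin_cases j <;> simp)
  convert h1 using 1
  funext i
  fin_cases i <;> rfl

/-- if the line `⟨x, a⟩` is not of the first type then few derivations are missing -/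
private theorem gp_ft (hF : Smooth F) (D : Submodule E (Derivation k E E))
    [FiniteDimensional E D] {x a : Fin 6 → E} (hx : x ≠ 0) {l : Ln F E}
    (hl : l.W = Submodule.span E {x, a}) (hli : LinearIndependent E ![x, a])
    (hft : ¬ ft F x a) :
    finrank E D ≤ finrank E ↥(D ⊓ st l.W ⊓ st (Submodule.span E {x})) + 4 := by
  have hxl : x ∈ l.W := by
    rw [hl]
    exact Submodule.subset_span (by simp)
  have hbas : Bas l ![x, a] := ⟨hli, hl⟩
  unfold ft at hft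
  rw [Fintype.not_linearIndependent_iff] at hft
  obtain ⟨g, hg, i, hi⟩ := hft
  have hE2 : (2 : E) ≠ 0 := by
    have : CharZero E := charZero_of_injective_algebraMap (algebraMap k E).injective
    exact two_ne_zero
  have h1 : ∀ w, g 0 * tri F x x w + g 1 * tri F x a w + g 2 * tri F a a w = 0 := by
    intro w
    have h2 := LinearMap.congr_fun hg w
    rw [Fin.sum_univ_three] at h2
    exact h2
  obtain ⟨x₀, h₀, x₁, h₁, hli', h⟩ := sec_type hF hbas (c := ![g 0, g 1 / 2, g 2]) (by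
    intro hc
    apply hi
    have c0 := congrFun hc 0
    have c1 := congrFun hc 1
    have c2 := congrFun hc 2
    change g 0 = 0 at c0
    change g 1 / 2 = 0 at c1
    change g 2 = 0 at c2
    have c1' : g 1 = 0 := by
      rcases div_eq_zero_iff.1 c1 with h | h
      · exact h
      · exact absurd h hE2
    fin_cases i
    · exact c0
    · exact c1'
    · exact c2) (by
    intro w
    have h2 := h1 w
    change g 0 * tri F x x w + 2 * (g 1 / 2) * tri F x a w + g 2 * tri F a a w = 0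
    rw [mul_div_cancel₀ _ hE2]
    exact h2)
  have h3 := sec_cod hF h₀ h₁ hli' h D
  have h4 := point_on l hxl hx (D ⊓ st l.W) inf_le_right
  unfold Cod at h3 h4
  omega

/-- A generic pair of incident lines `⟨x, a⟩`, `⟨x, b⟩` and one more parameter `t`: either the plane
`⟨x, a, b⟩` is in the fourfold, or there is a third line such that we have a general configuration, and
the three residual lines move in four directions. -/
theorem gen_pair (hF : Smooth F) (D : Submodule E (Derivation k E E)) [FiniteDimensional E D]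
    {x a b : Fin 6 → E} {t : E} (hD : 12 ≤ finrank E D)
    (hinj : ∀ δ ∈ D, dr δ x = 0 → dr δ a = 0 → dr δ b = 0 → δ t = 0 → δ = 0)
    (ha : On F x a) (hb : On F x b) (hli : LinearIndependent E ![x, a, b]) :
    (tri F x a b = 0 ∧ tri F a a b = 0 ∧ tri F a b b = 0) ∨
    ∃ c, Cfg F x a b c ∧ ∀ f : Ln F E, (Bas f (rs F x a b) ∨ Bas f (rs F x a c) ∨
      Bas f (rs F x b c)) → finrank E ↥(D ⊓ st f.W) + 4 ≤ finrank E D := by
  have hx : x ≠ 0 := hli.ne_zero 0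
  have hlia := gp_li2 hli
  have hlib := gp_li2' hli
  obtain ⟨la, hla⟩ := exists_ln hF hlia ha.xxx ha.xxa ha.xaa ha.aaa
  obtain ⟨lb, hlb⟩ := exists_ln hF hlib hb.xxx hb.xxa hb.xaa hb.aaa
  have hxa : x ∈ la.W := by
    rw [hla]
    exact Submodule.subset_span (by simp)
  have hxb : x ∈ lb.W := by
    rw [hlb]
    exact Submodule.subset_span (by simp)
  obtain ⟨Sx, hSx⟩ : ∃ S, S = st (k := k) (Submodule.span E {x}) := ⟨_, rfl⟩
  obtain ⟨La, hLa⟩ : ∃ S, S = st (k := k) la.W := ⟨_, rfl⟩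
  obtain ⟨Lb, hLb⟩ : ∃ S, S = st (k := k) lb.W := ⟨_, rfl⟩
  have mS : ∀ δ ∈ Sx, dr δ x ∈ Submodule.span E {x} := by
    intro δ h
    rw [hSx] at h
    exact h x (Submodule.subset_span (by simp))
  have mA : ∀ δ ∈ La, dr δ a ∈ Submodule.span E {x, a} := by
    intro δ h
    rw [hLa, hla] at h
    exact h a (Submodule.subset_span (by simp))
  have mB : ∀ δ ∈ Lb, dr δ b ∈ Submodule.span E {x, b} := by
    intro δ h
    rw [hLb, hlb] at h
    exact h b (Submodule.subset_span (by simp))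
  -- (1)
  obtain ⟨g, hg⟩ := LinearMap.exists_leftInverse_of_injective
    (Fintype.linearCombination E ![x, a, b])
    (LinearMap.ker_eq_bot.2 ((linearIndependent_iff_injective_fintypeLinearCombination).1 hli))
  have hgj : ∀ j, g (![x, a, b] j) = Pi.single j 1 := by
    intro j
    have h1 := LinearMap.congr_fun hg (Pi.single j 1)
    rw [LinearMap.comp_apply, Fintype.linearCombination_apply_single, one_smul] at h1
    exact h1
  have hgx : g x = Pi.single 0 1 := hgj 0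
  have hga : g a = Pi.single 1 1 := hgj 1
  have hgb : g b = Pi.single 2 1 := hgj 2
  let θ : ↥(D ⊓ (Sx ⊓ La ⊓ Lb)) →ₗ[E] (Fin 6 → E) :=
    { toFun := fun δ => ![g (dr δ.1 x) 0, g (dr δ.1 a) 0, g (dr δ.1 a) 1, g (dr δ.1 b) 0,
        g (dr δ.1 b) 2, δ.1 t]
      map_add' := by
        intro δ δ'
        have e : ∀ y, dr (δ.1 + δ'.1) y = dr δ.1 y + dr δ'.1 y := fun _ => rfl
        funext i
        fin_cases i <;> simp [e]
      map_smul' := by
        intro c δ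
        have e : ∀ y, dr (c • δ.1) y = c • dr δ.1 y := fun _ => rfl
        funext i
        fin_cases i <;> simp [e] }
  have hθ0 : ∀ δ : ↥(D ⊓ (Sx ⊓ La ⊓ Lb)), g (dr δ.1 x) 0 = 0 → dr δ.1 x = 0 := by
    intro δ h
    have h1 := mS δ.1 δ.2.2.1.1
    obtain ⟨μ, hμ⟩ := Submodule.mem_span_singleton.1 h1
    rw [← hμ] at h ⊢
    rw [map_smul, hgx] at h
    have h3 : μ = 0 := by simpa using h
    rw [h3, zero_smul]
  have hθ1 : ∀ δ : ↥(D ⊓ (Sx ⊓ La ⊓ Lb)), g (dr δ.1 a) 0 = 0 → g (dr δ.1 a) 1 = 0 →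
      dr δ.1 a = 0 := by
    intro δ h h'
    have h1 := mA δ.1 δ.2.2.1.2
    obtain ⟨μ, ν, hμ⟩ := Submodule.mem_span_pair.1 h1
    rw [← hμ] at h h' ⊢
    rw [map_add, map_smul, map_smul, hgx, hga] at h h'
    have h3 : μ = 0 := by simpa using h
    have h4 : ν = 0 := by simpa using h'
    rw [h3, h4, zero_smul, zero_smul, add_zero]
  have hθ2 : ∀ δ : ↥(D ⊓ (Sx ⊓ La ⊓ Lb)), g (dr δ.1 b) 0 = 0 → g (dr δ.1 b) 2 = 0 →
      dr δ.1 b = 0 := by
    intro δ h h'
    have h1 := mB δ.1 δ.2.2.2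
    obtain ⟨μ, ν, hμ⟩ := Submodule.mem_span_pair.1 h1
    rw [← hμ] at h h' ⊢
    rw [map_add, map_smul, map_smul, hgx, hgb] at h h'
    have h3 : μ = 0 := by simpa using h
    have h4 : ν = 0 := by simpa using h'
    rw [h3, h4, zero_smul, zero_smul, add_zero]
  have hθz : ∀ δ : ↥(D ⊓ (Sx ⊓ La ⊓ Lb)), (∀ i : Fin 6, i ≠ 5 → θ δ i = 0) →
      dr δ.1 x = 0 ∧ dr δ.1 a = 0 ∧ dr δ.1 b = 0 := by
    intro δ h
    exact ⟨hθ0 δ (h 0 (by decide)), hθ1 δ (h 1 (by decide)) (h 2 (by decide)),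
      hθ2 δ (h 3 (by decide)) (h 4 (by decide))⟩
  have hθinj : Function.Injective θ := by
    rw [injective_iff_map_eq_zero]
    intro δ h
    obtain ⟨h1, h2, h3⟩ := hθz δ fun i _ => congrFun h i
    exact Subtype.ext (hinj δ.1 δ.2.1 h1 h2 h3 (congrFun h 5))
  have h6 : finrank E ↥(D ⊓ (Sx ⊓ La ⊓ Lb)) ≤ 6 := by
    have h1 := LinearMap.finrank_le_finrank_of_injective hθinj
    rwa [Module.finrank_fin_fun] at h1
  -- (2)
  have hE : ¬ Eck F x := by
    intro hE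
    have hDS : D ≤ Sx := by
      intro δ _
      rw [hSx]
      exact eck_const hF hx ha.xxx hE δ
    have h1 := eck_thru hF hx hE hxa D
    have h2 := eck_thru hF hx hE hxb (D ⊓ La)
    unfold Cod at h1 h2
    rw [← hLa] at h1
    rw [← hLb] at h2
    have h3 : D ⊓ La ⊓ Lb = D ⊓ (Sx ⊓ La ⊓ Lb) := by
      apply le_antisymm
      · exact le_inf (inf_le_left.trans inf_le_left) (le_inf (le_inf
          ((inf_le_left.trans inf_le_left).trans hDS) (inf_le_left.trans inf_le_right))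
          inf_le_right)
      · exact le_inf (le_inf inf_le_left (inf_le_right.trans (inf_le_left.trans inf_le_right)))
          (inf_le_right.trans inf_le_right)
    rw [h3] at h2
    omega
  have e1 := hess hF hx ha.xxx D
  have e2 := thru hF hx hE hxa (D ⊓ Sx) (by rw [hSx]; exact inf_le_right)
  have e3 := thru hF hx hE hxb (D ⊓ Sx ⊓ La) (by rw [hSx]; exact inf_le_left.trans inf_le_right)
  unfold Cod at e2 e3
  rw [← hSx] at e1
  rw [← hLa] at e2
  rw [← hLb] at e3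
  have e4 : D ⊓ Sx ⊓ La ⊓ Lb = D ⊓ (Sx ⊓ La ⊓ Lb) := by
    rw [inf_assoc, inf_assoc, inf_assoc]
  rw [e4] at e3
  have hD12 : finrank E D = 12 := by omega
  have hk : finrank E (kH F x) = 0 := by omega
  have hS6 : finrank E ↥(D ⊓ (Sx ⊓ La ⊓ Lb)) = 6 := by omega
  have hkH : kH F x = ⊥ := Submodule.finrank_eq_zero.1 hk
  have hθsur : Function.Surjective θ :=
    (LinearMap.injective_iff_surjective_of_finrank_eq_finrank
      (by rw [hS6, Module.finrank_fin_fun])).1 hθinj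
  obtain ⟨δ₁, hδ₁⟩ := hθsur (Pi.single 5 1)
  obtain ⟨hd1, hd2, hd3⟩ := hθz δ₁ fun i hi => by rw [hδ₁, Pi.single_eq_of_ne hi]
  have hd4 : δ₁.1 t = 1 := by
    have h1 : θ δ₁ 5 = 1 := by rw [hδ₁, Pi.single_eq_same]
    exact h1
  obtain ⟨δ₂, hδ₂, hδ₂b⟩ : ∃ δ ∈ D ⊓ Sx ⊓ La, δ ∉ Lb := by
    by_contra hcon
    push Not at hcon
    have h1 : D ⊓ Sx ⊓ La ≤ D ⊓ (Sx ⊓ La ⊓ Lb) := by
      intro δ hδ
      exact ⟨hδ.1.1, ⟨hδ.1.2, hδ.2⟩, hcon δ hδ⟩
    have h2 := Submodule.finrank_mono h1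
    omega
  have hδ₂' : dr δ₂ b ∉ Submodule.span E {x, b} := by
    intro h
    apply hδ₂b
    rw [hLb, hlb]
    refine mem_st_span ?_
    rintro z (rfl | rfl)
    · have h1 := hδ₂.1.2
      rw [hSx] at h1
      exact Submodule.span_mono (by simp) (h1 z (Submodule.subset_span (by simp)))
    · exact h
  -- (3)
  have hfa : ft F x a := by
    by_contra hft
    have h1 := gp_ft hF D hx hla hlia hft
    have h2 := thru hF hx hE hxb (D ⊓ st la.W ⊓ st (Submodule.span E {x})) inf_le_right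
    unfold Cod at h2
    rw [← hSx, ← hLa] at h1 h2
    rw [← hLb] at h2
    have h3 : D ⊓ La ⊓ Sx ⊓ Lb = D ⊓ (Sx ⊓ La ⊓ Lb) := by
      rw [inf_assoc, inf_assoc, ← inf_assoc La, inf_comm La]
    rw [h3] at h2
    omega
  have hfb : ft F x b := by
    by_contra hft
    have h1 := gp_ft hF D hx hlb hlib hft
    have h2 := thru hF hx hE hxa (D ⊓ st lb.W ⊓ st (Submodule.span E {x})) inf_le_right
    unfold Cod at h2
    rw [← hSx, ← hLb] at h1 h2
    rw [← hLa] at h2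
    have h3 : D ⊓ Lb ⊓ Sx ⊓ La = D ⊓ (Sx ⊓ La ⊓ Lb) := by
      rw [inf_assoc, inf_assoc, inf_comm Lb]
    rw [h3] at h2
    omega
  by_cases h0 : tri F x a b = 0
  · left
    have h1 := hδ₂.1.2
    have h2 := hδ₂.2
    rw [hSx] at h1
    rw [hLa, hla] at h2
    exact ⟨h0, plane_zero hF ha hb hli hkH h1 h2 hδ₂' h0⟩
  right
  obtain ⟨c, hlic, hc, hbc, hac, hk1, hk2, hdc⟩ :=
    exists_third hF ha hb hli hkH h0 hfa hfb hd1 hd2 hd3 hd4
  have hli3 := gp_li3 hlic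
  have hli3' := gp_li3' hlic
  have hlic2 := gp_li2' hli3
  obtain ⟨lc, hlc⟩ := exists_ln hF hlic2 hc.xxx hc.xxa hc.xaa hc.aaa
  have hxc : x ∈ lc.W := by
    rw [hlc]
    exact Submodule.subset_span (by simp)
  obtain ⟨Lc, hLc⟩ : ∃ S, S = st (k := k) lc.W := ⟨_, rfl⟩
  have hδ₁c : δ₁.1 ∉ Lc := by
    intro h
    rw [hLc, hlc] at h
    have h1 := h c (Submodule.subset_span (by simp))
    refine hdc (Submodule.span_mono ?_ h1)
    rintro z (rfl | rfl)
    · simp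
    · simp
  have hlt : D ⊓ (Sx ⊓ La ⊓ Lb ⊓ Lc) < D ⊓ (Sx ⊓ La ⊓ Lb) := by
    refine lt_of_le_of_ne (inf_le_inf_left D inf_le_left) fun he => hδ₁c ?_
    have h1 : δ₁.1 ∈ D ⊓ (Sx ⊓ La ⊓ Lb ⊓ Lc) := by
      rw [he]
      exact δ₁.2
    exact h1.2.2
  have hS4 := Submodule.finrank_lt_finrank_of_lt hlt
  have hfc : ft F x c := by
    by_contra hft
    have h1 := gp_ft hF D hx hlc hlic2 hft
    have h2 := thru hF hx hE hxa (D ⊓ st lc.W ⊓ st (Submodule.span E {x})) inf_le_right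
    have h3 := thru hF hx hE hxb (D ⊓ st lc.W ⊓ st (Submodule.span E {x}) ⊓ st la.W)
      (inf_le_left.trans inf_le_right)
    unfold Cod at h2 h3
    rw [← hSx, ← hLc] at h1 h2 h3
    rw [← hLa] at h2 h3
    rw [← hLb] at h3
    have h4 : D ⊓ Lc ⊓ Sx ⊓ La ⊓ Lb = D ⊓ (Sx ⊓ La ⊓ Lb ⊓ Lc) := by
      apply le_antisymm
      · intro δ h
        exact ⟨h.1.1.1.1, ⟨⟨h.1.1.2, h.1.2⟩, h.2⟩, h.1.1.1.2⟩
      · intro δ h
        exact ⟨⟨⟨⟨h.1, h.2.2⟩, h.2.1.1.1⟩, h.2.1.1.2⟩, h.2.1.2⟩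
    rw [h4] at h3
    omega
  have hk3 := third_k3 hF ha hb hc hlic hfc hd1 hdc
  refine ⟨c, ⟨hlic, ha, hb, hc, hbc, hac, h0, hk1, hk2, hk3⟩, fun f hf => ?_⟩
  rcases hf with hf | hf | hf
  · refine res_move hF D ha hb hli h0 ?_ hf
    rw [← hla, ← hlb, ← hSx, ← hLa, ← hLb]
    omega
  · refine res_move hF D ha hc hli3 hac ?_ hf
    have h1 := thru hF hx hE hxb (D ⊓ (Sx ⊓ La ⊓ Lc))
      (inf_le_right.trans (inf_le_left.trans (by rw [hSx]; exact inf_le_left)))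
    unfold Cod at h1
    rw [← hLb] at h1
    have h2 : D ⊓ (Sx ⊓ La ⊓ Lc) ⊓ Lb = D ⊓ (Sx ⊓ La ⊓ Lb ⊓ Lc) := by
      apply le_antisymm
      · intro δ h
        exact ⟨h.1.1, ⟨h.1.2.1, h.2⟩, h.1.2.2⟩
      · intro δ h
        exact ⟨⟨h.1, h.2.1.1, h.2.2⟩, h.2.1.2⟩
    rw [h2] at h1
    rw [← hla, ← hlc, ← hSx, ← hLa, ← hLc]
    omega
  · refine res_move hF D hb hc hli3' hbc ?_ hf
    have h1 := thru hF hx hE hxa (D ⊓ (Sx ⊓ Lb ⊓ Lc))
      (inf_le_right.trans (inf_le_left.trans (by rw [hSx]; exact inf_le_left)))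
    unfold Cod at h1
    rw [← hLa] at h1
    have h2 : D ⊓ (Sx ⊓ Lb ⊓ Lc) ⊓ La = D ⊓ (Sx ⊓ La ⊓ Lb ⊓ Lc) := by
      apply le_antisymm
      · intro δ h
        exact ⟨h.1.1, ⟨⟨h.1.2.1.1, h.2⟩, h.1.2.1.2⟩, h.1.2.2⟩
      · intro δ h
        exact ⟨⟨h.1, ⟨h.2.1.1.1, h.2.1.2⟩, h.2.2⟩, h.2.1.1.2⟩
    rw [h2] at h1
    rw [← hlb, ← hlc, ← hSx, ← hLb, ← hLc]
    omega

end Pool.Agent.CUB.FLN
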