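import Pool.Agent.FLN.Hess

/-!
# A constant line contains a point where the quadratic form is not zero

Proof of `exists_not_eck`. Let `δ ≠ 0`, so `δ e ≠ 0` for some `e ∈ E`; `u₀, u₁` a basis of `x.W`.
Let `z = em u₀ + e em u₁`, a vector with `tri z z z = 0`. If `Eck F z` then
`dr δ z = δ e em u₁ ∈ ⟨z⟩` by `eck_const`, contradiction (`δ e ≠ 0`, `em u₀, em u₁` independent). So
there are `u, v` in the kernel of `tri z z` with `tri z u v ≠ 0`. The kernel of the functional
`tri z z` is spanned by the vectors `tri z z e_i • e_j - tri z z e_j • e_i` (some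
`tri z z e_i ≠ 0`), so there are `i, j, i', j'` with `P(e) ≠ 0`, where
`P(T) = tri z (tri z z e_i • e_j - tri z z e_j • e_i) (tri z z e_i' • e_j' - tri z z e_j' • e_i')`,
`z = u₀ + T u₁`, a polynomial in `T` over `k`. So `P ≠ 0` and there is `t ∈ k` with `P(t) ≠ 0` (`k`
infinite); `z₀ = u₀ + t u₁`, and `P(t) ≠ 0` says that `Eck F (em z₀)` does not hold (the two vectors
are in the kernel of `tri z₀ z₀`).
-/

set_option autoImplicit false

noncomputable section

namespace Pool.Agent.CUB.FLN

open Pool.Agent.ZCyc Pool.Agent.Dess Pool.Agent.GT Module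
open scoped Classical

variable {k : Type} [Field k] [IsAlgClosed k] [CharZero k] {F : MvPolynomial (Fin 6) k}
  {E : Type} [Field E] [Algebra k E] [IsAlgClosed E]

/-- the trilinear form over the polynomial ring -/
private def notEckTri (F : MvPolynomial (Fin 6) k) (x y z : Fin 6 → Polynomial k) :
    Polynomial k :=
  ∑ i, ∑ j, ∑ l, Polynomial.C (cf F i j l) * x i * y j * z l

omit [IsAlgClosed k] [CharZero k] in
private theorem notEck_map {K : Type} [Field K] [Algebra k K] (t : K)
    (x y z : Fin 6 → Polynomial k) :
    Polynomial.aeval t (notEckTri F x y z) = tri F (fun i => Polynomial.aeval t (x i))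
      (fun i => Polynomial.aeval t (y i)) fun i => Polynomial.aeval t (z i) := by
  unfold tri notEckTri
  simp only [map_sum, map_mul, Polynomial.aeval_C]

/-- the vector `g i e_j - g j e_i` -/
private def notEckVec {R : Type} [CommRing R] (g : Fin 6 → R) (i j : Fin 6) : Fin 6 → R :=
  fun m => g i * (Pi.single j 1 : Fin 6 → R) m - g j * (Pi.single i 1 : Fin 6 → R) m

private theorem notEck_vec_eq {R : Type} [CommRing R] (g : Fin 6 → R) (i j : Fin 6) :
    notEckVec g i j = g i • (Pi.single j 1 : Fin 6 → R) - g j • (Pi.single i 1 : Fin 6 → R) := rfl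

omit [IsAlgClosed k] [CharZero k] in
private theorem notEck_ker {K : Type} [Field K] [Algebra k K] (z : Fin 6 → K) (i j : Fin 6) :
    tri F z z (notEckVec (fun m => tri F z z (Pi.single m 1)) i j) = 0 := by
  have h : tri F z z (notEckVec (fun m => tri F z z (Pi.single m 1)) i j) =
      trl F z z (notEckVec (fun m => tri F z z (Pi.single m 1)) i j) := rfl
  rw [h, notEck_vec_eq, map_sub, map_smul, map_smul, trl_apply, trl_apply, smul_eq_mul,
    smul_eq_mul]
  ring

omit [IsAlgClosed k] [CharZero k] in
/-- the criterion over any field -/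
private theorem notEck_crit {K : Type} [Field K] [Algebra k K] {z : Fin 6 → K} {i : Fin 6}
    (hi : tri F z z (Pi.single i 1) ≠ 0)
    (h : ∀ j j', tri F z (notEckVec (fun m => tri F z z (Pi.single m 1)) i j)
      (notEckVec (fun m => tri F z z (Pi.single m 1)) i j') = 0) : Eck F z := by
  set g : Fin 6 → K := fun m => tri F z z (Pi.single m 1) with hg
  have hgi : g i ≠ 0 := hi
  have hdec : ∀ u : Fin 6 → K, tri F z z u = 0 →
      u = ∑ j, (u j / g i) • notEckVec g i j := by
    intro u hu
    rw [tri_sum] at hu
    funext m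
    rw [Finset.sum_apply]
    have h1 : ∀ j, ((u j / g i) • notEckVec g i j) m =
        (Pi.single j (u j) : Fin 6 → K) m -
          (g j * u j) * (Pi.single i (g i)⁻¹ : Fin 6 → K) m := by
      intro j
      rw [Pi.smul_apply, smul_eq_mul]
      unfold notEckVec
      by_cases hjm : m = j
      · subst hjm
        by_cases him : m = i
        · subst him
          simp only [Pi.single_eq_same]
          field_simp
        · simp only [Pi.single_eq_same, Pi.single_eq_of_ne him]
          field_simp
          ring
      · by_cases him : m = i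
        · subst him
          simp only [Pi.single_eq_same, Pi.single_eq_of_ne hjm]
          field_simp
          ring
        · simp only [Pi.single_eq_of_ne him, Pi.single_eq_of_ne hjm]
          ring
    rw [Finset.sum_congr rfl fun j _ => h1 j, Finset.sum_sub_distrib, ← Finset.sum_mul]
    have h2 : ∑ j, g j * u j = 0 := hu
    rw [h2, zero_mul, sub_zero, ← Finset.sum_apply, Finset.univ_sum_single]
  intro u v hu hv
  have h3 : ∀ w : Fin 6 → K, (∀ j, tri F z w (notEckVec g i j) = 0) → tri F z w v = 0 := by
    intro w hw
    rw [hdec v hv, ← trl_apply, map_sum]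
    refine Finset.sum_eq_zero fun j _ => ?_
    rw [map_smul, trl_apply, hw, smul_zero]
  refine h3 u fun j => ?_
  rw [tri_swap23, hdec u hu, ← trl_apply, map_sum]
  refine Finset.sum_eq_zero fun j' _ => ?_
  rw [map_smul, trl_apply, h, smul_zero]

omit [IsAlgClosed k] [CharZero k] [IsAlgClosed E] in
private theorem notEck_li {a b : Fin 6 → k} (h : LinearIndependent k ![a, b]) {c d : E}
    (hcd : c • em E a + d • em E b = 0) : c = 0 ∧ d = 0 := by
  obtain ⟨i, j, hij⟩ : ∃ i j, a i * b j - a j * b i ≠ 0 := by
    by_contra hcon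
    push Not at hcon
    rw [LinearIndependent.pair_iff] at h
    have ha : a ≠ 0 := by
      rintro rfl
      have h1 := h 1 0 (by rw [smul_zero, zero_smul, add_zero])
      exact one_ne_zero h1.1
    obtain ⟨i, hi⟩ : ∃ i, a i ≠ 0 := by
      by_contra h2
      push Not at h2
      exact ha (funext h2)
    have h1 := h (b i) (-(a i)) (by
      funext j
      have h2 := hcon i j
      simp only [Pi.add_apply, Pi.smul_apply, smul_eq_mul, Pi.zero_apply]
      linear_combination -h2)
    exact hi (neg_eq_zero.1 h1.2)
  have hij' : algebraMap k E (a i * b j - a j * b i) ≠ 0 := fun h0 =>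
    hij ((map_eq_zero (algebraMap k E)).1 h0)
  have hi := congrFun hcd i
  have hj := congrFun hcd j
  simp only [Pi.add_apply, Pi.smul_apply, smul_eq_mul, Pi.zero_apply, em] at hi hj
  rw [map_sub, map_mul, map_mul] at hij'
  constructor
  · refine (mul_eq_zero.1 (?_ : c * (algebraMap k E (a i) * algebraMap k E (b j) -
      algebraMap k E (a j) * algebraMap k E (b i)) = 0)).resolve_right hij'
    linear_combination algebraMap k E (b j) * hi - algebraMap k E (b i) * hj
  · refine (mul_eq_zero.1 (?_ : d * (algebraMap k E (a i) * algebraMap k E (b j) -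
      algebraMap k E (a j) * algebraMap k E (b i)) = 0)).resolve_right hij'
    linear_combination algebraMap k E (a i) * hj - algebraMap k E (a j) * hi

theorem exists_not_eck (hF : Smooth F) (x : Ln F k) {δ : Derivation k E E} (hδ : δ ≠ 0) :
    ∃ z ∈ x.W, z ≠ 0 ∧ ¬ Eck F (em E z) := by
  by_contra hcon
  push Not at hcon
  obtain ⟨a, b, hab, hW⟩ := exists_basis x
  obtain ⟨e, he⟩ : ∃ e, δ e ≠ 0 := by
    by_contra h2
    push Not at h2
    exact hδ (Derivation.ext h2)
  have haW : a ∈ x.W := by
    rw [hW]
    exact Submodule.subset_span (by simp)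
  have hbW : b ∈ x.W := by
    rw [hW]
    exact Submodule.subset_span (by simp)
  have hz0 : ∀ t : k, a + t • b ≠ 0 := by
    intro t ht
    have h1 := LinearIndependent.pair_iff.1 hab 1 t (by rw [one_smul]; exact ht)
    exact one_ne_zero h1.1
  -- the generic point
  set z : Fin 6 → E := em E a + e • em E b with hz
  have hzne : z ≠ 0 := by
    intro h0
    have h1 := notEck_li (E := E) hab (c := 1) (d := e) (by rw [one_smul]; exact h0)
    exact one_ne_zero h1.1
  have hzz : tri F z z z = 0 := by
    have h0 : ∀ u v w : Fin 6 → k, u ∈ x.W → v ∈ x.W → w ∈ x.W →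
        tri F (em E u) (em E v) (em E w) = 0 := by
      intro u v w hu hv hw
      rw [tri_em, Ln.tri_zero hF x hu hv hw, map_zero]
    rw [hz]
    simp only [tri_add1, tri_add2, tri_add3, tri_smul1, tri_smul2, tri_smul3,
      h0 _ _ _ haW haW haW, h0 _ _ _ haW haW hbW, h0 _ _ _ haW hbW haW, h0 _ _ _ haW hbW hbW,
      h0 _ _ _ hbW haW haW, h0 _ _ _ hbW haW hbW, h0 _ _ _ hbW hbW haW, h0 _ _ _ hbW hbW hbW]
    ring
  -- the polynomials
  let Z : Fin 6 → Polynomial k := fun m => Polynomial.C (a m) + Polynomial.X * Polynomial.C (b m)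
  let G : Fin 6 → Polynomial k := fun m => notEckTri F Z Z (Pi.single m 1)
  have hsingle : ∀ (K : Type) [Field K] [Algebra k K] (t : K) (m : Fin 6),
      (fun i => Polynomial.aeval t ((Pi.single m 1 : Fin 6 → Polynomial k) i)) =
        (Pi.single m 1 : Fin 6 → K) := by
    intro K _ _ t m
    funext i
    by_cases h : i = m
    · subst h
      simp
    · simp [Pi.single_eq_of_ne h]
  have hG : ∀ (K : Type) [Field K] [Algebra k K] (t : K) (m : Fin 6),
      Polynomial.aeval t (G m) = tri F (fun i => Polynomial.aeval t (Z i))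
        (fun i => Polynomial.aeval t (Z i)) (Pi.single m 1) := by
    intro K _ _ t m
    rw [notEck_map, hsingle K t m]
  have hV : ∀ (K : Type) [Field K] [Algebra k K] (t : K) (i j : Fin 6),
      (fun l => Polynomial.aeval t (notEckVec G i j l)) =
        notEckVec (fun m => tri F (fun i => Polynomial.aeval t (Z i))
          (fun i => Polynomial.aeval t (Z i)) (Pi.single m 1)) i j := by
    intro K _ _ t i j
    funext l
    unfold notEckVec
    rw [map_sub, map_mul, map_mul, hG K t, hG K t]
    have h1 := congrFun (hsingle K t j) l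
    have h2 := congrFun (hsingle K t i) l
    rw [h1, h2]
  have hP : ∀ i j j', notEckTri F Z (notEckVec G i j) (notEckVec G i j') = 0 := by
    intro i j j'
    refine Polynomial.funext fun t => ?_
    rw [Polynomial.eval_zero]
    have h1 := notEck_map (F := F) t Z (notEckVec G i j) (notEckVec G i j')
    rw [hV k t, hV k t, Polynomial.coe_aeval_eq_eval] at h1
    rw [h1]
    have hZt : (fun i => Polynomial.eval t (Z i)) = a + t • b := by
      funext m
      simp [Z]
      ring
    rw [hZt]
    have h2 := hcon (a + t • b) (x.W.add_mem haW (x.W.smul_mem _ hbW)) (hz0 t)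
    have h3 : ∀ i j : Fin 6, em E (notEckVec (fun m => tri F (a + t • b) (a + t • b)
        (Pi.single m 1)) i j) = notEckVec (fun m => tri F (em E (a + t • b))
        (em E (a + t • b)) (Pi.single m 1)) i j := by
      intro i j
      have hs : ∀ m : Fin 6, em E (Pi.single m 1 : Fin 6 → k) = Pi.single m 1 := by
        intro m
        funext i
        unfold em
        by_cases h : i = m
        · subst h
          simp
        · simp [Pi.single_eq_of_ne h]
      funext l
      have h4 : ∀ m : Fin 6, tri F (em E (a + t • b)) (em E (a + t • b)) (Pi.single m 1) =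
          algebraMap k E (tri F (a + t • b) (a + t • b) (Pi.single m 1)) := by
        intro m
        rw [← hs m, tri_em]
      have h5 := congrFun (hs j) l
      have h6 := congrFun (hs i) l
      unfold em at h5 h6
      unfold notEckVec
      beta_reduce
      rw [h4 i, h4 j]
      change algebraMap k E (_ * _ - _ * _) = _
      rw [map_sub, map_mul, map_mul, h5, h6]
    have h7 := h2 _ _ (notEck_ker (F := F) (em E (a + t • b)) i j)
      (notEck_ker (F := F) (em E (a + t • b)) i j')
    rw [← h3, ← h3, tri_em] at h7
    exact (map_eq_zero (algebraMap k E)).1 h7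
  have hZe : (fun i => Polynomial.aeval e (Z i)) = z := by
    funext m
    simp [Z, hz, em]
    ring
  obtain ⟨i, hi⟩ : ∃ i, tri F z z (Pi.single i 1) ≠ 0 := by
    by_contra h2
    push Not at h2
    refine hzne (tri_ns_all hF fun w => ?_)
    rw [tri_sum]
    refine Finset.sum_eq_zero fun i _ => ?_
    rw [h2, zero_mul]
  have hE : Eck F z := by
    refine notEck_crit hi fun j j' => ?_
    have h1 := notEck_map (F := F) e Z (notEckVec G i j) (notEckVec G i j')
    rw [hP, map_zero, hV E e, hV E e, hZe] at h1
    exact h1.symm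
  have h1 := eck_const hF hzne hzz hE δ z (Submodule.mem_span_singleton_self z)
  obtain ⟨c, hc⟩ := Submodule.mem_span_singleton.1 h1
  have h2 : dr δ z = δ e • em E b := by
    rw [hz, dr_add, dr_em, dr_smul, dr_em, smul_zero, zero_add, zero_add]
  have h3 := notEck_li (E := E) hab (c := c) (d := c * e - δ e) (by
    rw [h2, hz, smul_add, smul_smul] at hc
    rw [sub_smul, ← add_sub_assoc, hc, sub_self])
  refine he ?_
  have h4 := h3.2
  rw [h3.1, zero_mul, zero_sub, neg_eq_zero] at h4
  exact h4

end Pool.Agent.CUB.FLN
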