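import Pool.Agent.FLN.GlTan
import Pool.Agent.FLN.NotEck

/-!
# Some point of a constant line is on no line which meets a generic line

Proof of `gl_fin`. `D ≠ ⊥` by `h`, so there is `δ ≠ 0` in `D`; let `z = em E z₀` from `exists_not_eck`. Suppose `w ∈ y.W`,
`w ≠ 0`, `tri z z w = 0`, `tri z w w = 0`. `z`, `w` are independent: otherwise `z ∈ y.W` and `tri z z w' = 0` for all
`w' ∈ y.W` (`Ln.tri_zero`), contradiction to `gl_tan`. Let `m = ⟨z, w⟩` (`exists_ln`). All derivations preserve `⟨z⟩`
(`dr_em`). `thru`: `Cod D (st m.W) 1`; `point_on`: `Cod (D ⊓ st m.W) (st ⟨w⟩) 1`; if `Eck F w`: `eck_thru`: `Cod D (st y.W) 2`,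
contradiction to `h`; otherwise `thru` for `(D ⊓ st m.W) ⊓ st ⟨w⟩` and `y`: in total `Cod D (st y.W) 3`, contradiction.
-/

set_option autoImplicit false

noncomputable section

namespace Pool.Agent.CUB.FLN

open Pool.Agent.ZCyc Pool.Agent.Dess Pool.Agent.GT Module
open scoped Classical

variable {k : Type} [Field k] [IsAlgClosed k] [CharZero k] {F : MvPolynomial (Fin 6) k}
  {E : Type} [Field E] [Algebra k E] [IsAlgClosed E]

theorem gl_fin (hF : Smooth F) (D : Submodule E (Derivation k E E)) [FiniteDimensional E D]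
    {y : Ln F E} (h : finrank E ↥(D ⊓ st y.W) + 4 ≤ finrank E D) (x : Ln F k) {x' : Ln F E}
    (hx : ∀ a ∈ x.W, em E a ∈ x'.W) :
    ∃ z ∈ x'.W, ∀ w ∈ y.W, w ≠ 0 → tri F z z w = 0 → tri F z w w ≠ 0 := by
  -- a derivation which is not zero
  obtain ⟨δ, hδ⟩ : ∃ δ : Derivation k E E, δ ≠ 0 := by
    by_contra hcon
    push Not at hcon
    have h1 : D = ⊥ := by
      rw [Submodule.eq_bot_iff]
      intro δ _
      exact hcon δ
    have h2 : finrank E D = 0 := by
      rw [h1]
      exact finrank_bot E _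
    omega
  obtain ⟨z₀, hz₀, hz₀0, hE⟩ := exists_not_eck hF x hδ
  have hzx : em E z₀ ∈ x'.W := hx z₀ hz₀
  have hz0 : em E z₀ ≠ 0 := by
    intro h1
    apply hz₀0
    funext i
    have h2 := congrFun h1 i
    exact (map_eq_zero (algebraMap k E)).1 h2
  refine ⟨em E z₀, hzx, fun w hw hw0 h1 h2 => ?_⟩
  -- `z` and `w` are independent
  have hli : LinearIndependent E ![em E z₀, w] := by
    rw [LinearIndependent.pair_iff]
    intro a b hab
    have ha : a = 0 := by
      by_contra ha
      have h3 : em E z₀ ∈ y.W := by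
        have h4 : em E z₀ = (-(a⁻¹ * b)) • w := by
          have h5 : a • em E z₀ = -(b • w) := eq_neg_of_add_eq_zero_left hab
          calc em E z₀ = a⁻¹ • (a • em E z₀) := by rw [smul_smul, inv_mul_cancel₀ ha, one_smul]
            _ = (-(a⁻¹ * b)) • w := by rw [h5, smul_neg, smul_smul, neg_smul]
        rw [h4]
        exact y.W.smul_mem _ hw
      obtain ⟨w', hw', hne⟩ := gl_tan hF D h x hx (em E z₀) hzx hz0
      exact hne (Ln.tri_zero hF y h3 h3 hw')
    rw [ha, zero_smul, zero_add] at hab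
    exact ⟨ha, (smul_eq_zero.1 hab).resolve_right hw0⟩
  obtain ⟨m, hm⟩ := exists_ln hF hli (Ln.tri_zero hF x' hzx hzx hzx) h1 h2
    (Ln.tri_zero hF y hw hw hw)
  have hzm : em E z₀ ∈ m.W := by
    rw [hm]
    exact Submodule.subset_span (by simp)
  have hwm : w ∈ m.W := by
    rw [hm]
    exact Submodule.subset_span (by simp)
  have hDz : D ≤ st (Submodule.span E {em E z₀}) := by
    intro δ' _
    refine mem_st_span ?_
    rintro u rfl
    rw [dr_em]
    exact Submodule.zero_mem _
  have c1 : Cod D (st m.W) 1 := thru hF hz0 hE hzm D hDz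
  have : FiniteDimensional E ↥(D ⊓ st m.W) := Submodule.finiteDimensional_of_le inf_le_left
  have c2 : Cod (D ⊓ st m.W) (st (Submodule.span E {w})) 1 :=
    point_on m hwm hw0 _ inf_le_right
  have c12 := c1.trans c2
  by_cases hEw : Eck F w
  · have c3 : Cod D (st y.W) 2 := eck_thru hF hw0 hEw hw D
    unfold Cod at c3
    omega
  · have : FiniteDimensional E ↥(D ⊓ (st m.W ⊓ st (Submodule.span E {w}))) :=
      Submodule.finiteDimensional_of_le inf_le_left
    have c3 : Cod (D ⊓ (st m.W ⊓ st (Submodule.span E {w}))) (st y.W) 1 :=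
      thru hF hw0 hEw hw _ (inf_le_right.trans inf_le_right)
    have c4 := (c12.trans c3).mono (S' := st y.W) (inf_le_right.trans inf_le_right)
    unfold Cod at c4
    omega

end Pool.Agent.CUB.FLN
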