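import Pool.Agent.FLN.Gauss2

/-!
# Lines in a constant tangent hyperplane

Proof of `hyp`. Let `h = tri z z`, `φij = tri y_i y_j` for a basis `y₀, y₁` of the line. The map
`θ δ = (dr δ y₀, dr δ y₁)` modulo the line has values in the common kernel of the six functionals
`h u₀`, `h u₁`, `φ00 u₀`, `2 φ01 u₀ + φ00 u₁`, `φ11 u₀ + 2 φ01 u₁`, `φ11 u₁`. They are linearly
independent: a relation between them gives two relations
`λ₀ φ00 + 2 λ₁ φ01 + λ₂ φ11 = 0`, `λ₁ φ00 + 2 λ₂ φ01 + λ₃ φ11 = 0` modulo `h`, and by `hyp_hankel`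
a combination of them is `tri s s` for a vector `s ≠ 0` of the line. So the common kernel has
dimension `6`, and modulo the line dimension at most `2`.
-/

set_option autoImplicit false

noncomputable section

namespace Pool.Agent.CUB.FLN

open Pool.Agent.ZCyc Pool.Agent.Dess Pool.Agent.GT Module
open scoped Classical

variable {k : Type} [Field k] [IsAlgClosed k] [CharZero k] {F : MvPolynomial (Fin 6) k}
  {E : Type} [Field E] [Algebra k E] [IsAlgClosed E]

/-- a square root of a rank one quadratic form in two variables -/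
private theorem hyp_root {P Q R : E} (h : P * R = Q ^ 2) (h0 : ¬ (P = 0 ∧ R = 0)) :
    ∃ s t : E, ¬ (s = 0 ∧ t = 0) ∧ s ^ 2 = P ∧ s * t = Q ∧ t ^ 2 = R := by
  obtain ⟨s, hs⟩ := IsAlgClosed.exists_pow_nat_eq P (n := 2) (by norm_num)
  obtain ⟨t, ht⟩ := IsAlgClosed.exists_pow_nat_eq R (n := 2) (by norm_num)
  have h1 : (s * t) ^ 2 = Q ^ 2 := by rw [mul_pow, hs, ht, h]
  have h2 : ¬ (s = 0 ∧ t = 0) := by
    rintro ⟨rfl, rfl⟩
    apply h0
    constructor
    · rw [← hs]; ring
    · rw [← ht]; ring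
  rcases sq_eq_sq_iff_eq_or_eq_neg.1 h1 with h3 | h3
  · exact ⟨s, t, h2, hs, h3, ht⟩
  · refine ⟨s, -t, ?_, hs, ?_, ?_⟩
    · rintro ⟨h4, h5⟩
      exact h2 ⟨h4, neg_eq_zero.1 h5⟩
    · rw [mul_neg, h3, neg_neg]
    · rw [neg_sq, ht]

/-- a nonzero zero of a binary quadratic form -/
private theorem hyp_binary (A B C : E) :
    ∃ x y : E, ¬ (x = 0 ∧ y = 0) ∧ A * x ^ 2 + B * x * y + C * y ^ 2 = 0 := by
  by_cases hA : A = 0
  · exact ⟨1, 0, fun h => one_ne_zero h.1, by rw [hA]; ring⟩
  · have hdeg : (Polynomial.C A * Polynomial.X ^ 2 + Polynomial.C B * Polynomial.X +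
        Polynomial.C C).degree ≠ 0 := by
      rw [Polynomial.degree_quadratic hA]
      norm_num
    obtain ⟨x, hx⟩ := IsAlgClosed.exists_root _ hdeg
    refine ⟨x, 1, fun h => one_ne_zero h.2, ?_⟩
    have h1 := hx
    simp only [Polynomial.IsRoot, Polynomial.eval_add, Polynomial.eval_mul, Polynomial.eval_C,
      Polynomial.eval_pow, Polynomial.eval_X] at h1
    linear_combination h1

/-- Hankel argument -/
private theorem hyp_hankel {l0 l1 l2 l3 : E} (h : ¬ (l0 = 0 ∧ l1 = 0 ∧ l2 = 0 ∧ l3 = 0)) :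
    ∃ α β s t : E, ¬ (s = 0 ∧ t = 0) ∧ s ^ 2 = α * l0 + β * l1 ∧ s * t = α * l1 + β * l2 ∧
      t ^ 2 = α * l2 + β * l3 := by
  obtain ⟨α, β, h0, hq⟩ := hyp_binary (l0 * l2 - l1 ^ 2) (l0 * l3 - l1 * l2) (l1 * l3 - l2 ^ 2)
  by_cases hPR : α * l0 + β * l1 = 0 ∧ α * l2 + β * l3 = 0
  · have hQ : α * l1 + β * l2 = 0 := by
      have : (α * l1 + β * l2) ^ 2 = 0 := by
        have e : (α * l0 + β * l1) * (α * l2 + β * l3) = 0 := by rw [hPR.1, zero_mul]
        linear_combination e - hq
      exact pow_eq_zero_iff (two_ne_zero) |>.1 this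
    by_cases hβ : β = 0
    · have hα : α ≠ 0 := fun h' => h0 ⟨h', hβ⟩
      rw [hβ] at hPR hQ
      simp only [zero_mul, add_zero, mul_eq_zero, hα, false_or] at hPR hQ
      have h3 : l3 ≠ 0 := fun h' => h ⟨hPR.1, hQ, hPR.2, h'⟩
      obtain ⟨t, ht⟩ := IsAlgClosed.exists_pow_nat_eq l3 (n := 2) (by norm_num)
      refine ⟨0, 1, 0, t, ?_, ?_, ?_, ?_⟩
      · rintro ⟨_, h5⟩
        apply h3
        rw [← ht, h5]
        ring
      · rw [hQ]; ring
      · rw [hPR.2]; ring
      · rw [ht]; ring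
    · have e1 : l1 = -(α / β) * l0 := by
        field_simp
        linear_combination hPR.1
      have e2 : l2 = -(α / β) * l1 := by
        field_simp
        linear_combination hQ
      have e3 : l3 = -(α / β) * l2 := by
        field_simp
        linear_combination hPR.2
      have hl0 : l0 ≠ 0 := by
        intro h'
        apply h
        have f1 : l1 = 0 := by rw [e1, h', mul_zero]
        have f2 : l2 = 0 := by rw [e2, f1, mul_zero]
        have f3 : l3 = 0 := by rw [e3, f2, mul_zero]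
        exact ⟨h', f1, f2, f3⟩
      obtain ⟨s, hs⟩ := IsAlgClosed.exists_pow_nat_eq l0 (n := 2) (by norm_num)
      refine ⟨1, 0, s, -(α / β) * s, ?_, ?_, ?_, ?_⟩
      · rintro ⟨h5, _⟩
        apply hl0
        rw [← hs, h5]
        ring
      · rw [hs]; ring
      · rw [e1, ← hs]; ring
      · rw [e2, e1, ← hs]; ring
  · obtain ⟨s, t, h1, h2, h3, h4⟩ := hyp_root (P := α * l0 + β * l1) (Q := α * l1 + β * l2)
      (R := α * l2 + β * l3) (by linear_combination hq) hPR
    exact ⟨α, β, s, t, h1, h2, h3, h4⟩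

/-- the six functionals -/
private def hyp_f (F : MvPolynomial (Fin 6) k) (z a b : Fin 6 → E) :
    Fin 6 → Module.Dual E ((Fin 6 → E) × (Fin 6 → E)) :=
  ![(trl F z z).comp (LinearMap.fst E _ _), (trl F z z).comp (LinearMap.snd E _ _),
    (trl F a a).comp (LinearMap.fst E _ _),
    (2 : E) • (trl F a b).comp (LinearMap.fst E _ _) + (trl F a a).comp (LinearMap.snd E _ _),
    (trl F b b).comp (LinearMap.fst E _ _) + (2 : E) • (trl F a b).comp (LinearMap.snd E _ _),
    (trl F b b).comp (LinearMap.snd E _ _)]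

omit [IsAlgClosed k] [CharZero k] [IsAlgClosed E] in
private theorem hyp_f_mem {z a b : Fin 6 → E} {u v : Fin 6 → E} :
    (u, v) ∈ Submodule.dualCoannihilator (Submodule.span E (Set.range (hyp_f F z a b))) ↔
      tri F z z u = 0 ∧ tri F z z v = 0 ∧ tri F a a u = 0 ∧ 2 * tri F a b u + tri F a a v = 0 ∧
      tri F b b u + 2 * tri F a b v = 0 ∧ tri F b b v = 0 := by
  rw [Submodule.mem_dualCoannihilator]
  constructor
  · intro h
    have h' : ∀ i, hyp_f F z a b i (u, v) = 0 := fun i =>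
      h _ (Submodule.subset_span ⟨i, rfl⟩)
    exact ⟨h' 0, h' 1, h' 2, h' 3, h' 4, h' 5⟩
  · rintro ⟨h0, h1, h2, h3, h4, h5⟩ φ hφ
    induction hφ using Submodule.span_induction with
    | mem x hx =>
      obtain ⟨i, rfl⟩ := hx
      fin_cases i
      · exact h0
      · exact h1
      · exact h2
      · exact h3
      · exact h4
      · exact h5
    | zero => rfl
    | add x y _ _ hx hy => rw [LinearMap.add_apply, hx, hy, add_zero]
    | smul c x _ hx => rw [LinearMap.smul_apply, hx, smul_zero]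

private theorem hyp_f_indep (hF : Smooth F) {z a b : Fin 6 → E} (hz : z ≠ 0)
    (hs : ∀ s t : E, ¬ (s = 0 ∧ t = 0) →
      ¬ ∃ c, ∀ w, tri F (s • a + t • b) (s • a + t • b) w = c * tri F z z w) :
    LinearIndependent E (hyp_f F z a b) := by
  rw [Fintype.linearIndependent_iff]
  intro g hg
  have ev : ∀ u v, g 0 * tri F z z u + g 1 * tri F z z v + g 2 * tri F a a u +
      g 3 * (2 * tri F a b u + tri F a a v) + g 4 * (tri F b b u + 2 * tri F a b v) +
      g 5 * tri F b b v = 0 := by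
    intro u v
    have h1 := LinearMap.congr_fun hg (u, v)
    rw [LinearMap.sum_apply, Fin.sum_univ_six] at h1
    exact h1
  have ev1 : ∀ u, g 0 * tri F z z u + g 2 * tri F a a u + g 3 * (2 * tri F a b u) +
      g 4 * tri F b b u = 0 := by
    intro u
    have h1 := ev u 0
    rw [tri_zero3, tri_zero3, tri_zero3, tri_zero3] at h1
    linear_combination h1
  have ev2 : ∀ v, g 1 * tri F z z v + g 3 * tri F a a v + g 4 * (2 * tri F a b v) +
      g 5 * tri F b b v = 0 := by
    intro v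
    have h1 := ev 0 v
    rw [tri_zero3, tri_zero3, tri_zero3, tri_zero3] at h1
    linear_combination h1
  have hz' : ∃ w, tri F z z w ≠ 0 := by
    by_contra hcon
    push Not at hcon
    exact hz (tri_ns_all hF hcon)
  obtain ⟨w₀, hw₀⟩ := hz'
  by_cases h : g 2 = 0 ∧ g 3 = 0 ∧ g 4 = 0 ∧ g 5 = 0
  · obtain ⟨h2, h3, h4, h5⟩ := h
    have h0 : g 0 = 0 := by
      have h1 := ev1 w₀
      rw [h2, h3, h4] at h1
      simp only [zero_mul, add_zero] at h1
      exact (mul_eq_zero.1 h1).resolve_right hw₀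
    have h1 : g 1 = 0 := by
      have h1 := ev2 w₀
      rw [h3, h4, h5] at h1
      simp only [zero_mul, add_zero] at h1
      exact (mul_eq_zero.1 h1).resolve_right hw₀
    intro i
    fin_cases i
    · exact h0
    · exact h1
    · exact h2
    · exact h3
    · exact h4
    · exact h5
  · exfalso
    obtain ⟨α, β, s, t, hst, e1, e2, e3⟩ := hyp_hankel h
    refine hs s t hst ⟨-(α * g 0 + β * g 1), fun w => ?_⟩
    have hexp : tri F (s • a + t • b) (s • a + t • b) w =
        s ^ 2 * tri F a a w + 2 * (s * t) * tri F a b w + t ^ 2 * tri F b b w := by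
      simp only [tri_add1, tri_add2, tri_smul1, tri_smul2]
      rw [tri_swap12 F b a w]
      ring
    rw [hexp, e1, e2, e3]
    linear_combination α * ev1 w + β * ev2 w

theorem hyp (hF : Smooth F) {z : Fin 6 → E} (hz : z ≠ 0) {y : Ln F E}
    (hy : ∀ w ∈ y.W, tri F z z w = 0)
    (hs : ∀ s ∈ y.W, s ≠ 0 → ¬ ∃ c, ∀ w, tri F s s w = c * tri F z z w)
    (D : Submodule E (Derivation k E E)) [FiniteDimensional E D]
    (hD : D ≤ st (Submodule.span E {z})) : Cod D (st y.W) 2 := by
  obtain ⟨a, b, hab, hW⟩ := exists_basis y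
  have ha : a ∈ y.W := by
    rw [hW]
    exact Submodule.subset_span (by simp)
  have hb : b ∈ y.W := by
    rw [hW]
    exact Submodule.subset_span (by simp)
  have h3 : ∀ {u v w : Fin 6 → E}, u ∈ y.W → v ∈ y.W → w ∈ y.W → tri F u v w = 0 :=
    fun hu hv hw => Ln.tri_zero hF y hu hv hw
  have hC : CharZero E := charZero_of_injective_algebraMap (algebraMap k E).injective
  have hli : LinearIndependent E (hyp_f F z a b) := by
    refine hyp_f_indep hF hz fun s t hst => ?_
    refine hs _ (y.W.add_mem (y.W.smul_mem _ ha) (y.W.smul_mem _ hb)) fun h0 => ?_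
    exact hst ((LinearIndependent.pair_iff.1 hab) s t h0)
  set T' : Submodule E ((Fin 6 → E) × (Fin 6 → E)) :=
    Submodule.dualCoannihilator (Submodule.span E (Set.range (hyp_f F z a b))) with hT'
  have hdim : finrank E T' = 6 := by
    have h1 : finrank E (Submodule.span E (Set.range (hyp_f F z a b))) + finrank E T' =
        finrank E ((Fin 6 → E) × (Fin 6 → E)) :=
      Subspace.finrank_add_finrank_dualCoannihilator_eq _
    rw [finrank_span_eq_card hli, Fintype.card_fin] at h1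
    have h2 : finrank E ((Fin 6 → E) × (Fin 6 → E)) = 12 := by
      rw [Module.finrank_prod, Module.finrank_fin_fun]
    rw [h2] at h1
    omega
  let q : ((Fin 6 → E) × (Fin 6 → E)) →ₗ[E] (((Fin 6 → E) ⧸ y.W) × ((Fin 6 → E) ⧸ y.W)) :=
    y.W.mkQ.prodMap y.W.mkQ
  let θ : Derivation k E E →ₗ[E] (((Fin 6 → E) ⧸ y.W) × ((Fin 6 → E) ⧸ y.W)) :=
    q.comp ((drL a).prod (drL b))
  have hθ : ∀ δ, θ δ = (y.W.mkQ (dr δ a), y.W.mkQ (dr δ b)) := fun δ => rfl
  refine cod_of_map θ (T'.map q) ?_ ?_ ?_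
  · let g : T' →ₗ[E] (((Fin 6 → E) ⧸ y.W) × ((Fin 6 → E) ⧸ y.W)) := q.domRestrict T'
    have h1 := LinearMap.finrank_range_add_finrank_ker g
    have h2 : LinearMap.range g = T'.map q := by
      rw [LinearMap.range_domRestrict]
    rw [h2, hdim] at h1
    have h4 : finrank E (y.W × y.W) = 4 := by
      rw [Module.finrank_prod, y.two]
    have hmem : ∀ p : y.W × y.W, ((p.1 : Fin 6 → E), (p.2 : Fin 6 → E)) ∈ T' := by
      intro p
      rw [hT', hyp_f_mem]
      refine ⟨hy _ p.1.2, hy _ p.2.2, h3 ha ha p.1.2, ?_, ?_, h3 hb hb p.2.2⟩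
      · rw [h3 ha hb p.1.2, h3 ha ha p.2.2, mul_zero, add_zero]
      · rw [h3 hb hb p.1.2, h3 ha hb p.2.2, mul_zero, add_zero]
    let ι : (y.W × y.W) →ₗ[E] LinearMap.ker g :=
      { toFun := fun p => ⟨⟨((p.1 : Fin 6 → E), (p.2 : Fin 6 → E)), hmem p⟩, by
          rw [LinearMap.mem_ker]
          change (y.W.mkQ (p.1 : Fin 6 → E), y.W.mkQ (p.2 : Fin 6 → E)) = 0
          rw [Submodule.mkQ_apply, Submodule.mkQ_apply, (Submodule.Quotient.mk_eq_zero _).2 p.1.2,
            (Submodule.Quotient.mk_eq_zero _).2 p.2.2]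
          rfl⟩
        map_add' := fun _ _ => rfl
        map_smul' := fun _ _ => rfl }
    have h5 : finrank E (y.W × y.W) ≤ finrank E (LinearMap.ker g) := by
      refine LinearMap.finrank_le_finrank_of_injective (f := ι) fun p p' hp => ?_
      have h6 : (((p.1 : Fin 6 → E), (p.2 : Fin 6 → E)) : (Fin 6 → E) × (Fin 6 → E)) =
          ((p'.1 : Fin 6 → E), (p'.2 : Fin 6 → E)) :=
        congrArg (fun x : LinearMap.ker g => (x.1 : (Fin 6 → E) × (Fin 6 → E))) hp
      rw [Prod.mk.injEq] at h6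
      exact Prod.ext (Subtype.ext h6.1) (Subtype.ext h6.2)
    rw [h4] at h5
    omega
  · intro δ hδ
    refine Submodule.mem_map.2 ⟨(dr δ a, dr δ b), ?_, rfl⟩
    rw [hT', hyp_f_mem]
    have hz1 : dr δ z ∈ Submodule.span E {z} :=
      hD hδ z (Submodule.mem_span_singleton_self z)
    obtain ⟨μ, hμ⟩ := Submodule.mem_span_singleton.1 hz1
    have hh : ∀ w ∈ y.W, tri F z z (dr δ w) = 0 := by
      intro w hw
      have h1 := dr_tri F δ z z w
      rw [hy w hw, map_zero, ← hμ, tri_smul1, tri_smul2, hy w hw] at h1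
      simpa using h1.symm
    have e0 := dr_tri F δ a a a
    rw [h3 ha ha ha, map_zero, tri_swap12 F (dr δ a) a a, tri_swap23 F a (dr δ a) a] at e0
    have e1 := dr_tri F δ a a b
    rw [h3 ha ha hb, map_zero, tri_swap12 F (dr δ a) a b, tri_swap23 F a (dr δ a) b] at e1
    have e2 := dr_tri F δ a b b
    rw [h3 ha hb hb, map_zero, tri_swap12 F (dr δ a) b b, tri_swap23 F b (dr δ a) b,
      tri_swap23 F a (dr δ b) b] at e2
    have e3 := dr_tri F δ b b b
    rw [h3 hb hb hb, map_zero, tri_swap12 F (dr δ b) b b, tri_swap23 F b (dr δ b) b] at e3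
    have t3 : (3 : E) ≠ 0 := by norm_num
    refine ⟨hh a ha, hh b hb, ?_, ?_, ?_, ?_⟩
    · have h1 : (3 : E) * tri F a a (dr δ a) = 0 := by linear_combination -e0
      exact (mul_eq_zero.1 h1).resolve_left t3
    · linear_combination -e1
    · linear_combination -e2
    · have h1 : (3 : E) * tri F b b (dr δ b) = 0 := by linear_combination -e3
      exact (mul_eq_zero.1 h1).resolve_left t3
  · intro δ _ h0
    rw [hθ, Prod.mk_eq_zero] at h0
    have h1 : dr δ a ∈ y.W := (Submodule.Quotient.mk_eq_zero _).1 h0.1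
    have h2 : dr δ b ∈ y.W := (Submodule.Quotient.mk_eq_zero _).1 h0.2
    rw [hW] at h1 h2 ⊢
    refine mem_st_span ?_
    rintro x (rfl | rfl)
    · exact h1
    · exact h2

end Pool.Agent.CUB.FLN
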