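import Pool.Agent.FLN.Thru
import Pool.Agent.FLN.Hyp

/-!
# A generic line is in no tangent hyperplane of a point of a constant line

Proof of `gl_tan`. Suppose `tri z z w = 0` for all `w ∈ y.W`. `Cod D (st ⟨z⟩) 1` by `point_on`, `const_st`. `D₁ = D ⊓ st ⟨z⟩`.
(A) If there is no `s ∈ y.W`, `s ≠ 0`, with `tri s s = c tri z z`: `hyp` for `D₁` gives `Cod D₁ (st y.W) 2`, so `Cod D (st y.W) 3`
(`Cod.trans`, `Cod.mono`), contradiction to `h`. (B) Otherwise `D₁ ≤ st ⟨s⟩` by `gauss_pt`. If `Eck F s`: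
`Cod D (st y.W) 2` by `eck_thru`, contradiction. Otherwise `thru` for `D₁`: `Cod D₁ (st y.W) 1`, so `Cod D (st y.W) 2`.
-/

set_option autoImplicit false

noncomputable section

namespace Pool.Agent.CUB.FLN

open Pool.Agent.ZCyc Pool.Agent.Dess Pool.Agent.GT Module
open scoped Classical

variable {k : Type} [Field k] [IsAlgClosed k] [CharZero k] {F : MvPolynomial (Fin 6) k}
  {E : Type} [Field E] [Algebra k E] [IsAlgClosed E]

theorem gl_tan (hF : Smooth F) (D : Submodule E (Derivation k E E)) [FiniteDimensional E D]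
    {y : Ln F E} (h : finrank E ↥(D ⊓ st y.W) + 4 ≤ finrank E D) (x : Ln F k) {x' : Ln F E}
    (hx : ∀ a ∈ x.W, em E a ∈ x'.W) :
    ∀ z ∈ x'.W, z ≠ 0 → ∃ w ∈ y.W, tri F z z w ≠ 0 := by
  intro z hz hz0
  by_contra hcon
  push Not at hcon
  have hDx : D ≤ st x'.W := fun δ _ => const_st x hx δ
  have h1 : Cod D (st (Submodule.span E {z})) 1 := point_on x' hz hz0 D hDx
  have hfin : FiniteDimensional E ↥(D ⊓ st (Submodule.span E {z})) :=
    Submodule.finiteDimensional_of_le inf_le_left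
  have hle : D ⊓ st (Submodule.span E {z}) ≤ st (Submodule.span E {z}) := inf_le_right
  have key : ∀ n : ℕ, n ≤ 3 → Cod D (st y.W) n → False := by
    intro n hn hc
    unfold Cod at hc
    omega
  have step : ∀ n : ℕ, Cod (D ⊓ st (Submodule.span E {z})) (st y.W) n →
      Cod D (st y.W) (1 + n) := by
    intro n hc
    exact (h1.trans hc).mono (inf_le_right.trans inf_le_right)
  by_cases hs : ∀ s ∈ y.W, s ≠ 0 → ¬ ∃ c, ∀ w, tri F s s w = c * tri F z z w
  · exact key _ le_rfl (step 2 (hyp hF hz0 hcon hs _ hle))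
  · push Not at hs
    obtain ⟨s, hsy, hs0, c, hc⟩ := hs
    by_cases hE : Eck F s
    · exact key 2 (by norm_num) (eck_thru hF hs0 hE hsy D)
    · have hD1 : D ⊓ st (Submodule.span E {z}) ≤ st (Submodule.span E {s}) := fun δ hδ =>
        gauss_pt hF hs0 c hc (hle hδ)
      exact key _ (by norm_num) (step 1 (thru hF hs0 hE hsy _ hD1))

end Pool.Agent.CUB.FLN
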