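import Pool.Agent.FLN.Gauss

/-!
# Points with degenerate Hessian

`hess`. The vectors `dr δ x` (`δ ∈ D`) and `kH F x` are in the kernel of the functional `tri x x`
(`0 = δ (tri x x x) = 3 tri x x (dr δ x)`), which is not zero (`tri_ns_all`) and contains `x`. So
the rank of `D × kH F x → (Fin 6 → E) ⧸ ⟨x⟩` is at most four. If `dr δ x + n = c x` then `tri x
(dr δ x) w = c tri x x w`, so `δ ∈ st ⟨x⟩` by `gauss`, and `n ∈ ⟨x⟩`, so `n = 0`.

`eck_ker`: the linear map `u ↦ tri x u` from the kernel `T` of `tri x x` has values in the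
functionals which vanish on `T`, a space of dimension one, so its kernel has dimension at least
four. `eck_const`: `hess` for `D = ⟨δ⟩` and `eck_ker`.
-/

set_option autoImplicit false

noncomputable section

namespace Pool.Agent.CUB.FLN

open Pool.Agent.ZCyc Pool.Agent.Dess Pool.Agent.GT Module
open scoped Classical

variable {k : Type} [Field k] [IsAlgClosed k] [CharZero k] {F : MvPolynomial (Fin 6) k}
  {E : Type} [Field E] [Algebra k E] [IsAlgClosed E]

omit [IsAlgClosed k] [IsAlgClosed E] in
private theorem hess_dr {x : Fin 6 → E} (h : tri F x x x = 0) (δ : Derivation k E E) :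
    tri F x x (dr δ x) = 0 := by
  have hch : CharZero E := charZero_of_injective_algebraMap (algebraMap k E).injective
  have h1 := dr_tri F δ x x x
  rw [h, map_zero, tri_swap12 F (dr δ x), tri_swap23 F x (dr δ x)] at h1
  have h2 : (3 : E) * tri F x x (dr δ x) = 0 := by linear_combination -h1
  exact (mul_eq_zero.1 h2).resolve_left (by norm_num)

omit [IsAlgClosed E] in
private theorem hess_ne (hF : Smooth F) {x : Fin 6 → E} (hx : x ≠ 0) : trl F x x ≠ 0 := by
  intro h
  exact hx (tri_ns_all hF fun z => by rw [← trl_apply, h, LinearMap.zero_apply])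

omit [CharZero k] [IsAlgClosed k] [IsAlgClosed E] in
private theorem hess_dim {V : Type} [AddCommGroup V] [Module E V]
    [FiniteDimensional E V] {f : V →ₗ[E] E} (hf : f ≠ 0) :
    finrank E (LinearMap.ker f) + 1 = finrank E V := by
  have h1 := LinearMap.finrank_range_add_finrank_ker f
  have h2 : LinearMap.range f = ⊤ := LinearMap.range_eq_top.2 (LinearMap.surjective hf)
  rw [h2, finrank_top, finrank_self] at h1
  omega

theorem hess (hF : Smooth F) {x : Fin 6 → E} (hx : x ≠ 0) (h : tri F x x x = 0)
    (D : Submodule E (Derivation k E E)) [FiniteDimensional E D] :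
    finrank E D + finrank E (kH F x) ≤ finrank E ↥(D ⊓ st (Submodule.span E {x})) + 4 := by
  have hlam : Submodule.span E {x} ≤ LinearMap.ker (trl F x x) := by
    rw [Submodule.span_singleton_le_iff_mem, LinearMap.mem_ker, trl_apply, h]
  let lam : ((Fin 6 → E) ⧸ Submodule.span E {x}) →ₗ[E] E :=
    (Submodule.span E {x}).liftQ (trl F x x) hlam
  let θ : (D × kH F x) →ₗ[E] ((Fin 6 → E) ⧸ Submodule.span E {x}) :=
    (Submodule.span E {x}).mkQ.comp (((drL x).comp D.subtype).coprod (kH F x).subtype)
  have hθ : ∀ (δ : D) (n : kH F x), θ (δ, n) =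
      (Submodule.span E {x}).mkQ (dr (δ : Derivation k E E) x + n) := fun _ _ => rfl
  have hlam1 : ∀ v, lam ((Submodule.span E {x}).mkQ v) = tri F x x v := fun v => rfl
  have hlam0 : lam ≠ 0 := by
    intro h0
    apply hx
    refine tri_ns_all hF fun z => ?_
    rw [← hlam1, h0, LinearMap.zero_apply]
  have hr : LinearMap.range θ ≤ LinearMap.ker lam := by
    rintro _ ⟨⟨δ, n⟩, rfl⟩
    rw [LinearMap.mem_ker, hθ, hlam1, tri_add3, hess_dr h, zero_add, tri_swap23]
    exact mem_kH.1 n.2 x
  have hP : finrank E ↥(Submodule.span E {x}) = 1 := finrank_span_singleton hx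
  have hq := Submodule.finrank_quotient_add_finrank (Submodule.span E {x})
  rw [hP, Module.finrank_fin_fun] at hq
  have hk := hess_dim hlam0
  have h1 := LinearMap.finrank_range_add_finrank_ker θ
  have h2 := Submodule.finrank_mono hr
  rw [Module.finrank_prod] at h1
  have h3 : finrank E (LinearMap.ker θ) ≤ finrank E ↥(D ⊓ st (Submodule.span E {x})) := by
    have : FiniteDimensional E ↥(D ⊓ st (Submodule.span E {x})) :=
      Submodule.finiteDimensional_of_le inf_le_left
    have hmem : ∀ z : LinearMap.ker θ,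
        ∃ c : E, c • x = dr (z.1.1 : Derivation k E E) x + z.1.2 := by
      intro z
      have h4 : θ (z.1.1, z.1.2) = 0 := z.2
      rw [hθ, Submodule.mkQ_apply, Submodule.Quotient.mk_eq_zero] at h4
      exact Submodule.mem_span_singleton.1 h4
    have hst : ∀ z : LinearMap.ker θ, (z.1.1 : Derivation k E E) ∈ st (Submodule.span E {x}) := by
      intro z
      obtain ⟨c, hc⟩ := hmem z
      refine gauss hF _ hx c fun w => ?_
      have h5 : dr (z.1.1 : Derivation k E E) x = c • x - z.1.2 := by rw [hc, add_sub_cancel_right]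
      have h6 := mem_kH.1 z.1.2.2 w
      rw [h5, sub_eq_add_neg, ← neg_one_smul E (z.1.2 : Fin 6 → E), tri_add2, tri_smul2, tri_smul2,
        h6, mul_zero, add_zero]
    have hz : ∀ z : LinearMap.ker θ, z.1.2 = 0 := by
      intro z
      obtain ⟨c, hc⟩ := hmem z
      obtain ⟨d, hd⟩ := Submodule.mem_span_singleton.1
        (hst z x (Submodule.mem_span_singleton_self x))
      have h5 : (z.1.2 : Fin 6 → E) = (c - d) • x := by
        rw [sub_smul, hc, hd, add_sub_cancel_left]
      have h6 : c - d = 0 := by
        by_contra hne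
        apply hx
        refine tri_ns_all hF fun w => ?_
        have h7 := mem_kH.1 z.1.2.2 w
        rw [h5, tri_smul2] at h7
        exact (mul_eq_zero.1 h7).resolve_left hne
      apply Subtype.ext
      rw [h5, h6, zero_smul]
      rfl
    let ψ : LinearMap.ker θ →ₗ[E] ↥(D ⊓ st (Submodule.span E {x})) :=
      (D.subtype.comp ((LinearMap.fst E D (kH F x)).comp (LinearMap.ker θ).subtype)).codRestrict
        (D ⊓ st (Submodule.span E {x})) fun z => ⟨z.1.1.2, hst z⟩
    refine LinearMap.finrank_le_finrank_of_injective (f := ψ) fun z z' hzz => ?_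
    have h5 : ((ψ z : ↥(D ⊓ st (Submodule.span E {x}))) : Derivation k E E) = ψ z' :=
      congrArg Subtype.val hzz
    have h6 : (z.1.1 : Derivation k E E) = z'.1.1 := h5
    apply Subtype.ext
    apply Prod.ext
    · exact Subtype.ext h6
    · rw [hz, hz]
  omega

/-- the bilinear form `tri F x` -/
private def hess_B (F : MvPolynomial (Fin 6) k) (x : Fin 6 → E) :
    (Fin 6 → E) →ₗ[E] Module.Dual E (Fin 6 → E) :=
  LinearMap.mk₂ E (tri F x) (fun u v w => tri_add2 F x u v w) (fun c u w => tri_smul2 F c x u w)
    (fun u v w => tri_add3 F x u v w) fun c u w => tri_smul3 F c x u w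

theorem eck_ker (hF : Smooth F) {x : Fin 6 → E} (hx : x ≠ 0) (h : tri F x x x = 0)
    (hE : Eck F x) : 4 ≤ finrank E (kH F x) := by
  have h0 := hess_dim (hess_ne hF hx)
  rw [Module.finrank_fin_fun] at h0
  let φ : LinearMap.ker (trl F x x) →ₗ[E] Module.Dual E (Fin 6 → E) :=
    (hess_B F x).comp (LinearMap.ker (trl F x x)).subtype
  have hφ : ∀ (u : LinearMap.ker (trl F x x)) (v : Fin 6 → E), φ u v = tri F x u v :=
    fun _ _ => rfl
  have h1 := LinearMap.finrank_range_add_finrank_ker φ
  have hr : LinearMap.range φ ≤ (LinearMap.ker (trl F x x)).dualAnnihilator := by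
    rintro _ ⟨u, rfl⟩
    rw [Submodule.mem_dualAnnihilator]
    intro v hv
    rw [hφ]
    exact hE _ _ u.2 hv
  have h2 := Submodule.finrank_mono hr
  have h3 := Subspace.finrank_add_finrank_dualAnnihilator_eq (LinearMap.ker (trl F x x))
  rw [Module.finrank_fin_fun] at h3
  let ψ : LinearMap.ker φ →ₗ[E] kH F x :=
    ((LinearMap.ker (trl F x x)).subtype.comp (LinearMap.ker φ).subtype).codRestrict (kH F x)
      fun u => mem_kH.2 fun v => by
        have h4 : φ u.1 = 0 := u.2
        have h5 := LinearMap.congr_fun h4 v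
        exact h5
  have h6 : finrank E (LinearMap.ker φ) ≤ finrank E (kH F x) := by
    refine LinearMap.finrank_le_finrank_of_injective (f := ψ) fun z z' hzz => ?_
    have h5 : ((ψ z : kH F x) : Fin 6 → E) = ψ z' := congrArg Subtype.val hzz
    exact Subtype.ext (Subtype.ext h5)
  omega

theorem eck_const (hF : Smooth F) {x : Fin 6 → E} (hx : x ≠ 0) (h : tri F x x x = 0)
    (hE : Eck F x) (δ : Derivation k E E) : δ ∈ st (Submodule.span E {x}) := by
  have h1 := eck_ker hF hx h hE
  have h2 := hess hF hx h (Submodule.span E {δ})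
  have h3 : Submodule.span E {δ} ⊓ st (Submodule.span E {x}) = Submodule.span E {δ} :=
    Submodule.eq_of_le_of_finrank_le inf_le_left (by omega)
  have h4 : δ ∈ Submodule.span E {δ} ⊓ st (Submodule.span E {x}) := by
    rw [h3]
    exact Submodule.mem_span_singleton_self δ
  exact h4.2

end Pool.Agent.CUB.FLN
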