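import Pool.Agent.GT.Alt

/-!
# Insertion of constant classes in a product (package Ins)

PROOF. By induction over a finite set `S` of the coordinates `j` outside the image of `g`: the
statement `P S`: for all `c` such that `c j` is the class of a point for `j` not in `S`, `j` not
  in the
image of `g`, the map `I` exists. `P ∅`: this is `sf_lin` in `GT/Sft.lean` (private there; copy
  it with
`sf_ins`, `sf_rat`; for an empty variety all classes are zero and `I = 0`, or the image of `g` is
everything, take any `c`). Step: `c j` is a linear combination of classes of points (`cl1` is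
surjective), and `Ext` is linear in the coordinate `j`; take the same combination of the maps `I`
  for
`Function.update c j (class of a point)`.
-/

set_option autoImplicit false

noncomputable section

namespace Pool.Agent.CUB.FLN

open Pool.Agent.ZCyc Pool.Agent.Dess Pool.Agent.GT
open scoped Classical

private theorem sf_apply {T : Type} {n : ℕ} (z : Fin n → (T →₀ ℚ)) (x : Fin n → T) :
    ext z x = ∏ j, z j (x j) := by
  unfold ext
  rw [Finsupp.finsetSum_apply]
  simp only [Finsupp.single_apply]
  rw [Finset.sum_ite_eq' (Fintype.piFinset fun j => (z j).support) x (fun x => ∏ j, z j (x j))]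
  split_ifs with h
  · rfl
  · rw [Fintype.mem_piFinset] at h
    push Not at h
    obtain ⟨j, hj⟩ := h
    have h0 : z j (x j) = 0 := Finsupp.notMem_support_iff.1 hj
    exact (Finset.prod_eq_zero (Finset.mem_univ j) h0).symm

/-- Insertion of constant factors and exterior products. -/
private theorem sf_ins {T : Type} {N r : ℕ} (e : Fin N ↪ Fin r) (c : Fin r → T)
    (z : Fin N → (T →₀ ℚ)) :
    ext (Function.extend e z fun j => Finsupp.single (c j) 1) =
      Finsupp.mapDomain (fun x => Function.extend e x c) (ext z) := by
  have hinj : Function.Injective (fun x : Fin N → T => Function.extend e x c) := by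
    intro a b hab
    funext i
    have h1 := congrFun hab (e i)
    simpa [e.injective.extend_apply] using h1
  refine Finsupp.ext fun y => ?_
  rw [sf_apply]
  by_cases hy : ∀ j, (¬ ∃ a, e a = j) → y j = c j
  · have h1 : y = Function.extend e (fun a => y (e a)) c := by
      funext j
      by_cases hj : ∃ a, e a = j
      · obtain ⟨a, rfl⟩ := hj
        rw [e.injective.extend_apply]
      · rw [Function.extend_apply' _ _ _ hj]
        exact hy j hj
    have h2 : Finsupp.mapDomain (fun x : Fin N → T => Function.extend e x c) (ext z) y =
        ext z (fun a => y (e a)) := by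
      conv_lhs => rw [h1]
      exact Finsupp.mapDomain_apply hinj (ext z) (fun a => y (e a))
    rw [h2, sf_apply, ← Finset.prod_subset (Finset.subset_univ (Finset.univ.map e))]
    · rw [Finset.prod_map]
      exact Finset.prod_congr rfl fun a _ => by rw [e.injective.extend_apply]
    · intro j _ hj
      have hj' : ¬ ∃ a, e a = j := by
        rintro ⟨a, rfl⟩
        exact hj (Finset.mem_map_of_mem e (Finset.mem_univ a))
      rw [Function.extend_apply' _ _ _ hj', hy j hj', Finsupp.single_eq_same]
  · push Not at hy
    obtain ⟨j, hj, hne⟩ := hy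
    have hj' : ¬ ∃ a, e a = j := fun ⟨a, ha⟩ => hj a ha
    rw [Finset.prod_eq_zero (Finset.mem_univ j), Finsupp.mapDomain_of_notMem_range]
    · rintro ⟨x, hx⟩
      apply hne
      rw [← hx]
      exact Function.extend_apply' _ _ _ hj'
    · rw [Function.extend_apply' _ _ _ hj']
      exact Finsupp.single_eq_of_ne hne

variable {k : Type} [Field k] {m : ℕ} {X : Set (MvPolynomial (Fin (m + 1)) k)}

/-- Insertion of constant factors and rational equivalence. -/
private theorem sf_rat (hX : Hom X) {N r : ℕ} (e : Fin N ↪ Fin r) (c : Fin r → Pt X k) :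
    Rat X (Fin N) ≤ Submodule.comap
      (Finsupp.lmapDomain ℚ ℚ fun x : Fin N → Pt X k => Function.extend e x c) (Rat X (Fin r)) := by
  refine Submodule.span_le.2 ?_
  rintro _ ⟨K, i1, i2, i3, xK, y, f, D, hf, hD, hval, rfl⟩
  change Finsupp.lmapDomain ℚ ℚ (fun x : Fin N → Pt X k => Function.extend e x c) _ ∈
    Rat X (Fin r)
  rw [map_finsuppSum]
  refine Submodule.subset_span ⟨K, i1, i2, i3, Function.extend e xK
    (fun i => (c i).map (Algebra.ofId k K) hX),
    fun v => Function.extend e (y v) c, f, D, hf, hD, fun v i => ?_, ?_⟩
  · by_cases h : ∃ a, e a = i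
    · obtain ⟨a, rfl⟩ := h
      change IsVal v _ (Function.extend e (y v) c (e a))
      rw [e.injective.extend_apply, e.injective.extend_apply]
      exact hval v a
    · change IsVal v _ (Function.extend e (y v) c i)
      rw [Function.extend_apply' _ _ _ h, Function.extend_apply' _ _ _ h]
      exact isVal_const
  · refine Finsupp.sum_congr fun v _ => ?_
    rw [Finsupp.lmapDomain_apply, Finsupp.mapDomain_single]

variable [IsAlgClosed k] [CharZero k]

omit [IsAlgClosed k] [CharZero k] in
private theorem sf_surj : Function.Surjective (cl1 X) := by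
  intro c
  obtain ⟨w, rfl⟩ := Submodule.Quotient.mk_surjective _ c
  refine ⟨Finsupp.mapDomain (fun x => x ()) w, ?_⟩
  change Submodule.Quotient.mk (Finsupp.mapDomain (fun x _ => x)
    (Finsupp.mapDomain (fun x => x ()) w)) = _
  rw [← Finsupp.mapDomain_comp]
  have h3 : ((fun (x : Pt X k) (_ : Unit) => x) ∘ fun x : Unit → Pt X k => x ()) = id := rfl
  rw [h3, Finsupp.mapDomain_id]

/-- The linear map of Chow groups for the insertion of constant factors. -/
private theorem sf_lin (hX : Hom X) {N r : ℕ} (e : Fin N ↪ Fin r) (c : Fin r → Pt X k) :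
    ∃ I : CH X (Fin N) →ₗ[ℚ] CH X (Fin r), ∀ v : Fin N → CH X Unit,
      Ext hX r (Function.extend e v fun j => cl1 X (Finsupp.single (c j) 1)) =
        I (Ext hX N v) := by
  refine ⟨(Rat X (Fin N)).mapQ (Rat X (Fin r)) _ (sf_rat hX e c), fun v => ?_⟩
  choose z hz using fun a => sf_surj (v a)
  have h1 : v = fun a => cl1 X (z a) := funext fun a => (hz a).symm
  have h2 : (Function.extend e v fun j => cl1 X (Finsupp.single (c j) 1)) =
      fun j => cl1 X (Function.extend e z (fun j => Finsupp.single (c j) 1) j) := by
    funext j
    by_cases h : ∃ a, e a = j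
    · obtain ⟨a, rfl⟩ := h
      rw [e.injective.extend_apply, e.injective.extend_apply, h1]
    · rw [Function.extend_apply' _ _ _ h, Function.extend_apply' _ _ _ h]
  rw [h2, Ext_cl, h1, Ext_cl, Submodule.mapQ_apply, sf_ins]
  rfl

/-- All coordinates outside a finite set and outside the image are classes of points. -/
private theorem ins_key (hX : Hom X) {n r : ℕ} (g : Fin n ↪ Fin r) (p : Pt X k)
    (S : Finset (Fin r)) :
    ∀ c : Fin r → CH X Unit,
      (∀ j ∉ S, (¬ ∃ a, g a = j) → ∃ x, c j = cl1 X (Finsupp.single x 1)) →
      ∃ I : CH X (Fin n) →ₗ[ℚ] CH X (Fin r), ∀ v : Fin n → CH X Unit,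
        Ext hX r (Function.extend g v c) = I (Ext hX n v) := by
  induction S using Finset.induction_on with
  | empty =>
    intro c hc
    have h1 : ∀ j, ∃ x, (¬ ∃ a, g a = j) → c j = cl1 X (Finsupp.single x 1) := by
      intro j
      by_cases h : ∃ a, g a = j
      · exact ⟨p, fun h' => absurd h h'⟩
      · obtain ⟨x, hx⟩ := hc j (Finset.notMem_empty j) h
        exact ⟨x, fun _ => hx⟩
    choose x hx using h1
    obtain ⟨I, hI⟩ := sf_lin hX g x
    refine ⟨I, fun v => ?_⟩
    rw [← hI v]
    congr 1
    funext j
    by_cases h : ∃ a, g a = j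
    · obtain ⟨a, rfl⟩ := h
      rw [g.injective.extend_apply, g.injective.extend_apply]
    · rw [Function.extend_apply' _ _ _ h, Function.extend_apply' _ _ _ h]
      exact hx j h
  | insert a T _ ih =>
    intro c hc
    by_cases ha : ∃ b, g b = a
    · refine ih c fun j hj hj' => hc j (fun h => ?_) hj'
      rcases Finset.mem_insert.1 h with h | h
      · exact hj' (h ▸ ha)
      · exact hj h
    · have hupd : ∀ (v : Fin n → CH X Unit) (u : CH X Unit),
          Function.extend g v (Function.update c a u) =
            Function.update (Function.extend g v c) a u := by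
        intro v u
        funext j
        by_cases hj : j = a
        · subst hj
          rw [Function.extend_apply' _ _ _ ha, Function.update_self, Function.update_self]
        · rw [Function.update_of_ne hj]
          by_cases h : ∃ b, g b = j
          · obtain ⟨b, rfl⟩ := h
            rw [g.injective.extend_apply, g.injective.extend_apply]
          · rw [Function.extend_apply' _ _ _ h, Function.extend_apply' _ _ _ h,
              Function.update_of_ne hj]
      have key : ∀ z : Pt X k →₀ ℚ, ∃ I : CH X (Fin n) →ₗ[ℚ] CH X (Fin r),
          ∀ v : Fin n → CH X Unit,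
            Ext hX r (Function.update (Function.extend g v c) a (cl1 X z)) =
              I (Ext hX n v) := by
        intro z
        induction z using Finsupp.induction_linear with
        | zero =>
          refine ⟨0, fun v => ?_⟩
          rw [map_zero, MultilinearMap.map_update_zero, LinearMap.zero_apply]
        | add u u' hu hu' =>
          obtain ⟨I, hI⟩ := hu
          obtain ⟨I', hI'⟩ := hu'
          refine ⟨I + I', fun v => ?_⟩
          rw [map_add, MultilinearMap.map_update_add, hI, hI', LinearMap.add_apply]
        | single q s =>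
          obtain ⟨I, hI⟩ := ih (Function.update c a (cl1 X (Finsupp.single q 1)))
            fun j hj hj' => by
              by_cases hja : j = a
              · subst hja
                exact ⟨q, Function.update_self _ _ _⟩
              · rw [Function.update_of_ne hja]
                exact hc j (fun h => (Finset.mem_insert.1 h).elim hja hj) hj'
          refine ⟨s • I, fun v => ?_⟩
          have h1 : Finsupp.single q s = s • Finsupp.single q (1 : ℚ) := by simp
          rw [h1, map_smul, MultilinearMap.map_update_smul, ← hupd, hI, LinearMap.smul_apply]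
      obtain ⟨z, hz⟩ := sf_surj (c a)
      obtain ⟨I, hI⟩ := key z
      refine ⟨I, fun v => ?_⟩
      rw [← hI v, hz, ← hupd, Function.update_eq_self]

/-- insertion of constant classes -/
theorem ext_ins (hX : Hom X) {n r : ℕ} (g : Fin n ↪ Fin r) (c : Fin r → CH X Unit) :
    ∃ I : CH X (Fin n) →ₗ[ℚ] CH X (Fin r), ∀ v : Fin n → CH X Unit,
      Ext hX r (Function.extend g v c) = I (Ext hX n v) := by
  by_cases hne : Nonempty (Pt X k)
  · obtain ⟨p⟩ := hne
    exact ins_key hX g p Finset.univ c fun j hj _ => absurd (Finset.mem_univ j) hj
  · rcases Nat.eq_zero_or_pos r with hr | hr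
    · subst hr
      obtain ⟨I, hI⟩ := sf_lin hX g (fun j => j.elim0)
      refine ⟨I, fun v => ?_⟩
      rw [← hI v]
      congr 1
      funext j
      exact j.elim0
    · refine ⟨0, fun v => ?_⟩
      rw [LinearMap.zero_apply]
      refine MultilinearMap.map_coord_zero (Ext hX r) ⟨0, hr⟩ ?_
      obtain ⟨z, hz⟩ := sf_surj (Function.extend g v c ⟨0, hr⟩)
      rw [← hz]
      have : z = 0 := by
        ext q
        exact absurd ⟨q⟩ hne
      rw [this, map_zero]

end Pool.Agent.CUB.FLN
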