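import Pool.Agent.FLN.KeyE

/-!
# Three concurrent lines: the identity for the residual lines

Let `γ = 2 tri x a b`, `β = 2 tri x a c`, `α = 2 tri x b c`, `δ = 2 tri a b c`, `a1 = tri a a b`,
`a2 = tri a b b`, `b1 = tri a a c`, `b3 = tri a c c`, `d2 = tri b b c`, `d3 = tri b c c`, and
`κ1 = β a1 - γ b1`, `κ2 = α a2 - γ d2`, `κ3 = α b3 - β d3` (not zero by `k1`, `k2`, `k3`).
Let `f = rs x a b`, `g = rs x a c`, `h = rs x b c`, `p = cmb f (p1, p2)`. Then
`dd g p = -β² γ³ κ1 p2² T(p)`, `dd h p = -α² γ³ κ2 p1² T(p)` with the same cubic form `T` (`KeyB`,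
`KeyC`). At `(1,0)` the transversal of `f`, `g` is the line `l`, at `(0,1)` the transversal of `f`, `h`
is `l'`, and at the zeros of `T` the transversals of `f`, `g` and of `f`, `h` are the same lines
(`KeyD`, `KeyE`).
-/

set_option autoImplicit false

noncomputable section

namespace Pool.Agent.CUB.FLN

open Pool.Agent.ZCyc Pool.Agent.Dess Pool.Agent.GT
open Pool.Agent.VFP (Om tt)
open scoped Classical

variable {k : Type} [Field k] {F : MvPolynomial (Fin 6) k} {L : Type} [Field L] [Algebra k L]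
  [CharZero k]

/-- the residual line: `F (x0 x + x1 a + x2 b) =
3 x1 x2 (2 tri x a b x0 + tri a a b x1 + tri a b b x2)` -/
theorem exists_rs (hF : Smooth F) {x a b : Fin 6 → L} (h : LinearIndependent L ![x, a, b])
    (ha : On F x a) (hb : On F x b) (h0 : tri F x a b ≠ 0) : ∃ f : Ln F L, Bas f (rs F x a b) := by
  haveI : CharZero L := charZero_of_injective_algebraMap (algebraMap k L).injective
  have h2 : 2 * tri F x a b ≠ 0 := mul_ne_zero two_ne_zero h0
  have e1 : ∀ w, tri F a x w = tri F x a w := fun w => tri_swap12 F a x w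
  have e2 : ∀ w, tri F b x w = tri F x b w := fun w => tri_swap12 F b x w
  have e4 : ∀ w, tri F b a w = tri F a b w := fun w => tri_swap12 F b a w
  have f1 : ∀ w, tri F w a x = tri F w x a := fun w => tri_swap23 F w a x
  have f2 : ∀ w, tri F w b x = tri F w x b := fun w => tri_swap23 F w b x
  have f4 : ∀ w, tri F w b a = tri F w a b := fun w => tri_swap23 F w b a
  have hli : LinearIndependent L ![rs F x a b 0, rs F x a b 1] := by
    rw [Fintype.linearIndependent_iff] at h
    rw [LinearIndependent.pair_iff]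
    intro s t hst
    have h3 := h ![-(s * tri F a a b + t * tri F a b b), s * (2 * tri F x a b),
      t * (2 * tri F x a b)] (by
        rw [Fin.sum_univ_three, ← hst]
        simp only [rs, Matrix.cons_val_zero, Matrix.cons_val_one, Matrix.cons_val]
        module)
    have h4 := h3 1
    have h5 := h3 2
    simp only [Matrix.cons_val_one, Matrix.cons_val_zero, Matrix.cons_val] at h4 h5
    exact ⟨(mul_eq_zero.1 h4).resolve_right h2, (mul_eq_zero.1 h5).resolve_right h2⟩
  obtain ⟨f, hf⟩ := exists_ln hF hli (by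
    simp only [rs, Matrix.cons_val_zero, Matrix.cons_val_one]
    simp only [tri_add1, tri_add2, tri_add3, tri_smul1, tri_smul2, tri_smul3, e1, e2, e4, f1, f2,
      f4, ha.xxx, ha.xxa, ha.xaa, ha.aaa, hb.xxa, hb.xaa, hb.aaa]
    ring) (by
    simp only [rs, Matrix.cons_val_zero, Matrix.cons_val_one]
    simp only [tri_add1, tri_add2, tri_add3, tri_smul1, tri_smul2, tri_smul3, e1, e2, e4, f1, f2,
      f4, ha.xxx, ha.xxa, ha.xaa, ha.aaa, hb.xxa, hb.xaa, hb.aaa]
    ring) (by
    simp only [rs, Matrix.cons_val_zero, Matrix.cons_val_one]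
    simp only [tri_add1, tri_add2, tri_add3, tri_smul1, tri_smul2, tri_smul3, e1, e2, e4, f1, f2,
      f4, ha.xxx, ha.xxa, ha.xaa, ha.aaa, hb.xxa, hb.xaa, hb.aaa]
    ring) (by
    simp only [rs, Matrix.cons_val_zero, Matrix.cons_val_one]
    simp only [tri_add1, tri_add2, tri_add3, tri_smul1, tri_smul2, tri_smul3, e1, e2, e4, f1, f2,
      f4, ha.xxx, ha.xxa, ha.xaa, ha.aaa, hb.xxa, hb.xaa, hb.aaa]
    ring)
  exact ⟨f, hli, hf⟩

theorem key_gp [IsAlgClosed L] (hF : Smooth F) {x a b c : Fin 6 → L} (h : Cfg F x a b c)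
    {f g : Ln F L} (hf : Bas f (rs F x a b)) (hg : Bas g (rs F x a c)) : Gp f g := by
  haveI : CharZero L := charZero_of_injective_algebraMap (algebraMap k L).injective
  exact gp_fg h hf hg

/-- THE IDENTITY -/
theorem key [IsAlgClosed k] (hF : Smooth F) {x a b c : Fin 6 → k} (h : Cfg F x a b c)
    {l l' f g h' : Ln F k} (hl : l.W = Submodule.span k {x, a}) (hl' : l'.W = Submodule.span k {x, b})
    (hf : Bas f (rs F x a b)) (hg : Bas g (rs F x a c)) (hh : Bas h' (rs F x b c)) :
    Gp f g ∧ Gp f h' ∧ (2 : ℚ) • (cl hF l - cl hF l') = ph hF f g - ph hF f h' := by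
  have h1 : Gp f g := gp_fg h hf hg
  have h2 : Gp f h' := gp_fg h.swap hf.swap hh
  obtain ⟨t, p1, p2⟩ := exists_isPhi hF h hl hl' hf hg hh
  refine ⟨h1, h2, ?_⟩
  rw [ph_eq hF h1.1 p1, ph_eq hF h2.1 p2, Fin.sum_univ_five, Fin.sum_univ_five]
  simp only [Matrix.cons_val_zero, Matrix.cons_val_one, Matrix.cons_val]
  module

end Pool.Agent.CUB.FLN
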