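import Pool.Agent.FLN.Defs

/-!
# Three concurrent lines: the trilinear form in the space spanned by them
-/

set_option autoImplicit false

noncomputable section

namespace Pool.Agent.CUB.FLN

open Pool.Agent.ZCyc Pool.Agent.Dess Pool.Agent.GT
open Pool.Agent.VFP (Om tt)
open scoped Classical

variable {k : Type} [Field k] {F : MvPolynomial (Fin 6) k} {L : Type} [Field L] [Algebra k L]

/-- `⟨x, a⟩` is a line on the fourfold -/
structure On (F : MvPolynomial (Fin 6) k) (x a : Fin 6 → L) : Prop where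
  xxx : tri F x x x = 0
  xxa : tri F x x a = 0
  xaa : tri F x a a = 0
  aaa : tri F a a a = 0

/-- Three lines `⟨x, a⟩`, `⟨x, b⟩`, `⟨x, c⟩` through `x` in general position. -/
structure Cfg (F : MvPolynomial (Fin 6) k) (x a b c : Fin 6 → L) : Prop where
  li : LinearIndependent L ![x, a, b, c]
  ona : On F x a
  onb : On F x b
  onc : On F x c
  al : tri F x b c ≠ 0
  be : tri F x a c ≠ 0
  ga : tri F x a b ≠ 0
  k1 : tri F x a c * tri F a a b - tri F x a b * tri F a a c ≠ 0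
  k2 : tri F x b c * tri F a b b - tri F x a b * tri F b b c ≠ 0
  k3 : tri F x b c * tri F a c c - tri F x a c * tri F b c c ≠ 0

/-- the basis of the residual line in the plane `⟨x, a, b⟩` -/
def rs (F : MvPolynomial (Fin 6) k) (x a b : Fin 6 → L) : Fin 2 → Fin 6 → L :=
  ![-(tri F a a b) • x + (2 * tri F x a b) • a, -(tri F a b b) • x + (2 * tri F x a b) • b]

/-- the vector with the coordinates `v` -/
def cm (x a b c : Fin 6 → L) (v : Fin 4 → L) : Fin 6 → L :=
  v 0 • x + v 1 • a + v 2 • b + v 3 • c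

/-- the trilinear form with the given values on the basis vectors -/
def tf (α β γ δ a₁ a₂ b₁ b₃ d₂ d₃ : L) (p q r : Fin 4 → L) : L :=
  γ * (p 0 * q 1 * r 2 + p 0 * q 2 * r 1 + p 1 * q 0 * r 2 + p 1 * q 2 * r 0 + p 2 * q 0 * r 1 +
    p 2 * q 1 * r 0) +
  β * (p 0 * q 1 * r 3 + p 0 * q 3 * r 1 + p 1 * q 0 * r 3 + p 1 * q 3 * r 0 + p 3 * q 0 * r 1 +
    p 3 * q 1 * r 0) +
  α * (p 0 * q 2 * r 3 + p 0 * q 3 * r 2 + p 2 * q 0 * r 3 + p 2 * q 3 * r 0 + p 3 * q 0 * r 2 +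
    p 3 * q 2 * r 0) +
  δ * (p 1 * q 2 * r 3 + p 1 * q 3 * r 2 + p 2 * q 1 * r 3 + p 2 * q 3 * r 1 + p 3 * q 1 * r 2 +
    p 3 * q 2 * r 1) +
  a₁ * (p 1 * q 1 * r 2 + p 1 * q 2 * r 1 + p 2 * q 1 * r 1) +
  a₂ * (p 2 * q 2 * r 1 + p 2 * q 1 * r 2 + p 1 * q 2 * r 2) +
  b₁ * (p 1 * q 1 * r 3 + p 1 * q 3 * r 1 + p 3 * q 1 * r 1) +
  b₃ * (p 3 * q 3 * r 1 + p 3 * q 1 * r 3 + p 1 * q 3 * r 3) +
  d₂ * (p 2 * q 2 * r 3 + p 2 * q 3 * r 2 + p 3 * q 2 * r 2) +
  d₃ * (p 3 * q 3 * r 2 + p 3 * q 2 * r 3 + p 2 * q 3 * r 3)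

theorem tri_cm {x a b c : Fin 6 → L} (ha : On F x a) (hb : On F x b) (hc : On F x c)
    (p q r : Fin 4 → L) : tri F (cm x a b c p) (cm x a b c q) (cm x a b c r) =
      tf (tri F x b c) (tri F x a c) (tri F x a b) (tri F a b c) (tri F a a b) (tri F a b b)
        (tri F a a c) (tri F a c c) (tri F b b c) (tri F b c c) p q r := by
  unfold cm tf
  simp only [tri_add1, tri_add2, tri_add3, tri_smul1, tri_smul2, tri_smul3]
  have e1 : ∀ w, tri F a x w = tri F x a w := fun w => tri_swap12 F a x w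
  have e2 : ∀ w, tri F b x w = tri F x b w := fun w => tri_swap12 F b x w
  have e3 : ∀ w, tri F c x w = tri F x c w := fun w => tri_swap12 F c x w
  have e4 : ∀ w, tri F b a w = tri F a b w := fun w => tri_swap12 F b a w
  have e5 : ∀ w, tri F c a w = tri F a c w := fun w => tri_swap12 F c a w
  have e6 : ∀ w, tri F c b w = tri F b c w := fun w => tri_swap12 F c b w
  have f1 : ∀ w, tri F w a x = tri F w x a := fun w => tri_swap23 F w a x
  have f2 : ∀ w, tri F w b x = tri F w x b := fun w => tri_swap23 F w b x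
  have f3 : ∀ w, tri F w c x = tri F w x c := fun w => tri_swap23 F w c x
  have f4 : ∀ w, tri F w b a = tri F w a b := fun w => tri_swap23 F w b a
  have f5 : ∀ w, tri F w c a = tri F w a c := fun w => tri_swap23 F w c a
  have f6 : ∀ w, tri F w c b = tri F w b c := fun w => tri_swap23 F w c b
  simp only [e1, e2, e3, e4, e5, e6, f1, f2, f3, f4, f5, f6, ha.xxx, ha.xxa, ha.xaa, ha.aaa,
    hb.xxa, hb.xaa, hb.aaa, hc.xxa, hc.xaa, hc.aaa]
  ring

end Pool.Agent.CUB.FLN
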