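import Pool.Agent.FLN.KeyA

/-!
# Three concurrent lines: the identities
-/

set_option autoImplicit false

noncomputable section

namespace Pool.Agent.CUB.FLN

variable {L : Type} [Field L]

/-- coordinates of the point of the line `f` -/
def vf (C a₁ a₂ : L) (s : Fin 2 → L) : Fin 4 → L :=
  ![-(a₁ * s 0 + a₂ * s 1), 2 * C * s 0, 2 * C * s 1, 0]

/-- coordinates of the basis of the line `g` -/
def vg (B b₁ b₃ : L) : Fin 2 → Fin 4 → L := ![![-b₁, 2 * B, 0, 0], ![-b₃, 0, 0, 2 * B]]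

/-- coordinates of the basis of the line `h` -/
def vh (A d₂ d₃ : L) : Fin 2 → Fin 4 → L := ![![-d₂, 0, 2 * A, 0], ![-d₃, 0, 0, 2 * A]]

/-- the cubic form -/
def TT (A B C D a₁ a₂ b₁ b₃ d₂ d₃ : L) (s : Fin 2 → L) : L :=
  -(2 * A) * (2 * (B * a₁ - C * b₁)) ^ 2 * s 0 ^ 3 +
  (2 * (B * a₁ - C * b₁)) * (-(2 * A) ^ 2 * a₁ - 2 * (2 * A) * (2 * B) * a₂ +
    (2 * A) * (2 * C) * (2 * D) + (2 * B) * (2 * C) * d₂ - (2 * C) ^ 2 * d₃) * (s 0 ^ 2 * s 1) +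
  (2 * (A * a₂ - C * d₂)) * (-(2 * B) ^ 2 * a₂ - 2 * (2 * A) * (2 * B) * a₁ +
    (2 * B) * (2 * C) * (2 * D) + (2 * A) * (2 * C) * b₁ - (2 * C) ^ 2 * b₃) * (s 0 * s 1 ^ 2) -
  (2 * B) * (2 * (A * a₂ - C * d₂)) ^ 2 * s 1 ^ 3

/-- the value at the second basis vector of `g` -/
def SG (A B C D a₁ a₂ b₁ b₃ d₂ : L) (s : Fin 2 → L) : L :=
  -(2 * B) * (2 * (B * a₁ - C * b₁)) * s 0 ^ 2 - (2 * B) * (2 * (A * a₂ - C * d₂)) * s 1 ^ 2 +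
  (-(2 * A) * (2 * B) * a₁ - (2 * B) ^ 2 * a₂ + (2 * B) * (2 * C) * (2 * D) -
    (2 * C) ^ 2 * b₃) * (s 0 * s 1)

variable (A B C D a₁ a₂ b₁ b₃ d₂ d₃ : L)

theorem tf_g0 (s : Fin 2 → L) : tf A B C D a₁ a₂ b₁ b₃ d₂ d₃ (vf C a₁ a₂ s) (vf C a₁ a₂ s)
    (vg B b₁ b₃ 0) = (2 * C) ^ 2 * (2 * (B * a₁ - C * b₁)) * (s 0 * s 1) := by
  unfold tf vf vg
  simp
  ring

theorem tf_g1 (s : Fin 2 → L) : tf A B C D a₁ a₂ b₁ b₃ d₂ d₃ (vf C a₁ a₂ s) (vf C a₁ a₂ s)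
    (vg B b₁ b₃ 1) = (2 * C) * SG A B C D a₁ a₂ b₁ b₃ d₂ s := by
  unfold tf vf vg SG
  simp
  ring

theorem tf_h0 (s : Fin 2 → L) : tf A B C D a₁ a₂ b₁ b₃ d₂ d₃ (vf C a₁ a₂ s) (vf C a₁ a₂ s)
    (vh A d₂ d₃ 0) = (2 * C) ^ 2 * (2 * (A * a₂ - C * d₂)) * (s 0 * s 1) := by
  unfold tf vf vh
  simp
  ring

theorem tf_h1 (s : Fin 2 → L) : tf A B C D a₁ a₂ b₁ b₃ d₂ d₃ (vf C a₁ a₂ s) (vf C a₁ a₂ s)
    (vh A d₂ d₃ 1) = (2 * C) * SG B A C D a₂ a₁ d₂ d₃ b₁ ![s 1, s 0] := by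
  unfold tf vf vh SG
  simp
  ring

/-- the point of the line `g` in the tangent hyperplane, `P`, `Q` are the values at the basis -/
def vr (B b₁ b₃ P Q : L) : Fin 4 → L := ![Q * b₁ - P * b₃, -(2 * B * Q), 0, 2 * B * P]

theorem vr_eq (P Q : L) : vr B b₁ b₃ P Q = P • vg B b₁ b₃ 1 - Q • vg B b₁ b₃ 0 := by
  funext i
  fin_cases i <;> simp [vr, vg] <;> ring

theorem dd_g (s : Fin 2 → L) :
    tf A B C D a₁ a₂ b₁ b₃ d₂ d₃ (vf C a₁ a₂ s)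
      (vr B b₁ b₃ ((2 * C) ^ 2 * (2 * (B * a₁ - C * b₁)) * (s 0 * s 1))
        ((2 * C) * SG A B C D a₁ a₂ b₁ b₃ d₂ s))
      (vr B b₁ b₃ ((2 * C) ^ 2 * (2 * (B * a₁ - C * b₁)) * (s 0 * s 1))
        ((2 * C) * SG A B C D a₁ a₂ b₁ b₃ d₂ s)) =
    -(2 * B) ^ 2 * (2 * C) ^ 3 * (2 * (B * a₁ - C * b₁)) * s 1 ^ 2 *
      TT A B C D a₁ a₂ b₁ b₃ d₂ d₃ s := by
  unfold tf vf vr SG TT
  simp only [Matrix.cons_val_zero, Matrix.cons_val_one, Matrix.cons_val]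
  ring

/-- the linear form which is zero on `h` -/
theorem h_form (s : Fin 2 → L) (P Q : L)
    (hP : P = (2 * C) ^ 2 * (2 * (B * a₁ - C * b₁)) * (s 0 * s 1))
    (hQ : Q = (2 * C) * SG A B C D a₁ a₂ b₁ b₃ d₂ s) :
    vr B b₁ b₃ P Q 1 * ((2 * A) * vf C a₁ a₂ s 0 + d₂ * vf C a₁ a₂ s 2 + d₃ * vf C a₁ a₂ s 3) -
      vf C a₁ a₂ s 1 * ((2 * A) * vr B b₁ b₃ P Q 0 + d₂ * vr B b₁ b₃ P Q 2 +
        d₃ * vr B b₁ b₃ P Q 3) = (2 * B) * (2 * C) * TT A B C D a₁ a₂ b₁ b₃ d₂ d₃ s := by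
  rw [hP, hQ]
  unfold vf vr SG TT
  simp only [Matrix.cons_val_zero, Matrix.cons_val_one, Matrix.cons_val]
  ring

end Pool.Agent.CUB.FLN
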