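import Pool.Agent.FLN.KeyB

/-!
# Three concurrent lines: the transversals of two residual lines
-/

set_option autoImplicit false

noncomputable section

namespace Pool.Agent.CUB.FLN

open Pool.Agent.ZCyc Pool.Agent.Dess Pool.Agent.GT
open Pool.Agent.VFP (Om tt)
open scoped Classical

variable {k : Type} [Field k] {F : MvPolynomial (Fin 6) k} {L : Type} [Field L] [Algebra k L]

theorem lin2 {η₀ η₁ P Q : L} (h : η₀ * P + η₁ * Q = 0) (hPQ : P ≠ 0 ∨ Q ≠ 0) :
    ∃ μ, η₀ = μ * -Q ∧ η₁ = μ * P := by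
  by_cases hP : P = 0
  · have hQ : Q ≠ 0 := hPQ.resolve_left fun h => h hP
    rw [hP, mul_zero, zero_add] at h
    have h1 : η₁ = 0 := (mul_eq_zero.1 h).resolve_right hQ
    refine ⟨-η₀ / Q, ?_, ?_⟩
    · field_simp
    · rw [h1, hP, mul_zero]
  · refine ⟨η₁ / P, ?_, ?_⟩
    · field_simp
      linear_combination h
    · field_simp

/-- the symmetries of a configuration -/
theorem Cfg.swap {x a b c : Fin 6 → L} (h : Cfg F x a b c) : Cfg F x b a c where
  li := by
    have := h.li.comp (Equiv.swap (1 : Fin 4) 2) (Equiv.injective _)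
    convert this using 1
    funext i
    fin_cases i <;> rfl
  ona := h.onb
  onb := h.ona
  onc := h.onc
  al := h.be
  be := h.al
  ga := by rw [tri_swap23 F x b a]; exact h.ga
  k1 := by
    rw [tri_swap23 F x b a, tri_swap23 F b b a, tri_swap12 F b a b]
    exact h.k2
  k2 := by
    rw [tri_swap23 F x b a, tri_swap12 F b a a, tri_swap23 F a b a]
    exact h.k1
  k3 := fun h' => h.k3 (by linear_combination -h')

theorem Cfg.swap' {x a b c : Fin 6 → L} (h : Cfg F x a b c) : Cfg F x a c b where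
  li := by
    have := h.li.comp (Equiv.swap (2 : Fin 4) 3) (Equiv.injective _)
    convert this using 1
    funext i
    fin_cases i <;> rfl
  ona := h.ona
  onb := h.onc
  onc := h.onb
  al := by rw [tri_swap23 F x c b]; exact h.al
  be := h.ga
  ga := h.be
  k1 := fun h' => h.k1 (by linear_combination -h')
  k2 := by
    rw [tri_swap23 F x c b, tri_swap23 F c c b, tri_swap12 F c b c]
    exact h.k3
  k3 := by
    rw [tri_swap23 F x c b, tri_swap12 F c b b, tri_swap23 F b c b]
    exact h.k2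

theorem rs_swap (x a b : Fin 6 → L) (i : Fin 2) : rs F x b a i = rs F x a b (1 - i) := by
  have e1 : tri F b b a = tri F a b b := by rw [tri_swap23 F b b a, tri_swap12 F b a b]
  have e2 : tri F b a a = tri F a a b := by rw [tri_swap12 F b a a, tri_swap23 F a b a]
  have e3 : tri F x b a = tri F x a b := tri_swap23 F x b a
  fin_cases i
  · simp [rs, e1, e3]
  · simp [rs, e2, e3]

theorem Bas.swap {f : Ln F L} {x a b : Fin 6 → L} (h : Bas f (rs F x a b)) :
    Bas f (rs F x b a) := by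
  have e0 : rs F x b a 0 = rs F x a b 1 := rs_swap x a b 0
  have e1 : rs F x b a 1 = rs F x a b 0 := rs_swap x a b 1
  refine ⟨?_, ?_⟩
  · rw [e0, e1]
    exact LinearIndependent.pair_symm_iff.1 h.1
  · rw [e0, e1, Set.pair_comm]
    exact h.2

section

variable {x a b c : Fin 6 → L}

theorem cmb_rs (s : Fin 2 → L) : cmb (rs F x a b) s =
    cm x a b c (vf (tri F x a b) (tri F a a b) (tri F a b b) s) := by
  unfold cmb rs cm vf
  simp only [Matrix.cons_val_zero, Matrix.cons_val_one, Matrix.cons_val]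
  module

theorem rs_g (j : Fin 2) : rs F x a c j =
    cm x a b c (vg (tri F x a c) (tri F a a c) (tri F a c c) j) := by
  fin_cases j
  · simp [rs, cm, vg]
  · simp [rs, cm, vg]

theorem rs_h (j : Fin 2) : rs F x b c j =
    cm x a b c (vh (tri F x b c) (tri F b b c) (tri F b c c) j) := by
  fin_cases j
  · simp [rs, cm, vh]
  · simp [rs, cm, vh]

theorem cm_sub (v w : Fin 4 → L) : cm x a b c (v - w) = cm x a b c v - cm x a b c w := by
  unfold cm
  simp only [Pi.sub_apply]
  module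

theorem cm_add (v w : Fin 4 → L) : cm x a b c (v + w) = cm x a b c v + cm x a b c w := by
  unfold cm
  simp only [Pi.add_apply]
  module

theorem cm_smul (t : L) (v : Fin 4 → L) : cm x a b c (t • v) = t • cm x a b c v := by
  unfold cm
  simp only [Pi.smul_apply, smul_eq_mul]
  module

theorem cm_zero_iff (h : LinearIndependent L ![x, a, b, c]) {v : Fin 4 → L}
    (hv : cm x a b c v = 0) : v = 0 := by
  rw [Fintype.linearIndependent_iff] at h
  funext i
  refine h v ?_ i
  rw [Fin.sum_univ_four]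
  exact hv

end

/-- the cubic form of a configuration -/
def tc (F : MvPolynomial (Fin 6) k) (x a b c : Fin 6 → L) (s : Fin 2 → L) : L :=
  TT (tri F x b c) (tri F x a c) (tri F x a b) (tri F a b c) (tri F a a b) (tri F a b b)
    (tri F a a c) (tri F a c c) (tri F b b c) (tri F b c c) s

/-- the value of the tangent hyperplane of the point of `f` at the first basis vector of `g` -/
def pg (F : MvPolynomial (Fin 6) k) (x a b c : Fin 6 → L) (s : Fin 2 → L) : L :=
  (2 * tri F x a b) ^ 2 * (2 * (tri F x a c * tri F a a b - tri F x a b * tri F a a c)) *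
    (s 0 * s 1)

/-- the value of the tangent hyperplane of the point of `f` at the second basis vector of `g` -/
def qg (F : MvPolynomial (Fin 6) k) (x a b c : Fin 6 → L) (s : Fin 2 → L) : L :=
  2 * tri F x a b * SG (tri F x b c) (tri F x a c) (tri F x a b) (tri F a b c) (tri F a a b)
    (tri F a b b) (tri F a a c) (tri F a c c) (tri F b b c) s

section

variable {x a b c : Fin 6 → L}

theorem tri_g0 (h : Cfg F x a b c) (s : Fin 2 → L) :
    tri F (cmb (rs F x a b) s) (cmb (rs F x a b) s) (rs F x a c 0) = pg F x a b c s := by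
  rw [cmb_rs (c := c), rs_g (b := b), tri_cm h.ona h.onb h.onc, tf_g0]
  rfl

theorem tri_g1 (h : Cfg F x a b c) (s : Fin 2 → L) :
    tri F (cmb (rs F x a b) s) (cmb (rs F x a b) s) (rs F x a c 1) = qg F x a b c s := by
  rw [cmb_rs (c := c), rs_g (b := b), tri_cm h.ona h.onb h.onc, tf_g1]
  rfl

theorem ys_g (h : Cfg F x a b c) (s : Fin 2 → L) : ys F (rs F x a c) (cmb (rs F x a b) s) =
    cm x a b c (vr (tri F x a c) (tri F a a c) (tri F a c c) (pg F x a b c s)
      (qg F x a b c s)) := by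
  unfold ys
  rw [tri_g0 h, tri_g1 h, rs_g (b := b), rs_g (b := b), vr_eq, cm_sub, cm_smul, cm_smul]

theorem dd_f_g (h : Cfg F x a b c) (s : Fin 2 → L) :
    dd F (rs F x a c) (cmb (rs F x a b) s) =
      -(2 * tri F x a c) ^ 2 * (2 * tri F x a b) ^ 3 *
        (2 * (tri F x a c * tri F a a b - tri F x a b * tri F a a c)) * s 1 ^ 2 *
          tc F x a b c s := by
  unfold dd
  rw [ys_g h, cmb_rs (c := c), tri_cm h.ona h.onb h.onc]
  exact dd_g _ _ _ _ _ _ _ _ _ _ s

theorem pq_ne [CharZero L] (h : Cfg F x a b c) {s : Fin 2 → L} (hs : s ≠ 0) :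
    pg F x a b c s ≠ 0 ∨ qg F x a b c s ≠ 0 := by
  have h2 : (2 : L) ≠ 0 := two_ne_zero
  by_cases h0 : s 0 = 0
  · have h1 : s 1 ≠ 0 := by
      intro h1
      apply hs
      funext i
      fin_cases i
      · exact h0
      · exact h1
    right
    unfold qg SG
    rw [h0]
    have : (2 * tri F x a b * (-(2 * tri F x a c) * (2 * (tri F x a c * tri F a a b -
        tri F x a b * tri F a a c)) * 0 ^ 2 - (2 * tri F x a c) * (2 * (tri F x b c *
        tri F a b b - tri F x a b * tri F b b c)) * s 1 ^ 2 +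
        (-(2 * tri F x b c) * (2 * tri F x a c) * tri F a a b -
        (2 * tri F x a c) ^ 2 * tri F a b b + (2 * tri F x a c) * (2 * tri F x a b) *
        (2 * tri F a b c) - (2 * tri F x a b) ^ 2 * tri F a c c) * (0 * s 1))) =
        -(2 * tri F x a b * (2 * tri F x a c) * (2 * (tri F x b c *
        tri F a b b - tri F x a b * tri F b b c)) * s 1 ^ 2) := by ring
    rw [this, neg_ne_zero]
    exact mul_ne_zero (mul_ne_zero (mul_ne_zero (mul_ne_zero h2 h.ga) (mul_ne_zero h2 h.be))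
      (mul_ne_zero h2 h.k2)) (pow_ne_zero 2 h1)
  · by_cases h1 : s 1 = 0
    · right
      unfold qg SG
      rw [h1]
      have : (2 * tri F x a b * (-(2 * tri F x a c) * (2 * (tri F x a c * tri F a a b -
          tri F x a b * tri F a a c)) * s 0 ^ 2 - (2 * tri F x a c) * (2 * (tri F x b c *
          tri F a b b - tri F x a b * tri F b b c)) * 0 ^ 2 +
          (-(2 * tri F x b c) * (2 * tri F x a c) * tri F a a b -
          (2 * tri F x a c) ^ 2 * tri F a b b + (2 * tri F x a c) * (2 * tri F x a b) *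
          (2 * tri F a b c) - (2 * tri F x a b) ^ 2 * tri F a c c) * (s 0 * 0))) =
          -(2 * tri F x a b * (2 * tri F x a c) * (2 * (tri F x a c * tri F a a b -
          tri F x a b * tri F a a c)) * s 0 ^ 2) := by ring
      rw [this, neg_ne_zero]
      exact mul_ne_zero (mul_ne_zero (mul_ne_zero (mul_ne_zero h2 h.ga) (mul_ne_zero h2 h.be))
        (mul_ne_zero h2 h.k1)) (pow_ne_zero 2 h0)
    · left
      unfold pg
      exact mul_ne_zero (mul_ne_zero (pow_ne_zero 2 (mul_ne_zero h2 h.ga))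
        (mul_ne_zero h2 h.k1)) (mul_ne_zero h0 h1)

theorem tc_one (s : Fin 2 → L) (h1 : s 1 = 0) : tc F x a b c s =
    -(2 * tri F x b c) * (2 * (tri F x a c * tri F a a b - tri F x a b * tri F a a c)) ^ 2 *
      s 0 ^ 3 := by
  unfold tc TT
  rw [h1]
  ring

theorem tc_zero (s : Fin 2 → L) (h0 : s 0 = 0) : tc F x a b c s =
    -(2 * tri F x a c) * (2 * (tri F x b c * tri F a b b - tri F x a b * tri F b b c)) ^ 2 *
      s 1 ^ 3 := by
  unfold tc TT
  rw [h0]
  ring

theorem cubic_fac [IsAlgClosed L] {e₃ : L} (e₂ e₁ e₀ : L) (h : e₃ ≠ 0) :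
    ∃ r : Fin 3 → L, ∀ s : Fin 2 → L, e₃ * s 0 ^ 3 + e₂ * (s 0 ^ 2 * s 1) +
      e₁ * (s 0 * s 1 ^ 2) + e₀ * s 1 ^ 3 = e₃ * ∏ i, (s 0 - s 1 * r i) := by
  let P : Cubic L := ⟨e₃, e₂, e₁, e₀⟩
  have h0 : P.a ≠ 0 := h
  obtain ⟨x, y, z, hr⟩ := (Cubic.splits_iff_roots_eq_three (φ := RingHom.id L) h0).1
    (IsAlgClosed.splits _)
  have e2 := Cubic.b_eq_three_roots h0 hr
  have e1 := Cubic.c_eq_three_roots h0 hr
  have e0 := Cubic.d_eq_three_roots h0 hr
  simp only [RingHom.id_apply, P] at e2 e1 e0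
  refine ⟨![x, y, z], fun s => ?_⟩
  rw [Fin.prod_univ_three, e2, e1, e0]
  simp only [Matrix.cons_val_zero, Matrix.cons_val_one, Matrix.cons_val]
  ring

/-- the factorisation of the cubic form -/
theorem tc_fac [CharZero L] [IsAlgClosed L] (h : Cfg F x a b c) :
    ∃ (e : L) (r : Fin 3 → L), e ≠ 0 ∧ ∀ s : Fin 2 → L,
      tc F x a b c s = e * ∏ i, (s 0 - s 1 * r i) := by
  have h2 : (2 : L) ≠ 0 := two_ne_zero
  have h0 : -(2 * tri F x b c) * (2 * (tri F x a c * tri F a a b -
      tri F x a b * tri F a a c)) ^ 2 ≠ 0 :=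
    mul_ne_zero (neg_ne_zero.2 (mul_ne_zero h2 h.al)) (pow_ne_zero 2 (mul_ne_zero h2 h.k1))
  obtain ⟨r, hr⟩ := cubic_fac (
    2 * (tri F x a c * tri F a a b - tri F x a b * tri F a a c) *
      (-(2 * tri F x b c) ^ 2 * tri F a a b - 2 * (2 * tri F x b c) * (2 * tri F x a c) *
      tri F a b b + (2 * tri F x b c) * (2 * tri F x a b) * (2 * tri F a b c) +
      (2 * tri F x a c) * (2 * tri F x a b) * tri F b b c - (2 * tri F x a b) ^ 2 *
      tri F b c c))
    (2 * (tri F x b c * tri F a b b - tri F x a b * tri F b b c) *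
      (-(2 * tri F x a c) ^ 2 * tri F a b b - 2 * (2 * tri F x b c) * (2 * tri F x a c) *
      tri F a a b + (2 * tri F x a c) * (2 * tri F x a b) * (2 * tri F a b c) +
      (2 * tri F x b c) * (2 * tri F x a b) * tri F a a c - (2 * tri F x a b) ^ 2 *
      tri F a c c))
    (-(2 * tri F x a c) * (2 * (tri F x b c * tri F a b b - tri F x a b * tri F b b c)) ^ 2) h0
  refine ⟨_, r, h0, fun s => ?_⟩
  rw [← hr]
  unfold tc TT
  ring

/-- a zero of the cubic form has two coordinates which are not zero -/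
theorem tc_root [CharZero L] (h : Cfg F x a b c) {s : Fin 2 → L} (hs : s ≠ 0)
    (h0 : tc F x a b c s = 0) : s 0 ≠ 0 ∧ s 1 ≠ 0 := by
  have h2 : (2 : L) ≠ 0 := two_ne_zero
  constructor
  · intro h1
    have h3 : s 1 ≠ 0 := by
      intro h3
      apply hs
      funext i
      fin_cases i
      · exact h1
      · exact h3
    rw [tc_zero s h1] at h0
    exact mul_ne_zero (mul_ne_zero (neg_ne_zero.2 (mul_ne_zero h2 h.be))
      (pow_ne_zero 2 (mul_ne_zero h2 h.k2))) (pow_ne_zero 3 h3) h0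
  · intro h1
    have h3 : s 0 ≠ 0 := by
      intro h3
      apply hs
      funext i
      fin_cases i
      · exact h3
      · exact h1
    rw [tc_one s h1] at h0
    exact mul_ne_zero (mul_ne_zero (neg_ne_zero.2 (mul_ne_zero h2 h.al))
      (pow_ne_zero 2 (mul_ne_zero h2 h.k1))) (pow_ne_zero 3 h3) h0

theorem mem_bas {f : Ln F L} {u : Fin 2 → Fin 6 → L} (hf : Bas f u) {z : Fin 6 → L} :
    z ∈ f.W ↔ ∃ s : Fin 2 → L, z = cmb u s := by
  rw [hf.2, Submodule.mem_span_pair]
  constructor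
  · rintro ⟨s, t, rfl⟩
    exact ⟨![s, t], rfl⟩
  · rintro ⟨s, rfl⟩
    exact ⟨s 0, s 1, rfl⟩

theorem cmb_zero (u : Fin 2 → Fin 6 → L) : cmb u 0 = 0 := by
  unfold cmb
  simp

/-- vectors in the tangent hyperplane -/
theorem exists_ys (u : Fin 2 → Fin 6 → L) {z w : Fin 6 → L} (hw : ∃ s : Fin 2 → L, w = cmb u s)
    (h : tri F z z w = 0) (h0 : tri F z z (u 0) ≠ 0 ∨ tri F z z (u 1) ≠ 0) :
    ∃ μ : L, w = μ • ys F u z := by
  obtain ⟨s, rfl⟩ := hw
  unfold cmb at h
  rw [tri_add3, tri_smul3, tri_smul3] at h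
  obtain ⟨μ, h1, h2⟩ := lin2 h h0
  refine ⟨μ, ?_⟩
  unfold cmb ys
  rw [h1, h2]
  module

theorem vg_fg [CharZero L] [IsAlgClosed L] (h : Cfg F x a b c) {f g : Ln F L}
    (hf : Bas f (rs F x a b)) (hg : Bas g (rs F x a c)) : Vg f g := by
  have h2 : (2 : L) ≠ 0 := two_ne_zero
  have hg0 : rs F x a c 0 ∈ g.W := (mem_bas hg).2 ⟨![1, 0], by simp [cmb]⟩
  have hg1 : rs F x a c 1 ∈ g.W := (mem_bas hg).2 ⟨![0, 1], by simp [cmb]⟩
  constructor
  · intro z hz hz0
    obtain ⟨s, rfl⟩ := (mem_bas hf).1 hz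
    have hs : s ≠ 0 := by
      rintro rfl
      exact hz0 (cmb_zero _)
    rcases pq_ne h hs with h1 | h1
    · exact ⟨_, hg0, by rwa [tri_g0 h]⟩
    · exact ⟨_, hg1, by rwa [tri_g1 h]⟩
  · obtain ⟨e, r, he, hr⟩ := tc_fac h
    obtain ⟨t, ht⟩ := Infinite.exists_notMem_finset (Finset.univ.image r)
    have hs : (![t, 1] : Fin 2 → L) ≠ 0 := by
      intro h0
      have := congrFun h0 1
      simp at this
    have ht' : tc F x a b c ![t, 1] ≠ 0 := by
      rw [hr]
      refine mul_ne_zero he (Finset.prod_ne_zero_iff.2 fun i _ => ?_)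
      intro h0
      apply ht
      rw [Finset.mem_image]
      refine ⟨i, Finset.mem_univ _, ?_⟩
      simp only [Matrix.cons_val_zero, Matrix.cons_val_one, Matrix.cons_val_fin_one, one_mul] at h0
      exact (sub_eq_zero.1 h0).symm
    refine ⟨cmb (rs F x a b) ![t, 1], (mem_bas hf).2 ⟨_, rfl⟩, fun w hw hw0 h0 => ?_⟩
    obtain ⟨μ, rfl⟩ := exists_ys (rs F x a c) ((mem_bas hg).1 hw) h0 (by
      rw [tri_g0 h, tri_g1 h]
      exact pq_ne h hs)
    have hμ : μ ≠ 0 := by
      rintro rfl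
      exact hw0 (zero_smul _ _)
    have h3 := dd_f_g h ![t, 1]
    unfold dd at h3
    rw [tri_smul2, tri_smul3, h3]
    refine mul_ne_zero hμ (mul_ne_zero hμ (mul_ne_zero (mul_ne_zero (mul_ne_zero (mul_ne_zero
      (neg_ne_zero.2 (pow_ne_zero 2 (mul_ne_zero h2 h.be))) (pow_ne_zero 3
      (mul_ne_zero h2 h.ga))) (mul_ne_zero h2 h.k1)) ?_) ht'))
    simp

end

end Pool.Agent.CUB.FLN
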