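import Pool.Agent.FLN.Defs
import Pool.Agent.FLN.BForm

/-!
# Transversals: existence, uniqueness, values at places

Notation: `R(s) = dd F w (cmb u s)` for bases `u` of `x`, `w` of `y`; `ys F w z` has the coordinates
`(- tri z z (w 1), tri z z (w 0))` in the basis `w`, so `tri z z (ys F w z) = 0`.

`exists_phi`. `R` is a binary quintic form, `R ≠ 0` by `Vg.fin` (for the `z` there take
`w' = ys F w z`, it is not zero by `Vg.tan`; `z ≠ 0` because otherwise every `w'` would be excluded). So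
`R = c ∏ (s 0 * ρ i 1 - s 1 * ρ i 0)`. For `z = cmb u (ρ i)`, `v = ys F w z`: `v ≠ 0` by `Vg.tan`;
`z`, `v` are independent (if `v = c z` then `z ∈ y.W`, so `tri z z w' = 0` for all `w' ∈ y.W`,
contradiction to `Vg.tan`); `tri z z z = 0` (`z ∈ x`), `tri z z v = 0`, `tri z v v = dd = 0`,
`tri v v v = 0` (`v ∈ y`): `exists_ln`.

`phi_sum`. Another basis `w'` of `y`: `ys F w' z = det • ys F w z`, `dd F w' = det ^ 2 * dd F w`.
Another basis of `x`: a linear change of `s`. Two factorisations of a binary quintic form (as a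
function on `x.W`, both constants are not zero) have proportional `ρ i` up to a permutation; lines which
contain the same independent vectors `z`, `v` are equal.

`vg_at`. Lift and scale vectors (`exists_adapted`, `GT.exists_scale`, `tri_at`): a vector of `x` which
is not zero can be scaled such that it has a value which is not zero, the value is in `x'`; every vector
of `y'` is the value of a vector of `y`.

`phi_at`. Adapted bases `u`, `w` with independent values `u'`, `w'`; by `phi_sum`-type change of basis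
`R_(u,w) = c ∏ ..`; scale `ρ i` such that it has a value `ρ' i ≠ 0`; the values of the function at
constant `s` show that `c` has a value `c'`, which is not zero because `R_(u',w') ≠ 0`
(`exists_phi`); the vectors `cmb u (ρ i)` and `ys F w (cmb u (ρ i))` have the values
`cmb u' (ρ' i)`, `ys F w' (cmb u' (ρ' i))`, which are in `m' i` by `IsVal`.
-/

set_option autoImplicit false

noncomputable section

namespace Pool.Agent.CUB.FLN

open Pool.Agent.ZCyc Pool.Agent.Dess Pool.Agent.GT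
open Pool.Agent.VFP (Om tt)
open scoped Classical

variable {k : Type} [Field k] [CharZero k] {F : MvPolynomial (Fin 6) k}
  {L : Type} [Field L] [Algebra k L]

omit [CharZero k] in
theorem span_of {L : Type} [Field L] [Algebra k L] {x : Ln F L} {a b : Fin 6 → L}
    (h : LinearIndependent L ![a, b]) (ha : a ∈ x.W) (hb : b ∈ x.W) :
    x.W = Submodule.span L {a, b} := by
  refine (Submodule.eq_of_le_of_finrank_eq ?_ ?_).symm
  · rw [Submodule.span_le]
    rintro c (rfl | rfl)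
    · exact ha
    · exact hb
  · have h1 := finrank_span_eq_card h
    rw [Matrix.range_cons, Matrix.range_cons, Matrix.range_empty, Set.union_empty,
      Set.singleton_union] at h1
    rw [h1, Fintype.card_fin, x.two]

theorem exists_bas (x : Ln F L) : ∃ u, Bas x u := by
  obtain ⟨a, b, h, hW⟩ := exists_basis x
  exact ⟨![a, b], h, hW⟩

omit [CharZero k] in
theorem Bas.mem0 {x : Ln F L} {u : Fin 2 → Fin 6 → L} (h : Bas x u) : u 0 ∈ x.W := by
  rw [h.2]
  exact Submodule.subset_span (by simp)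

omit [CharZero k] in
theorem Bas.mem1 {x : Ln F L} {u : Fin 2 → Fin 6 → L} (h : Bas x u) : u 1 ∈ x.W := by
  rw [h.2]
  exact Submodule.subset_span (by simp)

omit [CharZero k] in
theorem Bas.cmb_mem {x : Ln F L} {u : Fin 2 → Fin 6 → L} (h : Bas x u) (s : Fin 2 → L) :
    cmb u s ∈ x.W :=
  x.W.add_mem (x.W.smul_mem _ h.mem0) (x.W.smul_mem _ h.mem1)

omit [CharZero k] in
theorem Bas.exists_cmb {x : Ln F L} {u : Fin 2 → Fin 6 → L} (h : Bas x u) {z : Fin 6 → L}
    (hz : z ∈ x.W) : ∃ s, z = cmb u s := by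
  rw [h.2] at hz
  obtain ⟨a, b, hab⟩ := Submodule.mem_span_pair.1 hz
  exact ⟨![a, b], by simpa [cmb] using hab.symm⟩

omit [CharZero k] in
theorem Bas.cmb_ne {x : Ln F L} {u : Fin 2 → Fin 6 → L} (h : Bas x u) {s : Fin 2 → L}
    (hs : s ≠ 0) : cmb u s ≠ 0 := by
  intro h0
  apply hs
  have h1 := (LinearIndependent.pair_iff.1 h.1) (s 0) (s 1) h0
  funext i
  fin_cases i
  · exact h1.1
  · exact h1.2

omit [CharZero k] in
theorem ys_mem {y : Ln F L} {w : Fin 2 → Fin 6 → L} (h : Bas y w) (z : Fin 6 → L) :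
    ys F w z ∈ y.W :=
  y.W.sub_mem (y.W.smul_mem _ h.mem1) (y.W.smul_mem _ h.mem0)

omit [CharZero k] in
theorem tri_sub3 (x y z z' : Fin 6 → L) :
    tri F x y (z - z') = tri F x y z - tri F x y z' := by
  rw [← trl_apply, map_sub, trl_apply, trl_apply]

omit [CharZero k] in
theorem tri_sub2 (x y y' z : Fin 6 → L) :
    tri F x (y - y') z = tri F x y z - tri F x y' z := by
  rw [tri_swap23, tri_sub3, tri_swap23 F x z, tri_swap23 F x z]

omit [CharZero k] in
/-- the point `ys` is in the tangent hyperplane -/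
theorem tri_ys (w : Fin 2 → Fin 6 → L) (z : Fin 6 → L) : tri F z z (ys F w z) = 0 := by
  unfold ys
  rw [tri_sub3, tri_smul3, tri_smul3]
  ring

omit [CharZero k] in
/-- `ys` is not zero -/
theorem ys_ne {y : Ln F L} {w : Fin 2 → Fin 6 → L} (hw : Bas y w) {z : Fin 6 → L}
    (h : ∃ w ∈ y.W, tri F z z w ≠ 0) : ys F w z ≠ 0 := by
  intro h0
  obtain ⟨w', hw', hne⟩ := h
  obtain ⟨s, rfl⟩ := hw.exists_cmb hw'
  have h1 := (LinearIndependent.pair_iff.1 hw.1) (-tri F z z (w 1)) (tri F z z (w 0)) (by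
    rw [← h0]
    unfold ys
    module)
  apply hne
  unfold cmb
  rw [tri_add3, tri_smul3, tri_smul3, h1.2, neg_eq_zero.1 h1.1]
  ring

omit [CharZero k] in
theorem ys_smul (w : Fin 2 → Fin 6 → L) (c : L) (z : Fin 6 → L) :
    ys F w (c • z) = c ^ 2 • ys F w z := by
  unfold ys
  simp only [tri_smul1, tri_smul2, smul_sub, smul_smul]
  congr 2 <;> ring

omit [CharZero k] in
theorem dd_eq (w : Fin 2 → Fin 6 → L) (z : Fin 6 → L) : dd F w z =
    tri F z z (w 0) * tri F z z (w 0) * tri F z (w 1) (w 1) +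
      -2 * (tri F z z (w 0) * tri F z z (w 1)) * tri F z (w 0) (w 1) +
      tri F z z (w 1) * tri F z z (w 1) * tri F z (w 0) (w 0) := by
  unfold dd
  have h1 : ys F w z = tri F z z (w 0) • w 1 - tri F z z (w 1) • w 0 := rfl
  have h2 : tri F z (w 1) (w 0) = tri F z (w 0) (w 1) := tri_swap23 F _ _ _
  rw [h1, tri_sub3, tri_sub2, tri_sub2, tri_smul3, tri_smul3, tri_smul3, tri_smul3, tri_smul2,
    tri_smul2, tri_smul2, tri_smul2, h2]
  ring

omit [CharZero k] in
/-- a quadratic form on a line -/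
private theorem bf_two (u : Fin 2 → Fin 6 → L) (w : Fin 6 → L) :
    ∃ p, BF 2 (fun s => tri F (cmb u s) (cmb u s) w) p := by
  refine ⟨_, (((BF.lin (tri F (u 0) (u 0) w) (tri F (u 0) (u 1) w)).mul
    (BF.lin (1 : L) 0)).add ((BF.lin (tri F (u 0) (u 1) w) (tri F (u 1) (u 1) w)).mul
    (BF.lin (0 : L) 1))).congr (fun s => ?_) rfl⟩
  unfold cmb
  have h2 : tri F (u 1) (u 0) w = tri F (u 0) (u 1) w := tri_swap12 F _ _ _
  rw [tri_add1, tri_add2, tri_add2, tri_smul1, tri_smul1, tri_smul1, tri_smul1, tri_smul2,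
    tri_smul2, tri_smul2, tri_smul2, h2]
  ring

omit [CharZero k] in
private theorem bf_one (u : Fin 2 → Fin 6 → L) (w w' : Fin 6 → L) :
    ∃ p, BF 1 (fun s => tri F (cmb u s) w w') p := by
  refine ⟨_, (BF.lin (tri F (u 0) w w') (tri F (u 1) w w')).congr (fun s => ?_) rfl⟩
  unfold cmb
  rw [tri_add1, tri_smul1, tri_smul1]
  ring

omit [CharZero k] in
/-- the quintic form -/
theorem bf_dd (u w : Fin 2 → Fin 6 → L) : ∃ p, BF 5 (fun s => dd F w (cmb u s)) p := by
  obtain ⟨p0, h0⟩ := bf_two (F := F) u (w 0)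
  obtain ⟨p1, h1⟩ := bf_two (F := F) u (w 1)
  obtain ⟨q0, g0⟩ := bf_one (F := F) u (w 0) (w 0)
  obtain ⟨q1, g1⟩ := bf_one (F := F) u (w 0) (w 1)
  obtain ⟨q2, g2⟩ := bf_one (F := F) u (w 1) (w 1)
  refine ⟨_, ((((h0.mul h0).mul g2).add ((((BF.const (-2 : L)).mul (h0.mul h1)).mul g1).congr
    (fun s => rfl) rfl)).add ((h1.mul h1).mul g0)).congr (fun s => ?_) rfl⟩
  rw [dd_eq]

omit [CharZero k] in
/-- the form is not zero -/
theorem dd_ne {x y : Ln F L} {u w : Fin 2 → Fin 6 → L} (hu : Bas x u) (hw : Bas y w)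
    (h : Vg x y) : ∃ s, dd F w (cmb u s) ≠ 0 := by
  obtain ⟨z, hz, hz'⟩ := h.fin
  have hz0 : z ≠ 0 := by
    rintro rfl
    have h1 : w 0 ≠ 0 := by
      intro h2
      have := (LinearIndependent.pair_iff.1 hw.1) 1 0 (by rw [h2]; simp)
      exact one_ne_zero this.1
    exact hz' (w 0) hw.mem0 h1 (tri_zero1 F _ _) (tri_zero1 F _ _)
  obtain ⟨s, rfl⟩ := hu.exists_cmb hz
  exact ⟨s, hz' _ (ys_mem hw _) (ys_ne hw (h.tan _ hz hz0)) (tri_ys w _)⟩

theorem li_ys (hF : Smooth F) {x y : Ln F L} {w : Fin 2 → Fin 6 → L} (hw : Bas y w)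
    (h : Vg x y) {z : Fin 6 → L} (hz : z ∈ x.W) (hz0 : z ≠ 0) :
    LinearIndependent L ![z, ys F w z] := by
  have hv := ys_ne hw (h.tan z hz hz0)
  rw [LinearIndependent.pair_iff' hz0]
  intro a ha
  have ha0 : a ≠ 0 := by
    rintro rfl
    exact hv (by rw [← ha, zero_smul])
  have hzy : z ∈ y.W := by
    have h1 : z = a⁻¹ • ys F w z := by rw [← ha, smul_smul, inv_mul_cancel₀ ha0, one_smul]
    rw [h1]
    exact y.W.smul_mem _ (ys_mem hw z)
  obtain ⟨w', hw', hne⟩ := h.tan z hz hz0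
  exact hne (y.tri_zero hF hzy hzy hw')

theorem exists_phi [IsAlgClosed L] (hF : Smooth F) {x y : Ln F L} (h : Vg x y) :
    ∃ m : Fin 5 → Ln F L, IsPhi x y m := by
  obtain ⟨u, hu⟩ := exists_bas x
  obtain ⟨w, hw⟩ := exists_bas y
  obtain ⟨p, hp⟩ := bf_dd (F := F) u w
  obtain ⟨c, ρ, hc, hρ, hfac⟩ := hp.factor (dd_ne hu hw h)
  have hm : ∀ i, ∃ m : Ln F L, m.W = Submodule.span L {cmb u (ρ i), ys F w (cmb u (ρ i))} := by
    intro i
    have hz := hu.cmb_mem (ρ i)
    have hd : dd F w (cmb u (ρ i)) = 0 := by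
      rw [hfac, Finset.prod_eq_zero (Finset.mem_univ i) (by ring), mul_zero]
    exact exists_ln hF (li_ys hF hw h hz (hu.cmb_ne (hρ i))) (x.tri_zero hF hz hz hz)
      (tri_ys w _) hd (y.tri_zero hF (ys_mem hw _) (ys_mem hw _) (ys_mem hw _))
  choose m hm using hm
  refine ⟨m, u, w, c, ρ, hu, hw, hc, hρ, hfac, fun i => ?_⟩
  rw [hm i]
  exact ⟨Submodule.subset_span (by simp), Submodule.subset_span (by simp)⟩

omit [CharZero k] in
/-- the data for given bases -/
theorem IsPhi.bas {x y : Ln F L} {m : Fin 5 → Ln F L} (h : IsPhi x y m)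
    {u w : Fin 2 → Fin 6 → L} (hu : Bas x u) (hw : Bas y w) :
    ∃ (c : L) (ρ : Fin 5 → Fin 2 → L), c ≠ 0 ∧ (∀ i, ρ i ≠ 0) ∧
      (∀ s, dd F w (cmb u s) = c * ∏ i, (s 0 * ρ i 1 - s 1 * ρ i 0)) ∧
      ∀ i, cmb u (ρ i) ∈ (m i).W ∧ ys F w (cmb u (ρ i)) ∈ (m i).W := by
  obtain ⟨u', w', c, ρ, hu', hw', hc, hρ, hfac, hm⟩ := h
  obtain ⟨a, ha⟩ := hu.exists_cmb hu'.mem0
  obtain ⟨b, hb⟩ := hu.exists_cmb hu'.mem1
  obtain ⟨p, hp⟩ := hw.exists_cmb hw'.mem0
  obtain ⟨q, hq⟩ := hw.exists_cmb hw'.mem1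
  have hδ : a 0 * b 1 - a 1 * b 0 ≠ 0 := by
    intro h0
    have h1 := (LinearIndependent.pair_iff.1 hu'.1) (b 1) (-a 1) (by
      rw [ha, hb]
      unfold cmb
      have : b 1 • (a 0 • u 0 + a 1 • u 1) + -a 1 • (b 0 • u 0 + b 1 • u 1) =
          (a 0 * b 1 - a 1 * b 0) • u 0 := by module
      rw [this, h0, zero_smul])
    have h2 := (LinearIndependent.pair_iff.1 hu'.1) (b 0) (-a 0) (by
      rw [ha, hb]
      unfold cmb
      have : b 0 • (a 0 • u 0 + a 1 • u 1) + -a 0 • (b 0 • u 0 + b 1 • u 1) =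
          -(a 0 * b 1 - a 1 * b 0) • u 1 := by module
      rw [this, h0, neg_zero, zero_smul])
    have h3 := (LinearIndependent.pair_iff.1 hu'.1) 1 0 (by
      rw [ha]
      unfold cmb
      rw [neg_eq_zero.1 h1.2, neg_eq_zero.1 h2.2]
      simp)
    exact one_ne_zero h3.1
  have hε : p 0 * q 1 - p 1 * q 0 ≠ 0 := by
    intro h0
    have h1 := (LinearIndependent.pair_iff.1 hw'.1) (q 1) (-p 1) (by
      rw [hp, hq]
      unfold cmb
      have : q 1 • (p 0 • w 0 + p 1 • w 1) + -p 1 • (q 0 • w 0 + q 1 • w 1) =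
          (p 0 * q 1 - p 1 * q 0) • w 0 := by module
      rw [this, h0, zero_smul])
    have h2 := (LinearIndependent.pair_iff.1 hw'.1) (q 0) (-p 0) (by
      rw [hp, hq]
      unfold cmb
      have : q 0 • (p 0 • w 0 + p 1 • w 1) + -p 0 • (q 0 • w 0 + q 1 • w 1) =
          -(p 0 * q 1 - p 1 * q 0) • w 1 := by module
      rw [this, h0, neg_zero, zero_smul])
    have h3 := (LinearIndependent.pair_iff.1 hw'.1) 1 0 (by
      rw [hp]
      unfold cmb
      rw [neg_eq_zero.1 h1.2, neg_eq_zero.1 h2.2]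
      simp)
    exact one_ne_zero h3.1
  set δ := a 0 * b 1 - a 1 * b 0 with hδd
  set ε := p 0 * q 1 - p 1 * q 0 with hεd
  -- the change of coordinates
  have hcmb : ∀ s : Fin 2 → L, cmb u' s = cmb u ![s 0 * a 0 + s 1 * b 0, s 0 * a 1 + s 1 * b 1] := by
    intro s
    change s 0 • u' 0 + s 1 • u' 1 = _
    rw [ha, hb]
    simp only [cmb, Matrix.cons_val_zero, Matrix.cons_val_one, Matrix.cons_val_fin_one]
    module
  have hys : ∀ z, ys F w' z = ε • ys F w z := by
    intro z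
    unfold ys
    rw [hp, hq]
    simp only [cmb, tri_add3, tri_smul3]
    rw [hεd]
    module
  have hdd : ∀ z, dd F w' z = ε ^ 2 * dd F w z := by
    intro z
    unfold dd
    rw [hys, tri_smul2, tri_smul3]
    ring
  refine ⟨(ε ^ 2)⁻¹ * (δ ^ 5)⁻¹ * c, fun i => ![ρ i 0 * a 0 + ρ i 1 * b 0,
    ρ i 0 * a 1 + ρ i 1 * b 1], ?_, ?_, ?_, ?_⟩
  · exact mul_ne_zero (mul_ne_zero (inv_ne_zero (pow_ne_zero _ hε))
      (inv_ne_zero (pow_ne_zero _ hδ))) hc
  · intro i h0
    have h1 := congrFun h0 0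
    have h2 := congrFun h0 1
    simp only [Matrix.cons_val_zero, Matrix.cons_val_one, Matrix.cons_val_fin_one,
      Pi.zero_apply] at h1 h2
    apply hρ i
    have h3 : ρ i 0 * δ = 0 := by
      rw [hδd]
      linear_combination b 1 * h1 - b 0 * h2
    have h4 : ρ i 1 * δ = 0 := by
      rw [hδd]
      linear_combination a 0 * h2 - a 1 * h1
    funext j
    fin_cases j
    · exact (mul_eq_zero.1 h3).resolve_right hδ
    · exact (mul_eq_zero.1 h4).resolve_right hδ
  · intro s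
    -- the preimage of `s`
    set t : Fin 2 → L := ![δ⁻¹ * (b 1 * s 0 - b 0 * s 1), δ⁻¹ * (a 0 * s 1 - a 1 * s 0)] with ht
    have e0 : t 0 * a 0 + t 1 * b 0 = s 0 := by
      simp only [ht, Matrix.cons_val_zero, Matrix.cons_val_one, Matrix.cons_val_fin_one]
      rw [hδd]
      rw [hδd] at hδ
      field_simp
      ring
    have e1 : t 0 * a 1 + t 1 * b 1 = s 1 := by
      simp only [ht, Matrix.cons_val_zero, Matrix.cons_val_one, Matrix.cons_val_fin_one]
      rw [hδd]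
      rw [hδd] at hδ
      field_simp
      ring
    have h1 := hfac t
    rw [hcmb, e0, e1, hdd] at h1
    have h2 : (![s 0, s 1] : Fin 2 → L) = s := by
      funext j
      fin_cases j <;> rfl
    rw [h2] at h1
    have h3 : ∀ i, s 0 * (![ρ i 0 * a 0 + ρ i 1 * b 0, ρ i 0 * a 1 + ρ i 1 * b 1] :
        Fin 2 → L) 1 - s 1 * (![ρ i 0 * a 0 + ρ i 1 * b 0, ρ i 0 * a 1 + ρ i 1 * b 1] :
        Fin 2 → L) 0 = δ * (t 0 * ρ i 1 - t 1 * ρ i 0) := by
      intro i
      simp only [Matrix.cons_val_zero, Matrix.cons_val_one, Matrix.cons_val_fin_one]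
      rw [← e0, ← e1, hδd]
      ring
    simp only [h3]
    rw [Finset.prod_mul_distrib, Finset.prod_const, Finset.card_univ, Fintype.card_fin]
    have h4 : dd F w (cmb u s) = (ε ^ 2)⁻¹ * (ε ^ 2 * dd F w (cmb u s)) := by
      rw [← mul_assoc, inv_mul_cancel₀ (pow_ne_zero _ hε), one_mul]
    rw [h4, h1]
    have h5 : (δ ^ 5)⁻¹ * δ ^ 5 = 1 := inv_mul_cancel₀ (pow_ne_zero _ hδ)
    linear_combination (-(ε ^ 2)⁻¹ * c * ∏ i, (t 0 * ρ i 1 - t 1 * ρ i 0)) * h5
  · intro i
    rw [← hcmb]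
    refine ⟨(hm i).1, ?_⟩
    have h1 := (m i).W.smul_mem ε⁻¹ (hm i).2
    rw [hys, smul_smul, inv_mul_cancel₀ hε, one_smul] at h1
    exact h1

theorem phi_sum [IsAlgClosed L] (hF : Smooth F) {x y : Ln F L} (h : Vg x y)
    {m m' : Fin 5 → Ln F L} (hm : IsPhi x y m) (hm' : IsPhi x y m') {A : Type} [AddCommMonoid A]
    (f : Ln F L → A) : ∑ i, f (m i) = ∑ i, f (m' i) := by
  have : Infinite L := IsAlgClosed.instInfinite
  obtain ⟨u, hu⟩ := exists_bas x
  obtain ⟨w, hw⟩ := exists_bas y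
  obtain ⟨c, ρ, hc, hρ, hfac, hz⟩ := hm.bas hu hw
  obtain ⟨c', ρ', hc', hρ', hfac', hz'⟩ := hm'.bas hu hw
  obtain ⟨σ, l, hl⟩ := fac_unique hc hc' hρ hρ' fun s => by rw [← hfac, ← hfac']
  have key : ∀ i, m' (σ i) = m i := by
    intro i
    obtain ⟨hl0, hl1⟩ := hl i
    have hzi := hu.cmb_mem (ρ i)
    have hli := li_ys hF hw h hzi (hu.cmb_ne (hρ i))
    have e1 : cmb u (ρ' (σ i)) = l i • cmb u (ρ i) := by
      rw [hl1]
      simp only [cmb, Pi.smul_apply, smul_eq_mul]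
      module
    have hb := hz' (σ i)
    rw [e1, ys_smul] at hb
    have h1 : cmb u (ρ i) ∈ (m' (σ i)).W := by
      have := (m' (σ i)).W.smul_mem (l i)⁻¹ hb.1
      rwa [smul_smul, inv_mul_cancel₀ hl0, one_smul] at this
    have h2 : ys F w (cmb u (ρ i)) ∈ (m' (σ i)).W := by
      have := (m' (σ i)).W.smul_mem (l i ^ 2)⁻¹ hb.2
      rwa [smul_smul, inv_mul_cancel₀ (pow_ne_zero 2 hl0), one_smul] at this
    apply Ln.ext
    rw [span_of hli h1 h2, span_of hli (hz i).1 (hz i).2]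
  rw [← Equiv.sum_comp σ fun i => f (m' i)]
  exact Finset.sum_congr rfl fun i _ => by rw [key]

theorem ph_eq [IsAlgClosed k] (hF : Smooth F) {x y : Ln F k} (h : Vg x y)
    {m : Fin 5 → Ln F k} (hm : IsPhi x y m) : ph hF x y = ∑ i, cl hF (m i) := by
  have h1 : ∃ m, IsPhi x y m := ⟨m, hm⟩
  unfold ph
  rw [dif_pos h1]
  exact phi_sum hF h h1.choose_spec hm _

variable [IsAlgClosed k]

section At

variable {V : Place k (Om k)}

omit [CharZero k] [IsAlgClosed k] in
private theorem at_ne {f : Om k} {c : k} (h : V.At f c) (hc : c ≠ 0) : f ≠ 0 := by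
  rintro rfl
  have h1 := Place.at_const (v := V) (0 : k)
  rw [map_zero] at h1
  exact hc (h.unique h1)

omit [CharZero k] [IsAlgClosed k] in
private theorem at_zero {c : k} (h : V.At (0 : Om k) c) : c = 0 := by
  have h1 := Place.at_const (v := V) (0 : k)
  rw [map_zero] at h1
  exact h.unique h1

/-- adapted bases of a line and its value -/
private theorem exists_ad {x : Ln F (Om k)} {x' : Ln F k} (hx : IsVal V x x') :
    ∃ (u : Fin 2 → Fin 6 → Om k) (u' : Fin 2 → Fin 6 → k), Bas x u ∧ Bas x' u' ∧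
      ∀ j i, V.At (u j i) (u' j i) := by
  obtain ⟨a, b, a', b', h, hW, ha, hb, h'⟩ := exists_adapted V x
  have haW : a ∈ x.W := by
    rw [hW]
    exact Submodule.subset_span (by simp)
  have hbW : b ∈ x.W := by
    rw [hW]
    exact Submodule.subset_span (by simp)
  refine ⟨![a, b], ![a', b'], ⟨h, hW⟩, ⟨h', span_of h' (hx a haW a' ha) (hx b hbW b' hb)⟩, ?_⟩
  intro j i
  fin_cases j
  · exact ha i
  · exact hb i

omit [CharZero k] [IsAlgClosed k] in
private theorem cmb_at {u : Fin 2 → Fin 6 → Om k} {u' : Fin 2 → Fin 6 → k}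
    (hu : ∀ j i, V.At (u j i) (u' j i)) {s : Fin 2 → Om k} {s' : Fin 2 → k}
    (hs : ∀ j, V.At (s j) (s' j)) (i : Fin 6) : V.At (cmb u s i) (cmb u' s' i) := by
  simp only [cmb, Pi.add_apply, Pi.smul_apply, smul_eq_mul]
  exact ((hs 0).mul (hu 0 i)).add ((hs 1).mul (hu 1 i))

omit [CharZero k] [IsAlgClosed k] in
private theorem ys_at {w : Fin 2 → Fin 6 → Om k} {w' : Fin 2 → Fin 6 → k}
    (hw : ∀ j i, V.At (w j i) (w' j i)) {z : Fin 6 → Om k} {z' : Fin 6 → k}
    (hz : ∀ j, V.At (z j) (z' j)) (i : Fin 6) : V.At (ys F w z i) (ys F w' z' i) := by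
  simp only [ys, Pi.sub_apply, Pi.smul_apply, smul_eq_mul]
  exact ((tri_at F hz hz (hw 0)).mul (hw 1 i)).sub ((tri_at F hz hz (hw 1)).mul (hw 0 i))

omit [CharZero k] [IsAlgClosed k] in
private theorem dd_at {w : Fin 2 → Fin 6 → Om k} {w' : Fin 2 → Fin 6 → k}
    (hw : ∀ j i, V.At (w j i) (w' j i)) {z : Fin 6 → Om k} {z' : Fin 6 → k}
    (hz : ∀ j, V.At (z j) (z' j)) : V.At (dd F w z) (dd F w' z') :=
  tri_at F hz (ys_at hw hz) (ys_at hw hz)

/-- vectors of the value are values of vectors -/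
private theorem exists_lift {x : Ln F (Om k)} {x' : Ln F k} (hx : IsVal V x x') {z' : Fin 6 → k}
    (hz : z' ∈ x'.W) : ∃ z ∈ x.W, ∀ i, V.At (z i) (z' i) := by
  obtain ⟨u, u', hu, hu', huu⟩ := exists_ad hx
  obtain ⟨s', rfl⟩ := hu'.exists_cmb hz
  exact ⟨cmb u fun j => algebraMap k (Om k) (s' j), hu.cmb_mem _,
    cmb_at huu fun j => Place.at_const _⟩

end At

theorem vg_at (hF : Smooth F) {V : Place k (Om k)} {x y : Ln F (Om k)} {x' y' : Ln F k}
    (hx : IsVal V x x') (hy : IsVal V y y') (h : Vg x' y') : Vg x y where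
  tan := by
    intro z hz hz0
    obtain ⟨l, z', hl, hz'0, hzz⟩ := exists_scale V z hz0
    have hz'W : z' ∈ x'.W := hx (l • z) (x.W.smul_mem l hz) z' fun i => hzz i
    obtain ⟨w', hw', hne⟩ := h.tan z' hz'W hz'0
    obtain ⟨w, hw, hww⟩ := exists_lift hy hw'
    refine ⟨w, hw, fun h0 => ?_⟩
    have h1 : V.At (tri F (l • z) (l • z) w) (tri F z' z' w') := tri_at F hzz hzz hww
    rw [tri_smul1, tri_smul2, h0, mul_zero, mul_zero] at h1
    exact hne (at_zero h1)
  fin := by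
    obtain ⟨z', hz', hfin⟩ := h.fin
    obtain ⟨z, hz, hzz⟩ := exists_lift hx hz'
    refine ⟨z, hz, fun w hw hw0 ht h0 => ?_⟩
    obtain ⟨l, w', hl, hw'0, hww⟩ := exists_scale V w hw0
    have hw'W : w' ∈ y'.W := hy (l • w) (y.W.smul_mem l hw) w' fun i => hww i
    have h1 : V.At (tri F z z (l • w)) (tri F z' z' w') := tri_at F hzz hzz hww
    have h2 : V.At (tri F z (l • w) (l • w)) (tri F z' w' w') := tri_at F hzz hww hww
    rw [tri_smul3, ht, mul_zero] at h1
    rw [tri_smul2, tri_smul3, h0, mul_zero, mul_zero] at h2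
    exact hfin w' hw'W hw'0 (at_zero h1) (at_zero h2)

theorem phi_at (hF : Smooth F) {V : Place k (Om k)} {x y : Ln F (Om k)} {x' y' : Ln F k}
    (hx : IsVal V x x') (hy : IsVal V y y') (h : Vg x' y') {m : Fin 5 → Ln F (Om k)}
    (hm : IsPhi x y m) {m' : Fin 5 → Ln F k} (hm' : ∀ i, IsVal V (m i) (m' i)) :
    IsPhi x' y' m' := by
  have : Infinite k := IsAlgClosed.instInfinite
  obtain ⟨u, u', hu, hu', huu⟩ := exists_ad hx
  obtain ⟨w, w', hw, hw', hww⟩ := exists_ad hy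
  obtain ⟨c, ρ, hc, hρ, hfac, hz⟩ := hm.bas hu hw
  choose l ρ' hl hρ'0 hρρ using fun i => exists_scale V (ρ i) (hρ i)
  -- the scaled zeros
  have hprod : ∀ s : Fin 2 → k, V.At (∏ i, (algebraMap k (Om k) (s 0) * (l i * ρ i 1) -
      algebraMap k (Om k) (s 1) * (l i * ρ i 0))) (∏ i, (s 0 * ρ' i 1 - s 1 * ρ' i 0)) := by
    intro s
    exact Place.At.prod fun i _ => ((Place.at_const _).mul (hρρ i 1)).sub
      ((Place.at_const _).mul (hρρ i 0))
  set d : Om k := c * (∏ i, l i)⁻¹ with hd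
  have hlp : (∏ i, l i) ≠ 0 := Finset.prod_ne_zero_iff.2 fun i _ => hl i
  have hfac2 : ∀ s : Fin 2 → k, dd F w (cmb u fun j => algebraMap k (Om k) (s j)) =
      d * ∏ i, (algebraMap k (Om k) (s 0) * (l i * ρ i 1) -
      algebraMap k (Om k) (s 1) * (l i * ρ i 0)) := by
    intro s
    rw [hfac]
    have h1 : ∀ i, algebraMap k (Om k) (s 0) * (l i * ρ i 1) -
        algebraMap k (Om k) (s 1) * (l i * ρ i 0) = l i *
        (algebraMap k (Om k) (s 0) * ρ i 1 - algebraMap k (Om k) (s 1) * ρ i 0) := by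
      intro i
      ring
    simp only [h1]
    rw [Finset.prod_mul_distrib, hd]
    field_simp
  have hdd : ∀ s : Fin 2 → k, V.At (dd F w (cmb u fun j => algebraMap k (Om k) (s j)))
      (dd F w' (cmb u' s)) := fun s => dd_at hww (cmb_at huu fun j => Place.at_const _)
  -- the constant has a value
  obtain ⟨s₀, hs₀⟩ := exists_avoid hρ'0
  have hdat : V.At d (dd F w' (cmb u' s₀) / ∏ i, (s₀ 0 * ρ' i 1 - s₀ 1 * ρ' i 0)) := by
    have h1 := (hdd s₀).div (hprod s₀) hs₀
    rw [hfac2] at h1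
    rwa [mul_div_assoc, div_self (at_ne (hprod s₀) hs₀), mul_one] at h1
  set c' : k := dd F w' (cmb u' s₀) / ∏ i, (s₀ 0 * ρ' i 1 - s₀ 1 * ρ' i 0) with hc'
  have hfac' : ∀ s : Fin 2 → k, dd F w' (cmb u' s) = c' * ∏ i, (s 0 * ρ' i 1 - s 1 * ρ' i 0) := by
    intro s
    have h1 := hdat.mul (hprod s)
    rw [← hfac2] at h1
    exact (hdd s).unique h1
  have hc'0 : c' ≠ 0 := by
    intro h0
    obtain ⟨s, hs⟩ := dd_ne hu' hw' h
    exact hs (by rw [hfac', h0, zero_mul])
  refine ⟨u', w', c', ρ', hu', hw', hc'0, hρ'0, hfac', fun i => ?_⟩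
  have e1 : cmb u (fun j => l i * ρ i j) = l i • cmb u (ρ i) := by
    simp only [cmb, smul_add, smul_smul]
  have hA := cmb_at huu (hρρ i)
  have hB := ys_at (F := F) hww hA
  constructor
  · refine hm' i (cmb u fun j => l i * ρ i j) ?_ _ hA
    rw [e1]
    exact (m i).W.smul_mem _ (hz i).1
  · refine hm' i (ys F w (cmb u fun j => l i * ρ i j)) ?_ _ hB
    rw [e1, ys_smul]
    exact (m i).W.smul_mem _ (hz i).2

/-- the limit of a line -/
theorem cl_lim (hF : Smooth F) {V : Place k (Om k)} {x : Ln F (Om k)} {x' : Ln F k}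
    (hx : IsVal V x x') : lim1 (hom_PX hF) V
      (Finsupp.single ((pe hF (Om k)).symm x) 1) = cl hF x' := by
  have h1 : GT.IsVal V ((pe hF (Om k)).symm x) ((pe hF k).symm x') := by
    rw [pe_val hF, Equiv.apply_symm_apply, Equiv.apply_symm_apply]
    exact hx
  have h2 : pv (hom_PX hF) V ((pe hF (Om k)).symm x) = (pe hF k).symm x' := pv_eq h1
  unfold lim1 cl cl1
  rw [LinearMap.comp_apply, LinearMap.comp_apply, Finsupp.lmapDomain_apply,
    Finsupp.lmapDomain_apply, Finsupp.mapDomain_single, Finsupp.mapDomain_single, lim_single]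
  simp only [h2]
  rfl

/-- the limit of the transversals -/
theorem ph_lim (hF : Smooth F) {V : Place k (Om k)} {x y : Ln F (Om k)} {x' y' : Ln F k}
    (hx : IsVal V x x') (hy : IsVal V y y') (h : Vg x' y') {m : Fin 5 → Ln F (Om k)}
    (hm : IsPhi x y m) : lim1 (hom_PX hF) V
      (∑ i, Finsupp.single ((pe hF (Om k)).symm (m i)) 1) = ph hF x' y' := by
  choose m' hm' using fun i => exists_val hF V (m i)
  rw [ph_eq hF h (phi_at hF hx hy h hm hm'), map_sum]
  exact Finset.sum_congr rfl fun i _ => cl_lim hF (hm' i)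

end Pool.Agent.CUB.FLN
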