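import Pool.Agent.FLN.KeyC
import Pool.Agent.FLN.Phi

/-!
# Three concurrent lines: the common transversals
-/

set_option autoImplicit false

noncomputable section

namespace Pool.Agent.CUB.FLN

open Pool.Agent.ZCyc Pool.Agent.Dess Pool.Agent.GT
open Pool.Agent.VFP (Om tt)
open scoped Classical

variable {k : Type} [Field k] {F : MvPolynomial (Fin 6) k} {L : Type} [Field L] [Algebra k L]
  {x a b c : Fin 6 → L}

theorem gp_fg [CharZero L] [IsAlgClosed L] (h : Cfg F x a b c) {f g : Ln F L}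
    (hf : Bas f (rs F x a b)) (hg : Bas g (rs F x a c)) : Gp f g :=
  ⟨vg_fg h hf hg, vg_fg h.swap' hg hf⟩

theorem tri_h0 (h : Cfg F x a b c) (s : Fin 2 → L) :
    tri F (cmb (rs F x a b) s) (cmb (rs F x a b) s) (rs F x b c 0) =
      (2 * tri F x a b) ^ 2 * (2 * (tri F x b c * tri F a b b - tri F x a b * tri F b b c)) *
        (s 0 * s 1) := by
  rw [cmb_rs (c := c), rs_h (a := a), tri_cm h.ona h.onb h.onc, tf_h0]

/-- the common transversals of `f`, `g`, `h` -/
theorem exists_tr3 [CharZero k] [CharZero L] (hF : Smooth F) (h : Cfg F x a b c) {f g : Ln F L}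
    (hf : Bas f (rs F x a b)) (hg : Bas g (rs F x a c)) {s : Fin 2 → L} (hs : s ≠ 0)
    (h0 : tc F x a b c s = 0) : ∃ t : Ln F L, cmb (rs F x a b) s ∈ t.W ∧
      ys F (rs F x a c) (cmb (rs F x a b) s) ∈ t.W ∧
      ys F (rs F x b c) (cmb (rs F x a b) s) ∈ t.W := by
  have h2 : (2 : L) ≠ 0 := two_ne_zero
  obtain ⟨hs0, hs1⟩ := tc_root h hs h0
  have hP : pg F x a b c s ≠ 0 := mul_ne_zero (mul_ne_zero (pow_ne_zero 2 (mul_ne_zero h2 h.ga))
    (mul_ne_zero h2 h.k1)) (mul_ne_zero hs0 hs1)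
  have hp : cmb (rs F x a b) s ∈ f.W := (mem_bas hf).2 ⟨s, rfl⟩
  have hr : ys F (rs F x a c) (cmb (rs F x a b) s) ∈ g.W := ys_mem hg _
  have hli : LinearIndependent L ![cmb (rs F x a b) s,
      ys F (rs F x a c) (cmb (rs F x a b) s)] := by
    rw [LinearIndependent.pair_iff]
    intro u v huv
    rw [ys_g h, cmb_rs (c := c), ← cm_smul, ← cm_smul, ← cm_add] at huv
    have h3 := cm_zero_iff h.li huv
    have e2 := congrFun h3 2
    have e3 := congrFun h3 3
    simp only [vf, vr, Pi.add_apply, Pi.smul_apply, smul_eq_mul, Matrix.cons_val, mul_zero,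
      add_zero, zero_add, Pi.zero_apply] at e2 e3
    constructor
    · rcases mul_eq_zero.1 e2 with h4 | h4
      · exact h4
      · exact absurd h4 (mul_ne_zero (mul_ne_zero h2 h.ga) hs1)
    · rcases mul_eq_zero.1 e3 with h4 | h4
      · exact h4
      · exact absurd h4 (mul_ne_zero (mul_ne_zero h2 h.be) hP)
  have hd := dd_f_g h s
  rw [h0, mul_zero] at hd
  obtain ⟨t, ht⟩ := exists_ln hF hli (f.tri_zero hF hp hp hp) (tri_ys _ _) hd
    (g.tri_zero hF hr hr hr)
  have hpt : cmb (rs F x a b) s ∈ t.W := by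
    rw [ht]
    exact Submodule.subset_span (by simp)
  have hrt : ys F (rs F x a c) (cmb (rs F x a b) s) ∈ t.W := by
    rw [ht]
    exact Submodule.subset_span (by simp)
  refine ⟨t, hpt, hrt, ?_⟩
  -- the point of `h`
  set C := tri F x a b
  set A := tri F x b c
  set p := vf C (tri F a a b) (tri F a b b) s with hp_def
  set r := vr (tri F x a c) (tri F a a c) (tri F a c c) (pg F x a b c s) (qg F x a b c s)
    with hr_def
  have hq := h_form A (tri F x a c) C (tri F a b c) (tri F a a b) (tri F a b b) (tri F a a c)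
    (tri F a c c) (tri F b b c) (tri F b c c) s _ _ rfl rfl
  have hq' : r 1 * ((2 * A) * p 0 + tri F b b c * p 2 + tri F b c c * p 3) -
      p 1 * ((2 * A) * r 0 + tri F b b c * r 2 + tri F b c c * r 3) = 0 := by
    rw [hp_def, hr_def]
    refine hq.trans ?_
    have : TT A (tri F x a c) C (tri F a b c) (tri F a a b) (tri F a b b) (tri F a a c)
      (tri F a c c) (tri F b b c) (tri F b c c) s = 0 := h0
    rw [this, mul_zero]
  have hqt : cm x a b c (r 1 • p - p 1 • r) ∈ t.W := by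
    rw [cm_sub, cm_smul, cm_smul, hp_def, hr_def, ← cmb_rs, ← ys_g h]
    exact t.W.sub_mem (t.W.smul_mem _ hpt) (t.W.smul_mem _ hrt)
  have hA : 2 * A ≠ 0 := mul_ne_zero h2 h.al
  have hqh : cm x a b c (r 1 • p - p 1 • r) = cmb (rs F x b c)
      ![(r 1 • p - p 1 • r) 2 / (2 * A), (r 1 • p - p 1 • r) 3 / (2 * A)] := by
    have e : (r 1 • p - p 1 • r) = ((r 1 • p - p 1 • r) 2 / (2 * A)) •
        vh A (tri F b b c) (tri F b c c) 0 +
        ((r 1 • p - p 1 • r) 3 / (2 * A)) • vh A (tri F b b c) (tri F b c c) 1 := by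
      funext i
      simp only [Pi.sub_apply, Pi.smul_apply, Pi.add_apply, smul_eq_mul]
      fin_cases i
      · simp only [vh, Fin.zero_eta, Matrix.cons_val_zero, Matrix.cons_val_one]
        have hA0 : A ≠ 0 := h.al
        field_simp
        linear_combination hq'
      · simp only [vh, Fin.mk_one, Matrix.cons_val_zero, Matrix.cons_val_one]
        ring
      · simp only [vh, Fin.reduceFinMk, Matrix.cons_val_zero, Matrix.cons_val_one,
          Matrix.cons_val]
        rw [div_mul_cancel₀ _ hA]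
        ring
      · simp only [vh, Fin.reduceFinMk, Matrix.cons_val_zero, Matrix.cons_val_one,
          Matrix.cons_val]
        rw [div_mul_cancel₀ _ hA]
        ring
    conv_lhs => rw [e]
    rw [cm_add, cm_smul, cm_smul]
    unfold cmb
    rw [rs_h (a := a), rs_h (a := a)]
    rfl
  obtain ⟨μ, hμ⟩ := exists_ys (F := F) (rs F x b c) (z := cmb (rs F x a b) s) ⟨_, hqh⟩
    (t.tri_zero hF hpt hpt hqt) (Or.inl (by
      rw [tri_h0 h]
      exact mul_ne_zero (mul_ne_zero (pow_ne_zero 2 (mul_ne_zero h2 h.ga))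
        (mul_ne_zero h2 h.k2)) (mul_ne_zero hs0 hs1)))
  have hμ0 : μ ≠ 0 := by
    rintro rfl
    rw [zero_smul] at hμ
    have h3 := congrFun (cm_zero_iff h.li hμ) 3
    have e1 : (r 1 • p - p 1 • r) 3 = -(2 * C * s 0 * (2 * tri F x a c * pg F x a b c s)) := by
      simp only [Pi.sub_apply, Pi.smul_apply, smul_eq_mul, hp_def, hr_def, vf, vr,
        Matrix.cons_val_one, Matrix.cons_val]
      ring
    rw [e1] at h3
    exact neg_ne_zero.2 (mul_ne_zero (mul_ne_zero (mul_ne_zero h2 h.ga) hs0)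
      (mul_ne_zero (mul_ne_zero h2 h.be) hP)) h3
  have : ys F (rs F x b c) (cmb (rs F x a b) s) = μ⁻¹ • cm x a b c (r 1 • p - p 1 • r) := by
    rw [hμ, smul_smul, inv_mul_cancel₀ hμ0, one_smul]
  rw [this]
  exact t.W.smul_mem _ hqt

end Pool.Agent.CUB.FLN
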