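import Pool.Agent.FLN.KeyD

/-!
# Three concurrent lines: the transversals with multiplicities
-/

set_option autoImplicit false

noncomputable section

namespace Pool.Agent.CUB.FLN

open Pool.Agent.ZCyc Pool.Agent.Dess Pool.Agent.GT
open Pool.Agent.VFP (Om tt)
open scoped Classical

variable {k : Type} [Field k] {F : MvPolynomial (Fin 6) k} {L : Type} [Field L] [Algebra k L]
  {x a b c : Fin 6 → L}

/-- the transversals of `rs x a b` and `rs x a c` -/
theorem isPhi_fg [CharZero L] (h : Cfg F x a b c) {l f g : Ln F L}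
    (hl : l.W = Submodule.span L {x, a}) (hf : Bas f (rs F x a b)) (hg : Bas g (rs F x a c))
    {e : L} (he : e ≠ 0) {ρ : Fin 3 → Fin 2 → L} (hρ : ∀ i, ρ i ≠ 0)
    (ht : ∀ s : Fin 2 → L, tc F x a b c s = e * ∏ i, (s 0 * ρ i 1 - s 1 * ρ i 0))
    {t : Fin 3 → Ln F L} (h1 : ∀ i, cmb (rs F x a b) (ρ i) ∈ (t i).W)
    (h2 : ∀ i, ys F (rs F x a c) (cmb (rs F x a b) (ρ i)) ∈ (t i).W) :
    IsPhi f g ![l, l, t 0, t 1, t 2] := by
  have h20 : (2 : L) ≠ 0 := two_ne_zero
  have hxl : x ∈ l.W := by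
    rw [hl]
    exact Submodule.subset_span (by simp)
  have hal : a ∈ l.W := by
    rw [hl]
    exact Submodule.subset_span (by simp)
  have hp : cmb (rs F x a b) ![1, 0] ∈ l.W := by
    have : cmb (rs F x a b) ![1, 0] = -(tri F a a b) • x + (2 * tri F x a b) • a := by
      simp [cmb, rs]
    rw [this]
    exact l.W.add_mem (l.W.smul_mem _ hxl) (l.W.smul_mem _ hal)
  have hr : ys F (rs F x a c) (cmb (rs F x a b) ![1, 0]) ∈ l.W := by
    have e1 : ys F (rs F x a c) (cmb (rs F x a b) ![1, 0]) =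
        -(qg F x a b c ![1, 0]) • (-(tri F a a c) • x + (2 * tri F x a c) • a) := by
      unfold ys
      rw [tri_g0 h, tri_g1 h]
      have : pg F x a b c ![1, 0] = 0 := by
        unfold pg
        simp
      rw [this, zero_smul, zero_sub, ← neg_smul]
      rfl
    rw [e1]
    exact l.W.smul_mem _ (l.W.add_mem (l.W.smul_mem _ hxl) (l.W.smul_mem _ hal))
  have h10 : (![1, 0] : Fin 2 → L) ≠ 0 := by
    intro h0
    have := congrFun h0 0
    simp at this
  refine ⟨rs F x a b, rs F x a c, -(2 * tri F x a c) ^ 2 * (2 * tri F x a b) ^ 3 *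
    (2 * (tri F x a c * tri F a a b - tri F x a b * tri F a a c)) * e,
    ![![1, 0], ![1, 0], ρ 0, ρ 1, ρ 2], hf, hg, ?_, ?_, ?_, ?_⟩
  · exact mul_ne_zero (mul_ne_zero (mul_ne_zero (neg_ne_zero.2 (pow_ne_zero 2
      (mul_ne_zero h20 h.be))) (pow_ne_zero 3 (mul_ne_zero h20 h.ga)))
      (mul_ne_zero h20 h.k1)) he
  · intro i
    fin_cases i
    · exact h10
    · exact h10
    · exact hρ 0
    · exact hρ 1
    · exact hρ 2
  · intro s
    rw [dd_f_g h, ht, Fin.prod_univ_three, Fin.prod_univ_five]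
    simp only [Matrix.cons_val_zero, Matrix.cons_val_one, Matrix.cons_val]
    ring
  · intro i
    fin_cases i
    · exact ⟨hp, hr⟩
    · exact ⟨hp, hr⟩
    · exact ⟨h1 0, h2 0⟩
    · exact ⟨h1 1, h2 1⟩
    · exact ⟨h1 2, h2 2⟩

theorem tc_swap (s : Fin 2 → L) : tc F x b a c s = tc F x a b c ![s 1, s 0] := by
  unfold tc TT
  rw [tri_swap23 F x b a, tri_swap23 F b b a, tri_swap12 F b a b, tri_swap12 F b a a,
    tri_swap23 F a b a, tri_swap12 F b a c]
  simp only [Matrix.cons_val_zero, Matrix.cons_val_one]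
  ring

theorem cmb_swap (s : Fin 2 → L) : cmb (rs F x b a) s = cmb (rs F x a b) ![s 1, s 0] := by
  unfold cmb
  have e0 : rs F x b a 0 = rs F x a b 1 := rs_swap x a b 0
  have e1 : rs F x b a 1 = rs F x a b 0 := rs_swap x a b 1
  rw [e0, e1]
  simp only [Matrix.cons_val_zero, Matrix.cons_val_one]
  exact add_comm _ _

/-- the transversals of the three residual lines -/
theorem exists_isPhi [CharZero k] [CharZero L] [IsAlgClosed L] (hF : Smooth F)
    (h : Cfg F x a b c) {l l' f g h' : Ln F L} (hl : l.W = Submodule.span L {x, a})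
    (hl' : l'.W = Submodule.span L {x, b}) (hf : Bas f (rs F x a b)) (hg : Bas g (rs F x a c))
    (hh : Bas h' (rs F x b c)) : ∃ t : Fin 3 → Ln F L, IsPhi f g ![l, l, t 0, t 1, t 2] ∧
      IsPhi f h' ![l', l', t 0, t 1, t 2] := by
  obtain ⟨e, r, he, hr⟩ := tc_fac h
  have hs : ∀ i, (![r i, 1] : Fin 2 → L) ≠ 0 := by
    intro i h0
    have := congrFun h0 1
    simp at this
  have hs' : ∀ i, (![1, r i] : Fin 2 → L) ≠ 0 := by
    intro i h0
    have := congrFun h0 0
    simp at this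
  have h0 : ∀ i, tc F x a b c ![r i, 1] = 0 := by
    intro i
    rw [hr]
    refine mul_eq_zero.2 (Or.inr (Finset.prod_eq_zero (Finset.mem_univ i) ?_))
    simp
  choose t h1 h2 h3 using fun i => exists_tr3 hF h hf hg (hs i) (h0 i)
  refine ⟨t, isPhi_fg h hl hf hg he hs (fun s => ?_) h1 h2, ?_⟩
  · rw [hr]
    congr 1
    refine Finset.prod_congr rfl fun i _ => ?_
    simp
  · refine isPhi_fg (e := -e) h.swap hl' hf.swap hh (neg_ne_zero.2 he) hs' (fun s => ?_)
      (fun i => ?_) (fun i => ?_)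
    · rw [tc_swap, hr, Fin.prod_univ_three, Fin.prod_univ_three]
      simp only [Matrix.cons_val_zero, Matrix.cons_val_one]
      ring
    · rw [cmb_swap]
      exact h1 i
    · rw [cmb_swap]
      exact h3 i

end Pool.Agent.CUB.FLN
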