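import Pool.Agent.FLN.Phi

/-!
# The product of the cycles of transversals over `Om k` (package PhCyc)

PROOF of `exists_ph_cyc`. `m j` from `exists_phi` for `x j`, `η j` (over `Om k`),
`Z = ext fun j => ∑ i, single ((pe hF (Om k)).symm (m j i)) 1`; `lim_ext` and `ph_lim`.
PROOF of `val_map`. Take a basis `a`, `b` of `x` with independent values `a'`, `b'` at `v`
(`exists_adapted`); `σ ∘ a`, `σ ∘ b` are in `x'`, have the values `a'`, `b'` at `V` (as `V` is
above `v`,
see `isVal_map` in `GT/Val.lean`), and they span `x'`; `y.W` is spanned by `a'`, `b'`; `val_span`.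
-/

set_option autoImplicit false

noncomputable section

namespace Pool.Agent.CUB.FLN

open Pool.Agent.ZCyc Pool.Agent.Dess Pool.Agent.GT
open Pool.Agent.VFP (Om tt)
open scoped Classical

variable {k : Type} [Field k] [IsAlgClosed k] [CharZero k] {F : MvPolynomial (Fin 6) k}

/-- a cycle over `Om k` whose limits are the products of the classes of transversals -/
theorem exists_ph_cyc (hF : Smooth F) {n : ℕ} (x η : Fin n → Ln F (Om k))
    (h : ∀ j, Vg (x j) (η j)) : ∃ Z : (Fin n → Pt (PX F) (Om k)) →₀ ℚ,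
      ∀ (V : Place k (Om k)) (x' y' : Fin n → Ln F k), (∀ j, IsVal V (x j) (x' j)) →
        (∀ j, IsVal V (η j) (y' j)) → (∀ j, Vg (x' j) (y' j)) →
          lim (hom_PX hF) V Z = Ext (hom_PX hF) n fun j => ph hF (x' j) (y' j) := by
  choose m hm using fun j => exists_phi hF (h j)
  refine ⟨Pool.Agent.GT.ext fun j => ∑ i, Finsupp.single ((pe hF (Om k)).symm (m j i)) 1,
    fun V x' y' hx hy hg => ?_⟩
  rw [lim_ext]
  congr 1
  funext j
  exact ph_lim hF (hx j) (hy j) (hg j) (hm j)

omit [IsAlgClosed k] [CharZero k] in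
private theorem PhCyc_li {K K' : Type} [Field K] [Field K'] (σ : K →+* K') {a b : Fin 6 → K}
    (h : LinearIndependent K ![a, b]) :
    LinearIndependent K' ![fun i => σ (a i), fun i => σ (b i)] := by
  obtain ⟨i, j, hij⟩ : ∃ i j, a i * b j - a j * b i ≠ 0 := by
    rw [LinearIndependent.pair_iff] at h
    by_contra hcon
    push Not at hcon
    have ha : a ≠ 0 := by
      rintro rfl
      have h1 := h 1 0 (by rw [smul_zero, zero_smul, add_zero])
      exact one_ne_zero h1.1
    obtain ⟨i, hi⟩ : ∃ i, a i ≠ 0 := by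
      by_contra h2
      push Not at h2
      exact ha (funext h2)
    have h1 := h (b i) (-(a i)) (by
      funext j
      have h2 := hcon i j
      simp only [Pi.add_apply, Pi.smul_apply, smul_eq_mul, Pi.zero_apply]
      linear_combination -h2)
    exact hi (neg_eq_zero.1 h1.2)
  have hij' : σ (a i) * σ (b j) - σ (a j) * σ (b i) ≠ 0 := by
    rw [← map_mul, ← map_mul, ← map_sub]
    exact (map_ne_zero_iff _ σ.injective).2 hij
  rw [LinearIndependent.pair_iff]
  intro s t hst
  have hi := congrFun hst i
  have hj := congrFun hst j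
  simp only [Pi.add_apply, Pi.smul_apply, smul_eq_mul, Pi.zero_apply] at hi hj
  have h1 : s * (σ (a i) * σ (b j) - σ (a j) * σ (b i)) = 0 := by
    linear_combination σ (b j) * hi - σ (b i) * hj
  have h2 : t * (σ (a i) * σ (b j) - σ (a j) * σ (b i)) = 0 := by
    linear_combination σ (a i) * hj - σ (a j) * hi
  exact ⟨(mul_eq_zero.1 h1).resolve_right hij', (mul_eq_zero.1 h2).resolve_right hij'⟩

omit [IsAlgClosed k] [CharZero k] in
private theorem PhCyc_span {K : Type} [Field K] [Algebra k K] {x : Ln F K} {a b : Fin 6 → K}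
    (h : LinearIndependent K ![a, b]) (ha : a ∈ x.W) (hb : b ∈ x.W) :
    x.W = Submodule.span K {a, b} := by
  refine (Submodule.eq_of_le_of_finrank_eq ?_ ?_).symm
  · rw [Submodule.span_le]
    rintro z (rfl | rfl)
    · exact ha
    · exact hb
  · have h1 := finrank_span_eq_card h
    rw [Matrix.range_cons, Matrix.range_cons, Matrix.range_empty, Set.union_empty,
      Set.singleton_union] at h1
    rw [h1, Fintype.card_fin, x.two]

/-- values of a line over an extension -/
theorem val_map (hF : Smooth F) {K : Type} [Field K] [Algebra k K] [HasRes k K]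
    {K' : Type} [Field K'] [Algebra k K'] {σ : K →ₐ[k] K'} {V : Place k K'} {v : Place k K}
    (hV : V.ring.comap (σ : K →+* K') = v.ring) {x : Ln F K} {x' : Ln F K'} {y : Ln F k}
    (hx : ∀ a : Fin 6 → K, a ∈ x.W → (fun i => σ (a i)) ∈ x'.W) (h : IsVal v x y) :
    IsVal V x' y := by
  have hmem : ∀ f : K, σ f ∈ V.ring ↔ f ∈ v.ring := by
    intro f
    rw [← hV, ValuationSubring.mem_comap]
    rfl
  have hAt : ∀ {f : K} {c : k}, v.At f c → V.At (σ f) c := by
    intro f c hf
    unfold Place.At at hf ⊢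
    rw [Place.vanishes_iff_or] at hf ⊢
    rw [← σ.commutes c, ← map_sub, ← map_inv₀, hmem, map_eq_zero]
    exact hf
  obtain ⟨a, b, a', b', hi, hW, ha, hb, hi'⟩ := exists_adapted v x
  have haW : a ∈ x.W := by
    rw [hW]
    exact Submodule.subset_span (by simp)
  have hbW : b ∈ x.W := by
    rw [hW]
    exact Submodule.subset_span (by simp)
  have h1 := PhCyc_span hi' (h a haW a' ha) (h b hbW b' hb)
  have h2 := PhCyc_span (PhCyc_li (σ : K →+* K') hi) (hx a haW) (hx b hbW)
  exact val_span h2 h1 (fun i => hAt (ha i)) (fun i => hAt (hb i)) hi'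

end Pool.Agent.CUB.FLN
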