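import Pool.Agent.FLN.Psi
import Pool.Agent.FLN.PhCyc

/-!
# Moving one of the lines `Y j` (package MLMv)

PROOF. For every `x ∈ r.support` let `x' i` be the constant line `x i` over `Om k` (`exists_base`),
`η' i` the constant line `Y i` for `i ≠ j` and `η' j = η`. At `V₀` these lines have the values `x i`
and `Y i`, so `Vg (x' i) (η' i)` by `vg_at`. `exists_ph_cyc` gives a cycle `Z x`; put
`Z = ∑ x ∈ r.support, r x • Z x`. At every place `V` at which the value `y'` of `η` (`exists_val`)
satisfies `Vg (x j) y'` for all `x ∈ r.support` we have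
`lim V Z = psi hF (Function.update Y j y') r` (`psi_apply`). Now `GT.moving`: `lim V Z = 0` at the
places where the elements of `Γ` are units, so `lim V₀ Z = 0`, and this is `psi hF Y r`
(`Function.update_eq_self`).
-/

set_option autoImplicit false

noncomputable section

namespace Pool.Agent.CUB.FLN

open Pool.Agent.ZCyc Pool.Agent.Dess Pool.Agent.GT
open Pool.Agent.VFP (Om tt)
open scoped Classical

variable {k : Type} [Field k] [IsAlgClosed k] [CharZero k] {F : MvPolynomial (Fin 6) k}

theorem psi_move (hF : Smooth F) {n : ℕ} {r : (Fin n → Ln F k) →₀ ℚ} {Y : Fin n → Ln F k}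
    (j : Fin n) (h : ∀ x ∈ r.support, ∀ i, Vg (x i) (Y i)) {η : Ln F (Om k)}
    {V₀ : Place k (Om k)} (hV : IsVal V₀ η (Y j)) {Γ : Finset (Om k)} (h0 : (0 : Om k) ∉ Γ)
    (hΓ : ∀ V : Place k (Om k), (∀ g ∈ Γ, g ∈ V.ring ∧ g⁻¹ ∈ V.ring) → ∀ y' : Ln F k,
      IsVal V η y' → (∀ x ∈ r.support, Vg (x j) y') ∧
        psi hF (Function.update Y j y') r = 0) : psi hF Y r = 0 := by
  choose c _ hc using fun l : Ln F k => exists_base hF (Om k) l
  set η' : Fin n → Ln F (Om k) := Function.update (fun i => c (Y i)) j η with hη'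
  have hηV : ∀ (V : Place k (Om k)) (y' : Ln F k), IsVal V η y' →
      ∀ i, IsVal V (η' i) (Function.update Y j y' i) := by
    intro V y' hy' i
    by_cases hij : i = j
    · subst hij
      simpa [hη'] using hy'
    · simpa [hη', Function.update_of_ne hij] using hc (Y i) V
  have hgood : ∀ x ∈ r.support, ∀ i, Vg (c (x i)) (η' i) := by
    intro x hx i
    have h1 : IsVal V₀ (η' i) (Y i) := by
      have h2 := hηV V₀ (Y j) hV i
      rwa [Function.update_eq_self] at h2
    exact vg_at hF (hc (x i) V₀) h1 (h x hx i)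
  have hZ : ∀ x : Fin n → Ln F k, ∃ Z : (Fin n → Pt (PX F) (Om k)) →₀ ℚ, x ∈ r.support →
      ∀ (V : Place k (Om k)) (x' y' : Fin n → Ln F k), (∀ j, IsVal V (c (x j)) (x' j)) →
        (∀ j, IsVal V (η' j) (y' j)) → (∀ j, Vg (x' j) (y' j)) →
          lim (hom_PX hF) V Z = Ext (hom_PX hF) n fun j => ph hF (x' j) (y' j) := by
    intro x
    by_cases hx : x ∈ r.support
    · obtain ⟨Z, hZ⟩ := exists_ph_cyc hF (fun i => c (x i)) η' (hgood x hx)
      exact ⟨Z, fun _ => hZ⟩
    · exact ⟨0, fun h => absurd h hx⟩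
  choose Z hZ using hZ
  set W := ∑ x ∈ r.support, r x • Z x with hW
  have hlim : ∀ (V : Place k (Om k)) (y' : Ln F k), IsVal V η y' →
      (∀ x ∈ r.support, Vg (x j) y') →
        lim (hom_PX hF) V W = psi hF (Function.update Y j y') r := by
    intro V y' hy' hg
    rw [hW, map_sum, psi_apply, Finsupp.sum]
    refine Finset.sum_congr rfl fun x hx => ?_
    rw [map_smul, hZ x hx V x (Function.update Y j y') (fun i => hc (x i) V) (hηV V y' hy') ?_]
    intro i
    by_cases hij : i = j
    · subst hij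
      simpa using hg x hx
    · simpa [Function.update_of_ne hij] using h x hx i
  have h1 := hlim V₀ (Y j) hV fun x hx => h x hx j
  rw [Function.update_eq_self] at h1
  rw [← h1]
  refine moving (hom_PX hF) W Γ h0 (fun V hVΓ => ?_) V₀
  obtain ⟨y', hy'⟩ := exists_val hF V η
  obtain ⟨h2, h3⟩ := hΓ V hVΓ y' hy'
  rw [hlim V y' hy' h2, h3]

end Pool.Agent.CUB.FLN
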