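import Pool.Agent.ZCyc.Basic

/-!
# Minors, values of polynomials

`li_minor`: the rank of the matrix with the rows `v i` is `r` iff some minor is not zero. If the
rows are independent, the columns span `M ^ r`: choose `r` columns which are a basis of `M ^ r`
(from a spanning family, `exists_linearIndependent`), the matrix of these columns is invertible.
Conversely a linear relation of the `v i` is a linear relation of their restrictions to the
columns `τ j` (`Matrix.linearIndependent_rows_of_det_ne_zero`).

`at_pol`: a polynomial is a sum of products (`MvPolynomial.induction_on`, `Place.At.add`,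
`Place.At.mul`, `Place.at_const`).
-/

set_option autoImplicit false

noncomputable section

namespace Pool.Agent.CUB.FLN

open Pool.Agent.ZCyc
open scoped Classical

variable {k : Type} [Field k] {ι : Type}

private theorem polm_span {M : Type} [Field M] {r : ℕ} (v : Fin r → Fin 6 → M)
    (h : LinearIndependent M v) :
    Submodule.span M (Set.range fun (j : Fin 6) (i : Fin r) => v i j) = ⊤ := by
  by_contra hne
  obtain ⟨f, hf, hle⟩ := Submodule.exists_le_ker_of_lt_top _ (lt_top_iff_ne_top.2 hne)
  apply hf
  have hfx : ∀ x : Fin r → M, f x = ∑ i, x i * f (Pi.single i 1) := by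
    intro x
    conv_lhs => rw [← Finset.univ_sum_single x]
    rw [map_sum]
    refine Finset.sum_congr rfl fun i _ => ?_
    have h1 : (Pi.single i (x i) : Fin r → M) = x i • Pi.single i 1 := by
      rw [← Pi.single_smul, smul_eq_mul, mul_one]
    rw [h1, map_smul, smul_eq_mul]
  have h0 : ∀ i, f (Pi.single i 1) = 0 := by
    refine Fintype.linearIndependent_iff.1 h (fun i => f (Pi.single i 1)) ?_
    funext j
    have h1 : f (fun i => v i j) = 0 :=
      LinearMap.mem_ker.1 (hle (Submodule.subset_span ⟨j, rfl⟩))
    rw [hfx] at h1
    rw [Finset.sum_apply, Pi.zero_apply, ← h1]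
    refine Finset.sum_congr rfl fun i _ => ?_
    rw [Pi.smul_apply, smul_eq_mul, mul_comm]
  apply LinearMap.ext
  intro x
  rw [hfx, LinearMap.zero_apply]
  refine Finset.sum_eq_zero fun i _ => ?_
  rw [h0, mul_zero]

/-- linear independence and minors -/
theorem li_minor {M : Type} [Field M] {r : ℕ} (v : Fin r → Fin 6 → M) :
    LinearIndependent M v ↔ ∃ τ : Fin r → Fin 6, (Matrix.of fun i j => v i (τ j)).det ≠ 0 := by
  constructor
  · intro h
    have hspan := polm_span v h
    obtain ⟨κ, a, ha, hsp, hli⟩ :=
      exists_linearIndependent' M (fun (j : Fin 6) (i : Fin r) => v i j)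
    rw [hspan] at hsp
    have : Finite κ := Finite.of_injective a ha
    have : Fintype κ := Fintype.ofFinite κ
    let b := Module.Basis.mk hli (by rw [hsp])
    have hcard : Fintype.card κ = r := by
      have h1 := Module.finrank_eq_card_basis b
      rw [Module.finrank_fin_fun] at h1
      exact h1.symm
    let e : Fin r ≃ κ := (Fintype.equivFinOfCardEq hcard).symm
    refine ⟨fun j => a (e j), ?_⟩
    have hcol : LinearIndependent M
        (Matrix.of fun (i j : Fin r) => v i (a (e j))).col := hli.comp e e.injective
    exact ((Matrix.isUnit_iff_isUnit_det _).1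
      (Matrix.linearIndependent_cols_iff_isUnit.1 hcol)).ne_zero
  · rintro ⟨τ, hτ⟩
    have h1 := Matrix.linearIndependent_rows_of_det_ne_zero hτ
    exact LinearIndependent.of_comp (LinearMap.funLeft M M τ) h1

/-- values at places -/
theorem at_pol {K : Type} [Field K] [Algebra k K] {V : Place k K} {a : ι → K} {a' : ι → k}
    (h : ∀ i, V.At (a i) (a' i)) (P : MvPolynomial ι k) :
    V.At (MvPolynomial.aeval a P) (MvPolynomial.eval a' P) := by
  induction P using MvPolynomial.induction_on with
  | C c =>
    rw [MvPolynomial.aeval_C, MvPolynomial.eval_C]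
    exact Place.at_const c
  | add p q hp hq =>
    rw [map_add, map_add]
    exact hp.add hq
  | mul_X p i hp =>
    rw [map_mul, map_mul, MvPolynomial.aeval_X, MvPolynomial.eval_X]
    exact hp.mul (h i)

end Pool.Agent.CUB.FLN
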