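import Pool.Agent.FLN.Cert
import Pool.Agent.FLN.Key
import Pool.Agent.FLN.PolM

/-!
# Polynomial functions

`Pf f`: the function `f` of the coordinates `a i`, defined over all extensions `M` of `k`, is
given by a polynomial with coefficients in `k`. `Pv v`: the coordinates of the vector valued
function `v` are polynomial functions.

Proofs: take sums, products of the polynomials; `Pf.tri` by the definition of `tri` (a sum over
three indices of products with coefficients in `k`), `Pf.vc` by `vc_pol` and substitution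
(`MvPolynomial.bind₁`, `MvPolynomial.aeval_bind₁`), `Pf.det` by `Matrix.det_apply`; `Pv.rs` from
`Pf.tri`, `Pv.add`, `Pv.smul`. An auxiliary lemma for finite sums is useful.
-/

set_option autoImplicit false

noncomputable section

namespace Pool.Agent.CUB.FLN

open Pool.Agent.ZCyc Pool.Agent.Dess Pool.Agent.GT
open Pool.Agent.VFP (Om tt)
open scoped Classical

variable {k : Type} [Field k] {ι : Type}

/-- polynomial functions -/
def Pf (f : ∀ (M : Type) [Field M] [Algebra k M], (ι → M) → M) : Prop :=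
  ∃ P : MvPolynomial ι k, ∀ (M : Type) [Field M] [Algebra k M] (a : ι → M),
    MvPolynomial.aeval a P = f M a

/-- vectors whose coordinates are polynomial functions -/
def Pv (v : ∀ (M : Type) [Field M] [Algebra k M], (ι → M) → Fin 6 → M) : Prop :=
  ∀ i, Pf fun (M : Type) [Field M] [Algebra k M] (a : ι → M) => v M a i

variable {f g : ∀ (M : Type) [Field M] [Algebra k M], (ι → M) → M}
  {u v w : ∀ (M : Type) [Field M] [Algebra k M], (ι → M) → Fin 6 → M}

theorem Pf.const (c : k) : Pf (ι := ι) fun (M : Type) [Field M] [Algebra k M] (_ : ι → M) =>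
    algebraMap k M c :=
  ⟨MvPolynomial.C c, fun _ _ _ a => MvPolynomial.aeval_C a c⟩

theorem Pf.coord (i : ι) : Pf (k := k) fun (M : Type) [Field M] [Algebra k M] (a : ι → M) =>
    a i :=
  ⟨MvPolynomial.X i, fun _ _ _ a => MvPolynomial.aeval_X a i⟩

theorem Pf.add (hf : Pf f) (hg : Pf g) :
    Pf fun (M : Type) [Field M] [Algebra k M] (a : ι → M) => f M a + g M a := by
  obtain ⟨P, hP⟩ := hf
  obtain ⟨Q, hQ⟩ := hg
  exact ⟨P + Q, fun M _ _ a => by rw [map_add, hP, hQ]⟩

theorem Pf.sub (hf : Pf f) (hg : Pf g) :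
    Pf fun (M : Type) [Field M] [Algebra k M] (a : ι → M) => f M a - g M a := by
  obtain ⟨P, hP⟩ := hf
  obtain ⟨Q, hQ⟩ := hg
  exact ⟨P - Q, fun M _ _ a => by rw [map_sub, hP, hQ]⟩

theorem Pf.neg (hf : Pf f) :
    Pf fun (M : Type) [Field M] [Algebra k M] (a : ι → M) => -f M a := by
  obtain ⟨P, hP⟩ := hf
  exact ⟨-P, fun M _ _ a => by rw [map_neg, hP]⟩

theorem Pf.mul (hf : Pf f) (hg : Pf g) :
    Pf fun (M : Type) [Field M] [Algebra k M] (a : ι → M) => f M a * g M a := by
  obtain ⟨P, hP⟩ := hf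
  obtain ⟨Q, hQ⟩ := hg
  exact ⟨P * Q, fun M _ _ a => by rw [map_mul, hP, hQ]⟩

theorem Pf.two_mul (hf : Pf f) :
    Pf fun (M : Type) [Field M] [Algebra k M] (a : ι → M) => 2 * f M a := by
  obtain ⟨P, hP⟩ := hf
  exact ⟨2 * P, fun M _ _ a => by rw [map_mul, hP, map_ofNat]⟩

private theorem polF_sq (hf : Pf f) :
    Pf fun (M : Type) [Field M] [Algebra k M] (a : ι → M) => f M a ^ 2 := by
  obtain ⟨P, hP⟩ := hf
  exact ⟨P ^ 2, fun M _ _ a => by rw [map_pow, hP]⟩

private theorem polF_sum {α : Type} [Fintype α]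
    {f : α → ∀ (M : Type) [Field M] [Algebra k M], (ι → M) → M} (h : ∀ x, Pf (f x)) :
    Pf fun (M : Type) [Field M] [Algebra k M] (a : ι → M) => ∑ x, f x M a := by
  choose P hP using h
  refine ⟨∑ x, P x, fun M _ _ a => ?_⟩
  rw [map_sum]
  exact Finset.sum_congr rfl fun x _ => hP x M a

/-- constant vectors -/
theorem Pv.const (x : Fin 6 → k) :
    Pv (ι := ι) fun (M : Type) [Field M] [Algebra k M] (_ : ι → M) => em M x :=
  fun i => Pf.const (x i)

theorem Pv.add (hu : Pv u) (hv : Pv v) :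
    Pv fun (M : Type) [Field M] [Algebra k M] (a : ι → M) => u M a + v M a :=
  fun i => (hu i).add (hv i)

theorem Pv.smul (hf : Pf f) (hv : Pv v) :
    Pv fun (M : Type) [Field M] [Algebra k M] (a : ι → M) => f M a • v M a :=
  fun i => hf.mul (hv i)

theorem Pf.tri (F : MvPolynomial (Fin 6) k) (hu : Pv u) (hv : Pv v) (hw : Pv w) :
    Pf fun (M : Type) [Field M] [Algebra k M] (a : ι → M) =>
      CUB.tri F (u M a) (v M a) (w M a) := by
  unfold CUB.tri
  exact polF_sum fun i => polF_sum fun j => polF_sum fun l =>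
    (((Pf.const (cf F i j l)).mul (hu i)).mul (hv j)).mul (hw l)

theorem Pf.vc (F : MvPolynomial (Fin 6) k)
    {x y : Fin 2 → ∀ (M : Type) [Field M] [Algebra k M], (ι → M) → Fin 6 → M}
    (hx : ∀ j, Pv (x j)) (hy : ∀ j, Pv (y j)) (s : Fin 2 → k) :
    Pf fun (M : Type) [Field M] [Algebra k M] (a : ι → M) =>
      FLN.vc F (fun j => x j M a) (fun j => y j M a) s := by
  have hq : ∀ j i, Pf fun (M : Type) [Field M] [Algebra k M] (a : ι → M) =>
      qv F (fun j => x j M a) (y j M a) i := by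
    intro j i
    fin_cases i
    · exact Pf.tri F (hx 0) (hx 0) (hy j)
    · exact (Pf.tri F (hx 0) (hx 1) (hy j)).two_mul
    · exact Pf.tri F (hx 1) (hx 1) (hy j)
  have hz : Pv fun (M : Type) [Field M] [Algebra k M] (a : ι → M) =>
      cmb (fun j => x j M a) (em M s) :=
    (Pv.smul (Pf.const (s 0)) (hx 0)).add (Pv.smul (Pf.const (s 1)) (hx 1))
  have hys : Pv fun (M : Type) [Field M] [Algebra k M] (a : ι → M) =>
      ys F (fun j => y j M a) (cmb (fun j => x j M a) (em M s)) := fun i =>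
    ((Pf.tri F hz hz (hy 0)).mul (hy 1 i)).sub ((Pf.tri F hz hz (hy 1)).mul (hy 0 i))
  have hdd := Pf.tri F hz hys hys
  have hA := ((hq 0 0).mul (hq 1 2)).sub ((hq 1 0).mul (hq 0 2))
  have hB := ((hq 0 0).mul (hq 1 1)).sub ((hq 1 0).mul (hq 0 1))
  have hC := ((hq 0 1).mul (hq 1 2)).sub ((hq 1 1).mul (hq 0 2))
  exact ((polF_sq hA).sub (hB.mul hC)).mul hdd

theorem Pv.rs (F : MvPolynomial (Fin 6) k) (hu : Pv u) (hv : Pv v) (hw : Pv w) (j : Fin 2) :
    Pv fun (M : Type) [Field M] [Algebra k M] (a : ι → M) =>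
      FLN.rs F (u M a) (v M a) (w M a) j := by
  fin_cases j
  · exact (Pv.smul (Pf.tri F hv hv hw).neg hu).add (Pv.smul (Pf.tri F hu hv hw).two_mul hv)
  · exact (Pv.smul (Pf.tri F hv hw hw).neg hu).add (Pv.smul (Pf.tri F hu hv hw).two_mul hw)

theorem Pf.det {r : ℕ} {x : Fin r → ∀ (M : Type) [Field M] [Algebra k M], (ι → M) → Fin 6 → M}
    (hx : ∀ j, Pv (x j)) (τ : Fin r → Fin 6) :
    Pf fun (M : Type) [Field M] [Algebra k M] (a : ι → M) =>
      (Matrix.of fun i j => x i M a (τ j)).det := by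
  choose A hA using hx
  refine ⟨(Matrix.of fun i j => A i (τ j)).det, fun M _ _ a => ?_⟩
  rw [AlgHom.map_det]
  congr 1
  ext i j
  exact hA i (τ j) M a

end Pool.Agent.CUB.FLN
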