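import Pool.Agent.FLN.Cert
import Pool.Agent.FLN.PolF

/-!
# Values of a line which is good with respect to constant lines

Choose a basis `u` of `η` (`exists_bas`) and a basis `b s` of every `s ∈ S`; the line `s'` over
`Om k` (`exists_base`) has the basis `em (b s j)` (`li` over the larger field: `LinearIndependent`
of two vectors of `k ^ 6` is preserved, e.g. by `li_minor`). By `exists_vc` there are constant
vectors `σ s`, `σ' s` such that `vc F (em ∘ b s) u (σ s) ≠ 0`, `vc F u (em ∘ b s) (σ' s) ≠ 0`; by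
`li_minor` a minor of `u` is not zero. `Γ` = the set of all these elements and of all coordinates
`u j i` which are not zero. Let the elements of `Γ` be units at `V`. All `u j i` are in `V.ring`,
let `u' j i` be the values (`HasRes.res`). The vectors `u' j` are in `y.W` (`IsVal`), the minor of
`u'` is the value of a unit, so it is not zero, `u'` is independent, so it is a basis of `y`
(dimension two). The values of the certificates (`vc_at`, `Place.at_const` for the constant
vectors) are not zero, and `vg_of_vc` gives `Vg s y` and `Vg y s`.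
-/

set_option autoImplicit false

noncomputable section

namespace Pool.Agent.CUB.FLN

open Pool.Agent.ZCyc Pool.Agent.Dess Pool.Agent.GT Module
open Pool.Agent.VFP (Om tt)
open scoped Classical

variable {k : Type} [Field k] [IsAlgClosed k] [CharZero k] {F : MvPolynomial (Fin 6) k}

private theorem mvb_li {L : Type} [Field L] {ι : Type} {a b : ι → L} :
    LinearIndependent L ![a, b] ↔ ∃ i j, a i * b j - a j * b i ≠ 0 := by
  rw [LinearIndependent.pair_iff]
  constructor
  · intro h
    by_contra hcon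
    push Not at hcon
    have ha : a ≠ 0 := by
      rintro rfl
      have h1 := h 1 0 (by rw [smul_zero, zero_smul, add_zero])
      exact one_ne_zero h1.1
    obtain ⟨i, hi⟩ : ∃ i, a i ≠ 0 := by
      by_contra h2
      push Not at h2
      exact ha (funext h2)
    have h1 := h (b i) (-(a i)) (by
      funext j
      have h2 := hcon i j
      simp only [Pi.add_apply, Pi.smul_apply, smul_eq_mul, Pi.zero_apply]
      linear_combination -h2)
    exact hi (neg_eq_zero.1 h1.2)
  · rintro ⟨i, j, hij⟩ s t hst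
    have hi := congrFun hst i
    have hj := congrFun hst j
    simp only [Pi.add_apply, Pi.smul_apply, smul_eq_mul, Pi.zero_apply] at hi hj
    have h1 : s * (a i * b j - a j * b i) = 0 := by linear_combination b j * hi - b i * hj
    have h2 : t * (a i * b j - a j * b i) = 0 := by linear_combination a i * hj - a j * hi
    exact ⟨(mul_eq_zero.1 h1).resolve_right hij, (mul_eq_zero.1 h2).resolve_right hij⟩

omit [IsAlgClosed k] [CharZero k] in
/-- two independent vectors of a line are a basis -/
private theorem mvb_bas {L : Type} [Field L] [Algebra k L] {x : Ln F L} {u : Fin 2 → Fin 6 → L}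
    (h : LinearIndependent L ![u 0, u 1]) (hu : ∀ j, u j ∈ x.W) : Bas x u := by
  refine ⟨h, (Submodule.eq_of_le_of_finrank_eq ?_ ?_).symm⟩
  · rw [Submodule.span_le]
    rintro z (rfl | rfl)
    · exact hu 0
    · exact hu 1
  · rw [x.two]
    have h1 := finrank_span_eq_card h
    rwa [Matrix.range_cons, Matrix.range_cons, Matrix.range_empty, Set.union_empty,
      Set.singleton_union, Fintype.card_fin] at h1

omit [IsAlgClosed k] [CharZero k] in
private theorem mvb_mem {L : Type} [Field L] [Algebra k L] {x : Ln F L} {u : Fin 2 → Fin 6 → L}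
    (h : Bas x u) (j : Fin 2) : u j ∈ x.W := by
  rw [h.2]
  fin_cases j
  · exact Submodule.subset_span (by simp)
  · exact Submodule.subset_span (by simp)

omit [IsAlgClosed k] [CharZero k] in
/-- the value of a unit is not zero -/
private theorem mvb_unit {K : Type} [Field K] [Algebra k K] {V : Place k K} {f : K} {c : k}
    (h : V.At f c) (hf : f ≠ 0) (hf' : f⁻¹ ∈ V.ring) : c ≠ 0 := by
  rintro rfl
  have h1 := Place.Vanishes.mul V (Place.at_zero_iff.1 h) hf'
  rw [mul_inv_cancel₀ hf, ← map_one (algebraMap k K)] at h1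
  exact V.const_unit one_ne_zero h1

/-- the basis of a constant line over a larger field -/
theorem bas_em (hF : Smooth F) {K : Type} [Field K] [Algebra k K] {s : Ln F k}
    {b : Fin 2 → Fin 6 → k} (hb : Bas s b) {s' : Ln F K} (h : ∀ a ∈ s.W, em K a ∈ s'.W) :
    Bas s' fun j => em K (b j) := by
  refine mvb_bas ?_ fun j => h _ (mvb_mem hb j)
  obtain ⟨i, j, hij⟩ := mvb_li.1 hb.1
  refine mvb_li.2 ⟨i, j, ?_⟩
  have h1 : em K (b 0) i * em K (b 1) j - em K (b 0) j * em K (b 1) i =
      algebraMap k K (b 0 i * b 1 j - b 0 j * b 1 i) := by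
    simp only [em, map_sub, map_mul]
  rw [h1]
  exact (map_ne_zero_iff _ (algebraMap k K).injective).2 hij

/-- If a line over `Om k` is good with respect to the (constant) lines of a finite set then so are
almost all its values. -/
theorem good_values (hF : Smooth F) (S : Finset (Ln F k)) {η : Ln F (Om k)}
    (h : ∀ s ∈ S, ∀ s' : Ln F (Om k), (∀ a ∈ s.W, em (Om k) a ∈ s'.W) → Gp s' η) :
    ∃ Γ : Finset (Om k), (0 : Om k) ∉ Γ ∧ ∀ V : Place k (Om k),
      (∀ g ∈ Γ, g ∈ V.ring ∧ g⁻¹ ∈ V.ring) → ∀ y : Ln F k, IsVal V η y → ∀ s ∈ S, Gp s y := by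
  obtain ⟨u, hu⟩ := exists_bas η
  obtain ⟨b, hb⟩ : ∃ b : Ln F k → Fin 2 → Fin 6 → k, ∀ s, Bas s (b s) :=
    ⟨fun s => (exists_bas s).choose, fun s => (exists_bas s).choose_spec⟩
  have hc : ∀ s ∈ S, ∃ σ σ' : Fin 2 → k, vc F (fun j => em (Om k) (b s j)) u σ ≠ 0 ∧
      vc F u (fun j => em (Om k) (b s j)) σ' ≠ 0 := by
    intro s hs
    obtain ⟨s', hs', -⟩ := exists_base hF (Om k) s
    have h1 := h s hs s' hs'
    have h2 := bas_em hF (hb s) hs'
    obtain ⟨σ, hσ⟩ := exists_vc hF h2 hu h1.1
    obtain ⟨σ', hσ'⟩ := exists_vc hF hu h2 h1.2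
    exact ⟨σ, σ', hσ, hσ'⟩
  choose! σ σ' hσ hσ' using hc
  obtain ⟨i₀, j₀, hm⟩ := mvb_li.1 hu.1
  set mm : Om k := u 0 i₀ * u 1 j₀ - u 0 j₀ * u 1 i₀ with hmm
  set Γ : Finset (Om k) := (({mm} ∪
    ((Finset.univ.image fun p : Fin 2 × Fin 6 => u p.1 p.2).filter fun x => x ≠ 0)) ∪
    S.image fun s => vc F (fun j => em (Om k) (b s j)) u (σ s)) ∪
    S.image fun s => vc F u (fun j => em (Om k) (b s j)) (σ' s) with hΓ
  refine ⟨Γ, ?_, ?_⟩
  · intro h0
    rw [hΓ, Finset.mem_union, Finset.mem_union, Finset.mem_union, Finset.mem_singleton,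
      Finset.mem_filter] at h0
    rcases h0 with ((h0 | h0) | h0) | h0
    · exact hm h0.symm
    · exact h0.2 rfl
    · obtain ⟨s, hs, h1⟩ := Finset.mem_image.1 h0
      exact hσ s hs h1
    · obtain ⟨s, hs, h1⟩ := Finset.mem_image.1 h0
      exact hσ' s hs h1
  · intro V hV y hy s hs
    have m0 : mm ∈ Γ := by
      rw [hΓ]
      refine Finset.mem_union_left _ (Finset.mem_union_left _ (Finset.mem_union_left _ ?_))
      exact Finset.mem_singleton_self _
    have m1 : ∀ j i, u j i ≠ 0 → u j i ∈ Γ := by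
      intro j i hji
      rw [hΓ]
      refine Finset.mem_union_left _ (Finset.mem_union_left _ (Finset.mem_union_right _ ?_))
      rw [Finset.mem_filter]
      exact ⟨Finset.mem_image.2 ⟨(j, i), Finset.mem_univ _, rfl⟩, hji⟩
    have m2 : vc F (fun j => em (Om k) (b s j)) u (σ s) ∈ Γ := by
      rw [hΓ]
      refine Finset.mem_union_left _ (Finset.mem_union_right _ ?_)
      exact Finset.mem_image.2 ⟨s, hs, rfl⟩
    have m3 : vc F u (fun j => em (Om k) (b s j)) (σ' s) ∈ Γ := by
      rw [hΓ]
      refine Finset.mem_union_right _ ?_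
      exact Finset.mem_image.2 ⟨s, hs, rfl⟩
    have hmem : ∀ j i, u j i ∈ V.ring := by
      intro j i
      by_cases h0 : u j i = 0
      · rw [h0]
        exact V.ring.zero_mem
      · exact (hV _ (m1 j i h0)).1
    have hex : ∀ j i, ∃ c : k, V.At (u j i) c := fun j i => HasRes.res V _ (hmem j i)
    choose u' hu' using hex
    have hyu : ∀ j, u' j ∈ y.W := fun j => hy (u j) (mvb_mem hu j) (u' j) (hu' j)
    have hmin : u' 0 i₀ * u' 1 j₀ - u' 0 j₀ * u' 1 i₀ ≠ 0 :=
      mvb_unit (((hu' 0 i₀).mul (hu' 1 j₀)).sub ((hu' 0 j₀).mul (hu' 1 i₀))) hm (hV _ m0).2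
    have hy' : Bas y u' := mvb_bas (mvb_li.2 ⟨i₀, j₀, hmin⟩) hyu
    have hat : ∀ j i, V.At (em (Om k) (b s j) i) (b s j i) := fun j i => Place.at_const _
    refine ⟨?_, ?_⟩
    · exact vg_of_vc hF (hb s) hy' (mvb_unit (vc_at hat hu' (σ s)) (hσ s hs) (hV _ m2).2)
    · exact vg_of_vc hF hy' (hb s) (mvb_unit (vc_at hu' hat (σ' s)) (hσ' s hs) (hV _ m3).2)

end Pool.Agent.CUB.FLN
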