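import Pool.Agent.FLN.MvA
import Pool.Agent.FLN.MvB

/-!
# Moving lines

`move_line`: choose a basis `u` of `y` (`exists_bas`), `gen_Y`: `E`, `z`, `Y`. For every `s ∈ S`
choose a basis `b s` and the line `s_E` (`exists_base`), with the basis `em ∘ b s` (`bas_em`); `Gp
s_E Y`, so by `exists_vc` (for `Vg s_E Y` and for `Vg Y s_E`) there are `σ s`, `σ' s` with
certificates which are not zero at `z`. The family `g` of polynomials (`J = S × Bool`, and one
more for a minor): `Pf.vc` (with `Pv.const (b s j)` and the coordinate vectors) and the minor of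
`w` (`li_minor`, `Pf.det`). `Sprd` gives `s` over `Om k` and `V₀`. The vectors `w~ j i = s (j, i)`
are independent, they satisfy the four equations (`Pf.tri`: polynomials which are zero at `z`),
`exists_ln` gives the line `η` with this basis. Its value at `V₀` is `y` (`val_span`). For `s ∈ S`
and every line `s'` over `Om k` which contains `em a`, `a ∈ s.W`: `bas_em` and `vg_of_vc` in both
orders.
-/

set_option autoImplicit false

noncomputable section

namespace Pool.Agent.CUB.FLN

open Pool.Agent.ZCyc Pool.Agent.Dess Pool.Agent.GT Module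
open Pool.Agent.VFP (Om tt)
open scoped Classical

variable {k : Type} [Field k] [IsAlgClosed k] [CharZero k] {F : MvPolynomial (Fin 6) k}

/-- Every line `y` is the value of a line over `Om k` which is good with respect to all lines in a
given finite set. -/
theorem move_line (hF : Smooth F) (S : Finset (Ln F k)) (y : Ln F k) :
    ∃ (η : Ln F (Om k)) (V : Place k (Om k)), IsVal V η y ∧
      ∀ s ∈ S, ∀ s' : Ln F (Om k), (∀ a ∈ s.W, em (Om k) a ∈ s'.W) → Gp s' η := by
  obtain ⟨u, hu⟩ := exists_bas y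
  obtain ⟨E, _, _, _, z, Y, hY, hg, hs⟩ := gen_Y hF hu
  -- bases of all lines and the certificates over `E`
  choose b hb using fun s : Ln F k => exists_bas s
  have hE : ∀ s : Ln F k, ∃ σ σ' : Fin 2 → k,
      vc F (fun j => em E (b s j)) (fun j i => z (j, i)) σ ≠ 0 ∧
      vc F (fun j i => z (j, i)) (fun j => em E (b s j)) σ' ≠ 0 := by
    intro s
    obtain ⟨sE, hsE, _⟩ := exists_base hF E s
    have h1 := hg s sE hsE
    have h2 := bas_em hF (hb s) hsE
    obtain ⟨σ, hσ⟩ := exists_vc hF h2 hY h1.1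
    obtain ⟨σ', hσ'⟩ := exists_vc hF hY h2 h1.2
    exact ⟨σ, σ', hσ, hσ'⟩
  choose σ σ' hσ hσ' using hE
  -- the same as polynomials
  have hx : ∀ j : Fin 2, Pv (k := k) fun (M : Type) [Field M] [Algebra k M]
      (a : Fin 2 × Fin 6 → M) (i : Fin 6) => a (j, i) := fun j i => Pf.coord (j, i)
  have hP : ∀ s : Ln F k, ∃ P : MvPolynomial (Fin 2 × Fin 6) k, ∀ (M : Type) [Field M]
      [Algebra k M] (a : Fin 2 × Fin 6 → M), MvPolynomial.aeval a P =
        vc F (fun j => em M (b s j)) (fun j i => a (j, i)) (σ s) := fun s =>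
    Pf.vc F (x := fun j (M : Type) [Field M] [Algebra k M] (_ : Fin 2 × Fin 6 → M) =>
      em M (b s j)) (y := fun j (M : Type) [Field M] [Algebra k M] (a : Fin 2 × Fin 6 → M)
        (i : Fin 6) => a (j, i)) (fun j => Pv.const (b s j)) hx (σ s)
  have hP' : ∀ s : Ln F k, ∃ P : MvPolynomial (Fin 2 × Fin 6) k, ∀ (M : Type) [Field M]
      [Algebra k M] (a : Fin 2 × Fin 6 → M), MvPolynomial.aeval a P =
        vc F (fun j i => a (j, i)) (fun j => em M (b s j)) (σ' s) := fun s =>
    Pf.vc F (x := fun j (M : Type) [Field M] [Algebra k M] (a : Fin 2 × Fin 6 → M)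
        (i : Fin 6) => a (j, i)) (y := fun j (M : Type) [Field M] [Algebra k M]
        (_ : Fin 2 × Fin 6 → M) => em M (b s j)) hx (fun j => Pv.const (b s j)) (σ' s)
  choose P hP using hP
  choose P' hP' using hP'
  -- a minor
  have hli : ∀ {M : Type} [Field M] (v : Fin 2 → Fin 6 → M), ![v 0, v 1] = v := by
    intro M _ v
    funext i
    fin_cases i <;> rfl
  obtain ⟨τ, hτ⟩ := (li_minor _).1 hY.1
  rw [hli (fun (j : Fin 2) (i : Fin 6) => z (j, i))] at hτ
  obtain ⟨Q, hQ⟩ := Pf.det (r := 2) (x := fun j (M : Type) [Field M] [Algebra k M]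
    (a : Fin 2 × Fin 6 → M) (i : Fin 6) => a (j, i)) hx τ
  -- the equations
  have hT : ∀ j₁ j₂ j₃ : Fin 2, ∃ P : MvPolynomial (Fin 2 × Fin 6) k, ∀ (M : Type) [Field M]
      [Algebra k M] (a : Fin 2 × Fin 6 → M), MvPolynomial.aeval a P =
        tri F (fun i => a (j₁, i)) (fun i => a (j₂, i)) fun i => a (j₃, i) :=
    fun j₁ j₂ j₃ => Pf.tri F (hx j₁) (hx j₂) (hx j₃)
  obtain ⟨s, V₀, Γ, -, h1, h2, h3, -⟩ := hs (Option ({s // s ∈ S} × Bool)) (fun o => match o with
    | none => Q
    | some (s, true) => P s.1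
    | some (s, false) => P' s.1) (by
      rintro (_ | ⟨s, _ | _⟩)
      · change MvPolynomial.aeval z Q ≠ 0
        rw [hQ]
        exact hτ
      · change MvPolynomial.aeval z (P' s.1) ≠ 0
        rw [hP']
        exact hσ' s.1
      · change MvPolynomial.aeval z (P s.1) ≠ 0
        rw [hP]
        exact hσ s.1)
  have hz : ∀ j, (fun i => z (j, i)) ∈ Y.W := by
    intro j
    rw [hY.2]
    fin_cases j
    · exact Submodule.subset_span (by simp)
    · exact Submodule.subset_span (by simp)
  have htr : ∀ j₁ j₂ j₃ : Fin 2,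
      tri F (fun i => s (j₁, i)) (fun i => s (j₂, i)) (fun i => s (j₃, i)) = 0 := by
    intro j₁ j₂ j₃
    obtain ⟨R, hR⟩ := hT j₁ j₂ j₃
    rw [← hR]
    apply h2
    rw [hR]
    exact Y.tri_zero hF (hz j₁) (hz j₂) (hz j₃)
  have hind : LinearIndependent (Om k) ![fun i => s (0, i), fun i => s (1, i)] := by
    have h4 := h3 none
    change MvPolynomial.aeval s Q ≠ 0 at h4
    rw [hQ] at h4
    have h5 := (li_minor fun (j : Fin 2) (i : Fin 6) => s (j, i)).2 ⟨τ, h4⟩
    rw [← hli fun (j : Fin 2) (i : Fin 6) => s (j, i)] at h5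
    exact h5
  obtain ⟨η, hη⟩ := exists_ln hF hind (htr 0 0 0) (htr 0 0 1) (htr 0 1 1) (htr 1 1 1)
  have hηB : Bas η fun j i => s (j, i) := ⟨hind, hη⟩
  refine ⟨η, V₀, ?_, ?_⟩
  · exact val_span hη hu.2 (fun i => h1 (0, i) (Set.mem_univ _))
      (fun i => h1 (1, i) (Set.mem_univ _)) hu.1
  · intro t ht t' ht'
    have h4 := bas_em hF (hb t) ht'
    constructor
    · refine vg_of_vc hF h4 hηB (s := σ t) ?_
      have h5 := h3 (some (⟨t, ht⟩, true))
      change MvPolynomial.aeval s (P t) ≠ 0 at h5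
      rwa [hP] at h5
    · refine vg_of_vc hF hηB h4 (s := σ' t) ?_
      have h5 := h3 (some (⟨t, ht⟩, false))
      change MvPolynomial.aeval s (P' t) ≠ 0 at h5
      rwa [hP'] at h5

end Pool.Agent.CUB.FLN
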