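import Pool.Agent.FLN.MLG
import Pool.Agent.FLN.MLMv
import Pool.Agent.FLN.Move

/-!
# Relations and transversals (package ML)

PROOF. Take `S` from `ml_gen`. Claim for every finite set `T` of indices: `psi hF Y r = 0` for all `Y`
with `Gp (x j) (Y j)` for all `x ∈ r.support` and all `j`, and `Gp s (Y j)` for all `s ∈ S` and `j ∉ T`.
`T = ∅`: `ml_gen`. Step from `T` to `insert j T`: let `S'` be the union of `S` and of the set of the lines
`x j`, `x ∈ r.support`; `move_line` for `S'` and `Y j` gives `η`, `V₀`, and `good_values` gives `Γ`. Apply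
`psi_move`: if `y'` is the value of `η` at a place where the elements of `Γ` are units then `Gp s y'` for all
`s ∈ S'`, so the claim for `T` applies to `Function.update Y j y'`. `T = univ` is the theorem.
-/

set_option autoImplicit false

noncomputable section

namespace Pool.Agent.CUB.FLN

open Pool.Agent.ZCyc Pool.Agent.Dess Pool.Agent.GT
open Pool.Agent.VFP (Om tt)
open scoped Classical

variable {k : Type} [Field k] [IsAlgClosed k] [CharZero k] {F : MvPolynomial (Fin 6) k}

private theorem ml_aux (hF : Smooth F) {n : ℕ} {r : (Fin n → Ln F k) →₀ ℚ} {S : Finset (Ln F k)}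
    (hS : ∀ Y : Fin n → Ln F k, (∀ j, ∀ s ∈ S, Vg s (Y j)) → psi hF Y r = 0)
    (T : Finset (Fin n)) : ∀ Y : Fin n → Ln F k, (∀ x ∈ r.support, ∀ j, Gp (x j) (Y j)) →
      (∀ j ∉ T, ∀ s ∈ S, Gp s (Y j)) → psi hF Y r = 0 := by
  induction T using Finset.induction_on with
  | empty => exact fun Y _ h => hS Y fun j s hs => (h j (Finset.notMem_empty j) s hs).1
  | insert j T hj ih =>
    intro Y hY hYS
    obtain ⟨S', hS'⟩ : ∃ S' : Finset (Ln F k), S' = S ∪ r.support.image fun x => x j := ⟨_, rfl⟩
    obtain ⟨η, V₀, hV₀, hη⟩ := move_line hF S' (Y j)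
    obtain ⟨Γ, hΓ0, hΓ⟩ := good_values hF S' hη
    refine psi_move hF j (fun x hx i => (hY x hx i).1) hV₀ hΓ0 fun V hV y' hy' => ?_
    have hgood : ∀ s ∈ S', Gp s y' := hΓ V hV y' hy'
    have h1 : ∀ x ∈ r.support, Gp (x j) y' := by
      intro x hx
      refine hgood _ ?_
      rw [hS']
      exact Finset.mem_union_right _ (Finset.mem_image_of_mem _ hx)
    refine ⟨fun x hx => (h1 x hx).1, ih (Function.update Y j y') (fun x hx i => ?_)
      fun i hi s hs => ?_⟩
    · by_cases hij : i = j
      · subst hij
        rw [Function.update_self]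
        exact h1 x hx
      · rw [Function.update_of_ne hij]
        exact hY x hx i
    · by_cases hij : i = j
      · subst hij
        rw [Function.update_self]
        refine hgood s ?_
        rw [hS']
        exact Finset.mem_union_left _ hs
      · rw [Function.update_of_ne hij]
        refine hYS i ?_ s hs
        rw [Finset.mem_insert, not_or]
        exact ⟨hij, hi⟩

/-- relations (of `CUB`) between systems of lines, lines `y j` which are good with respect to the lines
in the relation -/
theorem ml (hF : Smooth F) {n : ℕ} {r : (Fin n → Ln F k) →₀ ℚ} (hr : r ∈ Rel F n)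
    {y : Fin n → Ln F k} (h : ∀ x ∈ r.support, ∀ j, Gp (x j) (y j)) : psi hF y r = 0 := by
  obtain ⟨S, hS⟩ := ml_gen hF hr
  exact ml_aux hF hS Finset.univ y h fun j hj => absurd (Finset.mem_univ j) hj

end Pool.Agent.CUB.FLN
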