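import Pool.Agent.FLN.TriD

/-!
# The transversals of a line and of the lines of a plane section

The proof is in `FLN/TriD.lean`.
-/

set_option autoImplicit false

noncomputable section

namespace Pool.Agent.CUB.FLN

open Pool.Agent.ZCyc Pool.Agent.Dess Pool.Agent.GT
open Pool.Agent.VFP (Om tt)
open scoped Classical

variable {k : Type} [Field k] [IsAlgClosed k] [CharZero k] {F : MvPolynomial (Fin 6) k}

/-- the sum of the transversals of `y` and of the lines of a plane section does not depend on the
plane -/
theorem tri_ph (hF : Smooth F) {a b : Fin 3 → Ln F k} (ha : Tri a) (hb : Tri b) {y : Ln F k}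
    (h : ∀ i, Vg (a i) y) (h' : ∀ i, Vg (b i) y) :
    ∑ i, ph hF (a i) y = ∑ i, ph hF (b i) y :=
  T15.tri_ph hF ha hb h h'

end Pool.Agent.CUB.FLN
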