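import Pool.Agent.FLN.RatG
import Pool.Agent.FLN.TriPh

/-!
# Relations and lines `Y j` in general position (package MLG)

PROOF of `psi_tri`. `psi_single`; `Ext` is linear in the coordinate `j` (for `i ≠ j` the factor
`ph hF (c i) (Y i)` is constant: `(fun i => ph hF (Function.update c j a i) (Y i)) =
Function.update (fun i => ph hF (c i) (Y i)) j (ph hF a (Y j))`), so the sum is `Ext` with the factor
`∑ i, ph hF (a i) (Y j) - ∑ i, ph hF (b i) (Y j) = 0` (`tri_ph`).
PROOF of `ml_gen`. `r = r₁ + r₂`, `r₁ ∈ Rat`, `r₂ ∈ TriRel` (`Submodule.mem_sup`); for both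
`Submodule.span_induction`: for a generator of `Rat` let `S` be the finite set of the lines `y v j`,
`v ∈ D.support` (`psi_rat`), for a generator of `TriRel` the six lines (`psi_tri`); sums: unions.
-/

set_option autoImplicit false

noncomputable section

namespace Pool.Agent.CUB.FLN

open Pool.Agent.ZCyc Pool.Agent.Dess Pool.Agent.GT
open Pool.Agent.VFP (Om tt)
open scoped Classical

variable {k : Type} [Field k] [IsAlgClosed k] [CharZero k] {F : MvPolynomial (Fin 6) k}

theorem psi_tri (hF : Smooth F) {n : ℕ} (j : Fin n) (c : Fin n → Ln F k) {a b : Fin 3 → Ln F k}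
    (ha : Tri a) (hb : Tri b) {Y : Fin n → Ln F k} (h : ∀ i, Vg (a i) (Y j))
    (h' : ∀ i, Vg (b i) (Y j)) :
    psi hF Y (∑ i, (Finsupp.single (Function.update c j (a i)) 1 -
      Finsupp.single (Function.update c j (b i)) 1)) = 0 := by
  have h1 : ∀ x : Ln F k, (fun l => ph hF (Function.update c j x l) (Y l)) =
      Function.update (fun l => ph hF (c l) (Y l)) j (ph hF x (Y j)) := by
    intro x
    funext l
    by_cases hl : l = j
    · subst hl
      rw [Function.update_self, Function.update_self]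
    · rw [Function.update_of_ne hl, Function.update_of_ne hl]
  have h2 : ∀ a : Fin 3 → Ln F k,
      ∑ i, psi hF Y (Finsupp.single (Function.update c j (a i)) 1) =
        Ext (hom_PX hF) n (Function.update (fun l => ph hF (c l) (Y l)) j
          (∑ i, ph hF (a i) (Y j))) := by
    intro a
    rw [MultilinearMap.map_update_sum]
    refine Finset.sum_congr rfl fun i _ => ?_
    rw [psi_single, one_smul, h1]
  rw [map_sum]
  simp only [map_sub]
  rw [Finset.sum_sub_distrib, h2, h2, tri_ph hF ha hb h h', sub_self]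

/-- a relation and lines `Y j` which are good with respect to a finite set of lines -/
theorem ml_gen (hF : Smooth F) {n : ℕ} {r : (Fin n → Ln F k) →₀ ℚ} (hr : r ∈ Rel F n) :
    ∃ S : Finset (Ln F k), ∀ Y : Fin n → Ln F k, (∀ j, ∀ s ∈ S, Vg s (Y j)) →
      psi hF Y r = 0 := by
  have hadd : ∀ r₁ r₂ : (Fin n → Ln F k) →₀ ℚ,
      (∃ S : Finset (Ln F k), ∀ Y : Fin n → Ln F k, (∀ j, ∀ s ∈ S, Vg s (Y j)) →
        psi hF Y r₁ = 0) →
      (∃ S : Finset (Ln F k), ∀ Y : Fin n → Ln F k, (∀ j, ∀ s ∈ S, Vg s (Y j)) →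
        psi hF Y r₂ = 0) →
      ∃ S : Finset (Ln F k), ∀ Y : Fin n → Ln F k, (∀ j, ∀ s ∈ S, Vg s (Y j)) →
        psi hF Y (r₁ + r₂) = 0 := by
    rintro r₁ r₂ ⟨S₁, h₁⟩ ⟨S₂, h₂⟩
    refine ⟨S₁ ∪ S₂, fun Y hY => ?_⟩
    rw [map_add, h₁ Y fun j s hs => hY j s (Finset.mem_union_left _ hs),
      h₂ Y fun j s hs => hY j s (Finset.mem_union_right _ hs), add_zero]
  have hspan : ∀ A : Set ((Fin n → Ln F k) →₀ ℚ),
      (∀ z ∈ A, ∃ S : Finset (Ln F k), ∀ Y : Fin n → Ln F k, (∀ j, ∀ s ∈ S, Vg s (Y j)) →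
        psi hF Y z = 0) →
      ∀ z ∈ Submodule.span ℚ A, ∃ S : Finset (Ln F k), ∀ Y : Fin n → Ln F k,
        (∀ j, ∀ s ∈ S, Vg s (Y j)) → psi hF Y z = 0 := by
    intro A hA z hz
    induction hz using Submodule.span_induction with
    | mem z hz => exact hA z hz
    | zero => exact ⟨∅, fun Y _ => map_zero _⟩
    | add z z' _ _ hz hz' => exact hadd z z' hz hz'
    | smul q z _ hz =>
      obtain ⟨S, hS⟩ := hz
      refine ⟨S, fun Y hY => ?_⟩
      rw [map_smul, hS Y hY, smul_zero]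
  obtain ⟨r₁, h₁, r₂, h₂, rfl⟩ := Submodule.mem_sup.1 hr
  refine hadd r₁ r₂ (hspan _ ?_ r₁ h₁) (hspan _ ?_ r₂ h₂)
  · rintro z ⟨K, hK₁, hK₂, hK, x, y, f, D, hf, hD, hy, rfl⟩
    refine ⟨D.support.biUnion fun v => Finset.univ.image (y v), fun Y hY => ?_⟩
    refine psi_rat hF hK x y hf hD hy fun v hv j => hY j _ ?_
    exact Finset.mem_biUnion.2 ⟨v, hv, Finset.mem_image_of_mem _ (Finset.mem_univ j)⟩
  · rintro z ⟨j, c, a, b, ha, hb, rfl⟩
    refine ⟨Finset.univ.image a ∪ Finset.univ.image b, fun Y hY => ?_⟩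
    refine psi_tri hF j c ha hb (fun i => hY j _ ?_) fun i => hY j _ ?_
    · exact Finset.mem_union_left _ (Finset.mem_image_of_mem _ (Finset.mem_univ i))
    · exact Finset.mem_union_right _ (Finset.mem_image_of_mem _ (Finset.mem_univ i))

end Pool.Agent.CUB.FLN
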