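import Pool.Agent.FLN.Point
import Pool.Agent.FLN.PolF

/-!
# Spreading the generic point

`Sprd z S p`: for every finite family of polynomials `g j` which are not zero at `z` there is a
curve (point `s` with coordinates in `Om k`) on which all equations of `z` hold and the `g j` are
not zero, the coordinates `s i`, `i ∈ S`, have the values `p i` at a place `V₀`, and at almost all
places `V` all coordinates have values `s' i` which satisfy all equations of `z`, and `g j (s') ≠
0`.

Proof of `spread`. Take everything from `gen_point`. For `n`, `c` take `d` from `gen_point`. For a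
finite family `g` apply the last clause of `gen_point` to the product `∏ j, g j`
(`Fintype.ofFinite`). `Γ` = the finite set of all coordinates `s i` which are not zero and of all
`aeval s (g j)`. If the elements of `Γ` are units at `V` then every `s i` is in `V.ring` (zero or
unit), `HasRes.res V` gives the values `s' i`; if `aeval z P = 0` then `aeval s P = 0` has the
value `eval s' P` (`at_pol`, `At.unique` with `at_const 0`); `aeval s (g j)` is a unit at `V` and
has the value `eval s' (g j)`, which is not zero (a unit does not vanish: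
`Place.vanishes_iff_or`). The clause without `c`: `n = 0`, `c = Fin.elim0`, `g' j = rename Sum.inl
(g j)`, and compose `s` with `Sum.inl`.
-/

set_option autoImplicit false

noncomputable section

namespace Pool.Agent.CUB.FLN

open Pool.Agent.ZCyc Pool.Agent.Dess Pool.Agent.GT Module
open Pool.Agent.VFP (Om tt)
open scoped Classical

variable {k : Type} [Field k]

/-- spreading of the point `z` -/
def Sprd {ι : Type} {E : Type} [Field E] [Algebra k E] (z : ι → E) (S : Set ι) (p : ι → k) : Prop :=
  ∀ (J : Type) [Finite J] (g : J → MvPolynomial ι k), (∀ j, MvPolynomial.aeval z (g j) ≠ 0) →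
    ∃ (s : ι → Om k) (V₀ : Place k (Om k)) (Γ : Finset (Om k)), (0 : Om k) ∉ Γ ∧
      (∀ i ∈ S, V₀.At (s i) (p i)) ∧
      (∀ P : MvPolynomial ι k, MvPolynomial.aeval z P = 0 → MvPolynomial.aeval s P = 0) ∧
      (∀ j, MvPolynomial.aeval s (g j) ≠ 0) ∧
      ∀ V : Place k (Om k), (∀ g ∈ Γ, g ∈ V.ring ∧ g⁻¹ ∈ V.ring) → ∃ s' : ι → k,
        (∀ i, V.At (s i) (s' i)) ∧
        (∀ P : MvPolynomial ι k, MvPolynomial.aeval z P = 0 → MvPolynomial.eval s' P = 0) ∧
        ∀ j, MvPolynomial.eval s' (g j) ≠ 0

variable [IsAlgClosed k] [CharZero k]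

omit [CharZero k] in
private theorem sprd_of {ι : Type} [Fintype ι] {E : Type} [Field E] [Algebra k E] (z : ι → E)
    (S : Set ι) (p : ι → k)
    (h : ∀ g : MvPolynomial ι k, MvPolynomial.aeval z g ≠ 0 →
      ∃ (s : ι → Om k) (V : Place k (Om k)), (∀ i ∈ S, V.At (s i) (p i)) ∧
        (∀ P : MvPolynomial ι k, MvPolynomial.aeval z P = 0 → MvPolynomial.aeval s P = 0) ∧
        MvPolynomial.aeval s g ≠ 0) : Sprd z S p := by
  intro J _ g hg
  have := Fintype.ofFinite J
  obtain ⟨s, V₀, h1, h2, h3⟩ := h (∏ j, g j) (by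
    rw [map_prod]
    exact Finset.prod_ne_zero_iff.2 fun j _ => hg j)
  rw [map_prod, Finset.prod_ne_zero_iff] at h3
  refine ⟨s, V₀, (Finset.univ.image s).filter (fun x => x ≠ 0) ∪
    Finset.univ.image (fun j => MvPolynomial.aeval s (g j)), ?_, h1, h2,
    fun j => h3 j (Finset.mem_univ j), ?_⟩
  · intro hm
    rcases Finset.mem_union.1 hm with hm | hm
    · exact (Finset.mem_filter.1 hm).2 rfl
    · obtain ⟨j, _, hj⟩ := Finset.mem_image.1 hm
      exact h3 j (Finset.mem_univ j) hj
  · intro V hV
    have hmem : ∀ i, s i ∈ V.ring := by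
      intro i
      by_cases hi : s i = 0
      · rw [hi]
        exact zero_mem _
      · exact (hV (s i) (Finset.mem_union_left _ (Finset.mem_filter.2
          ⟨Finset.mem_image_of_mem _ (Finset.mem_univ i), hi⟩))).1
    choose s' hs' using fun i => HasRes.res V (s i) (hmem i)
    refine ⟨s', hs', ?_, ?_⟩
    · intro P hP
      have h4 := at_pol hs' P
      rw [h2 P hP] at h4
      exact h4.unique (by simpa using Place.at_const (v := V) (0 : k))
    · intro j hj
      have h4 := at_pol hs' (g j)
      rw [hj, Place.at_zero_iff, Place.vanishes_iff_or] at h4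
      rcases h4 with h4 | h4
      · exact h3 j (Finset.mem_univ j) h4
      · exact h4 (hV _ (Finset.mem_union_right _
          (Finset.mem_image_of_mem _ (Finset.mem_univ j)))).2

theorem spread {ι κ : Type} [Fintype ι] [Fintype κ] (f : κ → MvPolynomial ι k) (p : ι → k)
    (h0 : ∀ i, MvPolynomial.eval p (f i) = 0) :
    ∃ (E : Type) (_ : Field E) (_ : Algebra k E) (_ : IsAlgClosed E) (z : ι → E)
      (D : Submodule E (Derivation k E E)), FiniteDimensional E D ∧
      (∀ i, MvPolynomial.aeval z (f i) = 0) ∧ Fintype.card ι ≤ finrank E D + Fintype.card κ ∧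
      (∀ δ ∈ D, (∀ i, δ (z i) = 0) → δ = 0) ∧
      (∀ P : MvPolynomial ι k, MvPolynomial.aeval z P = 0 → MvPolynomial.eval p P = 0) ∧
      Sprd z Set.univ p ∧
      ∀ (n : ℕ) (c : Fin n → E), ∃ d : E, d ≠ 0 ∧
        Sprd (Sum.elim z (d • c)) (Set.range Sum.inl) (Sum.elim p fun _ => 0) := by
  obtain ⟨E, iE, iA, iC, z, D, hD, h1, h2, h3, h4, h5⟩ := gen_point f p h0
  refine ⟨E, iE, iA, iC, z, D, hD, h1, h2, h3, h4, ?_, ?_⟩
  · obtain ⟨d, _, hd⟩ := h5 0 Fin.elim0
    have hz : ∀ P : MvPolynomial ι k, MvPolynomial.aeval (Sum.elim z (d • (Fin.elim0 : Fin 0 → E)))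
        (MvPolynomial.rename Sum.inl P) = MvPolynomial.aeval z P := by
      intro P
      rw [MvPolynomial.aeval_rename, Sum.elim_comp_inl]
    refine sprd_of z _ p fun g hg => ?_
    obtain ⟨s, V, hs1, hs2, hs3⟩ := hd (MvPolynomial.rename Sum.inl g) (by rwa [hz])
    refine ⟨s ∘ Sum.inl, V, fun i _ => hs1 i, fun P hP => ?_, ?_⟩
    · rw [← MvPolynomial.aeval_rename]
      exact hs2 _ (by rwa [hz])
    · rwa [MvPolynomial.aeval_rename] at hs3
  · intro n c
    obtain ⟨d, hd0, hd⟩ := h5 n c
    refine ⟨d, hd0, sprd_of _ _ _ fun g hg => ?_⟩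
    obtain ⟨s, V, hs1, hs2, hs3⟩ := hd g hg
    refine ⟨s, V, ?_, hs2, hs3⟩
    rintro _ ⟨i, rfl⟩
    exact hs1 i

end Pool.Agent.CUB.FLN
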