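import Pool.Agent.FLN.GenLine
import Pool.Agent.FLN.Spr

/-!
# The generic line near a given line

Unknowns: the twelve coordinates of two vectors `w 0`, `w 1` (`ι = Fin 2 × Fin 6`), four equations
`tri (w 0) (w 0) (w 0) = 0`, `tri (w 0) (w 0) (w 1) = 0`, `tri (w 0) (w 1) (w 1) = 0`, `tri (w 1)
(w 1) (w 1) = 0` (`κ = Fin 4`, polynomials from `Pf.tri`, `Pf.coord`), the given solution is the
basis `u` of `y` (`Ln.tri_zero`). `spread` gives `E`, `z`, `D`, `8 ≤ finrank D`. The vectors `w j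
i = z (j, i)` are independent: otherwise all `2 × 2` minors (`li_minor`, `Pf.det`) are zero at
`z`, so they are zero at `u`, but `u` is independent. `exists_ln` gives the line `Y`. For `δ ∈ D ⊓
st Y.W` write `dr δ (w j) = ∑ l, m j l • w l`; the map `δ ↦ m` is linear and injective (if `m = 0`
then `δ (z (j, i)) = 0`, so `δ = 0`), so `finrank (D ⊓ st Y.W) ≤ 4`
(`LinearMap.finrank_le_finrank_of_injective`; the map to `(Y.W × Y.W)`, `δ ↦ (dr δ (w 0), dr δ (w
1))`, is simpler: `finrank (Y.W × Y.W) = 4`). `gen_line` applies to all constant lines.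
-/

set_option autoImplicit false

noncomputable section

namespace Pool.Agent.CUB.FLN

open Pool.Agent.ZCyc Pool.Agent.Dess Pool.Agent.GT Module
open Pool.Agent.VFP (Om tt)
open scoped Classical

variable {k : Type} [Field k] [IsAlgClosed k] [CharZero k] {F : MvPolynomial (Fin 6) k}

theorem gen_Y (hF : Smooth F) {y : Ln F k} {u : Fin 2 → Fin 6 → k} (hu : Bas y u) :
    ∃ (E : Type) (_ : Field E) (_ : Algebra k E) (_ : IsAlgClosed E) (z : Fin 2 × Fin 6 → E)
      (Y : Ln F E), Bas Y (fun j i => z (j, i)) ∧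
      (∀ (s : Ln F k) (s' : Ln F E), (∀ a ∈ s.W, em E a ∈ s'.W) → Gp s' Y) ∧
      Sprd z Set.univ (fun q => u q.1 q.2) := by
  have hw : ∀ j : Fin 2, Pv (k := k) fun (M : Type) [Field M] [Algebra k M]
      (a : Fin 2 × Fin 6 → M) => fun i : Fin 6 => a (j, i) := fun j i => Pf.coord (j, i)
  obtain ⟨P0, h0⟩ := Pf.tri F (hw 0) (hw 0) (hw 0)
  obtain ⟨P1, h1⟩ := Pf.tri F (hw 0) (hw 0) (hw 1)
  obtain ⟨P2, h2⟩ := Pf.tri F (hw 0) (hw 1) (hw 1)
  obtain ⟨P3, h3⟩ := Pf.tri F (hw 1) (hw 1) (hw 1)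
  obtain ⟨hli, hW⟩ := hu
  have hu0 : u 0 ∈ y.W := by
    rw [hW]
    exact Submodule.subset_span (by simp)
  have hu1 : u 1 ∈ y.W := by
    rw [hW]
    exact Submodule.subset_span (by simp)
  set p : Fin 2 × Fin 6 → k := fun q => u q.1 q.2 with hp
  have hev : ∀ P : MvPolynomial (Fin 2 × Fin 6) k,
      MvPolynomial.eval p P = MvPolynomial.aeval p P := fun P => by
    rw [MvPolynomial.aeval_eq_eval]
  have e0 : MvPolynomial.eval p P0 = 0 := by
    rw [hev, h0]
    exact y.tri_zero hF hu0 hu0 hu0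
  have e1 : MvPolynomial.eval p P1 = 0 := by
    rw [hev, h1]
    exact y.tri_zero hF hu0 hu0 hu1
  have e2 : MvPolynomial.eval p P2 = 0 := by
    rw [hev, h2]
    exact y.tri_zero hF hu0 hu1 hu1
  have e3 : MvPolynomial.eval p P3 = 0 := by
    rw [hev, h3]
    exact y.tri_zero hF hu1 hu1 hu1
  have hf0 : ∀ i, MvPolynomial.eval p (![P0, P1, P2, P3] i) = 0 := by
    intro i
    fin_cases i
    · exact e0
    · exact e1
    · exact e2
    · exact e3
  obtain ⟨E, iE, iA, iC, z, D, hfd, hz, hcard, hinj, hall, hS, -⟩ :=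
    spread ![P0, P1, P2, P3] p hf0
  have hz0 := (h0 E z).symm.trans (hz 0)
  have hz1 := (h1 E z).symm.trans (hz 1)
  have hz2 := (h2 E z).symm.trans (hz 2)
  have hz3 := (h3 E z).symm.trans (hz 3)
  have huu : u = ![u 0, u 1] := by
    funext j
    fin_cases j <;> rfl
  have hliW : LinearIndependent E fun (j : Fin 2) (i : Fin 6) => z (j, i) := by
    rw [← huu, li_minor] at hli
    obtain ⟨τ, hτ⟩ := hli
    rw [li_minor]
    refine ⟨τ, fun hdet => hτ ?_⟩
    obtain ⟨P, hP⟩ := Pf.det hw τ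
    have h4 := hall P ((hP E z).trans hdet)
    rw [hev, hP] at h4
    exact h4
  have hli2 : LinearIndependent E ![fun i : Fin 6 => z (0, i), fun i : Fin 6 => z (1, i)] := by
    have h4 : (fun (j : Fin 2) (i : Fin 6) => z (j, i)) =
        ![fun i : Fin 6 => z (0, i), fun i : Fin 6 => z (1, i)] := by
      funext j
      fin_cases j <;> rfl
    rwa [← h4]
  obtain ⟨Y, hY⟩ := exists_ln hF hli2 hz0 hz1 hz2 hz3
  have hm0 : (fun i : Fin 6 => z (0, i)) ∈ Y.W := by
    rw [hY]
    exact Submodule.subset_span (by simp)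
  have hm1 : (fun i : Fin 6 => z (1, i)) ∈ Y.W := by
    rw [hY]
    exact Submodule.subset_span (by simp)
  have h4 : finrank E ↥(D ⊓ st Y.W) ≤ 4 := by
    let ψ : ↥(D ⊓ st Y.W) →ₗ[E] Y.W × Y.W :=
      (LinearMap.codRestrict Y.W ((drL fun i : Fin 6 => z (0, i)).comp (D ⊓ st Y.W).subtype)
        fun δ => δ.2.2 _ hm0).prod
      (LinearMap.codRestrict Y.W ((drL fun i : Fin 6 => z (1, i)).comp (D ⊓ st Y.W).subtype)
        fun δ => δ.2.2 _ hm1)
    have hψ : Function.Injective ψ := by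
      rw [injective_iff_map_eq_zero]
      intro δ hδ
      have h5 : dr δ.1 (fun i : Fin 6 => z (0, i)) = 0 :=
        congrArg (fun x : Y.W × Y.W => (x.1 : Fin 6 → E)) hδ
      have h6 : dr δ.1 (fun i : Fin 6 => z (1, i)) = 0 :=
        congrArg (fun x : Y.W × Y.W => (x.2 : Fin 6 → E)) hδ
      refine Subtype.ext (hinj δ.1 δ.2.1 ?_)
      rintro ⟨j, i⟩
      fin_cases j
      · exact congrFun h5 i
      · exact congrFun h6 i
    have h5 := LinearMap.finrank_le_finrank_of_injective hψ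
    rwa [Module.finrank_prod, Y.two] at h5
  rw [Fintype.card_prod, Fintype.card_fin, Fintype.card_fin, Fintype.card_fin] at hcard
  exact ⟨E, iE, iA, iC, z, Y, ⟨hli2, hY⟩, fun s s' hs => gen_line hF D (by omega) s hs, hS⟩

end Pool.Agent.CUB.FLN
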