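import Mathlib

/-!
# Derivations

`exists_der`. Let `K₀ ≤ E` be the field `IntermediateField.adjoin k (range t)`. Let `T =
MvPolynomial (Fin s) k`, `MvPolynomial.pderiv j` is a derivation of `T` with `pderiv j (X l) = if
...`; compose with the injective homomorphism `aeval t : T → E`, it is a derivation `T → E` over
`k` (`E` is a `T`-algebra by `aeval t`; `Derivation` with values in the `T`-module `E`:
`MvPolynomial.mkDerivation k (fun l => if l = j then 1 else 0)` is directly a derivation `T → E`).
Extend it to `E`: `E` is formally etale over `T`, because `E` is separable algebraic over the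
field of fractions of `T` (`Algebra.FormallyEtale.of_isSeparable`,
`Algebra.FormallyEtale.of_isLocalization`, `Algebra.FormallyEtale.comp`; characteristic zero);
then `KaehlerDifferential.tensorKaehlerEquivOfFormallyEtale k T E : E ⊗[T] Ω[T⁄k] ≃ₗ[E] Ω[E⁄k]`,
and the derivation `T → E` gives an `E`-linear map `E ⊗[T] Ω[T⁄k] → E`
(`Derivation.liftKaehlerDifferential`, `LinearMap.liftBaseChange`), so a linear map `Ω[E⁄k] → E`,
and its composition with `KaehlerDifferential.D k E` is the derivation. (For the instances: take
`Algebra T E` from `(aeval t).toAlgebra`, `FractionRing T → E` from `IsFractionRing.lift` /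
`FractionRing.liftAlgebra`, scalar towers.)

`exists_derD`. `D` is the span of the `s` derivations `δ_j`. They are linearly independent, since
`δ_j (t l) = if l = j then 1 else 0`: `finrank_span_eq_card`. If `δ = ∑ c_j δ_j` is zero on the `z
i` then it is zero on `Algebra.adjoin k (range z)` (`Derivation.eqOn_adjoin`), so `c_l = δ (t l) =
0`.
-/

set_option autoImplicit false

noncomputable section

namespace Pool.Agent.CUB.FLN

open Module
open scoped Classical

variable {k E : Type} [Field k] [CharZero k] [Field E] [Algebra k E] {s : ℕ} {t : Fin s → E}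

open TensorProduct in
theorem exists_der (ht : AlgebraicIndependent k t)
    (ha : ∀ x : E, IsAlgebraic (Algebra.adjoin k (Set.range t)) x) (j : Fin s) :
    ∃ δ : Derivation k E E, ∀ l, δ (t l) = if l = j then 1 else 0 := by
  have hinj : Function.Injective (MvPolynomial.aeval t : MvPolynomial (Fin s) k →ₐ[k] E) := ht
  let _ : Algebra (MvPolynomial (Fin s) k) E :=
    (MvPolynomial.aeval t : MvPolynomial (Fin s) k →ₐ[k] E).toAlgebra
  have hmap : algebraMap (MvPolynomial (Fin s) k) E =
      (MvPolynomial.aeval t : MvPolynomial (Fin s) k →ₐ[k] E).toRingHom := rfl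
  have : IsScalarTower k (MvPolynomial (Fin s) k) E := IsScalarTower.of_algebraMap_eq fun z => by
    rw [hmap]
    simp
  have : FaithfulSMul (MvPolynomial (Fin s) k) E :=
    (faithfulSMul_iff_algebraMap_injective (MvPolynomial (Fin s) k) E).2 hinj
  have h0 : CharZero E := charZero_of_injective_algebraMap (algebraMap k E).injective
  have halg' : Algebra.IsAlgebraic (Algebra.adjoin k (Set.range t)) E := ⟨ha⟩
  have halg2 : Algebra.IsAlgebraic (MvPolynomial (Fin s) k) E := by
    let e : MvPolynomial (Fin s) k ≃+* Algebra.adjoin k (Set.range t) :=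
      ht.aevalEquiv.toRingEquiv
    refine (Algebra.isAlgebraic_ringHom_iff_of_comp_eq e (RingEquiv.refl E) ?_).1 halg'
    refine RingHom.ext fun z => ?_
    exact ht.algebraMap_aevalEquiv z
  have hfr : CharZero (FractionRing (MvPolynomial (Fin s) k)) :=
    charZero_of_injective_algebraMap
      (IsFractionRing.injective (MvPolynomial (Fin s) k) (FractionRing (MvPolynomial (Fin s) k)))
  let _ : Algebra (FractionRing (MvPolynomial (Fin s) k)) E :=
    FractionRing.liftAlgebra (MvPolynomial (Fin s) k) E
  have h1 : Algebra.IsAlgebraic (FractionRing (MvPolynomial (Fin s) k)) E :=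
    (IsFractionRing.comap_isAlgebraic_iff (A := MvPolynomial (Fin s) k)
      (K := FractionRing (MvPolynomial (Fin s) k)) (C := E)).1 halg2
  have h2 : Algebra.FormallyEtale (FractionRing (MvPolynomial (Fin s) k)) E :=
    Algebra.FormallyEtale.of_isSeparable _ _
  have h3 : Algebra.FormallyEtale (MvPolynomial (Fin s) k)
      (FractionRing (MvPolynomial (Fin s) k)) :=
    Algebra.FormallyEtale.of_isLocalization (M := nonZeroDivisors (MvPolynomial (Fin s) k))
  have h4 : Algebra.FormallyEtale (MvPolynomial (Fin s) k) E :=
    Algebra.FormallyEtale.comp (MvPolynomial (Fin s) k)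
      (FractionRing (MvPolynomial (Fin s) k)) E
  let B := (KaehlerDifferential.mvPolynomialBasis k (Fin s)).baseChange E
  let u : Fin s → E := fun l => if l = j then 1 else 0
  let φ : KaehlerDifferential k E →ₗ[E] E :=
    (B.constr E u).comp
      (KaehlerDifferential.tensorKaehlerEquivOfFormallyEtale k
        (MvPolynomial (Fin s) k) E).symm.toLinearMap
  have key : ∀ i : Fin s, φ (KaehlerDifferential.D k E (t i)) = u i := by
    intro i
    have h5 : t i = algebraMap (MvPolynomial (Fin s) k) E (MvPolynomial.X i) := by
      rw [hmap]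
      simp
    have h6 : (KaehlerDifferential.tensorKaehlerEquivOfFormallyEtale k
        (MvPolynomial (Fin s) k) E).symm (KaehlerDifferential.D k E (t i)) =
        1 ⊗ₜ KaehlerDifferential.D k (MvPolynomial (Fin s) k) (MvPolynomial.X i) := by
      conv_lhs => rw [h5]
      exact KaehlerDifferential.tensorKaehlerEquivOfFormallyEtale_symm_D_algebraMap k
        (MvPolynomial (Fin s) k) E (MvPolynomial.X i)
    have h7 : B i = 1 ⊗ₜ KaehlerDifferential.D k (MvPolynomial (Fin s) k)
        (MvPolynomial.X i) := by
      simp [B]
    change B.constr E u ((KaehlerDifferential.tensorKaehlerEquivOfFormallyEtale k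
        (MvPolynomial (Fin s) k) E).symm (KaehlerDifferential.D k E (t i))) = _
    rw [h6, ← h7, Module.Basis.constr_basis]
  exact ⟨φ.compDer (KaehlerDifferential.D k E), key⟩

theorem exists_derD (ht : AlgebraicIndependent k t)
    (ha : ∀ x : E, IsAlgebraic (Algebra.adjoin k (Set.range t)) x) {ι : Type} (z : ι → E)
    (hz : ∀ l, t l ∈ Algebra.adjoin k (Set.range z)) :
    ∃ D : Submodule E (Derivation k E E), FiniteDimensional E D ∧ s ≤ finrank E D ∧
      ∀ δ ∈ D, (∀ i, δ (z i) = 0) → δ = 0 := by
  choose d hd using fun j => exists_der ht ha j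
  have hev : ∀ (c : Fin s → E) (l : Fin s),
      (∑ j, c j • d j : Derivation k E E) (t l) = c l := by
    intro c l
    have h1 := map_sum (Derivation.coeFnAddMonoidHom (R := k) (A := E) (M := E))
      (fun j => c j • d j) Finset.univ
    have h2 := congrFun h1 (t l)
    rw [Finset.sum_apply] at h2
    refine h2.trans ?_
    change ∑ j, (c j • d j) (t l) = c l
    simp [hd]
  have hli : LinearIndependent E d := by
    rw [Fintype.linearIndependent_iff]
    intro c hc i
    rw [← hev c i, hc]
    rfl
  refine ⟨Submodule.span E (Set.range d),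
    FiniteDimensional.span_of_finite E (Set.finite_range d), ?_, ?_⟩
  · rw [finrank_span_eq_card hli]
    simp
  · intro δ hδ h0
    obtain ⟨c, rfl⟩ := (Submodule.mem_span_range_iff_exists_fun E).1 hδ
    have h2 : ∀ l, c l = 0 := by
      intro l
      rw [← hev c l]
      have h3 : Set.EqOn (∑ j, c j • d j : Derivation k E E) (0 : Derivation k E E)
          (Set.range z) := by
        rintro _ ⟨i, rfl⟩
        rw [h0 i]
        rfl
      exact Derivation.eqOn_adjoin h3 (hz l)
    simp [h2]

end Pool.Agent.CUB.FLN
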