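import Pool.Agent.QRT.CS

/-!
# Curve selection in a domain

Proof. The file `QRT/CS.lean` contains almost everything (`cs_embed`, `cs_place`, `cs_dom`,
private: copy). Let `T = MvPolynomial (Fin s) k`, `q l = ev (g (X l))`.

Case `s = 0`. `B` is integral over `k` (as in `cs_dom`), so `algebraMap k B` is bijective
(`IsAlgClosed.algebraMap_bijective_of_isIntegral`); `φ = (Algebra.ofId k (Om k)).comp ev`, any
place (`ZCyc.exists_place`, `VFP.tt_transc`); `ev γ ≠ 0`.

Case `s > 0`. There is `N : T`, `N ≠ 0`, with `g N ∈ span {γ}`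
(`Ideal.comap_ne_bot_of_integral_mem`), say `g N = γ * h`. The polynomial `N * (X 0 - C (q 0))` is
not zero, `k` is infinite, so there is `y : Fin s → k` with `eval y N ≠ 0`, `y 0 ≠ q 0`
(`MvPolynomial.funext`). Let `e l = y l - q l` and `ψ : T →ₐ[k] k[X]`, `X l ↦ C (q l) + C (e l) *
X`. Then `ψ N ≠ 0` (its value at `1` is `eval y N`), `ψ (C (e 0)⁻¹ * (X 0 - C (q 0))) = X`, and
`ev (g F) = (ψ F).eval 0`. Let `P₀ = ker ψ ≤ ker ev ∩ T`. Going down gives a prime ideal `Q₀ ≤ ker
ev` of `B` with `Q₀ ∩ T = P₀` (`Ideal.exists_ideal_le_liesOver_of_le`, as in `cs_dom`). Let `π : B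
→ B ⧸ Q₀`, `χ : k[X] →ₐ[k] B ⧸ Q₀`, `X ↦ π (g (C (e 0)⁻¹ * (X 0 - C (q 0))))`. Then `π (g F) = χ
(ψ F)` for all `F` (on the generators: the difference of `X l` and `C (q l) + C (e l) * (C (e 0)⁻¹
* (X 0 - C (q 0)))` is in `P₀`), `χ` is injective and integral (as in `cs_dom`), `cs_embed` with
`t = tt k` gives an injective `φ₀ : B ⧸ Q₀ →ₐ[k] Om k`, and `cs_place` gives the place. `φ =
φ₀.comp π`; `φ γ * φ h = φ₀ (χ (ψ N)) ≠ 0`.
-/

set_option autoImplicit false

noncomputable section

namespace Pool.Agent.CUB.FLN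

open Pool.Agent.ZCyc Pool.Agent.Dess Pool.Agent.GT
open Pool.Agent.VFP (Om tt)
open scoped Classical

section Aux

variable {k : Type} [Field k]

/-- a domain which is integral over `k[T]` embeds into an algebraically closed field, `T` goes to
a given transcendental element -/
private theorem pt_embed {C M : Type} [CommRing C] [IsDomain C] [Algebra k C] [Field M]
    [Algebra k M] [IsAlgClosed M] {t : M} (ht : Transcendental k t) (χ : Polynomial k →ₐ[k] C)
    (hχ : Function.Injective χ) (hi : (χ : Polynomial k →+* C).IsIntegral) :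
    ∃ φ : C →ₐ[k] M, Function.Injective φ ∧ φ (χ Polynomial.X) = t := by
  let a1 : Algebra (Polynomial k) C := (χ : Polynomial k →+* C).toAlgebra
  let a2 : Algebra (Polynomial k) M :=
    ((Polynomial.aeval t : Polynomial k →ₐ[k] M) : Polynomial k →+* M).toAlgebra
  have hM : Function.Injective (algebraMap (Polynomial k) M) := transcendental_iff_injective.1 ht
  have f1 : FaithfulSMul (Polynomial k) C := (faithfulSMul_iff_algebraMap_injective _ _).2 hχ
  have f2 : FaithfulSMul (Polynomial k) M := (faithfulSMul_iff_algebraMap_injective _ _).2 hM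
  have i1 : Algebra.IsIntegral (Polynomial k) C := ⟨hi⟩
  let φ : C →ₐ[Polynomial k] M := IsAlgClosed.lift
  have hφ : ∀ p, φ (χ p) = Polynomial.aeval t p := fun p => φ.commutes p
  refine ⟨{ (φ : C →+* M) with commutes' := ?_ }, ?_, ?_⟩
  · intro c
    change φ (algebraMap k C c) = algebraMap k M c
    have h1 := hφ (Polynomial.C c)
    rw [Polynomial.aeval_C] at h1
    rw [← h1]
    congr 1
    exact (χ.commutes c).symm
  · change Function.Injective φ
    have h1 : (RingHom.ker (φ : C →+* M)).comap (algebraMap (Polynomial k) C) = ⊥ := by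
      rw [eq_bot_iff]
      intro p hp
      rw [Ideal.mem_comap, RingHom.mem_ker] at hp
      have h2 : Polynomial.aeval t p = 0 := (hφ p).symm.trans hp
      exact (map_eq_zero_iff _ hM).1 h2
    have h2 := Ideal.eq_bot_of_comap_eq_bot h1
    exact (RingHom.injective_iff_ker_eq_bot (φ : C →+* M)).2 h2
  · change φ (χ Polynomial.X) = t
    rw [hφ, Polynomial.aeval_X]

/-- a place above a point -/
private theorem pt_place {C M : Type} [CommRing C] [Algebra k C] [Field M] [Algebra k M]
    (φ : C →ₐ[k] M) (hφ : Function.Injective φ) (ev : C →ₐ[k] k) {b : C}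
    (ht : Transcendental k (φ b)) : ∃ v : Place k M, ∀ c, ev c = 0 → v.At (φ c) 0 := by
  set A : Subring M := (φ : C →+* M).range with hA
  let e : C ≃+* A := RingEquiv.ofBijective (φ : C →+* M).rangeRestrict
    ⟨fun x y hxy => hφ (congrArg Subtype.val hxy), (φ : C →+* M).rangeRestrict_surjective⟩
  have he : ∀ c, (e c : M) = φ c := fun c => rfl
  set I : Ideal A := RingHom.ker ((ev : C →+* k).comp (e.symm : A →+* C)) with hI
  have hItop : I ≠ ⊤ := RingHom.ker_ne_top _
  obtain ⟨V, hV1, hV2⟩ := Ideal.image_subset_nonunits_valuationSubring I hItop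
  have hmem : ∀ c, ev c = 0 → φ c ∈ V.nonunits := by
    intro c hc
    apply hV2
    refine ⟨e c, ?_, he c⟩
    rw [hI, SetLike.mem_coe, RingHom.mem_ker]
    change ev (e.symm (e c)) = 0
    rw [e.symm_apply_apply, hc]
  refine ⟨⟨V, ?_, ?_⟩, ?_⟩
  · intro a
    apply hV1
    rw [hA]
    exact ⟨algebraMap k C a, φ.commutes a⟩
  · rintro rfl
    have h1 := hmem (b - algebraMap k C (ev b)) (by rw [map_sub, ev.commutes]; exact sub_self _)
    rw [ValuationSubring.mem_nonunits_iff_or] at h1
    rcases h1 with h | h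
    · apply ht
      rw [map_sub, φ.commutes, sub_eq_zero] at h
      rw [h]
      exact isAlgebraic_algebraMap _
    · exact h (ValuationSubring.mem_top _)
  · intro c hc
    rw [Place.at_zero_iff]
    exact hmem c hc

end Aux

variable {k : Type} [Field k] [IsAlgClosed k] [CharZero k]

/-- a point where a polynomial and the difference of the first coordinates do not vanish -/
private theorem pt_point {n : ℕ} {N : MvPolynomial (Fin (n + 1)) k} (hN : N ≠ 0) (q : k) :
    ∃ y : Fin (n + 1) → k, MvPolynomial.eval y N ≠ 0 ∧ y 0 ≠ q := by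
  have h1 : (MvPolynomial.X 0 - MvPolynomial.C q : MvPolynomial (Fin (n + 1)) k) ≠ 0 := by
    intro h
    have h2 := congrArg (MvPolynomial.eval fun _ => q + 1) h
    simp at h2
  have h2 : N * (MvPolynomial.X 0 - MvPolynomial.C q) ≠ 0 := mul_ne_zero hN h1
  have : ∃ y : Fin (n + 1) → k,
      MvPolynomial.eval y (N * (MvPolynomial.X 0 - MvPolynomial.C q)) ≠ 0 := by
    by_contra hcon
    push Not at hcon
    exact h2 (MvPolynomial.funext fun y => by rw [hcon y, map_zero])
  obtain ⟨y, hy⟩ := this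
  rw [map_mul, map_sub, MvPolynomial.eval_X, MvPolynomial.eval_C] at hy
  exact ⟨y, left_ne_zero_of_mul hy, fun h => right_ne_zero_of_mul hy (sub_eq_zero.2 h)⟩

theorem curve_dom {B : Type} [CommRing B] [IsDomain B] [Algebra k B] {s : ℕ}
    (g : MvPolynomial (Fin s) k →ₐ[k] B) (hg : Function.Injective g)
    (hgi : (g : MvPolynomial (Fin s) k →+* B).IsIntegral) (ev : B →ₐ[k] k) {γ : B} (hγ : γ ≠ 0) :
    ∃ (φ : B →ₐ[k] Om k) (V : Place k (Om k)), (∀ b, ev b = 0 → V.At (φ b) 0) ∧ φ γ ≠ 0 := by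
  obtain _ | n := s
  · have h1 : (algebraMap k (MvPolynomial (Fin 0) k)).IsIntegral :=
      RingHom.isIntegral_of_surjective _ (MvPolynomial.C_surjective (Fin 0))
    have h2 := RingHom.IsIntegral.trans _ _ h1 hgi
    have h3 : (g : MvPolynomial (Fin 0) k →+* B).comp (algebraMap k (MvPolynomial (Fin 0) k)) =
        algebraMap k B := by
      ext c
      exact g.commutes c
    have : Algebra.IsIntegral k B := ⟨by
      intro x
      have := h2 x
      change (algebraMap k B).IsIntegralElem x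
      rw [← h3]
      exact this⟩
    have h4 := (IsAlgClosed.algebraMap_bijective_of_isIntegral (k := k) (K := B)).2
    obtain ⟨V, -⟩ := exists_place (Pool.Agent.VFP.tt_transc (k := k)) (0 : k)
    refine ⟨(Algebra.ofId k (Om k)).comp ev, V, fun b hb => ?_, ?_⟩
    · rw [AlgHom.comp_apply, hb, map_zero]
      have := Place.at_const (v := V) (0 : k)
      rwa [map_zero] at this
    · obtain ⟨c, rfl⟩ := h4 γ
      rw [AlgHom.comp_apply, ev.commutes]
      intro h5
      have hc : c = 0 := by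
        have h6 : algebraMap k (Om k) c = 0 := h5
        exact (map_eq_zero _).1 h6
      apply hγ
      rw [hc, map_zero]
  -- the polynomial below `γ`
  let a1 : Algebra (MvPolynomial (Fin (n + 1)) k) B :=
    (g : MvPolynomial (Fin (n + 1)) k →+* B).toAlgebra
  have i1 : Algebra.IsIntegral (MvPolynomial (Fin (n + 1)) k) B := ⟨hgi⟩
  have f1 : FaithfulSMul (MvPolynomial (Fin (n + 1)) k) B :=
    (faithfulSMul_iff_algebraMap_injective _ _).2 hg
  have hN0 : (Ideal.span {γ}).comap (algebraMap (MvPolynomial (Fin (n + 1)) k) B) ≠ ⊥ :=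
    Ideal.comap_ne_bot_of_integral_mem hγ (Ideal.mem_span_singleton_self γ) (hgi γ)
  obtain ⟨N, hNm, hN⟩ := Submodule.exists_mem_ne_zero_of_ne_bot hN0
  obtain ⟨h, hh⟩ := Ideal.mem_span_singleton.1 (Ideal.mem_comap.1 hNm)
  have hNh : g N = γ * h := hh
  -- the line
  set q : Fin (n + 1) → k := fun i => ev (g (MvPolynomial.X i)) with hq
  obtain ⟨y, hy, hy0⟩ := pt_point hN (q 0)
  set e : Fin (n + 1) → k := fun i => y i - q i with he
  have he0 : e 0 ≠ 0 := sub_ne_zero.2 hy0
  let ψ : MvPolynomial (Fin (n + 1)) k →ₐ[k] Polynomial k :=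
    MvPolynomial.aeval fun i => Polynomial.C (q i) + Polynomial.C (e i) * Polynomial.X
  have hψX : ∀ i, ψ (MvPolynomial.X i) =
      Polynomial.C (q i) + Polynomial.C (e i) * Polynomial.X := fun i => by
    simp only [ψ, MvPolynomial.aeval_X]
  have hψC : ∀ c, ψ (MvPolynomial.C c) = Polynomial.C c := fun c => ψ.commutes c
  set w : MvPolynomial (Fin (n + 1)) k :=
    MvPolynomial.C (e 0)⁻¹ * (MvPolynomial.X 0 - MvPolynomial.C (q 0)) with hw
  have hψw : ψ w = Polynomial.X := by
    rw [hw, map_mul, map_sub, hψX, hψC, hψC, add_sub_cancel_left, ← mul_assoc,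
      ← Polynomial.C_mul, inv_mul_cancel₀ he0, Polynomial.C_1, one_mul]
  clear_value w
  have hψ1 : ∀ F, MvPolynomial.eval y F = Polynomial.aeval (1 : k) (ψ F) := by
    intro F
    have h1 : (MvPolynomial.aeval y : MvPolynomial (Fin (n + 1)) k →ₐ[k] k) =
        (Polynomial.aeval (1 : k)).comp ψ := by
      ext i
      rw [AlgHom.comp_apply, hψX, MvPolynomial.aeval_X]
      simp [he]
    have h2 := DFunLike.congr_fun h1 F
    rw [MvPolynomial.aeval_eq_eval] at h2
    exact h2
  have hψN : ψ N ≠ 0 := by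
    intro h1
    apply hy
    rw [hψ1, h1, map_zero]
  have hψev : ∀ F, ev (g F) = Polynomial.aeval (0 : k) (ψ F) := by
    intro F
    have h1 : ev.comp g = (Polynomial.aeval (0 : k)).comp ψ := by
      ext i
      rw [AlgHom.comp_apply, AlgHom.comp_apply, hψX]
      simp [hq]
    exact DFunLike.congr_fun h1 F
  -- going down
  set P₀ : Ideal (MvPolynomial (Fin (n + 1)) k) := RingHom.ker ψ with hP₀
  have hP₀p : P₀.IsPrime := RingHom.ker_isPrime _
  have hevp : (RingHom.ker ev).IsPrime := RingHom.ker_isPrime _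
  set q' : Ideal (MvPolynomial (Fin (n + 1)) k) :=
    (RingHom.ker ev).under (MvPolynomial (Fin (n + 1)) k) with hq'
  have hle : P₀ ≤ q' := by
    intro F hF
    change ev (g F) = 0
    have hF' : ψ F = 0 := hF
    rw [hψev, hF', map_zero]
  obtain ⟨Q₀, hQle, hQp, hQl⟩ :=
    Ideal.exists_ideal_le_liesOver_of_le (q := q') (RingHom.ker ev) hle
  have hQ : ∀ F, g F ∈ Q₀ ↔ ψ F = 0 := by
    intro F
    have h1 : P₀ = Q₀.comap (algebraMap (MvPolynomial (Fin (n + 1)) k) B) := hQl.over
    have h2 : F ∈ P₀ ↔ F ∈ Q₀.comap (algebraMap (MvPolynomial (Fin (n + 1)) k) B) := by rw [h1]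
    exact h2.symm
  -- the curve
  let π : B →ₐ[k] B ⧸ Q₀ := Ideal.Quotient.mkₐ k Q₀
  have hπ0 : ∀ x, π x = 0 ↔ x ∈ Q₀ := fun x => Ideal.Quotient.eq_zero_iff_mem
  let χ : Polynomial k →ₐ[k] B ⧸ Q₀ := Polynomial.aeval (π (g w))
  have hχX : χ Polynomial.X = π (g w) := by simp only [χ, Polynomial.aeval_X]
  have hχ : ∀ F, π (g F) = χ (ψ F) := by
    intro F
    have h0 : π.comp g = χ.comp ψ := by
      ext i
      rw [AlgHom.comp_apply, AlgHom.comp_apply]
      have h1 : MvPolynomial.X i - (MvPolynomial.C (q i) + MvPolynomial.C (e i) * w) ∈ P₀ := by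
        rw [hP₀, RingHom.mem_ker, map_sub, map_add, map_mul, hψX, hψC, hψC, hψw, sub_self]
      have h2 := (hπ0 _).2 ((hQ _).2 h1)
      rw [map_sub, map_sub, sub_eq_zero] at h2
      rw [h2, hψX, map_add, map_add, map_mul, map_mul, map_add, map_mul, hχX]
      congr 1
      · change π (g (algebraMap k _ (q i))) = χ (algebraMap k _ (q i))
        rw [g.commutes, π.commutes, χ.commutes]
      · congr 1
        change π (g (algebraMap k _ (e i))) = χ (algebraMap k _ (e i))
        rw [g.commutes, π.commutes, χ.commutes]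
    exact DFunLike.congr_fun h0 F
  have hχinj : Function.Injective χ := by
    rw [injective_iff_map_eq_zero]
    intro p hp
    have h1 : ψ (Polynomial.aeval w p) = p := by
      rw [← Polynomial.aeval_algHom_apply, hψw, Polynomial.aeval_X_left, AlgHom.id_apply]
    have h2 := hχ (Polynomial.aeval w p)
    rw [h1, hp, hπ0, hQ, h1] at h2
    exact h2
  have hχi : (χ : Polynomial k →+* B ⧸ Q₀).IsIntegral := by
    have h1 : (π : B →+* B ⧸ Q₀).IsIntegral :=
      RingHom.isIntegral_of_surjective _ Ideal.Quotient.mk_surjective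
    have h2 := RingHom.IsIntegral.trans _ _ hgi h1
    have h3 : (π : B →+* B ⧸ Q₀).comp (g : MvPolynomial (Fin (n + 1)) k →+* B) =
        (χ : Polynomial k →+* B ⧸ Q₀).comp (ψ : MvPolynomial (Fin (n + 1)) k →+* Polynomial k) := by
      ext F
      · exact congrArg _ rfl |>.trans (hχ (MvPolynomial.C F))
      · exact hχ _
    exact RingHom.IsIntegral.tower_top _ _ (h3 ▸ h2)
  obtain ⟨φ, hφ, hφt⟩ :=
    pt_embed (M := Om k) (Pool.Agent.VFP.tt_transc (k := k)) χ hχinj hχi
  let evC : (B ⧸ Q₀) →ₐ[k] k := Ideal.Quotient.liftₐ Q₀ ev (fun a ha => hQle ha)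
  obtain ⟨v, hv⟩ := pt_place φ hφ evC (b := χ Polynomial.X) (by
    rw [hφt]; exact Pool.Agent.VFP.tt_transc (k := k))
  refine ⟨φ.comp π, v, ?_, ?_⟩
  · intro b hb
    rw [AlgHom.comp_apply]
    apply hv
    change ev b = 0
    exact hb
  · intro h0
    rw [AlgHom.comp_apply] at h0
    have h1 : φ (π (g N)) = 0 := by
      rw [hNh, map_mul, map_mul, h0, zero_mul]
    rw [hχ] at h1
    have h2 : χ (ψ N) = 0 := hφ (by rw [h1, map_zero])
    exact hψN (hχinj (by rw [h2, map_zero]))

end Pool.Agent.CUB.FLN
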