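import Mathlib

/-!
# Integral extensions

`lift_ev`. With `B` as an `A`-algebra by `h`: `ker ev` is a maximal ideal of `A`, there is a prime
(maximal) ideal `Q` of `B` with `Q ∩ A = ker ev` (`Ideal.exists_ideal_over_maximal_of_isIntegral`
or the present name in `RingTheory/Ideal/GoingUp.lean`; it needs `ker (algebraMap A B) ≤ ker ev`,
the kernel is zero). `B ⧸ Q` is integral over `k`: an element is the class of `b`, integral over
`A`; reduce the coefficients of the monic equation with `ev` (`a - algebraMap k A (ev a) ∈ ker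
ev`). So `algebraMap k (B ⧸ Q)` is bijective (`IsAlgClosed.algebraMap_bijective_of_isIntegral`),
and `ev'` is its inverse composed with the quotient map.

`exists_mul_int`. `exists_integral_multiples` for the finite set of the `c j` gives `y : A`, `y ≠
0`, such that all `y • c j` are integral; `d` = the image of `y`.
-/

set_option autoImplicit false

noncomputable section

namespace Pool.Agent.CUB.FLN

open scoped Classical

theorem lift_ev {k : Type} [Field k] [IsAlgClosed k] {A B : Type} [CommRing A] [CommRing B]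
    [Algebra k A] [Algebra k B] (h : A →ₐ[k] B) (hh : Function.Injective h)
    (hi : (h : A →+* B).IsIntegral) (ev : A →ₐ[k] k) :
    ∃ ev' : B →ₐ[k] k, ∀ a, ev' (h a) = ev a := by
  let _ : Algebra A B := (h : A →+* B).toAlgebra
  have hint : Algebra.IsIntegral A B := ⟨hi⟩
  have hsurj : Function.Surjective (ev : A →+* k) := fun c =>
    ⟨algebraMap k A c, by
      change ev (algebraMap k A c) = c
      rw [ev.commutes]
      rfl⟩
  have hmax : (RingHom.ker (ev : A →+* k)).IsMaximal := RingHom.ker_isMaximal_of_surjective _ hsurj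
  have hle : RingHom.ker (algebraMap A B) ≤ RingHom.ker (ev : A →+* k) := by
    have h1 : RingHom.ker (algebraMap A B) = ⊥ := (RingHom.injective_iff_ker_eq_bot _).1 hh
    rw [h1]
    exact bot_le
  obtain ⟨Q, hQm, hQ⟩ := Ideal.exists_ideal_over_maximal_of_isIntegral
    (RingHom.ker (ev : A →+* k)) hle
  have hcomp : ((algebraMap k (B ⧸ Q)).comp (ev : A →+* k)) =
      (Ideal.Quotient.mk Q).comp (h : A →+* B) := by
    ext a
    have h1 : a - algebraMap k A (ev a) ∈ RingHom.ker (ev : A →+* k) := by
      rw [RingHom.mem_ker]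
      change ev (a - algebraMap k A (ev a)) = 0
      rw [map_sub, ev.commutes]
      exact sub_self _
    rw [← hQ, Ideal.mem_comap] at h1
    have h2 : h (a - algebraMap k A (ev a)) ∈ Q := h1
    rw [map_sub, h.commutes] at h2
    have h3 := (Ideal.Quotient.eq (I := Q)).2 h2
    exact h3.symm
  have hint' : Algebra.IsIntegral k (B ⧸ Q) := by
    refine ⟨fun x => ?_⟩
    obtain ⟨b, rfl⟩ := Ideal.Quotient.mk_surjective x
    obtain ⟨p, hp, hpb⟩ := hi b
    refine ⟨p.map (ev : A →+* k), hp.map _, ?_⟩
    rw [Polynomial.eval₂_map, hcomp, ← Polynomial.hom_eval₂, hpb, map_zero]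
  have hdom : IsDomain (B ⧸ Q) := Ideal.Quotient.isDomain Q
  have hbij := IsAlgClosed.algebraMap_bijective_of_isIntegral (k := k) (K := B ⧸ Q)
  let φ : k ≃ₐ[k] (B ⧸ Q) := AlgEquiv.ofBijective (Algebra.ofId k (B ⧸ Q)) hbij
  refine ⟨(φ.symm : (B ⧸ Q) →ₐ[k] k).comp (Ideal.Quotient.mkₐ k Q), fun a => ?_⟩
  change φ.symm (Ideal.Quotient.mk Q (h a)) = ev a
  rw [AlgEquiv.symm_apply_eq]
  exact (RingHom.congr_fun hcomp a).symm

theorem exists_mul_int {A E : Type} [CommRing A] [IsDomain A] [Field E] [Algebra A E]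
    (hinj : Function.Injective (algebraMap A E)) (ha : ∀ x : E, IsAlgebraic A x) {n : ℕ}
    (c : Fin n → E) : ∃ d : E, d ≠ 0 ∧ ∀ j, IsIntegral A (d * c j) := by
  have halg : Algebra.IsAlgebraic A E := ⟨ha⟩
  obtain ⟨y, hy, hyc⟩ := Algebra.IsAlgebraic.exists_integral_multiples (R := A) (A := E)
    (Finset.univ.image c)
  refine ⟨algebraMap A E y, ?_, fun j => ?_⟩
  · intro h0
    apply hy
    apply hinj
    rw [h0, map_zero]
  · have h1 := hyc (c j) (Finset.mem_image_of_mem c (Finset.mem_univ j))
    rwa [Algebra.smul_def] at h1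

end Pool.Agent.CUB.FLN
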