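import Pool.Agent.FLN.PtA
import Pool.Agent.FLN.PtB
import Pool.Agent.FLN.PtC
import Pool.Agent.FLN.PtD

/-!
# Generic points and curve selection

Proof of `gen_point`. `exists_comp` gives `P`, `s`, `g`. Let `A = MvPolynomial ι k ⧸ P` (a
domain), `E = AlgebraicClosure (FractionRing A)`, `z i` = the image of `X i`, `t l` = the image of
`g (X l)`. So `aeval z x = 0` iff `x ∈ P` (for `x : MvPolynomial ι k`), this gives the equations
and the fifth clause. The `t l` are algebraically independent (`g` is injective), `E` is algebraic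
over `FractionRing A`, so over `A`, and `A` is integral over `g (MvPolynomial (Fin s) k)`, so `E`
is algebraic over `Algebra.adjoin k (range t)`; `t l` is in `Algebra.adjoin k (range z)`, the
image of `A`. `exists_derD` gives `D`.

Last clause. Let `n`, `c` be given. `exists_mul_int` (for `A → E`) gives `d`. Let `w = Sum.elim z
(d • c)`, `B` the range of `aeval w : MvPolynomial (ι ⊕ Fin n) k →ₐ[k] E` (a subalgebra of `E`).
`h : A →ₐ[k] B` is injective, and integral: `B` is generated by the `z i` and the `d * c j`, which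
are integral over `A` (`Algebra.IsIntegral.adjoin` or: the integral closure of `A` in `E` is a
subring which contains all `w i`). Let `ev : A →ₐ[k] k`, `X i ↦ p i` (`Ideal.Quotient.liftₐ`, by
the third clause of `exists_comp`), `ev'` from `lift_ev`. Let `γ : B` be `aeval w g`, it is not
zero. `curve_dom` for `B`, `h.comp g`, `ev'`, `γ` gives `φ : B →ₐ[k] Om k` and `V`. The point is
`s i = φ (w i)` (as elements of `B`). `aeval s x = φ (aeval w x)`. `V.At (s (inl i)) (p i)`: `ev'`
of `w (inl i) - p i` is zero.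
-/

set_option autoImplicit false

noncomputable section

namespace Pool.Agent.CUB.FLN

open Pool.Agent.ZCyc Pool.Agent.Dess Pool.Agent.GT Module
open Pool.Agent.VFP (Om tt)
open scoped Classical

variable {k : Type} [Field k] [IsAlgClosed k] [CharZero k]

private lemma pt_alg {k : Type} [Field k] {A E : Type} [CommRing A] [IsDomain A] [Algebra k A]
    [Field E] [Algebra k E] [Algebra A E] [IsScalarTower k A E] {s : ℕ}
    (hinj : Function.Injective (algebraMap A E)) (ha : ∀ x : E, IsAlgebraic A x)
    (g : MvPolynomial (Fin s) k →ₐ[k] A)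
    (hg : Function.Injective g) (hgi : (g : MvPolynomial (Fin s) k →+* A).IsIntegral) :
    AlgebraicIndependent k (fun l => algebraMap A E (g (MvPolynomial.X l))) ∧
    ∀ x : E, IsAlgebraic (Algebra.adjoin k (Set.range
      (fun l => algebraMap A E (g (MvPolynomial.X l))))) x := by
  have h1 : MvPolynomial.aeval (R := k) (fun l => algebraMap A E (g (MvPolynomial.X l))) =
      (IsScalarTower.toAlgHom k A E).comp g := by
    apply MvPolynomial.algHom_ext
    intro i
    simp
  have ht : AlgebraicIndependent k (fun l => algebraMap A E (g (MvPolynomial.X l))) := by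
    unfold AlgebraicIndependent
    rw [h1]
    exact hinj.comp hg
  refine ⟨ht, fun x => ?_⟩
  let _ : Algebra (MvPolynomial (Fin s) k) A := (g : MvPolynomial (Fin s) k →+* A).toAlgebra
  let _ : Algebra (MvPolynomial (Fin s) k) E :=
    ((algebraMap A E).comp (g : MvPolynomial (Fin s) k →+* A)).toAlgebra
  have _ : IsScalarTower (MvPolynomial (Fin s) k) A E := IsScalarTower.of_algebraMap_eq' rfl
  have _ : Algebra.IsIntegral (MvPolynomial (Fin s) k) A := ⟨hgi⟩
  have _ : Algebra.IsAlgebraic A E := ⟨ha⟩
  have _ : Algebra.IsAlgebraic (MvPolynomial (Fin s) k) E := Algebra.IsAlgebraic.trans _ A E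
  obtain ⟨q, hq, hqx⟩ := Algebra.IsAlgebraic.isAlgebraic (R := MvPolynomial (Fin s) k) x
  refine ⟨q.map (ht.aevalEquiv : MvPolynomial (Fin s) k →+* _), ?_, ?_⟩
  · exact (Polynomial.map_ne_zero_iff ht.aevalEquiv.injective).2 hq
  · have h2 : (algebraMap (Algebra.adjoin k (Set.range
        (fun l => algebraMap A E (g (MvPolynomial.X l))))) E).comp
        (ht.aevalEquiv : MvPolynomial (Fin s) k →+* _) =
        algebraMap (MvPolynomial (Fin s) k) E := by
      refine RingHom.ext fun y => ?_
      have h3 := ht.algebraMap_aevalEquiv y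
      rw [h1] at h3
      exact h3
    rw [Polynomial.aeval_def, Polynomial.eval₂_map, h2, ← Polynomial.aeval_def, hqx]

private lemma pt_curve {ι A E : Type} [CommRing A] [IsDomain A] [Algebra k A]
    [Field E] [Algebra k E] [Algebra A E] [IsScalarTower k A E] {s : ℕ}
    (hinj : Function.Injective (algebraMap A E))
    (g : MvPolynomial (Fin s) k →ₐ[k] A)
    (hg : Function.Injective g) (hgi : (g : MvPolynomial (Fin s) k →+* A).IsIntegral)
    (q : MvPolynomial ι k →ₐ[k] A) (hq : Function.Surjective q) (ev : A →ₐ[k] k) (z : ι → E)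
    (hz : ∀ i, z i = algebraMap A E (q (MvPolynomial.X i))) {n : ℕ} (c : Fin n → E)
    (hc : ∀ j, IsIntegral A (c j)) (G : MvPolynomial (ι ⊕ Fin n) k)
    (hG : MvPolynomial.aeval (Sum.elim z c) G ≠ 0) :
    ∃ (s : ι ⊕ Fin n → Om k) (V : Place k (Om k)),
      (∀ i, V.At (s (Sum.inl i)) (ev (q (MvPolynomial.X i)))) ∧
      (∀ P : MvPolynomial (ι ⊕ Fin n) k, MvPolynomial.aeval (Sum.elim z c) P = 0 →
        MvPolynomial.aeval s P = 0) ∧ MvPolynomial.aeval s G ≠ 0 := by
  set Φ : MvPolynomial (ι ⊕ Fin n) k →ₐ[k] E := MvPolynomial.aeval (Sum.elim z c) with hΦ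
  have hzz : ∀ x : MvPolynomial ι k, Φ (MvPolynomial.rename Sum.inl x) = algebraMap A E (q x) := by
    intro x
    have h1 : Φ.comp (MvPolynomial.rename Sum.inl) = (IsScalarTower.toAlgHom k A E).comp q := by
      apply MvPolynomial.algHom_ext
      intro i
      simp [hΦ, hz i]
    exact DFunLike.congr_fun h1 x
  have hmem : ∀ a : A, (IsScalarTower.toAlgHom k A E) a ∈ Φ.range := by
    intro a
    obtain ⟨x, rfl⟩ := hq a
    exact ⟨MvPolynomial.rename Sum.inl x, hzz x⟩
  let h : A →ₐ[k] Φ.range := (IsScalarTower.toAlgHom k A E).codRestrict Φ.range hmem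
  have hval : ∀ a, ((h a : Φ.range) : E) = algebraMap A E a := fun a => rfl
  have hh : Function.Injective h := by
    intro a b hab
    apply hinj
    rw [← hval, ← hval, hab]
  have hint : ∀ x : MvPolynomial (ι ⊕ Fin n) k, IsIntegral A (Φ x) := by
    intro x
    have h1 : Φ.range ≤ (integralClosure A E).restrictScalars k := by
      rw [hΦ, ← Algebra.adjoin_range_eq_range_aeval]
      apply Algebra.adjoin_le
      rintro y ⟨i, rfl⟩
      cases i with
      | inl i =>
        rw [Sum.elim_inl, hz i]
        exact isIntegral_algebraMap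
      | inr j =>
        rw [Sum.elim_inr]
        exact hc j
    exact h1 ⟨x, rfl⟩
  have hi : (h : A →+* Φ.range).IsIntegral := by
    rintro ⟨b, x, rfl⟩
    obtain ⟨F, hF, hFx⟩ := hint x
    refine ⟨F, hF, ?_⟩
    apply Subtype.ext
    have h2 := Polynomial.hom_eval₂ F (h : A →+* Φ.range) (Φ.range.val : Φ.range →+* E)
      ⟨Φ x, x, rfl⟩
    exact h2.trans hFx
  obtain ⟨ev', hev'⟩ := lift_ev h hh hi ev
  let γ : Φ.range := Φ.rangeRestrict G
  have hγ : γ ≠ 0 := by
    intro h0
    apply hG
    have := congrArg (fun y : Φ.range => (y : E)) h0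
    exact this
  obtain ⟨φ, V, hφ, hne⟩ := curve_dom (h.comp g) (hh.comp hg) (RingHom.IsIntegral.trans _ _ hgi hi)
    ev' hγ
  have hcomp : MvPolynomial.aeval (fun i => φ (Φ.rangeRestrict (MvPolynomial.X i))) =
      φ.comp Φ.rangeRestrict := by
    apply MvPolynomial.algHom_ext
    intro i
    simp
  refine ⟨fun i => φ (Φ.rangeRestrict (MvPolynomial.X i)), V, fun i => ?_, fun P hP => ?_, ?_⟩
  · have h3 : h (q (MvPolynomial.X i)) = Φ.rangeRestrict (MvPolynomial.X (Sum.inl i)) := by
      apply Subtype.ext
      rw [hval, ← hzz]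
      simp
    have h4 : ev' (Φ.rangeRestrict (MvPolynomial.X (Sum.inl i)) -
        algebraMap k Φ.range (ev (q (MvPolynomial.X i)))) = 0 := by
      rw [map_sub, ← h3, hev', ev'.commutes]
      exact sub_self _
    have h5 := hφ _ h4
    rw [Place.at_zero_iff, map_sub, φ.commutes] at h5
    exact h5
  · rw [hcomp]
    have h6 : Φ.rangeRestrict P = 0 := Subtype.ext hP
    rw [AlgHom.comp_apply, h6, map_zero]
  · rw [hcomp]
    exact hne

/-- The generic point `z` (coordinates in an algebraically closed field `E`) of a component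
through the point `p` of the set of solutions of the equations `f i`: it moves in at least `#ι -
#κ` directions; all equations which hold at `z` hold at `p`; for every vector `c` over `E` there
is a multiple `d c` such that for every polynomial `g` which is not zero at `(z, d c)` there is a
curve (point `s` with coordinates in `Om k`, place `V`), which satisfies all equations of `(z, d
c)`, on which `g` is not zero, and `z`-part of which has the value `p` at `V`. -/
theorem gen_point {ι κ : Type} [Fintype ι] [Fintype κ] (f : κ → MvPolynomial ι k) (p : ι → k)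
    (h0 : ∀ i, MvPolynomial.eval p (f i) = 0) :
    ∃ (E : Type) (_ : Field E) (_ : Algebra k E) (_ : IsAlgClosed E) (z : ι → E)
      (D : Submodule E (Derivation k E E)), FiniteDimensional E D ∧
      (∀ i, MvPolynomial.aeval z (f i) = 0) ∧ Fintype.card ι ≤ finrank E D + Fintype.card κ ∧
      (∀ δ ∈ D, (∀ i, δ (z i) = 0) → δ = 0) ∧
      (∀ P : MvPolynomial ι k, MvPolynomial.aeval z P = 0 → MvPolynomial.eval p P = 0) ∧
      ∀ (n : ℕ) (c : Fin n → E), ∃ d : E, d ≠ 0 ∧ ∀ g : MvPolynomial (ι ⊕ Fin n) k,
        MvPolynomial.aeval (Sum.elim z (d • c)) g ≠ 0 →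
        ∃ (s : ι ⊕ Fin n → Om k) (V : Place k (Om k)), (∀ i, V.At (s (Sum.inl i)) (p i)) ∧
          (∀ P : MvPolynomial (ι ⊕ Fin n) k, MvPolynomial.aeval (Sum.elim z (d • c)) P = 0 →
            MvPolynomial.aeval s P = 0) ∧ MvPolynomial.aeval s g ≠ 0 := by
  obtain ⟨P, s, g, hP, hfP, hPp, hg, hgi, hcard⟩ := exists_comp f p h0
  let A := MvPolynomial ι k ⧸ P
  have hdom : IsDomain A := Ideal.Quotient.isDomain P
  let E := AlgebraicClosure (FractionRing A)
  have hinj : Function.Injective (algebraMap A E) := by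
    rw [IsScalarTower.algebraMap_eq A (FractionRing A) E]
    exact (algebraMap (FractionRing A) E).injective.comp (IsFractionRing.injective A _)
  have ha : ∀ x : E, IsAlgebraic A x := by
    intro x
    rw [IsFractionRing.isAlgebraic_iff A (FractionRing A) E]
    exact Algebra.IsAlgebraic.isAlgebraic x
  let z : ι → E := fun i => algebraMap A E (Ideal.Quotient.mkₐ k P (MvPolynomial.X i))
  have hzP : ∀ x : MvPolynomial ι k, MvPolynomial.aeval z x =
      algebraMap A E (Ideal.Quotient.mkₐ k P x) := by
    intro x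
    have h1 : MvPolynomial.aeval z =
        (IsScalarTower.toAlgHom k A E).comp (Ideal.Quotient.mkₐ k P) := by
      apply MvPolynomial.algHom_ext
      intro i
      rw [MvPolynomial.aeval_X]
      rfl
    exact DFunLike.congr_fun h1 x
  have hzero : ∀ x : MvPolynomial ι k, MvPolynomial.aeval z x = 0 ↔ x ∈ P := by
    intro x
    rw [hzP, map_eq_zero_iff _ hinj]
    exact Ideal.Quotient.eq_zero_iff_mem
  obtain ⟨ht, hta⟩ := pt_alg hinj ha g hg hgi
  obtain ⟨D, hD1, hD2, hD3⟩ := exists_derD ht hta z (by
    intro l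
    rw [Algebra.adjoin_range_eq_range_aeval]
    obtain ⟨x, hx⟩ := Ideal.Quotient.mkₐ_surjective k P (g (MvPolynomial.X l))
    exact ⟨x, by rw [← hx]; exact hzP x⟩)
  refine ⟨E, inferInstance, inferInstance, inferInstance, z, D, hD1, fun i => (hzero _).2 (hfP i),
    by omega, hD3, fun x hx => hPp x ((hzero x).1 hx), fun n c => ?_⟩
  obtain ⟨d, hd, hdc⟩ := exists_mul_int hinj ha c
  refine ⟨d, hd, fun G hG => ?_⟩
  let ev : A →ₐ[k] k := Ideal.Quotient.liftₐ P (MvPolynomial.aeval p) (by
    intro a haP
    exact hPp a haP)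
  have hev : ∀ i, ev (Ideal.Quotient.mkₐ k P (MvPolynomial.X i)) = p i := by
    intro i
    change MvPolynomial.aeval p (MvPolynomial.X i) = p i
    simp
  obtain ⟨σ, V, h1, h2, h3⟩ := pt_curve hinj g hg hgi (Ideal.Quotient.mkₐ k P)
    (Ideal.Quotient.mkₐ_surjective k P) ev z (fun i => rfl) (d • c) hdc G hG
  exact ⟨σ, V, fun i => by rw [← hev i]; exact h1 i, h2, h3⟩

end Pool.Agent.CUB.FLN
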