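import Pool.Agent.FLN.Defs

/-!
# The operation of a system of lines `y` on cycles of systems of lines
-/

set_option autoImplicit false

noncomputable section

namespace Pool.Agent.CUB.FLN

open Pool.Agent.ZCyc Pool.Agent.Dess Pool.Agent.GT
open Pool.Agent.VFP (Om tt)
open scoped Classical

variable {k : Type} [Field k] [IsAlgClosed k] [CharZero k] {F : MvPolynomial (Fin 6) k}

/-- the image of the system of lines `x` under `x ↦ ph (x 0) (y 0) × .. × ph (x (n - 1)) (y (n - 1))` -/
def psi (hF : Smooth F) {n : ℕ} (y : Fin n → Ln F k) :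
    ((Fin n → Ln F k) →₀ ℚ) →ₗ[ℚ] CH (PX F) (Fin n) :=
  Finsupp.lsum ℚ fun x => (LinearMap.toSpanSingleton ℚ _ (Ext (hom_PX hF) n fun j =>
    ph hF (x j) (y j)))

theorem psi_single (hF : Smooth F) {n : ℕ} (y x : Fin n → Ln F k) (a : ℚ) :
    psi hF y (Finsupp.single x a) = a • Ext (hom_PX hF) n fun j => ph hF (x j) (y j) := by
  unfold psi
  rw [Finsupp.lsum_single, LinearMap.toSpanSingleton_apply]

theorem psi_apply (hF : Smooth F) {n : ℕ} (y : Fin n → Ln F k) (r : (Fin n → Ln F k) →₀ ℚ) :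
    psi hF y r = r.sum fun x a => a • Ext (hom_PX hF) n fun j => ph hF (x j) (y j) := by
  unfold psi
  rw [Finsupp.lsum_apply]
  rfl

end Pool.Agent.CUB.FLN
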