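import Pool.Agent.FLN.PtH

/-!
# A component of large dimension through a point

`exists_comp`. Let `R = MvPolynomial ι k`, `m = ker (aeval p)`, `I = span (range f) ≤ m`. By
`Ideal.height_le_height_add_spanFinrank_of_le` (file `RingTheory/Ideal/KrullsHeightTheorem.lean`)
`height m ≤ height (m.map (Quotient.mk I)) + spanFinrank I`, and `spanFinrank I ≤ #κ`
(`Submodule.spanFinrank_span_le_encard` or `Submodule.spanFinrank_span_le_ncard_of_finite`). Let
`h ≥ #ι - #κ` be the height of the prime ideal `m / I` of `R / I`: there is a chain of prime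
ideals of `R / I` of length `h` which ends with it (`Ideal.exists_ltSeries_length_eq_height`). Let
`P` be the preimage in `R` of its first element, so `I ≤ P ≤ m`. All elements of the chain contain
the first one, so we get a chain of length `h` in `R / P` (`PrimeSpectrum.comap` of `R / I → (R /
I) / P₀` and `Ideal.Quotient`; or: the preimages in `R` form a chain of prime ideals containing
`P`, map them to `R / P`), hence `h ≤ ringKrullDim (R / P)`. By `exists_integral_inj_algHom_of_fg`
there are `s` and `g`, and `ringKrullDim (R / P) ≤ ringKrullDim (MvPolynomial (Fin s) k) = s` by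
`dim_le`.
-/

set_option autoImplicit false

noncomputable section

namespace Pool.Agent.CUB.FLN

open scoped Classical

private theorem comap_mk_lt_PtA {R : Type} [CommRing R] (I : Ideal R)
    {a b : PrimeSpectrum (R ⧸ I)} (h : a < b) :
    PrimeSpectrum.comap (Ideal.Quotient.mk I) a < PrimeSpectrum.comap (Ideal.Quotient.mk I) b := by
  rw [← PrimeSpectrum.asIdeal_lt_asIdeal] at h ⊢
  rw [PrimeSpectrum.comap_asIdeal, PrimeSpectrum.comap_asIdeal]
  exact lt_of_le_of_ne (Ideal.comap_mono h.le) fun e =>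
    h.ne (Ideal.comap_injective_of_surjective _ Ideal.Quotient.mk_surjective e)

theorem exists_comp {k : Type} [Field k] [IsAlgClosed k] {ι κ : Type} [Fintype ι] [Fintype κ]
    (f : κ → MvPolynomial ι k) (p : ι → k) (h0 : ∀ i, MvPolynomial.eval p (f i) = 0) :
    ∃ (P : Ideal (MvPolynomial ι k)) (s : ℕ)
      (g : MvPolynomial (Fin s) k →ₐ[k] (MvPolynomial ι k ⧸ P)), P.IsPrime ∧ (∀ i, f i ∈ P) ∧
      (∀ x ∈ P, MvPolynomial.eval p x = 0) ∧ Function.Injective g ∧
      (g : MvPolynomial (Fin s) k →+* (MvPolynomial ι k ⧸ P)).IsIntegral ∧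
      Fintype.card ι ≤ s + Fintype.card κ := by
  set m : Ideal (MvPolynomial ι k) :=
    RingHom.ker (MvPolynomial.aeval p : MvPolynomial ι k →ₐ[k] k) with hm
  have hmem : ∀ x, x ∈ m ↔ MvPolynomial.eval p x = 0 := by
    intro x
    rw [hm, RingHom.mem_ker, MvPolynomial.aeval_eq_eval]
  have hmp : m.IsPrime := RingHom.ker_isPrime _
  set I : Ideal (MvPolynomial ι k) := Ideal.span (Set.range f) with hI
  have hfm : Set.range f ⊆ m := by
    rintro _ ⟨i, rfl⟩
    exact (hmem _).2 (h0 i)
  have hIm : I ≤ m := Ideal.span_le.2 hfm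
  have h1 := Ideal.height_le_height_add_encard_of_subset (Set.range f) hfm
  have hp' : (m.map (Ideal.Quotient.mk I)).IsPrime := Ideal.isPrime_map_quotientMk_of_isPrime hIm
  obtain ⟨l, hlast, hlen⟩ := (m.map (Ideal.Quotient.mk I)).exists_ltSeries_length_eq_height
  set P₀ : PrimeSpectrum (MvPolynomial ι k ⧸ I) := l.head with hP₀
  set P : PrimeSpectrum (MvPolynomial ι k) :=
    PrimeSpectrum.comap (Ideal.Quotient.mk I) P₀ with hP
  have hPmem : ∀ x, x ∈ P.asIdeal ↔ Ideal.Quotient.mk I x ∈ P₀.asIdeal := fun x => Iff.rfl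
  have hhead : ∀ i, P₀ ≤ l i := fun i => l.head_le i
  have hdim : ((l.length : ℕ∞) : WithBot ℕ∞) ≤ ringKrullDim (MvPolynomial ι k ⧸ P.asIdeal) := by
    rw [ringKrullDim_quotient]
    let l' : LTSeries (PrimeSpectrum.zeroLocus (R := MvPolynomial ι k) P.asIdeal) :=
      LTSeries.mk l.length
        (fun i => ⟨PrimeSpectrum.comap (Ideal.Quotient.mk I) (l i), fun x hx => hhead i hx⟩)
        (fun i j hij => comap_mk_lt_PtA I (l.strictMono hij))
    exact Order.LTSeries.length_le_krullDim l'
  have hne : Nontrivial (MvPolynomial ι k ⧸ P.asIdeal) := Ideal.Quotient.nontrivial_iff.2 P.2.ne_top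
  obtain ⟨s, g, hg, hgi⟩ :=
    exists_integral_inj_algHom_of_fg k (MvPolynomial ι k ⧸ P.asIdeal)
  have h2 : ringKrullDim (MvPolynomial ι k ⧸ P.asIdeal) ≤ ringKrullDim (MvPolynomial (Fin s) k) :=
    dim_le _ hgi
  have h3 : ringKrullDim (MvPolynomial (Fin s) k) = ((s : ℕ∞) : WithBot ℕ∞) := by
    rw [MvPolynomial.ringKrullDim_of_isNoetherianRing, ringKrullDim_eq_zero_of_field, zero_add,
      Nat.card_eq_fintype_card, Fintype.card_fin]
    rfl
  have h4 : l.length ≤ s := by
    have h5 := hdim.trans (h2.trans_eq h3)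
    exact_mod_cast WithBot.coe_le_coe.1 h5
  have h5 : (Set.range f).encard ≤ Fintype.card κ := by
    rw [← Set.image_univ]
    refine (Set.encard_image_le _ _).trans ?_
    rw [Set.encard_univ, ENat.card_eq_coe_fintype_card]
  have h6 : (Fintype.card ι : ℕ∞) ≤ (s : ℕ∞) + Fintype.card κ := by
    rw [← height_pt p]
    refine h1.trans (add_le_add ?_ h5)
    rw [← hI, ← hlen]
    exact_mod_cast h4
  refine ⟨P.asIdeal, s, g, P.2, fun i => ?_, fun x hx => ?_, hg, hgi, ?_⟩
  · rw [hPmem]
    have h7 : Ideal.Quotient.mk I (f i) = 0 :=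
      Ideal.Quotient.eq_zero_iff_mem.2 (Ideal.subset_span ⟨i, rfl⟩)
    rw [h7]
    exact Ideal.zero_mem _
  · rw [← hmem]
    have h7 : P₀ ≤ ⟨m.map (Ideal.Quotient.mk I), hp'⟩ := by
      have h8 := l.head_le_last
      rw [hlast] at h8
      exact h8
    have h8 : Ideal.Quotient.mk I x ∈ m.map (Ideal.Quotient.mk I) := h7 ((hPmem x).1 hx)
    rw [Ideal.mem_map_iff_of_surjective _ Ideal.Quotient.mk_surjective] at h8
    obtain ⟨y, hy, hxy⟩ := h8
    have h9 : y - x ∈ I := Ideal.Quotient.eq.1 hxy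
    have h10 : x = y - (y - x) := by ring
    rw [h10]
    exact m.sub_mem hy (hIm h9)
  · exact_mod_cast h6

end Pool.Agent.CUB.FLN
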