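import Mathlib

/-!
# Heights and dimensions

`height_pt`. `MvPolynomial.ringKrullDim_of_isNoetherianRing`: the dimension is `#ι`; there is a
maximal ideal of this height (`Ideal.exists_isMaximal_height`), it is the ideal of a point `a`
(`MvPolynomial.isMaximal_iff_eq_vanishingIdeal_singleton`), exactly as in the beginning of the
proof of `Pool.Agent.ZIso.exists_ne_zero` (file `ZIso/Krull.lean`; copy it). The automorphism `X i
↦ X i + a i - p i` (an `AlgEquiv`) transforms the ideal of `p` into the ideal of `a`, and heights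
are preserved by isomorphisms (`RingEquiv.height_comap` or similar).

`dim_le`. `Order.krullDim_le_of_strictMono` for `PrimeSpectrum.comap g`; strict monotonicity is
incomparability (`Ideal.IsIntegral.comap_lt_comap`, file `RingTheory/Ideal/GoingUp.lean`), with
`algebraize` / `RingHom.toAlgebra`.
-/

set_option autoImplicit false

noncomputable section

namespace Pool.Agent.CUB.FLN

open scoped Classical

/-- the translation by `p` -/
private def tr {k : Type} [Field k] {ι : Type} (p : ι → k) :
    MvPolynomial ι k →ₐ[k] MvPolynomial ι k :=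
  MvPolynomial.aeval fun i => MvPolynomial.X i + MvPolynomial.C (p i)

private lemma tr_tr {k : Type} [Field k] {ι : Type} (p q : ι → k) (h : ∀ i, p i + q i = 0) :
    (tr p).comp (tr q) = AlgHom.id k (MvPolynomial ι k) := by
  apply MvPolynomial.algHom_ext
  intro i
  simp only [tr, AlgHom.comp_apply, MvPolynomial.aeval_X, map_add, AlgHom.coe_id, id_eq]
  rw [MvPolynomial.algHom_C, MvPolynomial.algebraMap_eq, add_assoc, ← MvPolynomial.C_add, h,
    MvPolynomial.C_0, add_zero]

/-- the translation by `p` as an isomorphism -/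
private def trE {k : Type} [Field k] {ι : Type} (p : ι → k) :
    MvPolynomial ι k ≃ₐ[k] MvPolynomial ι k :=
  AlgEquiv.ofAlgHom (tr p) (tr (-p)) (tr_tr _ _ fun i => by simp) (tr_tr _ _ fun i => by simp)

private lemma aeval_trE {k : Type} [Field k] {ι : Type} (p q : ι → k) (f : MvPolynomial ι k) :
    (MvPolynomial.aeval q : MvPolynomial ι k →ₐ[k] k) (trE p f) =
      (MvPolynomial.aeval (q + p) : MvPolynomial ι k →ₐ[k] k) f := by
  have h : (MvPolynomial.aeval q : MvPolynomial ι k →ₐ[k] k).comp (tr p) =
      (MvPolynomial.aeval (q + p) : MvPolynomial ι k →ₐ[k] k) := by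
    apply MvPolynomial.algHom_ext
    intro i
    simp [tr]
  exact DFunLike.congr_fun h f

private lemma height_eq {k : Type} [Field k] {ι : Type} (p q : ι → k) :
    (RingHom.ker (MvPolynomial.aeval p : MvPolynomial ι k →ₐ[k] k)).height =
    (RingHom.ker (MvPolynomial.aeval q : MvPolynomial ι k →ₐ[k] k)).height := by
  rw [← RingEquiv.height_comap (trE (p - q)).toRingEquiv
    (RingHom.ker (MvPolynomial.aeval q : MvPolynomial ι k →ₐ[k] k))]
  congr 1
  ext f
  rw [Ideal.mem_comap, RingHom.mem_ker, RingHom.mem_ker]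
  have h := aeval_trE (p - q) q f
  rw [add_sub_cancel] at h
  rw [← h]
  rfl

/-- the ideals of points have the full height -/
theorem height_pt {k : Type} [Field k] [IsAlgClosed k] {ι : Type} [Fintype ι] (p : ι → k) :
    (RingHom.ker (MvPolynomial.aeval p : MvPolynomial ι k →ₐ[k] k)).height =
      (Fintype.card ι : ℕ∞) := by
  have hdim : ringKrullDim (MvPolynomial ι k) = (Fintype.card ι : WithBot ℕ∞) := by
    rw [MvPolynomial.ringKrullDim_of_isNoetherianRing, ringKrullDim_eq_zero_of_field, zero_add,
      Nat.card_eq_fintype_card]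
  have : FiniteRingKrullDim (MvPolynomial ι k) := by
    rw [finiteRingKrullDim_iff_ne_bot_and_top, hdim]
    exact ⟨WithBot.natCast_ne_bot _, fun h => by
      have : ((Fintype.card ι : ℕ∞) : WithBot ℕ∞) = ((⊤ : ℕ∞) : WithBot ℕ∞) := h
      exact ENat.natCast_ne_top _ (WithBot.coe_injective this)⟩
  obtain ⟨m, hm, hht⟩ := Ideal.exists_isMaximal_height (R := MvPolynomial ι k)
  obtain ⟨a, ha⟩ := MvPolynomial.isMaximal_iff_eq_vanishingIdeal_singleton.1 hm
  have h1 : m = RingHom.ker (MvPolynomial.aeval a : MvPolynomial ι k →ₐ[k] k) := by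
    rw [ha]
    ext f
    rw [MvPolynomial.mem_vanishingIdeal_singleton_iff, RingHom.mem_ker]
  rw [h1, hdim] at hht
  rw [height_eq p a]
  have h2 : (((RingHom.ker (MvPolynomial.aeval a : MvPolynomial ι k →ₐ[k] k)).height : ℕ∞) :
    WithBot ℕ∞) = ((Fintype.card ι : ℕ∞) : WithBot ℕ∞) := hht
  exact WithBot.coe_injective h2

/-- an integral ring does not have a larger dimension -/
theorem dim_le {A B : Type} [CommRing A] [CommRing B] (g : A →+* B) (hg : g.IsIntegral) :
    ringKrullDim B ≤ ringKrullDim A := by
  let _ := g.toAlgebra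
  have : Algebra.IsIntegral A B := ⟨fun x => hg x⟩
  refine Order.krullDim_le_of_strictMono (PrimeSpectrum.comap g) ?_
  intro I J hIJ
  have h1 : I.asIdeal < J.asIdeal := hIJ
  have h2 : I.asIdeal.comap (algebraMap A B) < J.asIdeal.comap (algebraMap A B) :=
    Ideal.IsIntegral.comap_lt_comap h1
  exact h2

end Pool.Agent.CUB.FLN
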