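import Pool.Agent.FLN.Psi
import Pool.Agent.FLN.PhCyc
import Pool.Agent.FLN.DvLim

/-!
# The generators of `Rat` (package RatG)

PROOF. `D = 0` is trivial. Otherwise let `v₀ ∈ D.support`, `σ : K →ₐ[k] Om k` with a place `V₀` above `v₀`
(`exists_embed`). Let `x' j` be the image of `x j` over `Om k` (`exists_map`), `Y' j` the constant line
`Y j` over `Om k` (`exists_base`). For `V` above `v` the value of `x' j` at `V` is `y v j` (`val_map`), the
value of `Y' j` is `Y j`. `Vg (x' j) (Y' j)` by `vg_at` at `V₀`. Take `Z` from `exists_ph_cyc` and apply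
`dv_lim` with `C v = Ext _ n fun j => ph hF (y v j) (Y j)`; the sum in question is `D.sum fun v a => a • C v`
by linearity (`psi_single`).
-/

set_option autoImplicit false

noncomputable section

namespace Pool.Agent.CUB.FLN

open Pool.Agent.ZCyc Pool.Agent.Dess Pool.Agent.GT
open Pool.Agent.VFP (Om tt)
open scoped Classical

variable {k : Type} [Field k] [IsAlgClosed k] [CharZero k] {F : MvPolynomial (Fin 6) k}

theorem psi_rat (hF : Smooth F) {n : ℕ} {K : Type} [Field K] [Algebra k K] (hK : IsCurve k K)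
    (x : Fin n → Ln F K) (y : Place k K → Fin n → Ln F k) {f : K} (hf : f ≠ 0)
    {D : Place k K →₀ ℤ} (hD : ∀ v, HasOrd v f (D v)) (hy : ∀ v j, IsVal v (x j) (y v j))
    {Y : Fin n → Ln F k} (h : ∀ v ∈ D.support, ∀ j, Vg (y v j) (Y j)) :
    psi hF Y (D.sum fun v a => Finsupp.single (y v) (a : ℚ)) = 0 := by
  have : HasRes k K := hasRes_of_isCurve hK
  have hsum : psi hF Y (D.sum fun v a => Finsupp.single (y v) (a : ℚ)) =
      D.sum fun v a => (a : ℚ) • Ext (hom_PX hF) n fun j => ph hF (y v j) (Y j) := by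
    unfold Finsupp.sum
    rw [map_sum]
    exact Finset.sum_congr rfl fun v _ => psi_single hF Y (y v) _
  rw [hsum]
  by_cases hD0 : D = 0
  · rw [hD0, Finsupp.sum_zero_index]
  obtain ⟨v₀, hv₀⟩ := Finsupp.support_nonempty_iff.2 hD0
  obtain ⟨σ, V₀, hV₀⟩ := exists_embed hK v₀
  choose x' hx' using fun j => exists_map hF σ (x j)
  choose Y' _ hYv using fun j => exists_base hF (Om k) (Y j)
  have hVg : ∀ j, Vg (x' j) (Y' j) := fun j =>
    vg_at hF (val_map hF hV₀ (hx' j) (hy v₀ j)) (hYv j V₀) (h v₀ hv₀ j)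
  obtain ⟨Z, hZ⟩ := exists_ph_cyc hF x' Y' hVg
  exact dv_lim (hom_PX hF) hK σ Z hf hD
    (fun v => Ext (hom_PX hF) n fun j => ph hF (y v j) (Y j))
    fun v hv V hV => hZ V (y v) Y (fun j => val_map hF hV (hx' j) (hy v j))
      (fun j => hYv j V) (h v hv)

end Pool.Agent.CUB.FLN
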