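import Pool.Agent.CUB.Defs
import Pool.Agent.CUB.PluC
import Pool.Agent.CUB.RelA

/-!
# Rational equivalence on the powers of the variety of lines (package RatM)

PROOF of `rat_pow`: as `rat_fin` in `CUB/RelA.lean` (`pe_val`).
-/

set_option autoImplicit false

noncomputable section

namespace Pool.Agent.CUB.FLN

open Pool.Agent.ZCyc Pool.Agent.Dess Pool.Agent.GT
open Pool.Agent.VFP (Om tt)
open scoped Classical

variable {k : Type} [Field k] {F : MvPolynomial (Fin 6) k}

/-- Rational equivalence of zero-cycles on the `N`-th power of `V ^ m`, where `V` is the variety of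
lines: `K` is the function field of a curve, `x` a family of systems of lines over this curve, `y v` its
value at the point `v` of the curve, `D` the divisor of the function `f`. -/
def RatM (F : MvPolynomial (Fin 6) k) (N m : ℕ) :
    Submodule ℚ ((Fin N → Fin m → Ln F k) →₀ ℚ) :=
  Submodule.span ℚ {z | ∃ (K : Type) (_ : Field K) (_ : Algebra k K) (_ : IsCurve k K)
    (x : Fin N → Fin m → Ln F K) (y : Place k K → Fin N → Fin m → Ln F k) (f : K)
    (D : Place k K →₀ ℤ), f ≠ 0 ∧ (∀ v, HasOrd v f (D v)) ∧
    (∀ v i j, IsVal v (x i j) (y v i j)) ∧ z = D.sum fun v a => Finsupp.single (y v) (a : ℚ)}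

/-- rational equivalences in the Chow group of the product of `N * m` copies of `V` -/
theorem rat_pow [IsAlgClosed k] [CharZero k] (hF : Smooth F) {N m : ℕ}
    {z : (Fin (N * m) → Pt (PX F) k) →₀ ℚ} (hz : z ∈ GT.Rat (PX F) (Fin (N * m))) :
    Finsupp.mapDomain (fun x i a => pe hF k (x (finProdFinEquiv (i, a)))) z ∈ RatM F N m := by
  have hle : GT.Rat (PX F) (Fin (N * m)) ≤ Submodule.comap (Finsupp.lmapDomain ℚ ℚ
      fun (x : Fin (N * m) → Pt (PX F) k) (i : Fin N) (a : Fin m) =>
        pe hF k (x (finProdFinEquiv (i, a)))) (RatM F N m) := by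
    refine Submodule.span_le.2 ?_
    rintro _ ⟨K, i1, i2, i3, x, y, f, D, hf, hD, hval, rfl⟩
    have : HasRes k K := hasRes_of_isCurve i3
    change Finsupp.lmapDomain ℚ ℚ _ _ ∈ RatM F N m
    rw [map_finsuppSum]
    refine Submodule.subset_span ⟨K, i1, i2, i3,
      fun i a => pe hF K (x (finProdFinEquiv (i, a))),
      fun v i a => pe hF k (y v (finProdFinEquiv (i, a))), f, D, hf, hD,
      fun v i a => (pe_val hF).1 (hval v (finProdFinEquiv (i, a))), ?_⟩
    exact Finsupp.sum_congr fun v _ => by
      rw [Finsupp.lmapDomain_apply, Finsupp.mapDomain_single]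
  exact hle hz

end Pool.Agent.CUB.FLN
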