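import Pool.Agent.FLN.TB
import Pool.Agent.FLN.Cho
import Pool.Agent.FLN.AltAll
import Pool.Agent.FLN.RatM

/-!
# Zero-cycles on the powers of the variety of lines of a cubic fourfold (package Res)

PROOF. `n` from `alt_all`, `N₀ = (2 n - 1) ^ (2 m) + 1`. `hn` in `alt_ph` is `alt_all` for points.
(a) `alt_cl`: for all `l : Fin N → Fin m → Ln F k` we have
`∑ τ, sign τ • Ext _ (N * m) (fun j => cl hF (l (τ i) a)) = 0`, `(i, a) = finProdFinEquiv.symm j`: this
is `A (fun p => cl hF (l p.1 p.2))` for the multilinear map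
`A = ∑ τ, sign τ • (Ext _ (N * m)).domDomCongr e_τ` over the index type `Fin N × Fin m`, where `e_τ` is
the equivalence `j ↦ (τ i, a)`; apply `choose_ph` and `alt_ph` (`u i a b` = the line `u (i, a) b`).
(b) By `Ext_cl` and `ext_single` this is the class of
`∑ τ, sign τ • single (fun j => (pe hF k).symm (l (τ i) a)) 1`, so this cycle is in `GT.Rat`, and
`rat_pow` gives `∑ τ, sign τ • single (fun i a => l (τ i) a) 1 ∈ RatM F N m`, i.e.
`alt (fun i => single (l i) 1) ∈ RatM F N m`. (c) The general case by multilinearity (`alt_span` with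
`G` = the range of `fun x => single x 1`; its span is everything, `Finsupp.sum_single`).
-/

set_option autoImplicit false

noncomputable section

namespace Pool.Agent.CUB.FLN

open Pool.Agent.ZCyc Pool.Agent.Dess Pool.Agent.GT
open scoped Classical

variable {k : Type} [Field k] [IsAlgClosed k] [CharZero k] {F : MvPolynomial (Fin 6) k}

theorem alt_cl (hF : Smooth F) {n : ℕ} (hn0 : 0 < n) (hn : ∀ x : Fin n → Ln F k,
      alt (fun j => Finsupp.single (x j) (1 : ℚ)) ∈ Rel F n)
    {N m : ℕ} (hN : (2 * n - 1) ^ (2 * m) < N) (l : Fin N → Fin m → Ln F k) :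
    ∑ τ : Equiv.Perm (Fin N), ((Equiv.Perm.sign τ : ℤ) : ℚ) • Ext (hom_PX hF) (N * m)
      (fun j => cl hF (l (τ (finProdFinEquiv.symm j).1) (finProdFinEquiv.symm j).2)) = 0 := by
  let e : Equiv.Perm (Fin N) → (Fin (N * m) ≃ Fin N × Fin m) := fun τ =>
    finProdFinEquiv.symm.trans (Equiv.prodCongr τ (Equiv.refl (Fin m)))
  let A : MultilinearMap ℚ (fun _ : Fin N × Fin m => CH (PX F) Unit)
      (CH (PX F) (Fin (N * m))) :=
    ∑ τ : Equiv.Perm (Fin N), ((Equiv.Perm.sign τ : ℤ) : ℚ) •
      (Ext (hom_PX hF) (N * m)).domDomCongr (e τ)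
  have hA : ∀ v : Fin N × Fin m → CH (PX F) Unit, A v =
      ∑ τ : Equiv.Perm (Fin N), ((Equiv.Perm.sign τ : ℤ) : ℚ) • Ext (hom_PX hF) (N * m)
        (fun j => v (τ (finProdFinEquiv.symm j).1, (finProdFinEquiv.symm j).2)) := by
    intro v
    simp only [A, sum_apply, smul_apply,
      MultilinearMap.domDomCongr_apply]
    rfl
  have h := choose_ph hF A (fun u hu => by
    rw [hA]
    exact alt_ph hF hn0 hn hN (fun i a b => u (i, a) b) fun i a b i' a' b' hne =>
      hu (i, a) b (i', a') b' fun he => hne (by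
        simp only [Prod.mk.injEq] at he ⊢
        exact ⟨he.1.1, he.1.2, he.2⟩)) (fun p => l p.1 p.2)
  rw [hA] at h
  exact h

/-- THE THEOREM -/
theorem main_pow (hF : Smooth F) (m : ℕ) : ∃ N₀ : ℕ, ∀ N ≥ N₀,
    ∀ z : Fin N → ((Fin m → Ln F k) →₀ ℚ), alt z ∈ RatM F N m := by
  obtain ⟨n, hn0, hn⟩ := alt_all hF
  refine ⟨(2 * n - 1) ^ (2 * m) + 1, fun N hN z => ?_⟩
  refine alt_span (G := Set.range fun x => Finsupp.single x (1 : ℚ)) (fun z hz => ?_) z
    fun j => ?_
  · choose l hl using hz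
    have h1 := alt_cl hF hn0 (fun x => hn _) (m := m) (Nat.lt_of_succ_le hN) l
    let z' : (Fin (N * m) → Pt (PX F) k) →₀ ℚ :=
      ∑ τ : Equiv.Perm (Fin N), ((Equiv.Perm.sign τ : ℤ) : ℚ) • Finsupp.single
        (fun j => (pe hF k).symm (l (τ (finProdFinEquiv.symm j).1) (finProdFinEquiv.symm j).2))
        (1 : ℚ)
    have h2 : z' ∈ GT.Rat (PX F) (Fin (N * m)) := by
      rw [← Submodule.Quotient.mk_eq_zero, ← h1, ← Submodule.mkQ_apply, map_sum]
      refine Finset.sum_congr rfl fun τ _ => ?_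
      have h3 := Ext_cl (hom_PX hF) (fun j : Fin (N * m) => Finsupp.single
        ((pe hF k).symm (l (τ (finProdFinEquiv.symm j).1) (finProdFinEquiv.symm j).2)) (1 : ℚ))
      rw [GT.ext_single, Finset.prod_const_one] at h3
      rw [map_smul, Submodule.mkQ_apply, ← h3]
      rfl
    have h4 := rat_pow hF h2
    have h5 : Finsupp.mapDomain (fun (x : Fin (N * m) → Pt (PX F) k) i a =>
        pe hF k (x (finProdFinEquiv (i, a)))) z' = alt z := by
      rw [← Finsupp.lmapDomain_apply ℚ ℚ, map_sum]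
      unfold alt
      refine Finset.sum_congr rfl fun τ _ => ?_
      have h6 : (fun j => z (τ j)) = fun j => Finsupp.single (l (τ j)) (1 : ℚ) := by
        funext j
        exact (hl (τ j)).symm
      have h7 : ext (fun j => z (τ j)) = Finsupp.single (fun j => l (τ j)) (1 : ℚ) := by
        rw [h6]
        refine (GT.ext_single (fun j => l (τ j)) fun _ => 1).trans ?_
        rw [Finset.prod_const_one]
      rw [map_smul, Finsupp.lmapDomain_apply, Finsupp.mapDomain_single, h7,
        Int.cast_smul_eq_zsmul]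
      simp only [Equiv.apply_symm_apply, Equiv.symm_apply_apply]
    rw [← h5]
    exact h4
  · rw [← Finsupp.sum_single (z j)]
    refine Submodule.sum_mem _ fun x _ => ?_
    have h1 : Finsupp.single x (z j x) = (z j x) • Finsupp.single x (1 : ℚ) := by
      rw [Finsupp.smul_single, smul_eq_mul, mul_one]
    rw [h1]
    exact Submodule.smul_mem _ _ (Submodule.subset_span ⟨x, rfl⟩)

end Pool.Agent.CUB.FLN
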