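import Pool.Agent.FLN.Thru

/-!
# The residual line of a generic pair of incident lines is generic

Proof of `res_move`. Let `Π = ⟨x, a, b⟩`, `G = x₁ x₂ (γ x₀ + a₁ x₁ + a₂ x₂)` with `γ = 2 tri x a b`, `a₁ = tri a a b`,
`a₂ = tri a b b`, so `tri u u u = 3 G(u)`, `tri u u v = ∂_v G (u)` on `Π`; `f.W` is the kernel of `γ x₀ + a₁ x₁ + a₂ x₂` in
`Π`, `x ∉ f.W`. Suppose `Cod D (st f.W) 3` (the negation of the conclusion). `D₁ = D ⊓ st f.W`, `θ = mkQ ∘ drL x` to
`(Fin 6 → E) ⧸ Π` (dimension three).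
(1) If `δ ∈ D₁` and `dr δ x ∈ Π` then `δ ∈ S`, `S = st ⟨x⟩ ⊓ st ⟨x, a⟩ ⊓ st ⟨x, b⟩`: `Π = f.W ⊔ ⟨x⟩` is preserved by `δ`. For
`u = a + s x`, `s ∈ k` constant with `γ s + a₁ ≠ 0`: `0 = δ (tri u u u) = 3 tri u u (dr δ u) = 3 (γ s + a₁) (dr δ u)_b`,
`(.)_b` the coordinate at `b` of a vector of `Π`. So `dr δ u ∈ ⟨x, a⟩` for two different `s ∈ k`, hence
`dr δ x, dr δ a ∈ ⟨x, a⟩`. In the same way `dr δ x, dr δ b ∈ ⟨x, b⟩`. So `dr δ x ∈ ⟨x⟩`.
(2) If the values `θ δ`, `δ ∈ D₁`, span a space of dimension at most two, then `Cod D₁ S 2` by `cod_of_map`, `Cod D S 5`,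
contradiction to `hD`. (3) Otherwise they span everything: `Π` and the vectors `dr δ x`, `δ ∈ D₁`, span `E ^ 6`. But
`tri x x` is zero on `Π` and at `dr δ x` (`0 = δ (tri x x x) = 3 tri x x (dr δ x)`), so `x = 0` by `tri_ns_all`.
-/

set_option autoImplicit false

noncomputable section

namespace Pool.Agent.CUB.FLN

open Pool.Agent.ZCyc Pool.Agent.Dess Pool.Agent.GT Module
open scoped Classical

variable {k : Type} [Field k] [IsAlgClosed k] [CharZero k] {F : MvPolynomial (Fin 6) k}
  {E : Type} [Field E] [Algebra k E] [IsAlgClosed E]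

omit [IsAlgClosed k] [IsAlgClosed E] in
private theorem resMove_on_zero {x a : Fin 6 → E} (ha : On F x a) (δ : Derivation k E E) :
    tri F x x (dr δ x) = 0 ∧ 2 * tri F x a (dr δ x) + tri F x x (dr δ a) = 0 ∧
      tri F a a (dr δ x) + 2 * tri F x a (dr δ a) = 0 := by
  have : CharZero E := charZero_of_injective_algebraMap (algebraMap k E).injective
  have e1 := dr_tri F δ x x x
  have e2 := dr_tri F δ x x a
  have e3 := dr_tri F δ x a a
  rw [ha.xxx, map_zero] at e1
  rw [ha.xxa, map_zero] at e2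
  rw [ha.xaa, map_zero] at e3
  have s1 : tri F (dr δ x) x x = tri F x x (dr δ x) := by
    rw [tri_swap12, tri_swap23]
  have s2 : tri F x (dr δ x) x = tri F x x (dr δ x) := tri_swap23 F _ _ _
  have s3 : tri F (dr δ x) x a = tri F x a (dr δ x) := by
    rw [tri_swap12, tri_swap23]
  have s4 : tri F x (dr δ x) a = tri F x a (dr δ x) := tri_swap23 F _ _ _
  have s5 : tri F (dr δ x) a a = tri F a a (dr δ x) := by
    rw [tri_swap12, tri_swap23]
  have s6 : tri F x (dr δ a) a = tri F x a (dr δ a) := tri_swap23 F _ _ _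
  rw [s1, s2] at e1
  rw [s3, s4] at e2
  rw [s5, s6] at e3
  refine ⟨?_, by linear_combination -e2, by linear_combination -e3⟩
  have h3 : (3 : E) * tri F x x (dr δ x) = 0 := by linear_combination -e1
  exact (mul_eq_zero.1 h3).resolve_left (by norm_num)

omit [IsAlgClosed k] [CharZero k] [IsAlgClosed E] in
private theorem resMove_exp (x a b u v : Fin 6 → E) (p q r : E) :
    tri F u v (p • x + q • a + r • b) = p * tri F u v x + q * tri F u v a + r * tri F u v b := by
  rw [tri_add3, tri_add3, tri_smul3, tri_smul3, tri_smul3]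

omit [IsAlgClosed k] [IsAlgClosed E] in
private theorem resMove_coord {x a b : Fin 6 → E} (ha : On F x a) (hb : On F x b)
    (h0 : tri F x a b ≠ 0) {δ : Derivation k E E} {p₀ p₁ p₂ q₀ q₁ q₂ : E}
    (hx : dr δ x = p₀ • x + p₁ • a + p₂ • b) (hda : dr δ a = q₀ • x + q₁ • a + q₂ • b) :
    p₂ = 0 ∧ q₂ = 0 := by
  have : CharZero E := charZero_of_injective_algebraMap (algebraMap k E).injective
  obtain ⟨-, e2, e3⟩ := resMove_on_zero ha δ
  rw [hx, hda, resMove_exp, resMove_exp] at e2
  rw [hx, hda, resMove_exp, resMove_exp] at e3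
  have s1 : tri F x a x = 0 := by rw [tri_swap23]; exact ha.xxa
  have s2 : tri F a a x = 0 := by rw [tri_swap23, tri_swap12]; exact ha.xaa
  rw [s1, ha.xaa, ha.xxx, ha.xxa, hb.xxa] at e2
  rw [s1, s2, ha.xaa, ha.aaa] at e3
  have h2 : p₂ = 0 := by
    have h3 : p₂ * (2 * tri F x a b) = 0 := by linear_combination e2
    exact (mul_eq_zero.1 h3).resolve_right (mul_ne_zero two_ne_zero h0)
  refine ⟨h2, ?_⟩
  rw [h2] at e3
  have h3 : q₂ * (2 * tri F x a b) = 0 := by linear_combination e3
  exact (mul_eq_zero.1 h3).resolve_right (mul_ne_zero two_ne_zero h0)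

omit [IsAlgClosed k] [CharZero k] [IsAlgClosed E] in
private theorem resMove_mem {x a b v : Fin 6 → E} (h : v ∈ Submodule.span E {x, a, b}) :
    ∃ p q r : E, v = p • x + q • a + r • b := by
  obtain ⟨p, q, r, h⟩ := Submodule.mem_span_triple.1 h
  exact ⟨p, q, r, h.symm⟩

omit [IsAlgClosed k] [IsAlgClosed E] in
/-- step (1) -/
private theorem resMove_ker {x a b : Fin 6 → E} (ha : On F x a) (hb : On F x b)
    (h0 : tri F x a b ≠ 0) {f : Ln F E} (hf : Bas f (rs F x a b)) {δ : Derivation k E E}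
    (hδ : δ ∈ st f.W) (hx : dr δ x ∈ Submodule.span E {x, a, b}) :
    δ ∈ st (Submodule.span E {x}) ⊓ st (Submodule.span E {x, a}) ⊓
      st (Submodule.span E {x, b}) := by
  have : CharZero E := charZero_of_injective_algebraMap (algebraMap k E).injective
  set P : Submodule E (Fin 6 → E) := Submodule.span E {x, a, b} with hP
  have xP : x ∈ P := Submodule.subset_span (by simp)
  have aP : a ∈ P := Submodule.subset_span (by simp)
  have bP : b ∈ P := Submodule.subset_span (by simp)
  have hγ : (2 * tri F x a b : E) ≠ 0 := mul_ne_zero two_ne_zero h0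
  have r0 : rs F x a b 0 = -(tri F a a b) • x + (2 * tri F x a b) • a := rfl
  have r1 : rs F x a b 1 = -(tri F a b b) • x + (2 * tri F x a b) • b := rfl
  have r0W : rs F x a b 0 ∈ f.W := by
    rw [hf.2]
    exact Submodule.subset_span (by simp)
  have r1W : rs F x a b 1 ∈ f.W := by
    rw [hf.2]
    exact Submodule.subset_span (by simp)
  have hWP : f.W ≤ P := by
    rw [hf.2, Submodule.span_le]
    rintro z (rfl | rfl)
    · rw [r0]
      exact P.add_mem (P.smul_mem _ xP) (P.smul_mem _ aP)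
    · rw [r1]
      exact P.add_mem (P.smul_mem _ xP) (P.smul_mem _ bP)
  have key : ∀ (c : E) (y : Fin 6 → E), y ∈ P → -c • x + (2 * tri F x a b) • y ∈ f.W →
      dr δ y ∈ P := by
    intro c y hy hyW
    have h1 := hWP (hδ _ hyW)
    rw [dr_add, dr_smul, dr_smul] at h1
    have h2 : (2 * tri F x a b) • dr δ y ∈ P := by
      have h3 := P.sub_mem h1 (P.add_mem (P.add_mem (P.smul_mem (-c) hx)
        (P.smul_mem (δ (-c)) xP)) (P.smul_mem (δ (2 * tri F x a b)) hy))
      have h4 : -c • dr δ x + δ (-c) • x + ((2 * tri F x a b) • dr δ y +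
          δ (2 * tri F x a b) • y) - (-c • dr δ x + δ (-c) • x + δ (2 * tri F x a b) • y) =
          (2 * tri F x a b) • dr δ y := by abel
      rwa [h4] at h3
    have h3 := P.smul_mem (2 * tri F x a b)⁻¹ h2
    rwa [smul_smul, inv_mul_cancel₀ hγ, one_smul] at h3
  have hda : dr δ a ∈ P := key _ a aP (by rw [← r0]; exact r0W)
  have hdb : dr δ b ∈ P := key _ b bP (by rw [← r1]; exact r1W)
  obtain ⟨p₀, p₁, p₂, ep⟩ := resMove_mem hx
  obtain ⟨q₀, q₁, q₂, eq⟩ := resMove_mem hda
  obtain ⟨t₀, t₁, t₂, et⟩ := resMove_mem hdb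
  obtain ⟨hp2, hq2⟩ := resMove_coord ha hb h0 ep eq
  have h0' : tri F x b a ≠ 0 := by rwa [tri_swap23]
  have ep' : dr δ x = p₀ • x + p₂ • b + p₁ • a := by rw [ep]; abel
  have et' : dr δ b = t₀ • x + t₂ • b + t₁ • a := by rw [et]; abel
  obtain ⟨hp1, ht1⟩ := resMove_coord hb ha h0' ep' et'
  have ex : dr δ x = p₀ • x := by
    rw [ep, hp1, hp2, zero_smul, zero_smul, add_zero, add_zero]
  have ea : dr δ a = q₀ • x + q₁ • a := by
    rw [eq, hq2, zero_smul, add_zero]
  have eb : dr δ b = t₀ • x + t₂ • b := by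
    rw [et', ht1, zero_smul, add_zero]
  refine ⟨⟨?_, ?_⟩, ?_⟩
  · refine mem_st_span ?_
    rintro z rfl
    rw [ex]
    exact Submodule.smul_mem _ _ (Submodule.subset_span rfl)
  · refine mem_st_span ?_
    rintro z (rfl | rfl)
    · rw [ex]
      exact Submodule.smul_mem _ _ (Submodule.subset_span (by simp))
    · rw [ea]
      exact Submodule.add_mem _ (Submodule.smul_mem _ _ (Submodule.subset_span (by simp)))
        (Submodule.smul_mem _ _ (Submodule.subset_span (by simp)))
  · refine mem_st_span ?_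
    rintro z (rfl | rfl)
    · rw [ex]
      exact Submodule.smul_mem _ _ (Submodule.subset_span (by simp))
    · rw [eb]
      exact Submodule.add_mem _ (Submodule.smul_mem _ _ (Submodule.subset_span (by simp)))
        (Submodule.smul_mem _ _ (Submodule.subset_span (by simp)))

theorem res_move (hF : Smooth F) (D : Submodule E (Derivation k E E)) [FiniteDimensional E D]
    {x a b : Fin 6 → E} (ha : On F x a) (hb : On F x b) (hli : LinearIndependent E ![x, a, b])
    (h0 : tri F x a b ≠ 0)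
    (hD : finrank E ↥(D ⊓ (st (Submodule.span E {x}) ⊓ st (Submodule.span E {x, a}) ⊓
      st (Submodule.span E {x, b}))) + 6 ≤ finrank E D)
    {f : Ln F E} (hf : Bas f (rs F x a b)) :
    finrank E ↥(D ⊓ st f.W) + 4 ≤ finrank E D := by
  by_contra hcon
  push Not at hcon
  set P : Submodule E (Fin 6 → E) := Submodule.span E {x, a, b} with hP
  set S : Submodule E (Derivation k E E) := st (Submodule.span E {x}) ⊓ st (Submodule.span E {x, a}) ⊓
      st (Submodule.span E {x, b}) with hS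
  set D₁ : Submodule E (Derivation k E E) := D ⊓ st f.W with hD₁
  have fin1 : FiniteDimensional E ↥D₁ := Submodule.finiteDimensional_of_le inf_le_left
  set θ : Derivation k E E →ₗ[E] (Fin 6 → E) ⧸ P := P.mkQ.comp (drL x) with hθ
  have hθa : ∀ δ : Derivation k E E, θ δ = P.mkQ (dr δ x) := fun _ => rfl
  have hker : ∀ δ ∈ D₁, θ δ = 0 → δ ∈ S := by
    intro δ hδ h
    rw [hθa, ← LinearMap.mem_ker, Submodule.ker_mkQ] at h
    exact resMove_ker ha hb h0 hf hδ.2 h
  have hP3 : finrank E P = 3 := by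
    have h1 := finrank_span_eq_card hli
    rwa [Matrix.range_cons, Matrix.range_cons, Matrix.range_cons, Matrix.range_empty,
      Set.union_empty, Set.singleton_union, Set.singleton_union, Fintype.card_fin] at h1
  have hQ3 : finrank E ((Fin 6 → E) ⧸ P) = 3 := by
    have h1 := Submodule.finrank_quotient_add_finrank P
    rw [hP3, Module.finrank_fin_fun] at h1
    omega
  by_cases hT : finrank E ↥(D₁.map θ) ≤ 2
  · have h1 : Cod D₁ S 2 := cod_of_map θ (D₁.map θ) hT
      (fun δ hδ => Submodule.mem_map_of_mem hδ) hker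
    unfold Cod at h1
    have h2 : D₁ ⊓ S ≤ D ⊓ S := inf_le_inf_right _ inf_le_left
    have fin2 : FiniteDimensional E ↥(D ⊓ S) := Submodule.finiteDimensional_of_le inf_le_left
    have h3 := Submodule.finrank_mono h2
    omega
  · have hT' : D₁.map θ = ⊤ := by
      apply Submodule.eq_top_of_finrank_eq
      have h1 := Submodule.finrank_le (D₁.map θ)
      omega
    have hx0 : x = 0 := by
      refine tri_ns_all hF fun z => ?_
      have hz : P.mkQ z ∈ D₁.map θ := by
        rw [hT']
        exact Submodule.mem_top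
      obtain ⟨δ, hδ, hδz⟩ := Submodule.mem_map.1 hz
      rw [hθa] at hδz
      have h1 : dr δ x - z ∈ P := by
        rw [← Submodule.ker_mkQ P, LinearMap.mem_ker, map_sub, hδz, sub_self]
      obtain ⟨p, q, r, hpqr⟩ := resMove_mem h1
      have h2 : z = dr δ x - (p • x + q • a + r • b) := by rw [← hpqr, sub_sub_cancel]
      rw [h2, ← trl_apply, map_sub, trl_apply, trl_apply, resMove_exp, (resMove_on_zero ha δ).1,
        ha.xxx, ha.xxa, hb.xxa]
      ring
    have h1 := hli.ne_zero 0
    exact h1 hx0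

end Pool.Agent.CUB.FLN
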