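import Pool.Agent.FLN.Hess

/-!
# Lines of the second type

`sec_type`. If `λ 0 ≠ 0` let `q` be a root of `λ 0 q² - 2 λ 1 q + λ 2` and `q' = 2 λ 1 - λ 0 q`; then
`tri (u 0 + q u 1) (λ 0 u 0 + q' u 1) w = λ 0 tri 00 w + (q' + λ 0 q) tri 01 w + q q' tri 11 w = 0` (`q q' = λ 2`).
If `λ 0 = 0`: `tri (u 1) (2 λ 1 u 0 + λ 2 u 1) w = 0`. The two vectors are not zero; if they were
proportional then `tri s s = 0` for the first one, contradiction to `tri_ns_all`.

`sec_cod`. Let `c = finrank (kH F x₀) ≥ 1` (`x₁ ∈ kH F x₀`), `D₁ = D ⊓ st ⟨x₀⟩`: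
`finrank D + c ≤ finrank D₁ + 4` (`hess`). For `δ ∈ D₁` the space `N = kH F x₀` is preserved: for `n ∈ N` and
constant `w` `0 = δ (tri x₀ n w) = μ tri x₀ n w + tri x₀ (dr δ n) w`, so `dr δ n ∈ N` (both sides linear in `w`).
`θ = mkQ ∘ drL x₁` to `(Fin 6 → E) ⧸ l.W`, its values for `δ ∈ D₁` are in the image of `N`, which has dimension
at most `c - 1` (`x₁ ∈ N ⊓ l.W`), its kernel in `D₁` is in `st l.W`. So `finrank D₁ + 1 ≤ finrank (D₁ ⊓ st l.W) + c`.
-/

set_option autoImplicit false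

noncomputable section

namespace Pool.Agent.CUB.FLN

open Pool.Agent.ZCyc Pool.Agent.Dess Pool.Agent.GT Module
open scoped Classical

variable {k : Type} [Field k] [IsAlgClosed k] [CharZero k] {F : MvPolynomial (Fin 6) k}
  {E : Type} [Field E] [Algebra k E] [IsAlgClosed E]

omit [IsAlgClosed E] in
private theorem Sec_li {u : Fin 2 → Fin 6 → E} (hu : LinearIndependent E ![u 0, u 1])
    {a b c d : E} (h : a * d - b * c ≠ 0) :
    LinearIndependent E ![a • u 0 + b • u 1, c • u 0 + d • u 1] := by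
  rw [LinearIndependent.pair_iff] at hu ⊢
  intro s t hst
  obtain ⟨h1, h2⟩ := hu (s * a + t * c) (s * b + t * d) (by
    rw [← hst]
    funext i
    simp only [Pi.add_apply, Pi.smul_apply, smul_eq_mul]
    ring)
  have h3 : s * (a * d - b * c) = 0 := by linear_combination d * h1 - c * h2
  have h4 : t * (a * d - b * c) = 0 := by linear_combination a * h2 - b * h1
  exact ⟨(mul_eq_zero.1 h3).resolve_right h, (mul_eq_zero.1 h4).resolve_right h⟩

omit [IsAlgClosed k] [CharZero k] [IsAlgClosed E] in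
private theorem Sec_tri (u : Fin 2 → Fin 6 → E) (a b c d : E) (w : Fin 6 → E) :
    tri F (a • u 0 + b • u 1) (c • u 0 + d • u 1) w = a * c * tri F (u 0) (u 0) w +
      (a * d + b * c) * tri F (u 0) (u 1) w + b * d * tri F (u 1) (u 1) w := by
  simp only [tri_add1, tri_add2, tri_smul1, tri_smul2]
  rw [tri_swap12 F (u 1) (u 0) w]
  ring

omit [IsAlgClosed k] [CharZero k] [IsAlgClosed E] in
private theorem Sec_ne {u : Fin 2 → Fin 6 → E} (hu : LinearIndependent E ![u 0, u 1])
    {a b : E} (h : a ≠ 0 ∨ b ≠ 0) : a • u 0 + b • u 1 ≠ 0 := by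
  intro h1
  rw [LinearIndependent.pair_iff] at hu
  obtain ⟨h2, h3⟩ := hu a b h1
  rcases h with h | h
  · exact h h2
  · exact h h3

theorem sec_type (hF : Smooth F) {l : Ln F E} {u : Fin 2 → Fin 6 → E} (hu : Bas l u)
    {c : Fin 3 → E} (hc : c ≠ 0) (h : ∀ w, c 0 * tri F (u 0) (u 0) w +
      2 * c 1 * tri F (u 0) (u 1) w + c 2 * tri F (u 1) (u 1) w = 0) :
    ∃ x₀ ∈ l.W, ∃ x₁ ∈ l.W, LinearIndependent E ![x₀, x₁] ∧ ∀ w, tri F x₀ x₁ w = 0 := by
  have hch : CharZero E := charZero_of_injective_algebraMap (algebraMap k E).injective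
  obtain ⟨hli, hW⟩ := hu
  have hmem : ∀ a b : E, a • u 0 + b • u 1 ∈ l.W := by
    intro a b
    rw [hW, Submodule.mem_span_pair]
    exact ⟨a, b, rfl⟩
  by_cases h0 : c 0 = 0
  · have h1 : c 1 ≠ 0 := by
      intro h1
      have h2 : c 2 ≠ 0 := by
        intro h2
        apply hc
        funext i
        fin_cases i
        · exact h0
        · exact h1
        · exact h2
      have h3 : u 1 = 0 := by
        refine tri_ns_all hF fun w => ?_
        have h4 := h w
        rw [h0, h1, zero_mul, mul_zero, zero_mul, zero_add, zero_add] at h4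
        exact (mul_eq_zero.1 h4).resolve_left h2
      have h5 := Sec_ne hli (a := 0) (b := 1) (Or.inr one_ne_zero)
      apply h5
      rw [h3, smul_zero, zero_smul, add_zero]
    refine ⟨0 • u 0 + (1 : E) • u 1, hmem 0 1, (2 * c 1) • u 0 + c 2 • u 1, hmem _ _,
      Sec_li hli ?_, fun w => ?_⟩
    · rw [zero_mul, zero_sub, one_mul]
      exact neg_ne_zero.2 (mul_ne_zero two_ne_zero h1)
    · rw [Sec_tri]
      have h4 := h w
      rw [h0] at h4
      linear_combination h4
  · obtain ⟨s, hs⟩ := IsAlgClosed.exists_pow_nat_eq (c 1 ^ 2 - c 0 * c 2) (n := 2) two_pos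
    have hz : ∀ w, tri F (c 0 • u 0 + (c 1 + s) • u 1) (c 0 • u 0 + (c 1 - s) • u 1) w = 0 := by
      intro w
      rw [Sec_tri]
      linear_combination c 0 * h w - tri F (u 1) (u 1) w * hs
    have hs0 : s ≠ 0 := by
      rintro rfl
      have h1 : c 0 • u 0 + (c 1 + 0) • u 1 = 0 := by
        refine tri_ns_all hF fun w => ?_
        have h2 := hz w
        rw [sub_zero] at h2
        rw [add_zero] at h2 ⊢
        exact h2
      exact Sec_ne hli (Or.inl h0) h1
    refine ⟨c 0 • u 0 + (c 1 + s) • u 1, hmem _ _, c 0 • u 0 + (c 1 - s) • u 1, hmem _ _,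
      Sec_li hli ?_, hz⟩
    have h1 : c 0 * (c 1 - s) - (c 1 + s) * c 0 = -(2 * (c 0 * s)) := by ring
    rw [h1]
    exact neg_ne_zero.2 (mul_ne_zero two_ne_zero (mul_ne_zero h0 hs0))

theorem sec_cod (hF : Smooth F) {l : Ln F E} {x₀ x₁ : Fin 6 → E} (h₀ : x₀ ∈ l.W) (h₁ : x₁ ∈ l.W)
    (hli : LinearIndependent E ![x₀, x₁]) (h : ∀ w, tri F x₀ x₁ w = 0)
    (D : Submodule E (Derivation k E E)) [FiniteDimensional E D] : Cod D (st l.W) 3 := by
  have hx₀ : x₀ ≠ 0 := by
    rintro rfl
    rw [LinearIndependent.pair_iff] at hli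
    exact one_ne_zero (hli 1 0 (by rw [smul_zero, zero_smul, add_zero])).1
  have hx₁ : x₁ ≠ 0 := by
    rintro rfl
    rw [LinearIndependent.pair_iff] at hli
    exact one_ne_zero (hli 0 1 (by rw [smul_zero, zero_smul, add_zero])).2
  have hs := hess hF hx₀ (l.tri_zero hF h₀ h₀ h₀) D
  have hN₁ : x₁ ∈ kH F x₀ := h
  set D₁ := D ⊓ st (Submodule.span E {x₀}) with hD₁
  have hD₁f : FiniteDimensional E D₁ := Submodule.finiteDimensional_of_le inf_le_left
  have hDf : FiniteDimensional E ↥(D ⊓ st l.W) := Submodule.finiteDimensional_of_le inf_le_left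
  have hW : l.W = Submodule.span E {x₀, x₁} := by
    refine (Submodule.eq_of_le_of_finrank_eq ?_ ?_).symm
    · rw [Submodule.span_le]
      rintro z (rfl | rfl)
      · exact h₀
      · exact h₁
    · rw [l.two]
      have h1 := finrank_span_eq_card hli
      rwa [Matrix.range_cons, Matrix.range_cons, Matrix.range_empty, Set.union_empty,
        Set.singleton_union, Fintype.card_fin] at h1
  have hpres : ∀ δ ∈ D₁, dr δ x₁ ∈ kH F x₀ := by
    intro δ hδ v
    have h1 := hδ.2 x₀ (Submodule.mem_span_singleton_self x₀)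
    obtain ⟨μ, hμ⟩ := Submodule.mem_span_singleton.1 h1
    have h2 := dr_tri F δ x₀ x₁ v
    rw [h v, map_zero, ← hμ, tri_smul1, h v, mul_zero, zero_add, h (dr δ v), add_zero] at h2
    exact h2.symm
  set φ : kH F x₀ →ₗ[E] (Fin 6 → E) ⧸ l.W := l.W.mkQ.comp (kH F x₀).subtype with hφ
  have hker : 1 ≤ finrank E (LinearMap.ker φ) := by
    rw [Submodule.one_le_finrank_iff]
    intro hbot
    have h1 : (⟨x₁, hN₁⟩ : kH F x₀) ∈ LinearMap.ker φ := by
      rw [LinearMap.mem_ker, hφ, LinearMap.comp_apply, Submodule.mkQ_apply,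
        Submodule.Quotient.mk_eq_zero]
      exact h₁
    rw [hbot, Submodule.mem_bot] at h1
    exact hx₁ (congrArg Subtype.val h1)
  have hrk := LinearMap.finrank_range_add_finrank_ker φ
  have hcod : Cod D₁ (st l.W) (finrank E (LinearMap.range φ)) := by
    refine cod_of_map (l.W.mkQ.comp (drL x₁)) (LinearMap.range φ) le_rfl ?_ ?_
    · intro δ hδ
      exact ⟨⟨dr δ x₁, hpres δ hδ⟩, rfl⟩
    · intro δ hδ h1
      rw [LinearMap.comp_apply, drL_apply, Submodule.mkQ_apply,
        Submodule.Quotient.mk_eq_zero] at h1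
      rw [hW] at h1 ⊢
      refine mem_st_span ?_
      rintro z (rfl | rfl)
      · have h2 := hδ.2 z (Submodule.mem_span_singleton_self z)
        exact Submodule.span_mono (by
          intro y hy
          rw [Set.mem_singleton_iff.1 hy]
          exact Set.mem_insert _ _) h2
      · exact h1
  have hle : finrank E ↥(D₁ ⊓ st l.W) ≤ finrank E ↥(D ⊓ st l.W) :=
    Submodule.finrank_mono (le_inf (inf_le_left.trans inf_le_left) inf_le_right)
  unfold Cod at hcod ⊢
  omega

end Pool.Agent.CUB.FLN
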