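import Pool.Agent.GT.Alt

/-!
# The moving lemma for subspaces

`mov_sub`: the proof of `GT.moving` (file `GT/Mov.lean`, copy it with its private lemmas) with a
subspace `G` instead of `0`: `∑ ord_c (f) lim c z' = 0`, all terms with `c ≠ c₀` are in `G`,
`ord_(c₀) f = 1`, so `lim c₀ z' ∈ G`. `mov_sub1`: `lim1 hX v z = lim hX v (mapDomain ..)`.

`exists_good_place`: there is a place at which the elements of the finite set `Γ` are units:
`exists_field` for `Γ` gives a function field `K` (or directly: the places above `tt = c` for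
infinitely many `c`); all but finitely many places of `K` are good (`finite_ord`), there are
infinitely many (the places above `tt = c`, `ZCyc.exists_place`), take one above (`exists_above`).
Compare `GT/Mov.lean`.
-/

set_option autoImplicit false

noncomputable section

namespace Pool.Agent.CUB.FLN

open Pool.Agent.ZCyc Pool.Agent.Dess Pool.Agent.TInc Pool.Agent.GT
open Pool.Agent.VFP (Om tt)
open scoped Classical

variable {k : Type} [Field k] [IsAlgClosed k] [CharZero k] {m : ℕ}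
  {X : Set (MvPolynomial (Fin (m + 1)) k)} {ι : Type}

private theorem mov_field (hX : Hom X) (z : (ι → Pt X (Om k)) →₀ ℚ) (Γ : Finset (Om k))
    [Finite ι] : ∃ (K : IntermediateField k (Om k)) (z' : (ι → Pt X K) →₀ ℚ), IsCurve k K ∧
      ↑Γ ⊆ (K : Set (Om k)) ∧ tt k ∈ K ∧
      Finsupp.mapDomain (fun x j => (x j).map K.val hX) z' = z := by
  obtain ⟨K, y, hK, hΓ, htt, hy⟩ := exists_field hX Γ (J := z.support × ι) (fun p => p.1.1 p.2)
  refine ⟨K, ∑ x : z.support, Finsupp.single (fun j => y (x, j)) (z x), hK, hΓ, htt, ?_⟩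
  rw [Finsupp.mapDomain_finsetSum]
  have h1 : ∀ x : z.support, Finsupp.mapDomain (fun (x : ι → Pt X K) j => (x j).map K.val hX)
      (Finsupp.single (fun j => y (x, j)) (z x)) = Finsupp.single (x : ι → Pt X (Om k)) (z x) := by
    intro x
    rw [Finsupp.mapDomain_single]
    congr 1
    funext j
    exact hy (x, j)
  rw [Finset.sum_congr rfl fun x _ => h1 x]
  rw [Finset.sum_coe_sort z.support fun x => Finsupp.single x (z x)]
  exact Finsupp.sum_single z

/-- All but finitely many places of a function field are good, in terms of places above. -/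
private theorem good_above {K : IntermediateField k (Om k)} (hK : IsCurve k K)
    {Γ : Finset (Om k)} (hΓ : (0 : Om k) ∉ Γ) (hΓK : ↑Γ ⊆ (K : Set (Om k))) :
    ∃ T : Finset (Place k K), ∀ c ∉ T, ∃ V : Place k (Om k),
      V.ring.comap (K.val : K →+* Om k) = c.ring ∧ ∀ g ∈ Γ, g ∈ V.ring ∧ g⁻¹ ∈ V.ring := by
  let T : Finset (Place k K) := Γ.attach.biUnion fun g =>
    (finite_ord hK (⟨g.1, hΓK g.2⟩ : K)).toFinset
  refine ⟨T, fun c hcT => ?_⟩
  obtain ⟨V, hV⟩ := exists_above hK c K.val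
  refine ⟨V, hV, fun g hg => ?_⟩
  have h1 : ord c (⟨g, hΓK hg⟩ : K) = 0 := by
    by_contra hne
    apply hcT
    rw [Finset.mem_biUnion]
    exact ⟨⟨g, hg⟩, Finset.mem_attach _ _, (Set.Finite.mem_toFinset _).2 hne⟩
  have h2 : (⟨g, hΓK hg⟩ : K) ≠ 0 := by
    intro h3
    apply hΓ
    have h4 := congrArg Subtype.val h3
    change g = 0 at h4
    rw [← h4]
    exact hg
  rw [ord_eq_zero_iff hK h2, ← hV, ValuationSubring.mem_comap, ValuationSubring.mem_comap] at h1
  exact h1

theorem mov_sub (hX : Hom X) (G : Submodule ℚ (CH X ι)) (z : (ι → Pt X (Om k)) →₀ ℚ)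
    (Γ : Finset (Om k)) (hΓ : (0 : Om k) ∉ Γ) [Finite ι]
    (h : ∀ v : Place k (Om k), (∀ g ∈ Γ, g ∈ v.ring ∧ g⁻¹ ∈ v.ring) → lim hX v z ∈ G)
    (v : Place k (Om k)) : lim hX v z ∈ G := by
  obtain ⟨K, z', hK, hΓK, htt, hz⟩ := mov_field hX z Γ
  have : HasRes k K := hasRes_of_isCurve hK
  obtain ⟨c₀, hc₀⟩ := exists_below hK v K.val
  have hlim : ∀ (V : Place k (Om k)) (c : Place k K),
      V.ring.comap (K.val : K →+* Om k) = c.ring → lim hX V z = lim hX c z' := by
    intro V c hV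
    rw [← hz]
    exact lim_map hX (φ := K.val) hV z'
  rw [hlim v c₀ hc₀]
  obtain ⟨T, hT⟩ := good_above hK hΓ hΓK
  obtain ⟨f, hf, hf1, hf0⟩ := exists_prescribed hK c₀ T
  have hsum := sum_lim hX hK z' hf (dv hK f) fun c => ord_hasOrd hK c hf
  have key : ∀ c, c ≠ c₀ → ord c f ≠ 0 → lim hX c z' ∈ G := by
    intro c hc hcf
    have hcT : c ∉ T := fun h => hcf (hf0 c h hc)
    obtain ⟨V, hV, hV'⟩ := hT c hcT
    rw [← hlim V c hV]
    exact h V hV'
  rw [Finsupp.sum] at hsum
  have hc₀s : c₀ ∈ (dv hK f).support := by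
    rw [Finsupp.mem_support_iff, dv_apply, hf1]
    exact one_ne_zero
  rw [← Finset.add_sum_erase _ _ hc₀s, dv_apply, hf1, Int.cast_one, one_smul] at hsum
  rw [eq_neg_of_add_eq_zero_left hsum]
  refine G.neg_mem (G.sum_mem fun c hc => G.smul_mem _ ?_)
  rw [Finset.mem_erase, Finsupp.mem_support_iff, dv_apply] at hc
  exact key c hc.1 hc.2

theorem mov_sub1 (hX : Hom X) (G : Submodule ℚ (CH X Unit)) (z : Pt X (Om k) →₀ ℚ)
    (Γ : Finset (Om k)) (hΓ : (0 : Om k) ∉ Γ)
    (h : ∀ v : Place k (Om k), (∀ g ∈ Γ, g ∈ v.ring ∧ g⁻¹ ∈ v.ring) → lim1 hX v z ∈ G)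
    (v : Place k (Om k)) : lim1 hX v z ∈ G :=
  mov_sub hX G (Finsupp.lmapDomain ℚ ℚ (fun x _ => x) z) Γ hΓ h v

theorem exists_good_place (Γ : Finset (Om k)) (hΓ : (0 : Om k) ∉ Γ) :
    ∃ v : Place k (Om k), ∀ g ∈ Γ, g ∈ v.ring ∧ g⁻¹ ∈ v.ring := by
  have hX : Hom (∅ : Set (MvPolynomial (Fin (0 + 1)) k)) := fun f hf => absurd hf (by simp)
  obtain ⟨K, -, hK, hΓK, htt, -⟩ := exists_field hX Γ (J := Empty) (fun p => p.elim)
  set τ : K := ⟨tt k, htt⟩ with hτ
  have hτt : Transcendental k τ := by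
    intro h
    apply Pool.Agent.VFP.tt_transc (k := k)
    have h1 := (isAlgebraic_algHom_iff K.val (K.val : K →+* Om k).injective).2 h
    exact h1
  choose u hu using fun c => exists_place (F := K) hτt c
  obtain ⟨T, hT⟩ := good_above hK hΓ hΓK
  have hinj : Function.Injective u := by
    intro a b hab
    have h1 := hu a
    rw [hab] at h1
    exact Place.At.unique h1 (hu b)
  have : Infinite k := IsAlgClosed.instInfinite
  obtain ⟨c, hc⟩ := (Set.infinite_range_of_injective hinj).exists_notMem_finset T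
  obtain ⟨⟨a, rfl⟩, hcT⟩ := hc
  obtain ⟨V, -, hV⟩ := hT _ hcT
  exact ⟨V, hV⟩

end Pool.Agent.CUB.FLN
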