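import Pool.Agent.FLN.Key
import Pool.Agent.GT.Alt

/-!
# Lines in a plane of the fourfold

`plane_case`. Let `C = (1 - t) • em a + t • em b` over `Om k`, `t = tt k`. The trilinear form is
zero on `x`, `a`, `b`, so `exists_ln` gives a line `n` over `Om k` with `n.W = span {em x, C}`. At
a place `V` with `V.At (tt k) 0` its value is `l` and at a place with `V.At (tt k) 1` it is `l'`
(`val_span`; the values of `C` are `a` and `b`). `GT.bridge` (with `ι = Unit`, the cycle `single
(fun _ => (pe hF (Om k)).symm n) 1`) gives `cl l = cl l'` (`cl_lim`, `lim1`, `lim_single`, compare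
`CUB.bridge_ln` in `CUB/RelA.lean`).
-/

set_option autoImplicit false

noncomputable section

namespace Pool.Agent.CUB.FLN

open Pool.Agent.ZCyc Pool.Agent.Dess Pool.Agent.GT
open Pool.Agent.VFP (Om tt)
open scoped Classical

variable {k : Type} [Field k] [IsAlgClosed k] [CharZero k] {F : MvPolynomial (Fin 6) k}

/-- two vectors are independent iff a minor is not zero -/
private theorem spb_li {L : Type} [Field L] {a b : Fin 6 → L} :
    LinearIndependent L ![a, b] ↔ ∃ i j, a i * b j - a j * b i ≠ 0 := by
  rw [LinearIndependent.pair_iff]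
  constructor
  · intro h
    by_contra hcon
    push Not at hcon
    have ha : a ≠ 0 := by
      rintro rfl
      have h1 := h 1 0 (by rw [smul_zero, zero_smul, add_zero])
      exact one_ne_zero h1.1
    obtain ⟨i, hi⟩ : ∃ i, a i ≠ 0 := by
      by_contra h2
      push Not at h2
      exact ha (funext h2)
    have h1 := h (b i) (-(a i)) (by
      funext j
      have h2 := hcon i j
      simp only [Pi.add_apply, Pi.smul_apply, smul_eq_mul, Pi.zero_apply]
      linear_combination -h2)
    exact hi (neg_eq_zero.1 h1.2)
  · rintro ⟨i, j, hij⟩ s t hst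
    have hi := congrFun hst i
    have hj := congrFun hst j
    simp only [Pi.add_apply, Pi.smul_apply, smul_eq_mul, Pi.zero_apply] at hi hj
    have h1 : s * (a i * b j - a j * b i) = 0 := by linear_combination b j * hi - b i * hj
    have h2 : t * (a i * b j - a j * b i) = 0 := by linear_combination a i * hj - a j * hi
    exact ⟨(mul_eq_zero.1 h1).resolve_right hij, (mul_eq_zero.1 h2).resolve_right hij⟩

omit [IsAlgClosed k] [CharZero k] in
private theorem spb_transc : Transcendental k (tt k) := by
  have h : Transcendental k (RatFunc.X : RatFunc k) := RatFunc.transcendental_X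
  have h2 := (transcendental_algebraMap_iff (R := k) (S := RatFunc k) (A := Om k)
    (algebraMap (RatFunc k) (Om k)).injective (a := RatFunc.X)).2 h
  exact h2

omit [IsAlgClosed k] [CharZero k] in
private theorem spb_lin {c d : k} (hc : c ≠ 0) :
    (1 - tt k) * algebraMap k (Om k) c + tt k * algebraMap k (Om k) d ≠ 0 := by
  intro h
  have hne : d - c ≠ 0 := by
    intro h1
    have h2 : d = c := sub_eq_zero.1 h1
    rw [h2] at h
    have h3 : algebraMap k (Om k) c = 0 := by linear_combination h
    exact hc ((map_eq_zero _).1 h3)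
  apply spb_transc (k := k)
  have h4 : tt k = algebraMap k (Om k) (-c / (d - c)) := by
    rw [map_div₀, map_neg, map_sub, eq_div_iff]
    · linear_combination h
    · rw [← map_sub]
      exact (map_ne_zero _).2 hne
  rw [h4]
  exact isAlgebraic_algebraMap _

theorem plane_case (hF : Smooth F) {x a b : Fin 6 → k} (ha : On F x a) (hb : On F x b)
    (hli : LinearIndependent k ![x, a, b]) (h1 : tri F x a b = 0) (h2 : tri F a a b = 0)
    (h3 : tri F a b b = 0) {l l' : Ln F k} (hl : l.W = Submodule.span k {x, a})
    (hl' : l'.W = Submodule.span k {x, b}) : cl hF l = cl hF l' := by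
  have hxa : LinearIndependent k ![x, a] := by
    have h := hli.comp (![0, 1] : Fin 2 → Fin 3) (by decide)
    have e : ![x, a, b] ∘ (![0, 1] : Fin 2 → Fin 3) = ![x, a] := by
      funext i
      fin_cases i <;> rfl
    rwa [e] at h
  have hxb : LinearIndependent k ![x, b] := by
    have h := hli.comp (![0, 2] : Fin 2 → Fin 3) (by decide)
    have e : ![x, a, b] ∘ (![0, 2] : Fin 2 → Fin 3) = ![x, b] := by
      funext i
      fin_cases i <;> rfl
    rwa [e] at h
  set C : Fin 6 → Om k := (1 - tt k) • em (Om k) a + tt k • em (Om k) b with hC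
  have hCi : ∀ i, C i = (1 - tt k) * algebraMap k (Om k) (a i) + tt k * algebraMap k (Om k) (b i) :=
    fun i => rfl
  have hXC : LinearIndependent (Om k) ![em (Om k) x, C] := by
    obtain ⟨i, j, hij⟩ := spb_li.1 hxa
    refine spb_li.2 ⟨i, j, ?_⟩
    have h := spb_lin (d := x i * b j - x j * b i) hij
    intro h0
    apply h
    rw [hCi, hCi] at h0
    simp only [em] at h0
    rw [map_sub, map_sub, map_mul, map_mul, map_mul, map_mul]
    linear_combination h0
  have z1 : tri F (em (Om k) x) (em (Om k) x) (em (Om k) x) = 0 := by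
    rw [tri_em, ha.xxx, map_zero]
  have z2 : tri F (em (Om k) x) (em (Om k) x) C = 0 := by
    rw [hC, tri_add3, tri_smul3, tri_smul3, tri_em, tri_em, ha.xxa, hb.xxa]
    simp
  have z3 : tri F (em (Om k) x) C C = 0 := by
    have hba : tri F x b a = 0 := by rw [tri_swap23, h1]
    rw [hC]
    simp only [tri_add3, tri_add2, tri_smul3, tri_smul2, tri_em, ha.xaa, hb.xaa, h1, hba]
    simp
  have z4 : tri F C C C = 0 := by
    have e1 : tri F a b a = 0 := by rw [tri_swap23, h2]
    have e2 : tri F b a a = 0 := by rw [tri_swap12, e1]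
    have e3 : tri F b a b = 0 := by rw [tri_swap12, h3]
    have e4 : tri F b b a = 0 := by rw [tri_swap23, e3]
    rw [hC]
    simp only [tri_add3, tri_add2, tri_add1, tri_smul3, tri_smul2, tri_smul1, tri_em, ha.aaa,
      hb.aaa, h2, h3, e1, e2, e3, e4]
    simp
  obtain ⟨n, hn⟩ := exists_ln hF hXC z1 z2 z3 z4
  have hxat : ∀ (V : Place k (Om k)) (i : Fin 6), V.At (em (Om k) x i) (x i) :=
    fun V i => Place.at_const _
  have hCat : ∀ (V : Place k (Om k)) (c : k), V.At (tt k) c → ∀ i,
      V.At (C i) ((1 - c) * a i + c * b i) := by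
    intro V c hV i
    have h0 : V.At (1 : Om k) 1 := by
      have := Place.at_const (v := V) (1 : k)
      rwa [map_one] at this
    exact ((h0.sub hV).mul (Place.at_const _)).add (hV.mul (Place.at_const _))
  have hlim : ∀ (V : Place k (Om k)) (m : Ln F k), IsVal V n m →
      lim (hom_PX hF) V (Finsupp.single (fun _ : Unit => (pe hF (Om k)).symm n) 1) =
        cl hF m := by
    intro V m hm
    have h := cl_lim hF hm
    change lim (hom_PX hF) V (Finsupp.mapDomain _ _) = _ at h
    rwa [Finsupp.mapDomain_single] at h
  refine bridge (hom_PX hF) (Finsupp.single (fun _ : Unit => (pe hF (Om k)).symm n) 1)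
    (c₀ := 0) (c₁ := 1) (fun V hV => hlim V l ?_) (fun V hV => hlim V l' ?_)
  · refine val_span hn hl (hxat V) (fun i => ?_) hxa
    have h := hCat V 0 hV i
    rwa [sub_zero, one_mul, zero_mul, add_zero] at h
  · refine val_span hn hl' (hxat V) (fun i => ?_) hxb
    have h := hCat V 1 hV i
    rwa [sub_self, zero_mul, one_mul, zero_add] at h

end Pool.Agent.CUB.FLN
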