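import Pool.Agent.FLN.GenPair
import Pool.Agent.FLN.GenLine
import Pool.Agent.FLN.Spr

/-!
# The generic configuration near a pair of incident lines

Unknowns `ι = (Fin 3 × Fin 6) ⊕ Unit`: the vectors `X`, `A`, `B` and one more parameter `t`, so
`#ι = 19`; seven equations (`κ = Fin 7`): `tri X X X`, `tri X X A`, `tri X A A`, `tri A A A`, `tri
X X B`, `tri X B B`, `tri B B B` (`Pf.tri`), the given solution is `(x, a, b, 0)`. `spread`: `E`,
`z`, `D`, `12 ≤ finrank D`. `X`, `A`, `B` are independent (a minor which is not zero at `(x, a,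
b)` is not zero at `z`), and one of the numbers `tri X A B`, `tri A A B`, `tri A B B` is not zero
(they are polynomials, one of them is not zero at `p`). `gen_pair` (second alternative) gives `c`,
`Cfg F X A B c`, and all residual lines `f` satisfy the hypothesis of `gen_line`, so `Gp s' f` for
all constant lines `s'`. `spread` for `c` (`n = 6`) gives `d ≠ 0` with `Sprd`. Put `C = d • c`:
`cfg_smul`, `bas_rs_smul`.
-/

set_option autoImplicit false

noncomputable section

namespace Pool.Agent.CUB.FLN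

open Pool.Agent.ZCyc Pool.Agent.Dess Pool.Agent.GT Module
open Pool.Agent.VFP (Om tt)
open scoped Classical

section

variable {k : Type} [Field k] {F : MvPolynomial (Fin 6) k} {L : Type} [Field L] [Algebra k L]

/-- all conditions are homogeneous in `c` -/
theorem cfg_smul {x a b c : Fin 6 → L} (h : Cfg F x a b c) {d : L} (hd : d ≠ 0) :
    Cfg F x a b (d • c) where
  li := by
    have h1 := h.li.units_smul ![1, 1, 1, Units.mk0 d hd]
    convert h1 using 1
    funext i
    fin_cases i <;> simp [Units.smul_def]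
  ona := h.ona
  onb := h.onb
  onc :=
    { xxx := h.onc.xxx
      xxa := by rw [tri_smul3, h.onc.xxa, mul_zero]
      xaa := by rw [tri_smul2, tri_smul3, h.onc.xaa, mul_zero, mul_zero]
      aaa := by rw [tri_smul1, tri_smul2, tri_smul3, h.onc.aaa, mul_zero, mul_zero, mul_zero] }
  al := by
    rw [tri_smul3]
    exact mul_ne_zero hd h.al
  be := by
    rw [tri_smul3]
    exact mul_ne_zero hd h.be
  ga := h.ga
  k1 := by
    rw [tri_smul3, tri_smul3]
    have h1 := mul_ne_zero hd h.k1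
    intro h2
    apply h1
    linear_combination h2
  k2 := by
    rw [tri_smul3, tri_smul3]
    have h1 := mul_ne_zero hd h.k2
    intro h2
    apply h1
    linear_combination h2
  k3 := by
    rw [tri_smul3, tri_smul3, tri_smul3, tri_smul3, tri_smul2, tri_smul2]
    have h1 := mul_ne_zero (pow_ne_zero 3 hd) h.k3
    intro h2
    apply h1
    linear_combination h2

/-- `rs F x a (d • c) = ![d • rs F x a c 0, d ^ 2 • rs F x a c 1]` -/
theorem bas_rs_smul [CharZero k] {x a c : Fin 6 → L} {d : L} (hd : d ≠ 0) {f : Ln F L}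
    (h : Bas f (rs F x a (d • c))) : Bas f (rs F x a c) := by
  have e0 : rs F x a (d • c) 0 = d • rs F x a c 0 := by
    simp only [rs, Matrix.cons_val_zero]
    rw [tri_smul3, tri_smul3]
    module
  have e1 : rs F x a (d • c) 1 = d ^ 2 • rs F x a c 1 := by
    simp only [rs, Matrix.cons_val_one, Matrix.cons_val_fin_one]
    rw [tri_smul3, tri_smul3, tri_smul2]
    module
  have hd2 : d ^ 2 ≠ 0 := pow_ne_zero 2 hd
  obtain ⟨h1, h2⟩ := h
  rw [e0, e1] at h1 h2
  constructor
  · rw [LinearIndependent.pair_iff] at h1 ⊢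
    intro s t hst
    have h3 := h1 (s / d) (t / d ^ 2) (by
      rw [smul_smul, smul_smul, div_mul_cancel₀ _ hd, div_mul_cancel₀ _ hd2]
      exact hst)
    refine ⟨?_, ?_⟩
    · have := h3.1
      rwa [div_eq_zero_iff, or_iff_left hd] at this
    · have := h3.2
      rwa [div_eq_zero_iff, or_iff_left hd2] at this
  · rw [h2]
    apply le_antisymm
    · rw [Submodule.span_le]
      rintro v (rfl | rfl)
      · exact Submodule.smul_mem _ _ (Submodule.subset_span (by simp))
      · exact Submodule.smul_mem _ _ (Submodule.subset_span (by simp))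
    · rw [Submodule.span_le]
      rintro v (rfl | rfl)
      · have h3 : d⁻¹ • (d • rs F x a c 0) ∈
            Submodule.span L {d • rs F x a c 0, d ^ 2 • rs F x a c 1} :=
          Submodule.smul_mem _ _ (Submodule.subset_span (by simp))
        rwa [smul_smul, inv_mul_cancel₀ hd, one_smul] at h3
      · have h3 : (d ^ 2)⁻¹ • (d ^ 2 • rs F x a c 1) ∈
            Submodule.span L {d • rs F x a c 0, d ^ 2 • rs F x a c 1} :=
          Submodule.smul_mem _ _ (Submodule.subset_span (by simp))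
        rwa [smul_smul, inv_mul_cancel₀ hd2, one_smul] at h3

end

variable {k : Type} [Field k] [IsAlgClosed k] [CharZero k] {F : MvPolynomial (Fin 6) k}

/-- the unknowns: three vectors and one parameter -/
abbrev I19 : Type := (Fin 3 × Fin 6) ⊕ Unit

/-- the vectors in a point with the coordinates `I19 ⊕ Fin 6` -/
def vx {M : Type} (s : I19 ⊕ Fin 6 → M) (j : Fin 3) : Fin 6 → M := fun i =>
  s (Sum.inl (Sum.inl (j, i)))

/-- the fourth vector -/
def vy {M : Type} (s : I19 ⊕ Fin 6 → M) : Fin 6 → M := fun i => s (Sum.inr i)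

/-- the vectors in a point with the coordinates `I19` -/
private def wx {M : Type} (s : I19 → M) (j : Fin 3) : Fin 6 → M := fun i => s (Sum.inl (j, i))

omit [IsAlgClosed k] [CharZero k] in
private theorem pv_wx (j : Fin 3) :
    Pv (k := k) fun (M : Type) [Field M] [Algebra k M] (a : I19 → M) => wx a j :=
  fun i => Pf.coord (Sum.inl (j, i))

theorem gen_E (hF : Smooth F) {x a b : Fin 6 → k} (ha : On F x a) (hb : On F x b)
    (hli : LinearIndependent k ![x, a, b])
    (hpl : ¬ (tri F x a b = 0 ∧ tri F a a b = 0 ∧ tri F a b b = 0)) :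
    ∃ (E : Type) (_ : Field E) (_ : Algebra k E) (_ : IsAlgClosed E) (z : I19 ⊕ Fin 6 → E)
      (p : I19 ⊕ Fin 6 → k), vx p 0 = x ∧ vx p 1 = a ∧ vx p 2 = b ∧
      Cfg F (vx z 0) (vx z 1) (vx z 2) (vy z) ∧
      (∀ f : Ln F E, (Bas f (rs F (vx z 0) (vx z 1) (vx z 2)) ∨
        Bas f (rs F (vx z 0) (vx z 1) (vy z)) ∨ Bas f (rs F (vx z 0) (vx z 2) (vy z))) →
        ∀ (s : Ln F k) (s' : Ln F E), (∀ a ∈ s.W, em E a ∈ s'.W) → Gp s' f) ∧
      Sprd z (Set.range Sum.inl) p := by
  -- the polynomials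
  have hP : ∀ j₁ j₂ j₃ : Fin 3, ∃ P : MvPolynomial I19 k, ∀ (M : Type) [Field M] [Algebra k M]
      (s : I19 → M), MvPolynomial.aeval s P = tri F (wx s j₁) (wx s j₂) (wx s j₃) :=
    fun j₁ j₂ j₃ => Pf.tri F (pv_wx j₁) (pv_wx j₂) (pv_wx j₃)
  choose P hP using hP
  set t : Fin 7 → Fin 3 × Fin 3 × Fin 3 :=
    ![(0, 0, 0), (0, 0, 1), (0, 1, 1), (1, 1, 1), (0, 0, 2), (0, 2, 2), (2, 2, 2)] with ht
  set f : Fin 7 → MvPolynomial I19 k := fun i => P (t i).1 (t i).2.1 (t i).2.2 with hf
  set p₀ : I19 → k := Sum.elim (fun q => (![x, a, b] : Fin 3 → Fin 6 → k) q.1 q.2) fun _ => 0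
    with hp₀
  have hw0 : wx p₀ 0 = x := rfl
  have hw1 : wx p₀ 1 = a := rfl
  have hw2 : wx p₀ 2 = b := rfl
  have hev : ∀ j₁ j₂ j₃, MvPolynomial.eval p₀ (P j₁ j₂ j₃) =
      tri F (wx p₀ j₁) (wx p₀ j₂) (wx p₀ j₃) := by
    intro j₁ j₂ j₃
    rw [← MvPolynomial.aeval_eq_eval]
    exact hP j₁ j₂ j₃ k p₀
  have h0 : ∀ i, MvPolynomial.eval p₀ (f i) = 0 := by
    intro i
    rw [hf]
    simp only
    rw [hev]
    fin_cases i
    · exact ha.xxx
    · exact ha.xxa
    · exact ha.xaa
    · exact ha.aaa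
    · exact hb.xxa
    · exact hb.xaa
    · exact hb.aaa
  obtain ⟨E, iE, aE, hE, z, D, hfd, hz, hcard, hinj, hsp, -, hS⟩ := spread f p₀ h0
  have hz' : ∀ i, tri F (wx z (t i).1) (wx z (t i).2.1) (wx z (t i).2.2) = 0 := by
    intro i
    have h1 := hz i
    rw [hf] at h1
    simp only at h1
    rwa [hP] at h1
  have hA : On F (wx z 0) (wx z 1) := ⟨hz' 0, hz' 1, hz' 2, hz' 3⟩
  have hB : On F (wx z 0) (wx z 2) := ⟨hz' 0, hz' 4, hz' 5, hz' 6⟩
  have hsp' : ∀ j₁ j₂ j₃, tri F (wx z j₁) (wx z j₂) (wx z j₃) = 0 →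
      tri F (wx p₀ j₁) (wx p₀ j₂) (wx p₀ j₃) = 0 := by
    intro j₁ j₂ j₃ h
    rw [← hev]
    apply hsp
    rw [hP]
    exact h
  have hLI : LinearIndependent E ![wx z 0, wx z 1, wx z 2] := by
    have h1 : LinearIndependent k (wx p₀) := by
      convert hli using 1
      funext j
      fin_cases j <;> rfl
    obtain ⟨τ, hτ⟩ := (li_minor _).1 h1
    obtain ⟨Q, hQ⟩ := Pf.det (r := 3) (x := fun j (M : Type) [Field M] [Algebra k M]
      (a : I19 → M) => wx a j) (fun j => pv_wx (k := k) j) τ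
    have h2 : LinearIndependent E (wx z) := by
      refine (li_minor _).2 ⟨τ, fun h3 => hτ ?_⟩
      have h4 := hsp Q (by rw [hQ]; exact h3)
      rw [← MvPolynomial.aeval_eq_eval, hQ] at h4
      exact h4
    convert h2 using 1
    funext j
    fin_cases j <;> rfl
  have h12 : 12 ≤ finrank E D := by
    have h1 : Fintype.card I19 = 19 := by
      rw [Fintype.card_sum, Fintype.card_prod, Fintype.card_fin, Fintype.card_fin,
        Fintype.card_unit]
    rw [h1, Fintype.card_fin] at hcard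
    omega
  have hinj' : ∀ δ ∈ D, dr δ (wx z 0) = 0 → dr δ (wx z 1) = 0 → dr δ (wx z 2) = 0 →
      δ (z (Sum.inr ())) = 0 → δ = 0 := by
    intro δ hδ h1 h2 h3 h4
    refine hinj δ hδ ?_
    rintro (⟨j, i⟩ | u)
    · fin_cases j
      · exact congrFun h1 i
      · exact congrFun h2 i
      · exact congrFun h3 i
    · exact h4
  rcases gen_pair hF D h12 hinj' hA hB hLI with h | ⟨c, hc, hf⟩
  · exact absurd ⟨hsp' 0 1 2 h.1, hsp' 1 1 2 h.2.1, hsp' 1 2 2 h.2.2⟩ hpl
  obtain ⟨d, hd, hSd⟩ := hS 6 c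
  refine ⟨E, iE, aE, hE, Sum.elim z (d • c), Sum.elim p₀ fun _ => 0, rfl, rfl, rfl,
    cfg_smul hc hd, ?_, hSd⟩
  intro g hg s s' hs
  refine gen_line hF D (hf g ?_) s hs
  rcases hg with hg | hg | hg
  · exact Or.inl hg
  · exact Or.inr (Or.inl (bas_rs_smul hd hg))
  · exact Or.inr (Or.inr (bas_rs_smul hd hg))

end Pool.Agent.CUB.FLN
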