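import Pool.Agent.FLN.SpC
import Pool.Agent.FLN.MvB

/-!
# A family of configurations near a pair of incident lines

Proof. `gen_E`: `E`, `z`, `p`. The configuration at `z` gives a finite family of polynomials which
are not zero at `z`: a minor of `(x, a, b, c)` (`li_minor`, `Pf.det`); `al`, `be`, `ga`, `k1`,
`k2`, `k3` (`Pf.tri`, `Pf.mul`, `Pf.sub`); for every `s ∈ S` and each of the three residual lines
(`exists_rs` over `E` gives the lines `f`; `Gp s_E f` for the line `s_E` from `exists_base`, with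
the basis `em ∘ b s`, `bas_em`) two certificates (`exists_vc`; `Pf.vc` with `Pv.const` and
`Pv.rs`). Index set: `J = Unit ⊕ Fin 6 ⊕ (S × Fin 3 × Bool)`. `Sprd` gives the point `s` over `Om
k`, the place `V₀`, `Γ`. `X = vx s 0`, `A = vx s 1`, `B = vx s 2`. The equations `On F X A`, `On F
X B` hold at `z` (`Cfg.ona`, `Cfg.onb`), so at `s`. At a place `V` at which the elements of `Γ`
are units let `s'` be the values: all equations (`On` for `x' a'`, `x' b'`, `x' c'`) and all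
inequalities hold at `s'`, so `Cfg F x' a' b' c'`, and the certificates with `vg_of_vc` give `Gp s
f` for the residual lines.
-/

set_option autoImplicit false

noncomputable section

namespace Pool.Agent.CUB.FLN

open Pool.Agent.ZCyc Pool.Agent.Dess Pool.Agent.GT Module
open Pool.Agent.VFP (Om tt)
open scoped Classical

/-! ### The polynomial functions of the configuration -/

section

variable {k : Type} [Field k] {F : MvPolynomial (Fin 6) k}

private theorem pv_vx (j : Fin 3) :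
    Pv (k := k) fun (M : Type) [Field M] [Algebra k M] (a : I19 ⊕ Fin 6 → M) => vx a j :=
  fun i => Pf.coord (k := k) (Sum.inl (Sum.inl (j, i)))

private theorem pv_vy :
    Pv (k := k) fun (M : Type) [Field M] [Algebra k M] (a : I19 ⊕ Fin 6 → M) => vy a :=
  fun i => Pf.coord (k := k) (Sum.inr i)

/-- the vectors `x`, `a`, `b`, `c` -/
private def v4 {M : Type} (a : I19 ⊕ Fin 6 → M) (j : Fin 4) : Fin 6 → M :=
  (![vx a 0, vx a 1, vx a 2, vy a] : Fin 4 → Fin 6 → M) j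

private theorem pv_v4 (j : Fin 4) :
    Pv (k := k) fun (M : Type) [Field M] [Algebra k M] (a : I19 ⊕ Fin 6 → M) => v4 a j := by
  fin_cases j
  · exact pv_vx 0
  · exact pv_vx 1
  · exact pv_vx 2
  · exact pv_vy

/-- the first and the second vector of the pair `r` -/
private def i1 : Fin 3 → Fin 4 := ![1, 1, 2]

private def i2 : Fin 3 → Fin 4 := ![2, 3, 3]

/-- the bases of the three residual lines -/
private def rr (F : MvPolynomial (Fin 6) k) {M : Type} [Field M] [Algebra k M]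
    (a : I19 ⊕ Fin 6 → M) (r : Fin 3) : Fin 2 → Fin 6 → M :=
  rs F (v4 a 0) (v4 a (i1 r)) (v4 a (i2 r))

private theorem pv_rr (F : MvPolynomial (Fin 6) k) (r : Fin 3) (j : Fin 2) :
    Pv (k := k) fun (M : Type) [Field M] [Algebra k M] (a : I19 ⊕ Fin 6 → M) => rr F a r j :=
  Pv.rs F (pv_v4 0) (pv_v4 (i1 r)) (pv_v4 (i2 r)) j

/-- the six numbers of a configuration -/
private def q6 (F : MvPolynomial (Fin 6) k) {M : Type} [Field M] [Algebra k M]
    (a : I19 ⊕ Fin 6 → M) : Fin 6 → M :=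
  ![tri F (v4 a 0) (v4 a 2) (v4 a 3), tri F (v4 a 0) (v4 a 1) (v4 a 3),
    tri F (v4 a 0) (v4 a 1) (v4 a 2),
    tri F (v4 a 0) (v4 a 1) (v4 a 3) * tri F (v4 a 1) (v4 a 1) (v4 a 2) -
      tri F (v4 a 0) (v4 a 1) (v4 a 2) * tri F (v4 a 1) (v4 a 1) (v4 a 3),
    tri F (v4 a 0) (v4 a 2) (v4 a 3) * tri F (v4 a 1) (v4 a 2) (v4 a 2) -
      tri F (v4 a 0) (v4 a 1) (v4 a 2) * tri F (v4 a 2) (v4 a 2) (v4 a 3),
    tri F (v4 a 0) (v4 a 2) (v4 a 3) * tri F (v4 a 1) (v4 a 3) (v4 a 3) -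
      tri F (v4 a 0) (v4 a 1) (v4 a 3) * tri F (v4 a 2) (v4 a 3) (v4 a 3)]

private theorem pf_q6 (F : MvPolynomial (Fin 6) k) (j : Fin 6) :
    Pf (k := k) fun (M : Type) [Field M] [Algebra k M] (a : I19 ⊕ Fin 6 → M) => q6 F a j := by
  have T : ∀ p q r : Fin 4, Pf (k := k) fun (M : Type) [Field M] [Algebra k M]
      (a : I19 ⊕ Fin 6 → M) => tri F (v4 a p) (v4 a q) (v4 a r) := fun p q r =>
    Pf.tri F (pv_v4 p) (pv_v4 q) (pv_v4 r)
  fin_cases j
  · exact T 0 2 3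
  · exact T 0 1 3
  · exact T 0 1 2
  · exact Pf.sub (Pf.mul (T 0 1 3) (T 1 1 2)) (Pf.mul (T 0 1 2) (T 1 1 3))
  · exact Pf.sub (Pf.mul (T 0 2 3) (T 1 2 2)) (Pf.mul (T 0 1 2) (T 2 2 3))
  · exact Pf.sub (Pf.mul (T 0 2 3) (T 1 3 3)) (Pf.mul (T 0 1 3) (T 2 3 3))

/-- all equations hold at `s` if they hold at `z` -/
private theorem on_tr {E M : Type} [Field E] [Algebra k E] [Field M] [Algebra k M]
    {z : I19 ⊕ Fin 6 → E} {s : I19 ⊕ Fin 6 → M}
    (h : ∀ P : MvPolynomial (I19 ⊕ Fin 6) k, MvPolynomial.aeval z P = 0 →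
      MvPolynomial.aeval s P = 0) {i j : Fin 4} (ho : On F (v4 z i) (v4 z j)) :
    On F (v4 s i) (v4 s j) := by
  have T : ∀ p q r : Fin 4, tri F (v4 z p) (v4 z q) (v4 z r) = 0 →
      tri F (v4 s p) (v4 s q) (v4 s r) = 0 := by
    intro p q r h0
    obtain ⟨P, hP⟩ := Pf.tri F (pv_v4 p) (pv_v4 q) (pv_v4 r)
    have h1 := hP M s
    rw [h P ((hP E z).trans h0)] at h1
    exact h1.symm
  exact ⟨T _ _ _ ho.xxx, T _ _ _ ho.xxa, T _ _ _ ho.xaa, T _ _ _ ho.aaa⟩

/-- a configuration from equations and inequalities -/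
private theorem cfg_of {M : Type} [Field M] [Algebra k M] {s : I19 ⊕ Fin 6 → M}
    {τ : Fin 4 → Fin 6} (h0 : (Matrix.of fun i j => v4 s i (τ j)).det ≠ 0)
    (h1 : On F (v4 s 0) (v4 s 1)) (h2 : On F (v4 s 0) (v4 s 2)) (h3 : On F (v4 s 0) (v4 s 3))
    (h4 : ∀ j, q6 F s j ≠ 0) : Cfg F (vx s 0) (vx s 1) (vx s 2) (vy s) where
  li := by
    have := (li_minor (v4 s)).2 ⟨τ, h0⟩
    exact this
  ona := h1
  onb := h2
  onc := h3
  al := h4 0
  be := h4 1
  ga := h4 2
  k1 := h4 3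
  k2 := h4 4
  k3 := h4 5

private theorem q6_of {M : Type} [Field M] [Algebra k M] {s : I19 ⊕ Fin 6 → M}
    (h : Cfg F (vx s 0) (vx s 1) (vx s 2) (vy s)) (j : Fin 6) : q6 F s j ≠ 0 := by
  fin_cases j
  · exact h.al
  · exact h.be
  · exact h.ga
  · exact h.k1
  · exact h.k2
  · exact h.k3

end

variable {k : Type} [Field k] [IsAlgClosed k] [CharZero k] {F : MvPolynomial (Fin 6) k}

theorem gen_cfg (hF : Smooth F) (S : Finset (Ln F k)) {x a b : Fin 6 → k} (ha : On F x a)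
    (hb : On F x b) (hli : LinearIndependent k ![x, a, b])
    (hpl : ¬ (tri F x a b = 0 ∧ tri F a a b = 0 ∧ tri F a b b = 0)) :
    ∃ (X A B : Fin 6 → Om k) (V₀ : Place k (Om k)) (Γ : Finset (Om k)), (0 : Om k) ∉ Γ ∧
      (∀ i, V₀.At (X i) (x i)) ∧ (∀ i, V₀.At (A i) (a i)) ∧ (∀ i, V₀.At (B i) (b i)) ∧
      On F X A ∧ On F X B ∧ LinearIndependent (Om k) ![X, A, B] ∧
      ∀ V : Place k (Om k), (∀ g ∈ Γ, g ∈ V.ring ∧ g⁻¹ ∈ V.ring) →
        ∃ x' a' b' c' : Fin 6 → k, (∀ i, V.At (X i) (x' i)) ∧ (∀ i, V.At (A i) (a' i)) ∧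
          (∀ i, V.At (B i) (b' i)) ∧ Cfg F x' a' b' c' ∧
          ∀ f : Ln F k, (Bas f (rs F x' a' b') ∨ Bas f (rs F x' a' c') ∨
            Bas f (rs F x' b' c')) → ∀ s ∈ S, Gp s f := by
  obtain ⟨E, hE1, hE2, hE3, z, p, hp0, hp1, hp2, hcfg, hgp, hsp⟩ := gen_E hF ha hb hli hpl
  have hE0 : CharZero E := charZero_of_injective_algebraMap (algebraMap k E).injective
  -- the minor
  obtain ⟨τ, hτ⟩ := (li_minor (v4 z)).1 hcfg.li
  obtain ⟨P0, hP0⟩ := Pf.det (k := k) (x := fun j (M : Type) [Field M] [Algebra k M]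
    (a : I19 ⊕ Fin 6 → M) => v4 a j) (fun j => pv_v4 j) τ
  choose P1 hP1 using fun j => pf_q6 F j
  -- the residual lines over `E`
  have hrs : ∀ r : Fin 3, ∃ f : Ln F E, Bas f (rr F z r) := by
    have hli4 := hcfg.li
    have hsub : ∀ p q r : Fin 4, Function.Injective (![p, q, r] : Fin 3 → Fin 4) →
        LinearIndependent E ![v4 z p, v4 z q, v4 z r] := by
      intro p q r hinj
      have h1 := hli4.comp (![p, q, r] : Fin 3 → Fin 4) hinj
      convert h1 using 1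
      funext i
      fin_cases i <;> rfl
    intro r
    fin_cases r
    · exact exists_rs hF (hsub 0 1 2 (by decide)) hcfg.ona hcfg.onb hcfg.ga
    · exact exists_rs hF (hsub 0 1 3 (by decide)) hcfg.ona hcfg.onc hcfg.be
    · exact exists_rs hF (hsub 0 2 3 (by decide)) hcfg.onb hcfg.onc hcfg.al
  choose f hf using hrs
  choose bs hbs using fun s : Ln F k => exists_bas s
  choose sE hsE using fun s : Ln F k => exists_base hF E s
  have hgp1 : ∀ (s : Ln F k) (r : Fin 3), Gp (sE s) (f r) := by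
    intro s r
    refine hgp (f r) ?_ s (sE s) (hsE s).1
    have := hf r
    fin_cases r
    · exact Or.inl this
    · exact Or.inr (Or.inl this)
    · exact Or.inr (Or.inr this)
  have hv1 : ∀ (s : Ln F k) (r : Fin 3), ∃ σ : Fin 2 → k,
      vc F (fun j => em E (bs s j)) (rr F z r) σ ≠ 0 := fun s r =>
    exists_vc hF (bas_em hF (hbs s) (hsE s).1) (hf r) (hgp1 s r).1
  have hv2 : ∀ (s : Ln F k) (r : Fin 3), ∃ σ : Fin 2 → k,
      vc F (rr F z r) (fun j => em E (bs s j)) σ ≠ 0 := fun s r =>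
    exists_vc hF (hf r) (bas_em hF (hbs s) (hsE s).1) (hgp1 s r).2
  choose σ1 hσ1 using hv1
  choose σ2 hσ2 using hv2
  choose P2 hP2 using fun (s : Ln F k) (r : Fin 3) => Pf.vc F
    (x := fun j (M : Type) [Field M] [Algebra k M] (_ : I19 ⊕ Fin 6 → M) => em M (bs s j))
    (y := fun j (M : Type) [Field M] [Algebra k M] (a : I19 ⊕ Fin 6 → M) => rr F a r j)
    (fun j => Pv.const (bs s j)) (fun j => pv_rr F r j) (σ1 s r)
  choose P3 hP3 using fun (s : Ln F k) (r : Fin 3) => Pf.vc F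
    (x := fun j (M : Type) [Field M] [Algebra k M] (a : I19 ⊕ Fin 6 → M) => rr F a r j)
    (y := fun j (M : Type) [Field M] [Algebra k M] (_ : I19 ⊕ Fin 6 → M) => em M (bs s j))
    (fun j => pv_rr F r j) (fun j => Pv.const (bs s j)) (σ2 s r)
  -- the spreading
  obtain ⟨s, V₀, Γ, hΓ, hV₀, heq, hne, hV⟩ := hsp (Unit ⊕ Fin 6 ⊕ (S × Fin 3) ⊕ (S × Fin 3))
    (Sum.elim (fun _ => P0) (Sum.elim P1 (Sum.elim (fun q => P2 q.1 q.2) fun q => P3 q.1 q.2))) (by
      rintro (_ | j | q | q)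
      · change MvPolynomial.aeval z P0 ≠ 0
        rw [hP0]
        exact hτ
      · change MvPolynomial.aeval z (P1 j) ≠ 0
        rw [hP1]
        exact q6_of hcfg j
      · change MvPolynomial.aeval z (P2 q.1 q.2) ≠ 0
        rw [hP2]
        exact hσ1 _ _
      · change MvPolynomial.aeval z (P3 q.1 q.2) ≠ 0
        rw [hP3]
        exact hσ2 _ _)
  refine ⟨vx s 0, vx s 1, vx s 2, V₀, Γ, hΓ, ?_, ?_, ?_, on_tr (i := 0) (j := 1) heq hcfg.ona,
    on_tr (i := 0) (j := 2) heq hcfg.onb, ?_, ?_⟩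
  · intro i
    rw [← hp0]
    exact hV₀ _ ⟨_, rfl⟩
  · intro i
    rw [← hp1]
    exact hV₀ _ ⟨_, rfl⟩
  · intro i
    rw [← hp2]
    exact hV₀ _ ⟨_, rfl⟩
  · have h1 := hne (Sum.inl ())
    change MvPolynomial.aeval s P0 ≠ 0 at h1
    rw [hP0] at h1
    have h2 := (li_minor (v4 s)).2 ⟨τ, h1⟩
    have h3 := h2.comp (![0, 1, 2] : Fin 3 → Fin 4) (by decide)
    convert h3 using 1
    funext i
    fin_cases i <;> rfl
  · intro V hVΓ
    obtain ⟨s', hs', heq', hne'⟩ := hV V hVΓ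
    have ev : ∀ P : MvPolynomial (I19 ⊕ Fin 6) k, MvPolynomial.eval s' P =
        MvPolynomial.aeval s' P := fun P => rfl
    have heq2 : ∀ P : MvPolynomial (I19 ⊕ Fin 6) k, MvPolynomial.aeval z P = 0 →
        MvPolynomial.aeval s' P = 0 := fun P h => by
      rw [← ev]
      exact heq' P h
    have hc : Cfg F (vx s' 0) (vx s' 1) (vx s' 2) (vy s') := by
      refine cfg_of (τ := τ) ?_ (on_tr (i := 0) (j := 1) heq2 hcfg.ona)
        (on_tr (i := 0) (j := 2) heq2 hcfg.onb) (on_tr (i := 0) (j := 3) heq2 hcfg.onc) ?_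
      · have h1 := hne' (Sum.inl ())
        change MvPolynomial.eval s' P0 ≠ 0 at h1
        rw [ev, hP0] at h1
        exact h1
      · intro j
        have h1 := hne' (Sum.inr (Sum.inl j))
        change MvPolynomial.eval s' (P1 j) ≠ 0 at h1
        rw [ev, hP1] at h1
        exact h1
    refine ⟨vx s' 0, vx s' 1, vx s' 2, vy s', fun i => hs' _, fun i => hs' _, fun i => hs' _, hc,
      ?_⟩
    intro g hg t ht
    obtain ⟨r, hr⟩ : ∃ r : Fin 3, Bas g (rr F s' r) := by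
      rcases hg with hg | hg | hg
      · exact ⟨0, hg⟩
      · exact ⟨1, hg⟩
      · exact ⟨2, hg⟩
    constructor
    · have h1 := hne' (Sum.inr (Sum.inr (Sum.inl (⟨t, ht⟩, r))))
      change MvPolynomial.eval s' (P2 t r) ≠ 0 at h1
      rw [ev, hP2] at h1
      exact vg_of_vc hF (hbs t) hr h1
    · have h1 := hne' (Sum.inr (Sum.inr (Sum.inr (⟨t, ht⟩, r))))
      change MvPolynomial.eval s' (P3 t r) ≠ 0 at h1
      rw [ev, hP3] at h1
      exact vg_of_vc hF hr (hbs t) h1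

end Pool.Agent.CUB.FLN
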