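import Pool.Agent.FLN.Phi

/-!
# A transversal of two lines

If `l` and `l'` have a common vector `z ≠ 0` take `m = l`. Otherwise choose bases `u` of `l`, `w` of
`l'`. The function `s ↦ dd F w (cmb u s)` is a binary quintic form, so there is `s ≠ 0` with
`dd F w (cmb u s) = 0`. Let `z = cmb u s`, `v = ys F w z`. If `v ≠ 0` take `m = ⟨z, v⟩`. If `v = 0`
then `tri z z (w j) = 0`; take `t ≠ 0` with `tri z (cmb w t) (cmb w t) = 0` and
`m = ⟨z, cmb w t⟩`.
-/

set_option autoImplicit false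

noncomputable section

namespace Pool.Agent.CUB.FLN

open Pool.Agent.ZCyc Pool.Agent.Dess Pool.Agent.GT
open Pool.Agent.VFP (Om tt)
open scoped Classical

variable {k : Type} [Field k] [IsAlgClosed k] [CharZero k] {F : MvPolynomial (Fin 6) k}

/-- two lines are met by a third one -/
theorem exists_transversal (hF : Smooth F) (l l' : Ln F k) : ∃ m : Ln F k,
    (∃ z ∈ l.W, z ≠ 0 ∧ z ∈ m.W) ∧ ∃ z ∈ l'.W, z ≠ 0 ∧ z ∈ m.W := by
  by_cases hc : ∃ z ∈ l.W, z ≠ 0 ∧ z ∈ l'.W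
  · obtain ⟨z, hz, hz0, hz'⟩ := hc
    exact ⟨l, ⟨z, hz, hz0, hz⟩, z, hz', hz0, hz⟩
  push Not at hc
  obtain ⟨u, hu⟩ := exists_bas l
  obtain ⟨w, hw⟩ := exists_bas l'
  obtain ⟨s, hs0, hs⟩ : ∃ s : Fin 2 → k, s ≠ 0 ∧ dd F w (cmb u s) = 0 := by
    by_cases h : ∃ s, dd F w (cmb u s) ≠ 0
    · obtain ⟨p, hp⟩ := bf_dd (F := F) u w
      obtain ⟨c, ρ, _, hρ, hfac⟩ := hp.factor h
      exact ⟨ρ 0, hρ 0, by rw [hfac, Finset.prod_eq_zero (Finset.mem_univ 0) (by ring), mul_zero]⟩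
    · push Not at h
      exact ⟨![1, 0], fun h1 => by simpa using congrFun h1 0, h _⟩
  have hz : cmb u s ∈ l.W := hu.cmb_mem s
  have hz0 : cmb u s ≠ 0 := hu.cmb_ne hs0
  generalize cmb u s = z at hz hz0 hs
  have key : ∀ v ∈ l'.W, v ≠ 0 → tri F z z v = 0 → tri F z v v = 0 → ∃ m : Ln F k,
      (∃ z ∈ l.W, z ≠ 0 ∧ z ∈ m.W) ∧ ∃ z ∈ l'.W, z ≠ 0 ∧ z ∈ m.W := by
    intro v hv hv0 h1 h2
    have hli : LinearIndependent k ![z, v] := by
      rw [LinearIndependent.pair_iff' hz0]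
      intro a ha
      have ha0 : a ≠ 0 := by
        rintro rfl
        exact hv0 (by rw [← ha, zero_smul])
      refine hc z hz hz0 ?_
      have h3 : z = a⁻¹ • v := by rw [← ha, smul_smul, inv_mul_cancel₀ ha0, one_smul]
      rw [h3]
      exact l'.W.smul_mem _ hv
    obtain ⟨m, hm⟩ := exists_ln hF hli (l.tri_zero hF hz hz hz) h1 h2
      (l'.tri_zero hF hv hv hv)
    refine ⟨m, ⟨z, hz, hz0, ?_⟩, v, hv, hv0, ?_⟩
    · rw [hm]
      exact Submodule.subset_span (by simp)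
    · rw [hm]
      exact Submodule.subset_span (by simp)
  by_cases hv : ys F w z = 0
  · have h0 := (LinearIndependent.pair_iff.1 hw.1) (-tri F z z (w 1)) (tri F z z (w 0)) (by
      rw [← hv]
      unfold ys
      module)
    have h01 : tri F z z (w 1) = 0 := neg_eq_zero.1 h0.1
    have h1 : ∀ t : Fin 2 → k, tri F z z (cmb w t) = 0 := by
      intro t
      unfold cmb
      rw [tri_add3, tri_smul3, tri_smul3, h0.2, h01]
      ring
    have h2 : ∀ t : Fin 2 → k, tri F z (cmb w t) (cmb w t) = tri F z (w 0) (w 0) * t 0 ^ 2 +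
        2 * tri F z (w 0) (w 1) * t 0 * t 1 + tri F z (w 1) (w 1) * t 1 ^ 2 := by
      intro t
      unfold cmb
      rw [tri_add3, tri_add2, tri_add2, tri_smul3, tri_smul3, tri_smul2, tri_smul2, tri_smul2,
        tri_smul2, tri_smul3, tri_smul3, tri_swap23 F z (w 1) (w 0)]
      ring
    obtain ⟨t, ht0, ht⟩ : ∃ t : Fin 2 → k, t ≠ 0 ∧ tri F z (cmb w t) (cmb w t) = 0 := by
      by_cases hA : tri F z (w 0) (w 0) = 0
      · refine ⟨![1, 0], fun h3 => by simpa using congrFun h3 0, ?_⟩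
        rw [h2, hA]
        simp
      · obtain ⟨r, hr⟩ := IsAlgClosed.exists_pow_nat_eq
          (tri F z (w 0) (w 1) ^ 2 - tri F z (w 0) (w 0) * tri F z (w 1) (w 1))
          (n := 2) (by norm_num)
        refine ⟨![(-tri F z (w 0) (w 1) + r) / tri F z (w 0) (w 0), 1],
          fun h3 => by simpa using congrFun h3 1, ?_⟩
        rw [h2]
        simp only [Matrix.cons_val_zero, Matrix.cons_val_one]
        field_simp
        linear_combination hr
    exact key _ (hw.cmb_mem t) (hw.cmb_ne ht0) (h1 t) ht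
  · exact key _ (ys_mem hw z) hv (tri_ys w z) hs

end Pool.Agent.CUB.FLN
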