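import Pool.Agent.FLN.SpA
import Pool.Agent.FLN.SpB
import Pool.Agent.FLN.SpD
import Pool.Agent.FLN.SpT
import Pool.Agent.FLN.Psi

/-!
# Differences of the classes of incident lines

Proof of `pair`. If `tri x a b = tri a a b = tri a b b = 0`: `plane_case`, the difference is zero.
Otherwise `gen_cfg`: `X`, `A`, `B`, `V₀`, `Γ`. By `exists_ln` there are lines `L`, `L'` over `Om
k` with `L.W = span {X, A}`, `L'.W = span {X, B}`; their values at `V₀` are `l`, `l'`
(`val_span`). Use `mov_sub1` for `G = spn hF S`, `Γ` and the cycle `single ((pe hF (Om k)).symm L)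
1 - single ((pe hF (Om k)).symm L') 1`: at a place `V` with units `Γ` the values of `L`, `L'` are
the lines `l₁ = ⟨x', a'⟩`, `l₁' = ⟨x', b'⟩` (`exists_ln` and `val_span`), by `cl_lim` the limit is
`cl l₁ - cl l₁'`. The residual lines `f`, `g`, `h'` exist (`exists_rs`; for `x' a' c'`, `x' b' c'`
use the independence of `x' a' b' c'`, `Cfg.be`, `Cfg.al`), and by `key` `cl l₁ - cl l₁' = (1 / 2)
• (ph f g - ph f h')`, `Gp f g`, `Gp f h'`, and `Gp s f`, `Gp s g`, `Gp s h'` for `s ∈ S`. So it
is in `spn hF S`. At `V₀` the limit is `cl l - cl l'`.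

`pair_meet`: two lines with a common vector `x ≠ 0`: if they are equal the difference is zero;
otherwise `l.W = span {x, a}`, `l'.W = span {x, b}`, and `x, a, b` are independent (the sum of the
two subspaces has dimension three); `On` by `Ln.tri_zero`.

`all_pairs`: `exists_transversal` and `pair_meet` twice.
-/

set_option autoImplicit false

noncomputable section

namespace Pool.Agent.CUB.FLN

open Pool.Agent.ZCyc Pool.Agent.Dess Pool.Agent.GT Module
open Pool.Agent.VFP (Om tt)
open scoped Classical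

variable {k : Type} [Field k] [IsAlgClosed k] [CharZero k] {F : MvPolynomial (Fin 6) k}

/-- the span of the classes of the transversals of pairs of lines which are good with respect to
each other and to the lines in `S` -/
def spn (hF : Smooth F) (S : Finset (Ln F k)) : Submodule ℚ (CH (PX F) Unit) :=
  Submodule.span ℚ {c | ∃ a b : Ln F k, Gp a b ∧ (∀ s ∈ S, Gp s a ∧ Gp s b) ∧ c = ph hF a b}

omit [IsAlgClosed k] [CharZero k] in
private theorem li3 {x a b : Fin 6 → k} (h : LinearIndependent k ![x, a])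
    (hb : b ∉ Submodule.span k {x, a}) : LinearIndependent k ![x, a, b] := by
  rw [LinearIndependent.pair_iff] at h
  rw [Fintype.linearIndependent_iff]
  intro g hg
  have hg' : g 0 • x + g 1 • a + g 2 • b = 0 := by
    rw [Fin.sum_univ_three] at hg
    exact hg
  have h2 : g 2 = 0 := by
    by_contra h2
    refine hb (Submodule.mem_span_pair.2 ⟨-(g 0 / g 2), -(g 1 / g 2), ?_⟩)
    have h3 : b = (g 2)⁻¹ • (g 2 • b) := by rw [smul_smul, inv_mul_cancel₀ h2, one_smul]
    have h4 : g 2 • b = -(g 0 • x + g 1 • a) := by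
      rw [eq_neg_iff_add_eq_zero, add_comm]
      exact hg'
    rw [h3, h4, smul_neg, smul_add, smul_smul, smul_smul, neg_smul, neg_smul, div_eq_inv_mul,
      div_eq_inv_mul]
    abel
  rw [h2, zero_smul, add_zero] at hg'
  have h3 := h _ _ hg'
  intro i
  fin_cases i
  · exact h3.1
  · exact h3.2
  · exact h2

private theorem li_ab {L : Type} [Field L] {x a b : Fin 6 → L}
    (h : LinearIndependent L ![x, a, b]) : LinearIndependent L ![x, a] := by
  have h1 := h.comp ![0, 1] (by
    intro i j hij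
    fin_cases i <;> fin_cases j <;> simp_all)
  have h2 : ![x, a, b] ∘ ![0, 1] = ![x, a] := by
    funext i
    fin_cases i <;> rfl
  rwa [h2] at h1

private theorem li_ac {L : Type} [Field L] {x a b : Fin 6 → L}
    (h : LinearIndependent L ![x, a, b]) : LinearIndependent L ![x, b] := by
  have h1 := h.comp ![0, 2] (by
    intro i j hij
    fin_cases i <;> fin_cases j <;> simp_all)
  have h2 : ![x, a, b] ∘ ![0, 2] = ![x, b] := by
    funext i
    fin_cases i <;> rfl
  rwa [h2] at h1

omit [IsAlgClosed k] [CharZero k] in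
private theorem li4_ab {x a b c : Fin 6 → k}
    (h : LinearIndependent k ![x, a, b, c]) : LinearIndependent k ![x, a, b] := by
  have h1 := h.comp ![0, 1, 2] (by
    intro i j hij
    fin_cases i <;> fin_cases j <;> simp_all)
  have h2 : ![x, a, b, c] ∘ ![0, 1, 2] = ![x, a, b] := by
    funext i
    fin_cases i <;> rfl
  rwa [h2] at h1

omit [IsAlgClosed k] [CharZero k] in
private theorem li4_ac {x a b c : Fin 6 → k}
    (h : LinearIndependent k ![x, a, b, c]) : LinearIndependent k ![x, a, c] := by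
  have h1 := h.comp ![0, 1, 3] (by
    intro i j hij
    fin_cases i <;> fin_cases j <;> simp_all)
  have h2 : ![x, a, b, c] ∘ ![0, 1, 3] = ![x, a, c] := by
    funext i
    fin_cases i <;> rfl
  rwa [h2] at h1

omit [IsAlgClosed k] [CharZero k] in
private theorem li4_bc {x a b c : Fin 6 → k}
    (h : LinearIndependent k ![x, a, b, c]) : LinearIndependent k ![x, b, c] := by
  have h1 := h.comp ![0, 2, 3] (by
    intro i j hij
    fin_cases i <;> fin_cases j <;> simp_all)
  have h2 : ![x, a, b, c] ∘ ![0, 2, 3] = ![x, b, c] := by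
    funext i
    fin_cases i <;> rfl
  rwa [h2] at h1

theorem pair (hF : Smooth F) (S : Finset (Ln F k)) {x a b : Fin 6 → k} (ha : On F x a)
    (hb : On F x b) (hli : LinearIndependent k ![x, a, b]) {l l' : Ln F k}
    (hl : l.W = Submodule.span k {x, a}) (hl' : l'.W = Submodule.span k {x, b}) :
    cl hF l - cl hF l' ∈ spn hF S := by
  by_cases hpl : tri F x a b = 0 ∧ tri F a a b = 0 ∧ tri F a b b = 0
  · rw [plane_case hF ha hb hli hpl.1 hpl.2.1 hpl.2.2 hl hl', sub_self]
    exact Submodule.zero_mem _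
  obtain ⟨X, A, B, V₀, Γ, hΓ, hX, hA, hB, hXA, hXB, hXAB, hgen⟩ := gen_cfg hF S ha hb hli hpl
  obtain ⟨n, hn⟩ := exists_ln hF (li_ab hXAB) hXA.xxx hXA.xxa hXA.xaa hXA.aaa
  obtain ⟨n', hn'⟩ := exists_ln hF (li_ac hXAB) hXB.xxx hXB.xxa hXB.xaa hXB.aaa
  have hlim : ∀ (V : Place k (Om k)) (m m' : Ln F k), IsVal V n m → IsVal V n' m' →
      lim1 (hom_PX hF) V (Finsupp.single ((pe hF (Om k)).symm n) 1 -
        Finsupp.single ((pe hF (Om k)).symm n') 1) = cl hF m - cl hF m' := by
    intro V m m' h h'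
    rw [map_sub, cl_lim hF h, cl_lim hF h']
  have hv : IsVal V₀ n l := val_span hn hl hX hA (li_ab hli)
  have hv' : IsVal V₀ n' l' := val_span hn' hl' hX hB (li_ac hli)
  rw [← hlim V₀ l l' hv hv']
  refine mov_sub1 (hom_PX hF) (spn hF S) _ Γ hΓ (fun V hV => ?_) V₀
  obtain ⟨x', a', b', c', hx', ha', hb', hc, hS⟩ := hgen V hV
  obtain ⟨m, hm⟩ := exists_ln hF (li_ab (li4_ab hc.li)) hc.ona.xxx hc.ona.xxa hc.ona.xaa
    hc.ona.aaa
  obtain ⟨m', hm'⟩ := exists_ln hF (li_ac (li4_ab hc.li)) hc.onb.xxx hc.onb.xxa hc.onb.xaa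
    hc.onb.aaa
  rw [hlim V m m' (val_span hn hm hx' ha' (li_ab (li4_ab hc.li)))
    (val_span hn' hm' hx' hb' (li_ac (li4_ab hc.li)))]
  obtain ⟨f, hf⟩ := exists_rs hF (li4_ab hc.li) hc.ona hc.onb hc.ga
  obtain ⟨g, hg⟩ := exists_rs hF (li4_ac hc.li) hc.ona hc.onc hc.be
  obtain ⟨h', hh⟩ := exists_rs hF (li4_bc hc.li) hc.onb hc.onc hc.al
  obtain ⟨hfg, hfh, he⟩ := key hF hc hm hm' hf hg hh
  have h1 : cl hF m - cl hF m' = (1 / 2 : ℚ) • ((2 : ℚ) • (cl hF m - cl hF m')) := by
    rw [smul_smul]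
    norm_num
  rw [h1, he]
  refine Submodule.smul_mem _ _ (Submodule.sub_mem _ (Submodule.subset_span ?_)
    (Submodule.subset_span ?_))
  · exact ⟨f, g, hfg, fun s hs => ⟨hS f (Or.inl hf) s hs, hS g (Or.inr (Or.inl hg)) s hs⟩, rfl⟩
  · exact ⟨f, h', hfh, fun s hs => ⟨hS f (Or.inl hf) s hs, hS h' (Or.inr (Or.inr hh)) s hs⟩, rfl⟩

omit [CharZero k] in
/-- a basis of a line with a given first vector -/
private theorem exists_second (l : Ln F k) {x : Fin 6 → k} (hx : x ≠ 0) (hl : x ∈ l.W) :
    ∃ a : Fin 6 → k, LinearIndependent k ![x, a] ∧ l.W = Submodule.span k {x, a} := by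
  have hne : ∃ a ∈ l.W, a ∉ Submodule.span k {x} := by
    by_contra hcon
    push Not at hcon
    have h1 : l.W ≤ Submodule.span k {x} := hcon
    have h2 := Submodule.finrank_mono h1
    rw [l.two, finrank_span_singleton hx] at h2
    omega
  obtain ⟨a, ha, hax⟩ := hne
  have hli : LinearIndependent k ![x, a] := by
    rw [LinearIndependent.pair_iff]
    intro s t hst
    have ht : t = 0 := by
      by_contra ht
      refine hax (Submodule.mem_span_singleton.2 ⟨-(s / t), ?_⟩)
      have h3 : a = t⁻¹ • (t • a) := by rw [smul_smul, inv_mul_cancel₀ ht, one_smul]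
      have h4 : t • a = -(s • x) := by
        rw [eq_neg_iff_add_eq_zero, add_comm]
        exact hst
      rw [h3, h4, smul_neg, smul_smul, neg_smul, div_eq_inv_mul]
    rw [ht, zero_smul, add_zero] at hst
    exact ⟨(smul_eq_zero.1 hst).resolve_right hx, ht⟩
  refine ⟨a, hli, (Submodule.eq_of_le_of_finrank_eq ?_ ?_).symm⟩
  · rw [Submodule.span_le]
    rintro c (rfl | rfl)
    · exact hl
    · exact ha
  · have h1 := finrank_span_eq_card hli
    rw [Matrix.range_cons, Matrix.range_cons, Matrix.range_empty, Set.union_empty,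
      Set.singleton_union] at h1
    rw [h1, Fintype.card_fin, l.two]

omit [IsAlgClosed k] in
private theorem on_of_line (hF : Smooth F) (l : Ln F k) {x a : Fin 6 → k} (hx : x ∈ l.W)
    (ha : a ∈ l.W) : On F x a :=
  ⟨l.tri_zero hF hx hx hx, l.tri_zero hF hx hx ha, l.tri_zero hF hx ha ha,
    l.tri_zero hF ha ha ha⟩

theorem pair_meet (hF : Smooth F) (S : Finset (Ln F k)) {l l' : Ln F k} {x : Fin 6 → k}
    (hx : x ≠ 0) (hl : x ∈ l.W) (hl' : x ∈ l'.W) : cl hF l - cl hF l' ∈ spn hF S := by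
  by_cases he : l = l'
  · rw [he, sub_self]
    exact Submodule.zero_mem _
  obtain ⟨a, ha, hla⟩ := exists_second l hx hl
  obtain ⟨b, hb, hlb⟩ := exists_second l' hx hl'
  have haW : a ∈ l.W := by
    rw [hla]
    exact Submodule.subset_span (by simp)
  have hbW : b ∈ l'.W := by
    rw [hlb]
    exact Submodule.subset_span (by simp)
  refine pair hF S (on_of_line hF l hl haW) (on_of_line hF l' hl' hbW) (li3 ha fun hbs => ?_)
    hla hlb
  refine he (Ln.eq_of_le ?_).symm
  rw [hlb, Submodule.span_le]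
  rintro c (rfl | rfl)
  · exact hl
  · rw [← hla] at hbs
    exact hbs

theorem all_pairs (hF : Smooth F) (S : Finset (Ln F k)) (l l' : Ln F k) :
    cl hF l - cl hF l' ∈ spn hF S := by
  obtain ⟨m, ⟨z, hz, hz0, hzm⟩, ⟨w, hw, hw0, hwm⟩⟩ := exists_transversal hF l l'
  have h1 := pair_meet hF S hz0 hz hzm
  have h2 := pair_meet hF S hw0 hwm hw
  have h3 := Submodule.add_mem _ h1 h2
  rwa [sub_add_sub_cancel] at h3

end Pool.Agent.CUB.FLN
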