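import Pool.Agent.FLN.SpE
import Pool.Agent.FLN.Move

/-!
# The classes of good transversals span

Let `T` be a finite set of lines; by `move_line`, `good_values`, `exists_good_place` and
`exists_val` there is a line which is good with respect to all lines in `T`. So there are `a`,
good with respect to `S`, and `b`, good with respect to `S ∪ {a}`; `Gp a b`. By `exists_phi`,
`ph_eq` the class `ph hF a b` is the sum of `cl hF (m i)` for five lines `m i`, and it is in `spn
hF S`. By `all_pairs` `cl (m i) - cl l ∈ spn hF S`, so `5 • cl l ∈ spn hF S`.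
-/

set_option autoImplicit false

noncomputable section

namespace Pool.Agent.CUB.FLN

open Pool.Agent.ZCyc Pool.Agent.Dess Pool.Agent.GT
open Pool.Agent.VFP (Om tt)
open scoped Classical

variable {k : Type} [Field k] [IsAlgClosed k] [CharZero k] {F : MvPolynomial (Fin 6) k}

/-- a line which is good with respect to a finite set of lines -/
private theorem exists_good (hF : Smooth F) (l : Ln F k) (T : Finset (Ln F k)) :
    ∃ y : Ln F k, ∀ s ∈ T, Gp s y := by
  obtain ⟨η, _, -, hη⟩ := move_line hF T l
  obtain ⟨Γ, hΓ, h⟩ := good_values hF T hη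
  obtain ⟨v, hv⟩ := exists_good_place Γ hΓ
  obtain ⟨y, hy⟩ := exists_val hF v η
  exact ⟨y, h v hv y hy⟩

/-- for every finite set `S` of lines every class is a combination of classes `ph a b`, where `a`
and `b` are good with respect to each other and to the lines in `S` -/
theorem span_ph (hF : Smooth F) (S : Finset (Ln F k)) (l : Ln F k) :
    cl hF l ∈ Submodule.span ℚ {c | ∃ a b : Ln F k, Gp a b ∧ (∀ s ∈ S, Gp s a ∧ Gp s b) ∧
      c = ph hF a b} := by
  obtain ⟨a, ha⟩ := exists_good hF l S
  obtain ⟨b, hb⟩ := exists_good hF l (insert a S)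
  have hab : Gp a b := hb a (Finset.mem_insert_self a S)
  have hph : ph hF a b ∈ spn hF S := Submodule.subset_span
    ⟨a, b, hab, fun s hs => ⟨ha s hs, hb s (Finset.mem_insert_of_mem hs)⟩, rfl⟩
  obtain ⟨m, hm⟩ := exists_phi hF hab.1
  have h1 := ph_eq hF hab.1 hm
  have h2 : (5 : ℚ) • cl hF l = ph hF a b - ∑ i, (cl hF (m i) - cl hF l) := by
    rw [h1, Finset.sum_sub_distrib, Finset.sum_const, Finset.card_univ, Fintype.card_fin,
      sub_sub_cancel, ← Nat.cast_smul_eq_nsmul ℚ]
    norm_num
  have h3 : (5 : ℚ) • cl hF l ∈ spn hF S := by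
    rw [h2]
    exact Submodule.sub_mem _ hph (Submodule.sum_mem _ fun i _ => all_pairs hF S _ _)
  have h4 : cl hF l = (1 / 5 : ℚ) • ((5 : ℚ) • cl hF l) := by
    rw [smul_smul]
    norm_num
  change cl hF l ∈ spn hF S
  rw [h4]
  exact Submodule.smul_mem _ _ h3

end Pool.Agent.CUB.FLN
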