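import Pool.Agent.FLN.Phi
import Pool.Agent.FLN.SymA

/-!
# The transversals of two lines: symmetry

With `a j (s) = tri z z (w j)`, `z = cmb u s`, and `b i (t) = tri v v (u i)`, `v = cmb w t`, the point
of `y` in the tangent hyperplane of `z` is `cmb w (- a 1, a 0)`, and the two quintic forms are
`∑ i, s i * b i (- a 1 (s), a 0 (s))` and `∑ j, t j * a j (- b 1 (t), b 0 (t))`: `quintic_symm`.
-/

set_option autoImplicit false

noncomputable section

namespace Pool.Agent.CUB.FLN

open Pool.Agent.ZCyc Pool.Agent.Dess Pool.Agent.GT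
open Pool.Agent.VFP (Om tt)
open scoped Classical

variable {k : Type} [Field k] {F : MvPolynomial (Fin 6) k} {L : Type} [Field L] [Algebra k L]

/-- the quadratic form `s ↦ tri (cmb u s) (cmb u s) y` -/
private theorem tri_cmb_qf (u : Fin 2 → Fin 6 → L) (s : Fin 2 → L) (y : Fin 6 → L) :
    tri F (cmb u s) (cmb u s) y =
      FLN.qf (tri F (u 0) (u 0) y) (2 * tri F (u 0) (u 1) y) (tri F (u 1) (u 1) y) s := by
  unfold cmb FLN.qf
  simp only [tri_add1, tri_add2, tri_smul1, tri_smul2]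
  rw [tri_swap12 F (u 1) (u 0) y]
  ring

private theorem ys_cmb (w : Fin 2 → Fin 6 → L) (z : Fin 6 → L) :
    ys F w z = cmb w ![-tri F z z (w 1), tri F z z (w 0)] := by
  unfold ys cmb
  simp only [Matrix.cons_val_zero, Matrix.cons_val_one]
  module

private theorem dd_cmb (u w : Fin 2 → Fin 6 → L) (s : Fin 2 → L) :
    dd F w (cmb u s) = ∑ i, s i * tri F (ys F w (cmb u s)) (ys F w (cmb u s)) (u i) := by
  have h : ∀ v, tri F (cmb u s) v v = ∑ i, s i * tri F v v (u i) := by
    intro v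
    rw [tri_swap12, tri_swap23, Fin.sum_univ_two]
    unfold cmb
    rw [tri_add3, tri_smul3, tri_smul3]
  exact h _

theorem IsPhi.symm [IsAlgClosed L] [CharZero L] {x y : Ln F L} (h : Vg x y)
    {m : Fin 5 → Ln F L} (hm : IsPhi x y m) : IsPhi y x m := by
  obtain ⟨u, w, c, ρ, hu, hw, hc, hρ, hd, hmem⟩ := hm
  have hxW : ∀ s, cmb u s ∈ x.W := by
    intro s
    rw [hu.2]
    exact Submodule.mem_span_pair.2 ⟨s 0, s 1, rfl⟩
  have hx0 : ∀ s, cmb u s = 0 → s = 0 := by
    intro s hs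
    have h := LinearIndependent.pair_iff.1 hu.1 (s 0) (s 1) hs
    funext i
    fin_cases i
    · exact h.1
    · exact h.2
  -- one of the values `tri z z (w j)` is not zero
  have htan : ∀ s, tri F (cmb u s) (cmb u s) (w 0) = 0 → tri F (cmb u s) (cmb u s) (w 1) = 0 →
      s = 0 := by
    intro s h0 h1
    by_contra hs
    obtain ⟨w', hw', h2⟩ := h.tan (cmb u s) (hxW s) fun h3 => hs (hx0 s h3)
    rw [hw.2] at hw'
    obtain ⟨a, b, rfl⟩ := Submodule.mem_span_pair.1 hw'
    apply h2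
    rw [tri_add3, tri_smul3, tri_smul3, h0, h1]
    ring
  set X : Fin 2 → L := fun j => tri F (u 0) (u 0) (w j) with hX
  set Y : Fin 2 → L := fun j => 2 * tri F (u 0) (u 1) (w j) with hY
  set Z : Fin 2 → L := fun j => tri F (u 1) (u 1) (w j) with hZ
  set P : Fin 2 → L := fun i => tri F (w 0) (w 0) (u i) with hP
  set Q : Fin 2 → L := fun i => 2 * tri F (w 0) (w 1) (u i) with hQ
  set R : Fin 2 → L := fun i => tri F (w 1) (w 1) (u i) with hR
  have ha : ∀ s j, tri F (cmb u s) (cmb u s) (w j) = FLN.qf (X j) (Y j) (Z j) s :=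
    fun s j => tri_cmb_qf u s (w j)
  have hb : ∀ t i, tri F (cmb w t) (cmb w t) (u i) = FLN.qf (P i) (Q i) (R i) t :=
    fun t i => tri_cmb_qf w t (u i)
  have hres : res2 (X 0) (Y 0) (Z 0) (X 1) (Y 1) (Z 1) ≠ 0 := by
    refine res2_ne fun s h0 h1 => htan s ?_ ?_
    · rw [ha]
      exact h0
    · rw [ha]
      exact h1
  have hQ1 : ∀ s : Fin 2 → L, ∑ i, s i * FLN.qf (P i) (Q i) (R i)
      ![-FLN.qf (X 1) (Y 1) (Z 1) s, FLN.qf (X 0) (Y 0) (Z 0) s] =
      c * ∏ i, (s 0 * ρ i 1 - s 1 * ρ i 0) := by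
    intro s
    rw [← hd s, dd_cmb, ys_cmb]
    refine Finset.sum_congr rfl fun i _ => ?_
    rw [hb, ha, ha]
  have hQ2 := quintic_symm X Y Z P Q R (by norm_num : (5 : ℕ) ≠ 0) hQ1
  -- the new coordinates
  refine ⟨w, u, c ^ 2 / res2 (X 0) (Y 0) (Z 0) (X 1) (Y 1) (Z 1) ^ 2,
    fun i => ![-FLN.qf (X 1) (Y 1) (Z 1) (ρ i), FLN.qf (X 0) (Y 0) (Z 0) (ρ i)], hw, hu,
    div_ne_zero (pow_ne_zero 2 hc) (pow_ne_zero 2 hres), fun i h0 => ?_, fun t => ?_,
    fun i => ⟨?_, ?_⟩⟩
  · have h1 := congrFun h0 0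
    have h2 := congrFun h0 1
    simp only [Matrix.cons_val_zero, Matrix.cons_val_one, Pi.zero_apply, neg_eq_zero] at h1 h2
    exact hρ i (htan (ρ i) (by rw [ha]; exact h2) (by rw [ha]; exact h1))
  · have h1 : dd F u (cmb w t) = ∑ j, t j * FLN.qf (X j) (Y j) (Z j)
        ![-FLN.qf (P 1) (Q 1) (R 1) t, FLN.qf (P 0) (Q 0) (R 0) t] := by
      rw [dd_cmb, ys_cmb]
      refine Finset.sum_congr rfl fun i _ => ?_
      rw [ha, hb, hb]
    have h2 := hQ2 t
    rw [← h1] at h2
    rw [div_mul_eq_mul_div, eq_div_iff (pow_ne_zero 2 hres), mul_comm, h2]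
    congr 1
    refine Finset.prod_congr rfl fun i _ => ?_
    simp only [Matrix.cons_val_zero, Matrix.cons_val_one]
    ring
  · have h1 := (hmem i).2
    rw [ys_cmb, ha, ha] at h1
    exact h1
  · set z := cmb u (ρ i) with hz
    have h0 : cmb w ![-FLN.qf (X 1) (Y 1) (Z 1) (ρ i), FLN.qf (X 0) (Y 0) (Z 0) (ρ i)] =
        ys F w z := by
      rw [ys_cmb, hz, ha, ha]
    rw [h0]
    set v := ys F w z with hv
    -- `z` is in the tangent hyperplane of `v`
    have h1 : dd F w z = 0 := by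
      rw [hz, hd]
      rw [Finset.prod_eq_zero (Finset.mem_univ i) (by ring), mul_zero]
    rw [hz, dd_cmb, Fin.sum_univ_two, ← hz, ← hv] at h1
    -- so it is proportional to `ys F u v`
    obtain ⟨e, he⟩ : ∃ e : L, ys F u v = e • z := by
      by_cases h3 : ρ i 0 = 0
      · have h4 : ρ i 1 ≠ 0 := by
          intro h4
          apply hρ i
          funext j
          fin_cases j
          · exact h3
          · exact h4
        have h5 : tri F v v (u 1) = 0 := by
          rw [h3, zero_mul, zero_add] at h1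
          exact (mul_eq_zero.1 h1).resolve_left h4
        refine ⟨tri F v v (u 0) / ρ i 1, ?_⟩
        rw [hz]
        unfold ys cmb
        funext l
        simp only [Pi.add_apply, Pi.smul_apply, smul_eq_mul, Pi.sub_apply, h3, h5]
        field_simp
        ring
      · refine ⟨-tri F v v (u 1) / ρ i 0, ?_⟩
        rw [hz]
        unfold ys cmb
        funext l
        simp only [Pi.add_apply, Pi.smul_apply, smul_eq_mul, Pi.sub_apply]
        field_simp
        linear_combination u 1 l * h1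
    rw [he]
    exact (m i).W.smul_mem _ (hmem i).1

variable [IsAlgClosed k] [CharZero k]

theorem ph_symm (hF : Smooth F) {x y : Ln F k} (h : Gp x y) : ph hF x y = ph hF y x := by
  obtain ⟨m, hm⟩ := exists_phi hF h.1
  rw [ph_eq hF h.1 hm, ph_eq hF h.2 (hm.symm h.1)]

end Pool.Agent.CUB.FLN
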