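import Pool.Agent.FLN.ML
import Pool.Agent.FLN.Sym
import Pool.Agent.FLN.Cos
import Pool.Agent.FLN.Ins

/-!
# Products of classes of transversals of `2 h` lines (package TA)

`tp hF e u σ`: the lines `u 0, .., u (r - 1)`, `r = 2 h`, permuted by `σ`, are divided into `h`
pairs (by `e`), and we take the product of the classes of their transversals.

PROOF of `tp_zero`. `x a = u (σ (e.symm (g a, 0)))`, `y a = u (σ (e.symm (g a, 1)))`. Let `J'` be
the set of the positions `e.symm (g a, 0)`, `g' a = e.symm (g a, 0)` the embedding of `Fin n`. By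
`fixing_emb` the sum is the sum over `τ : Perm (Fin n)` of `sign τ • tp hF e u (σ * E τ)`. Here
`(σ * E τ) (e.symm (j, 1)) = σ (e.symm (j, 1))` and
`(σ * E τ) (e.symm (g a, 0)) = σ (e.symm (g (τ a), 0))`,
`(σ * E τ) (e.symm (j, 0)) = σ (e.symm (j, 0))` for `j` not in the image of `g`. So
`tp hF e u (σ * E τ) = Ext _ h (Function.extend g (fun a => ph (x (τ a)) (y a)) c)` with a
constant `c`, `= I (Ext _ n fun a => ph (x (τ a)) (y a))` by `ext_ins`, and the sum is
`I (psi hF y (alt fun a => single (x a) 1)) = 0` by `ml`, as `alt fun a => single (x a) 1` is the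
sum of `sign τ • single (x ∘ τ) 1` (`ext_single`) so that its support consists of systems
`x ∘ τ`, and `Gp (x (τ a)) (y a)` because these are lines `u i`, `u j` with `i ≠ j`.
PROOF of `tp_one`: by `ph_symm` `tp hF e u = tp hF e' u` with `e'` = `e` followed by the exchange
of `0` and `1` (`u i`, `u j` are good for `i ≠ j`); `tp_zero` for `e'`.
-/

set_option autoImplicit false

noncomputable section

namespace Pool.Agent.CUB.FLN

open Pool.Agent.ZCyc Pool.Agent.Dess Pool.Agent.GT Pool.Agent.ZIso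
open scoped Classical

variable {k : Type} [Field k] [IsAlgClosed k] [CharZero k] {F : MvPolynomial (Fin 6) k}

/-- the product of the classes of the transversals of the pairs of lines -/
def tp (hF : Smooth F) {r h : ℕ} (e : Fin r ≃ Fin h × Fin 2) (u : Fin r → Ln F k)
    (σ : Equiv.Perm (Fin r)) : CH (PX F) (Fin h) :=
  Ext (hom_PX hF) h fun j => ph hF (u (σ (e.symm (j, 0)))) (u (σ (e.symm (j, 1))))

omit [IsAlgClosed k] [CharZero k] in
private theorem alt_eq {n : ℕ} (x : Fin n → Ln F k) :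
    alt (fun j => Finsupp.single (x j) (1 : ℚ)) =
      ∑ τ : Equiv.Perm (Fin n), (Equiv.Perm.sign τ : ℤ) •
        Finsupp.single (fun j => x (τ j)) (1 : ℚ) := by
  unfold alt
  refine Finset.sum_congr rfl fun τ _ => ?_
  congr 1
  have h := GT.ext_single (fun j => x (τ j)) fun _ => (1 : ℚ)
  rw [Finset.prod_const_one] at h
  exact h

private theorem psi_alt (hF : Smooth F) {n : ℕ} (y x : Fin n → Ln F k) :
    psi hF y (alt (fun j => Finsupp.single (x j) (1 : ℚ))) =
      ∑ τ : Equiv.Perm (Fin n), ((Equiv.Perm.sign τ : ℤ) : ℚ) •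
        Ext (hom_PX hF) n fun j => ph hF (x (τ j)) (y j) := by
  rw [alt_eq, map_sum]
  refine Finset.sum_congr rfl fun τ _ => ?_
  rw [map_zsmul, psi_single, one_smul, Int.cast_smul_eq_zsmul]

omit [IsAlgClosed k] [CharZero k] in
private theorem mem_alt {n : ℕ} (x : Fin n → Ln F k) {x' : Fin n → Ln F k}
    (h : x' ∈ (alt (fun j => Finsupp.single (x j) (1 : ℚ))).support) :
    ∃ τ : Equiv.Perm (Fin n), x' = fun j => x (τ j) := by
  rw [alt_eq] at h
  obtain ⟨τ, -, hτ⟩ := Finset.mem_biUnion.1 (Finsupp.support_finsetSum h)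
  have h2 := Finsupp.support_smul hτ
  exact ⟨τ, Finset.mem_singleton.1 (Finsupp.support_single_subset h2)⟩

/-- alternating sum over `n` positions which are first in their pairs -/
theorem tp_zero (hF : Smooth F) {n : ℕ} (hn : ∀ x : Fin n → Ln F k,
      alt (fun j => Finsupp.single (x j) (1 : ℚ)) ∈ Rel F n)
    {r h : ℕ} (e : Fin r ≃ Fin h × Fin 2) {u : Fin r → Ln F k}
    (hu : ∀ a b, a ≠ b → Gp (u a) (u b)) (g : Fin n ↪ Fin h) {J' : Finset (Fin r)}
    (hJ : ∀ i, i ∈ J' ↔ ∃ a, e.symm (g a, 0) = i) (σ : Equiv.Perm (Fin r)) :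
    ∑ ρ ∈ fixing J', ((Equiv.Perm.sign ρ : ℤ) : ℚ) • tp hF e u (σ * ρ) = 0 := by
  have hinj : Function.Injective fun a : Fin n => e.symm (g a, 0) := by
    intro a b hab
    exact g.injective (congrArg Prod.fst (e.symm.injective hab))
  obtain ⟨E, hE1, hE2, hE3, hE4⟩ := fixing_emb (T := CH (PX F) (Fin h))
    (⟨fun a => e.symm (g a, 0), hinj⟩ : Fin n ↪ Fin r)
  have hJ' : J' = Finset.univ.map (⟨fun a => e.symm (g a, 0), hinj⟩ : Fin n ↪ Fin r) := by
    ext i
    rw [hJ]
    simp
  obtain ⟨I, hI⟩ := ext_ins (hom_PX hF) g fun j =>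
    ph hF (u (σ (e.symm (j, 0)))) (u (σ (e.symm (j, 1))))
  have hone : ∀ (τ : Equiv.Perm (Fin n)) (j : Fin h), E τ (e.symm (j, 1)) = e.symm (j, 1) := by
    intro τ j
    refine hE2 τ _ fun a ha => ?_
    have h1 := congrArg Prod.snd (e.symm.injective ha)
    exact absurd h1 (by simp)
  have hterm : ∀ τ : Equiv.Perm (Fin n), tp hF e u (σ * E τ) =
      I (Ext (hom_PX hF) n fun a => ph hF (u (σ (e.symm (g (τ a), 0))))
        (u (σ (e.symm (g a, 1))))) := by
    intro τ
    rw [← hI]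
    unfold tp
    congr 1
    funext j
    rw [Equiv.Perm.mul_apply, Equiv.Perm.mul_apply, hone]
    by_cases hj : ∃ a, g a = j
    · obtain ⟨a, rfl⟩ := hj
      rw [g.injective.extend_apply]
      have h1 : E τ (e.symm (g a, 0)) = e.symm (g (τ a), 0) := hE1 τ a
      rw [h1]
    · rw [Function.extend_apply' _ _ _ hj]
      rw [hE2 τ (e.symm (j, 0)) fun a ha => hj ⟨a, congrArg Prod.fst (e.symm.injective ha)⟩]
  rw [hJ', hE4]
  have hsum : ∑ τ : Equiv.Perm (Fin n), ((Equiv.Perm.sign (E τ) : ℤ) : ℚ) •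
      tp hF e u (σ * E τ) = I (psi hF (fun a => u (σ (e.symm (g a, 1))))
        (alt fun a => Finsupp.single (u (σ (e.symm (g a, 0)))) (1 : ℚ))) := by
    rw [psi_alt, map_sum]
    refine Finset.sum_congr rfl fun τ _ => ?_
    rw [hE3, hterm, map_smul]
  rw [hsum, ml hF (hn _), map_zero]
  intro x' hx' j
  obtain ⟨τ, rfl⟩ := mem_alt _ hx'
  refine hu _ _ fun hne => ?_
  have h1 := congrArg Prod.snd (e.symm.injective (σ.injective hne))
  exact absurd h1 (by simp)

/-- alternating sum over `n` positions which are second in their pairs -/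
theorem tp_one (hF : Smooth F) {n : ℕ} (hn : ∀ x : Fin n → Ln F k,
      alt (fun j => Finsupp.single (x j) (1 : ℚ)) ∈ Rel F n)
    {r h : ℕ} (e : Fin r ≃ Fin h × Fin 2) {u : Fin r → Ln F k}
    (hu : ∀ a b, a ≠ b → Gp (u a) (u b)) (g : Fin n ↪ Fin h) {J' : Finset (Fin r)}
    (hJ : ∀ i, i ∈ J' ↔ ∃ a, e.symm (g a, 1) = i) (σ : Equiv.Perm (Fin r)) :
    ∑ ρ ∈ fixing J', ((Equiv.Perm.sign ρ : ℤ) : ℚ) • tp hF e u (σ * ρ) = 0 := by
  let e' : Fin r ≃ Fin h × Fin 2 :=
    e.trans (Equiv.prodCongr (Equiv.refl (Fin h)) (Equiv.swap (0 : Fin 2) 1))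
  have h0 : ∀ j, e'.symm (j, 0) = e.symm (j, 1) := by
    intro j
    simp [e']
  have h1 : ∀ j, e'.symm (j, 1) = e.symm (j, 0) := by
    intro j
    simp [e']
  have htp : ∀ π : Equiv.Perm (Fin r), tp hF e u π = tp hF e' u π := by
    intro π
    unfold tp
    congr 1
    funext j
    rw [h0, h1]
    refine ph_symm hF (hu _ _ fun hne => ?_)
    have h2 := congrArg Prod.snd (e.symm.injective (π.injective hne))
    exact absurd h2 (by simp)
  simp only [htp]
  refine tp_zero hF hn e' hu g (fun i => ?_) σ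
  rw [hJ]
  simp only [h0]

end Pool.Agent.CUB.FLN
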