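import Pool.Agent.FLN.TA
import Pool.Agent.FLN.Blk

/-!
# The alternating sum over blocks (package TB)

PROOF of `tp_fixing`. `2 n - 1` positions in `J`: at least `n` of them are first in their pairs, or at
least `n` are second (`Finset.card_filter_add_card_filter_not`, or `Finset.exists_lt_card_fiber..`).
Take a subset `J'` of `n` positions of the same kind `ε` (`Finset.exists_subset_card_eq`); it is the
set of the `e.symm (g a, ε)` for an embedding `g` (`e i` for `i ∈ J'` has the second component `ε`, so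
the first component is injective on `J'`; `Finset.orderEmbOfFin` or `J'.equivFin`). `tp_zero` or
`tp_one`, and `fixing_sub`.
PROOF of `alt_ph`. `r = N * m * 2`; `e₂ : Fin r ≃ Fin (N * m) × Fin 2` (`finProdFinEquiv.symm`),
`e : Fin r ≃ Fin N × (Fin m × Fin 2)` (`e₂`, then `finProdFinEquiv.symm` for the first factor, then
`Equiv.prodAssoc`), `u' i` = the line `u (block) (factor) (0 or 1)` at the position `i`. Then
`tp hF e₂ u' (blk e τ) = Ext _ _ fun j => ph (u (τ i) a 0) (u (τ i) a 1)`, `(i, a) = finProdFinEquiv.symm j`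
(`blk_apply`). `second_fundamental` with `n := 2 n - 1`, `f = tp hF e₂ u'`, `β` from `kills_blk`
(`D = 2 n - 1`, `B = Fin m × Fin 2`, `D ^ (2 m) < N`), and `sum_blk`.
-/

set_option autoImplicit false

noncomputable section

namespace Pool.Agent.CUB.FLN

open Pool.Agent.ZCyc Pool.Agent.Dess Pool.Agent.GT Pool.Agent.ZIso
open scoped Classical

variable {k : Type} [Field k] [IsAlgClosed k] [CharZero k] {F : MvPolynomial (Fin 6) k}

theorem tp_fixing (hF : Smooth F) {n : ℕ} (hn0 : 0 < n) (hn : ∀ x : Fin n → Ln F k,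
      alt (fun j => Finsupp.single (x j) (1 : ℚ)) ∈ Rel F n)
    {r h : ℕ} (e : Fin r ≃ Fin h × Fin 2) {u : Fin r → Ln F k}
    (hu : ∀ a b, a ≠ b → Gp (u a) (u b)) (σ : Equiv.Perm (Fin r)) (J : Finset (Fin r))
    (hJ : J.card = 2 * n - 1 + 1) :
    ∑ π ∈ fixing J, ((Equiv.Perm.sign π : ℤ) : ℚ) • tp hF e u (σ * π) = 0 := by
  obtain ⟨ε, hε⟩ : ∃ ε : Fin 2, n ≤ (J.filter fun i => (e i).2 = ε).card := by
    by_contra hcon
    push Not at hcon
    have h0 := hcon 0
    have h1 := hcon 1
    have h3 := Finset.card_filter_add_card_filter_not (s := J) (fun i => (e i).2 = 0)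
    have h4 : (J.filter fun i => ¬ (e i).2 = 0) = J.filter fun i => (e i).2 = 1 := by
      refine Finset.filter_congr fun i _ => ?_
      constructor
      · intro h
        exact Fin.eq_one_of_ne_zero _ h
      · intro h h'
        rw [h] at h'
        exact absurd h' (by decide)
    rw [h4] at h3
    omega
  obtain ⟨J', hJ1, hJ2⟩ := Finset.exists_subset_card_eq hε
  let E := (J'.equivFinOfCardEq hJ2).symm
  have hE : ∀ a, (e (E a)).2 = ε := fun a => (Finset.mem_filter.1 (hJ1 (E a).2)).2
  let g : Fin n ↪ Fin h := ⟨fun a => (e (E a)).1, by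
    intro a b hab
    have h1 : e (E a) = e (E b) := Prod.ext hab ((hE a).trans (hE b).symm)
    exact E.injective (Subtype.ext (e.injective h1))⟩
  have hgs : ∀ a, e.symm (g a, ε) = E a := by
    intro a
    rw [Equiv.symm_apply_eq]
    exact Prod.ext rfl (hE a).symm
  have hmem : ∀ i, i ∈ J' ↔ ∃ a, e.symm (g a, ε) = i := by
    intro i
    constructor
    · intro hi
      exact ⟨E.symm ⟨i, hi⟩, by rw [hgs, Equiv.apply_symm_apply]⟩
    · rintro ⟨a, rfl⟩
      rw [hgs]
      exact (E a).2
  have hsub : J' ⊆ J := hJ1.trans (Finset.filter_subset _ _)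
  refine fixing_sub hsub (f := fun π => tp hF e u π) (fun τ => ?_) σ
  rcases eq_or_ne ε 0 with h0 | h0
  · subst h0
    exact tp_zero hF hn e hu g hmem τ
  · have h1 := Fin.eq_one_of_ne_zero _ h0
    subst h1
    exact tp_one hF hn e hu g hmem τ

/-- the alternating sum of `N` products of `m` classes of transversals is zero -/
theorem alt_ph (hF : Smooth F) {n : ℕ} (hn0 : 0 < n) (hn : ∀ x : Fin n → Ln F k,
      alt (fun j => Finsupp.single (x j) (1 : ℚ)) ∈ Rel F n)
    {N m : ℕ} (hN : (2 * n - 1) ^ (2 * m) < N) (u : Fin N → Fin m → Fin 2 → Ln F k)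
    (hu : ∀ i a b i' a' b', (i, a, b) ≠ (i', a', b') → Gp (u i a b) (u i' a' b')) :
    ∑ τ : Equiv.Perm (Fin N), ((Equiv.Perm.sign τ : ℤ) : ℚ) • Ext (hom_PX hF) (N * m)
      (fun j => ph hF (u (τ (finProdFinEquiv.symm j).1) (finProdFinEquiv.symm j).2 0)
        (u (τ (finProdFinEquiv.symm j).1) (finProdFinEquiv.symm j).2 1)) = 0 := by
  let e₂ : Fin (N * m * 2) ≃ Fin (N * m) × Fin 2 := finProdFinEquiv.symm
  let e : Fin (N * m * 2) ≃ Fin N × (Fin m × Fin 2) :=
    e₂.trans ((Equiv.prodCongr finProdFinEquiv.symm (Equiv.refl (Fin 2))).trans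
      (Equiv.prodAssoc (Fin N) (Fin m) (Fin 2)))
  let u' : Fin (N * m * 2) → Ln F k := fun i => u (e i).1 (e i).2.1 (e i).2.2
  have hu' : ∀ a b, a ≠ b → Gp (u' a) (u' b) := by
    intro a b hab
    refine hu _ _ _ _ _ _ fun h => hab (e.injective ?_)
    exact h
  have hpos : ∀ (τ : Equiv.Perm (Fin N)) (j : Fin (N * m)) (ε : Fin 2),
      u' (blk e τ (e₂.symm (j, ε))) =
        u (τ (finProdFinEquiv.symm j).1) (finProdFinEquiv.symm j).2 ε := by
    intro τ j ε
    have h1 : e₂.symm (j, ε) =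
        e.symm ((finProdFinEquiv.symm j).1, ((finProdFinEquiv.symm j).2, ε)) := by
      rw [Equiv.eq_symm_apply]
      simp only [e, Equiv.trans_apply, Equiv.apply_symm_apply]
      rfl
    rw [h1, blk_apply]
    simp only [u', Equiv.apply_symm_apply]
  have htp : ∀ τ : Equiv.Perm (Fin N), tp hF e₂ u' (blk e τ) = Ext (hom_PX hF) (N * m)
      (fun j => ph hF (u (τ (finProdFinEquiv.symm j).1) (finProdFinEquiv.symm j).2 0)
        (u (τ (finProdFinEquiv.symm j).1) (finProdFinEquiv.symm j).2 1)) := by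
    intro τ
    unfold tp
    simp only [hpos]
  have hk : (2 * n - 1) ^ Fintype.card (Fin m × Fin 2) < N := by
    have h1 : Fintype.card (Fin m × Fin 2) = 2 * m := by
      rw [Fintype.card_prod, Fintype.card_fin, Fintype.card_fin, Nat.mul_comm]
    rw [h1]
    exact hN
  have h1 := second_fundamental (K := ℚ) (f := fun π => tp hF e₂ u' π)
    (fun τ J hJ => tp_fixing hF hn0 hn e₂ hu' τ J hJ) (kills_blk e hk)
  rw [sum_blk e] at h1
  simp only [htp] at h1
  exact h1

end Pool.Agent.CUB.FLN
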