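import Pool.Agent.FLN.Gauss2
import Pool.Agent.FLN.Sec

/-!
# Lines through a constant point

`thru`. Let `l = ⟨z, v⟩`, `δ ∈ D`: `dr δ z = μ z`. From `tri z z v = tri z v v = tri v v v = 0`:
`tri z z (dr δ v) = tri z v (dr δ v) = tri v v (dr δ v) = 0`. `θ = mkQ ∘ drL v` to `(Fin 6 → E) ⧸ l.W`; for `δ ∈ D`, `θ δ = 0`
we have `δ ∈ st l.W`.
(a) If `tri z z`, `tri z v`, `tri v v` are linearly independent then their common kernel has dimension
three and contains `l.W`: `T` of dimension one, `cod_of_map`.
(b) Otherwise `λ₀ tri z z + 2 λ₁ tri z v + λ₂ tri v v = 0`, not all `λ` zero. If `λ₂ ≠ 0` let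
`v' = v + (λ₁ / λ₂) z`; then `tri v' v' = c tri z z`, so `D ≤ st ⟨v'⟩` by `gauss_pt`, and `l.W = ⟨z, v'⟩` is preserved:
codimension `0`.
(c) If `λ₂ = 0` then `λ₁ ≠ 0` (`tri_ns_all`), `v' = v + (λ₀ / (2 λ₁)) z ∈ N = kH F z`, `l.W = ⟨z, v'⟩`. `N` is preserved by
`D` (as in `sec_cod`). `z ∉ N`, so `l.W ⊓ N = ⟨v'⟩`. `finrank N ≤ 3`: if it is `≥ 4` then `N ⊔ ⟨z⟩` is the tangent
hyperplane (dimension five) and `Eck F z`. The values of `θ' = mkQ ∘ drL v'` are in the image of `N` in
`(Fin 6 → E) ⧸ l.W`, of dimension `finrank N - 1 ≤ 2`. If the dimension of the span of the values is at most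
one we are done (`T` = this span). Otherwise `finrank N = 3` and the vectors `dr δ v'` (`δ ∈ D`) and `v'` span
`N`. `tri v' v' v' = 0`, so `tri v' v' (dr δ v') = 0`, so (1) `tri v' v' u = 0` for all `u ∈ N`; derivative of (1)
(`dr δ u ∈ N`): `tri v' (dr δ v') u = 0`, so (2) `tri v' u' u = 0` for `u, u' ∈ N`; derivative of (2):
`tri (dr δ v') u' u = 0`, so (3) `tri u'' u' u = 0` on `N`. So `tri u u u = 0` for `u ∈ ⟨z⟩ ⊔ N`, of dimension four,
contradiction to `no_P3`.

`eck_thru`. `D ≤ st ⟨z⟩` by `eck_const`. `l = ⟨z, v⟩`, `θ` as above, its values are in the image of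
`{u | tri z z u = 0, tri v v u = 0}`. If `tri v v = c tri z z` then `D ≤ st ⟨v⟩` (`gauss_pt`), codimension `0`. Otherwise this
space has dimension four and contains `l.W`: `T` of dimension two.
-/

set_option autoImplicit false

noncomputable section

namespace Pool.Agent.CUB.FLN

open Pool.Agent.ZCyc Pool.Agent.Dess Pool.Agent.GT Module
open scoped Classical

variable {k : Type} [Field k] [IsAlgClosed k] [CharZero k] {F : MvPolynomial (Fin 6) k}
  {E : Type} [Field E] [Algebra k E] [IsAlgClosed E]

omit [IsAlgClosed k] [CharZero k] [IsAlgClosed E] in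
private theorem exists_second_Thru {z : Fin 6 → E} (hz : z ≠ 0) {l : Ln F E} (hl : z ∈ l.W) :
    ∃ v ∈ l.W, LinearIndependent E ![z, v] ∧ l.W = Submodule.span E {z, v} := by
  obtain ⟨e⟩ : Nonempty (Basis (Fin 2) E l.W) := ⟨finBasisOfFinrankEq E l.W l.two⟩
  have hex : ∃ v : l.W, LinearIndependent E ![(⟨z, hl⟩ : l.W), v] := by
    by_contra hcon
    push Not at hcon
    have h1 : ∀ v : l.W, v ∈ Submodule.span E {(⟨z, hl⟩ : l.W)} := by
      intro v
      have h2 := hcon v
      rw [LinearIndependent.pair_iff] at h2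
      push Not at h2
      obtain ⟨s, t, hst, hne⟩ := h2
      have ht : t ≠ 0 := by
        rintro rfl
        rw [zero_smul, add_zero, smul_eq_zero] at hst
        rcases hst with hs | hs
        · exact hne hs rfl
        · exact hz (congrArg Subtype.val hs)
      rw [Submodule.mem_span_singleton]
      refine ⟨-(t⁻¹ * s), ?_⟩
      have h3 : t • v = -(s • (⟨z, hl⟩ : l.W)) := by
        rw [eq_neg_iff_add_eq_zero, add_comm]
        exact hst
      have h4 : v = t⁻¹ • (t • v) := by rw [smul_smul, inv_mul_cancel₀ ht, one_smul]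
      rw [h4, h3, smul_neg, smul_smul, neg_smul]
    have h3 : (⊤ : Submodule E l.W) ≤ Submodule.span E {(⟨z, hl⟩ : l.W)} := fun v _ => h1 v
    have h4 := (Submodule.finrank_mono h3).trans (finrank_span_le_card _)
    rw [finrank_top, l.two] at h4
    simp at h4
  obtain ⟨v, hv⟩ := hex
  have hli : LinearIndependent E ![z, (v : Fin 6 → E)] := by
    have h1 := hv.map' l.W.subtype (Submodule.ker_subtype _)
    have h2 : l.W.subtype ∘ ![(⟨z, hl⟩ : l.W), v] = ![z, (v : Fin 6 → E)] := by
      funext i
      fin_cases i <;> rfl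
    rwa [h2] at h1
  refine ⟨v, v.2, hli, ?_⟩
  refine (Submodule.eq_of_le_of_finrank_eq ?_ ?_).symm
  · rw [Submodule.span_le]
    rintro c (rfl | rfl)
    · exact hl
    · exact v.2
  · have h1 := finrank_span_eq_card hli
    rw [Matrix.range_cons, Matrix.range_cons, Matrix.range_empty, Set.union_empty,
      Set.singleton_union] at h1
    rw [h1, Fintype.card_fin, l.two]

omit [IsAlgClosed E] in
/-- another second basis vector -/
private theorem span_add_Thru (z v : Fin 6 → E) (c : E) :
    Submodule.span E {z, v} = Submodule.span E {z, v + c • z} := by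
  refine le_antisymm ?_ ?_
  · rw [Submodule.span_le]
    rintro x (rfl | rfl)
    · exact Submodule.subset_span (by simp)
    · have h1 : x + c • z ∈ Submodule.span E {z, x + c • z} := Submodule.subset_span (by simp)
      have h2 : z ∈ Submodule.span E {z, x + c • z} := Submodule.subset_span (by simp)
      have h3 := Submodule.sub_mem _ h1 (Submodule.smul_mem _ c h2)
      rwa [add_sub_cancel_right] at h3
  · rw [Submodule.span_le]
    rintro x (rfl | rfl)
    · exact Submodule.subset_span (by simp)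
    · exact Submodule.add_mem _ (Submodule.subset_span (by simp))
        (Submodule.smul_mem _ c (Submodule.subset_span (by simp)))

omit [IsAlgClosed E] in
private theorem fr_map_Thru (N W : Submodule E (Fin 6 → E)) :
    finrank E (N.map W.mkQ) + finrank E ↥(N ⊓ W) = finrank E N := by
  have h1 := LinearMap.finrank_range_add_finrank_ker (W.mkQ.comp N.subtype)
  have h2 : LinearMap.range (W.mkQ.comp N.subtype) = N.map W.mkQ := by
    rw [LinearMap.range_comp, Submodule.range_subtype]
  have h3 : LinearMap.ker (W.mkQ.comp N.subtype) = Submodule.comap N.subtype W := by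
    rw [LinearMap.ker_comp, Submodule.ker_mkQ]
  have h4 : finrank E ↥(Submodule.comap N.subtype W) = finrank E ↥(N ⊓ W) := by
    rw [← Submodule.map_comap_subtype, Submodule.finrank_map_subtype_eq]
  rw [h2, h3, h4] at h1
  exact h1

omit [IsAlgClosed E] in
private theorem dich_Thru {n : ℕ} (φ : Fin n → ((Fin 6 → E) →ₗ[E] E)) :
    (∃ c : Fin n → E, c ≠ 0 ∧ ∀ w, ∑ i, c i * φ i w = 0) ∨
      finrank E (LinearMap.ker (LinearMap.pi φ)) + n = 6 := by
  by_cases h : LinearMap.range (LinearMap.pi φ) = ⊤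
  · right
    have h1 := LinearMap.finrank_range_add_finrank_ker (LinearMap.pi φ)
    rw [h, finrank_top] at h1
    simp only [finrank_fin_fun] at h1
    omega
  · left
    obtain ⟨g, hg0, hg⟩ := Submodule.exists_le_ker_of_lt_top _ (lt_top_iff_ne_top.2 h)
    refine ⟨fun i => g (Pi.single i 1), fun h0 => hg0 ?_, fun w => ?_⟩
    · refine LinearMap.pi_ext' fun i => LinearMap.ext_ring ?_
      exact congrFun h0 i
    · have h1 : g (LinearMap.pi φ w) = 0 := hg ⟨w, rfl⟩
      have h2 : LinearMap.pi φ w = ∑ i, φ i w • (Pi.single i 1 : Fin n → E) := by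
        funext j
        simp [Finset.sum_apply, Pi.single_apply]
      rw [h2, map_sum] at h1
      rw [← h1]
      refine Finset.sum_congr rfl fun i _ => ?_
      rw [map_smul, smul_eq_mul, mul_comm]

omit [IsAlgClosed k] [CharZero k] [IsAlgClosed E] in
/-- a relation for constant vectors holds for all vectors -/
private theorem tri_const_Thru {x y : Fin 6 → E}
    (h : ∀ i : Fin 6, tri F x y (Pi.single i 1) = 0) (w : Fin 6 → E) : tri F x y w = 0 := by
  rw [tri_sum]
  refine Finset.sum_eq_zero fun i _ => ?_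
  rw [h i, zero_mul]

omit [IsAlgClosed E] [IsAlgClosed k] [CharZero k] in
private theorem dr_single_Thru (δ : Derivation k E E) (i : Fin 6) :
    dr δ (Pi.single i 1 : Fin 6 → E) = 0 := by
  funext j
  change δ ((Pi.single i 1 : Fin 6 → E) j) = 0
  by_cases h : j = i
  · rw [h, Pi.single_eq_same, Derivation.map_one_eq_zero]
  · rw [Pi.single_eq_of_ne h, map_zero]

omit [IsAlgClosed E] [IsAlgClosed k] [CharZero k] in
private theorem mem_one_Thru {δ : Derivation k E E} {z : Fin 6 → E}
    (h : δ ∈ st (Submodule.span E {z})) : ∃ μ : E, dr δ z = μ • z := by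
  obtain ⟨μ, hμ⟩ := Submodule.mem_span_singleton.1 (h z (Submodule.mem_span_singleton_self z))
  exact ⟨μ, hμ.symm⟩

omit [IsAlgClosed E] [IsAlgClosed k] in
/-- the values of `dr δ v` -/
private theorem vals_Thru (hF : Smooth F) {z v : Fin 6 → E} {l : Ln F E} (hz : z ∈ l.W)
    (hv : v ∈ l.W) {δ : Derivation k E E} (hδ : δ ∈ st (Submodule.span E {z})) :
    tri F z z (dr δ v) = 0 ∧ tri F z v (dr δ v) = 0 ∧ tri F v v (dr δ v) = 0 := by
  have : CharZero E := charZero_of_injective_algebraMap (algebraMap k E).injective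
  obtain ⟨μ, hμ⟩ := mem_one_Thru hδ
  have hzzv : tri F z z v = 0 := l.tri_zero hF hz hz hv
  have hzvv : tri F z v v = 0 := l.tri_zero hF hz hv hv
  have hvvv : tri F v v v = 0 := l.tri_zero hF hv hv hv
  refine ⟨?_, ?_, ?_⟩
  · have h1 := dr_tri F δ z z v
    rw [hzzv, map_zero, hμ, tri_smul1, tri_smul2, hzzv, mul_zero, zero_add, zero_add] at h1
    exact h1.symm
  · have h1 := dr_tri F δ z v v
    rw [hzvv, map_zero, hμ, tri_smul1, hzvv, mul_zero, zero_add, tri_swap23 F z (dr δ v) v] at h1
    have h2 : (2 : E) * tri F z v (dr δ v) = 0 := by linear_combination -h1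
    exact (mul_eq_zero.1 h2).resolve_left two_ne_zero
  · have h1 := dr_tri F δ v v v
    have h3 : tri F (dr δ v) v v = tri F v v (dr δ v) := by
      rw [tri_swap12, tri_swap23]
    rw [hvvv, map_zero, h3, tri_swap23 F v (dr δ v) v] at h1
    have h2 : (3 : E) * tri F v v (dr δ v) = 0 := by linear_combination -h1
    exact (mul_eq_zero.1 h2).resolve_left three_ne_zero

omit [IsAlgClosed E] [IsAlgClosed k] [CharZero k] in
/-- the kernel of `θ` -/
private theorem ker_Thru {z v : Fin 6 → E} {l : Ln F E} (hW : l.W = Submodule.span E {z, v})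
    {δ : Derivation k E E} (hδ : δ ∈ st (Submodule.span E {z})) (h : dr δ v ∈ l.W) :
    δ ∈ st l.W := by
  rw [hW] at h ⊢
  refine mem_st_span ?_
  rintro x (rfl | rfl)
  · obtain ⟨μ, hμ⟩ := mem_one_Thru hδ
    rw [hμ]
    exact Submodule.smul_mem _ _ (Submodule.subset_span (by simp))
  · exact h

omit [IsAlgClosed E] [IsAlgClosed k] [CharZero k] in
private theorem cod_le_Thru {D S : Submodule E (Derivation k E E)} (h : D ≤ S) (n : ℕ) :
    Cod D S n := by
  unfold Cod
  rw [inf_eq_left.2 h]
  omega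

omit [IsAlgClosed E] [IsAlgClosed k] [CharZero k] in
private theorem map_le_Thru {W K : Submodule E (Fin 6 → E)} {n m : ℕ} (hW : finrank E W = n)
    (hWK : W ≤ K) (hK : finrank E K = m + n) : finrank E (K.map W.mkQ) ≤ m := by
  have h1 := fr_map_Thru K W
  rw [inf_eq_right.2 hWK] at h1
  omega

theorem thru (hF : Smooth F) {z : Fin 6 → E} (hz : z ≠ 0) (hE : ¬ Eck F z) {l : Ln F E}
    (hl : z ∈ l.W) (D : Submodule E (Derivation k E E)) [FiniteDimensional E D]
    (hD : D ≤ st (Submodule.span E {z})) : Cod D (st l.W) 1 := by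
  have hch : CharZero E := charZero_of_injective_algebraMap (algebraMap k E).injective
  obtain ⟨v, hv, hli, hW⟩ := exists_second_Thru hz hl
  have hzzz : tri F z z z = 0 := l.tri_zero hF hl hl hl
  rcases dich_Thru ![trl F z z, trl F z v, trl F v v] with ⟨c, hc, hrel⟩ | hdim
  swap
  · -- the independent case
    refine cod_of_map (l.W.mkQ.comp (drL v))
      ((LinearMap.ker (LinearMap.pi ![trl F z z, trl F z v, trl F v v])).map l.W.mkQ)
      (map_le_Thru l.two ?_ (by omega)) (fun δ hδ => ?_) fun δ hδ h0 => ?_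
    · intro x hx
      rw [LinearMap.mem_ker]
      funext i
      fin_cases i
      · exact l.tri_zero hF hl hl hx
      · exact l.tri_zero hF hl hv hx
      · exact l.tri_zero hF hv hv hx
    · refine Submodule.mem_map_of_mem ?_
      obtain ⟨h1, h2, h3⟩ := vals_Thru hF hl hv (hD hδ)
      rw [LinearMap.mem_ker]
      funext i
      fin_cases i
      · exact h1
      · exact h2
      · exact h3
    · refine ker_Thru hW (hD hδ) ?_
      rw [LinearMap.comp_apply, Submodule.mkQ_apply, Submodule.Quotient.mk_eq_zero] at h0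
      exact h0
  have hrel' : ∀ w, c 0 * tri F z z w + c 1 * tri F z v w + c 2 * tri F v v w = 0 := by
    intro w
    have h1 := hrel w
    rw [Fin.sum_univ_three] at h1
    exact h1
  by_cases h2 : c 2 = 0
  swap
  · -- the tangent hyperplane of another point of the line is the same
    obtain ⟨v', hv'⟩ : ∃ v', v' = v + (c 1 / (2 * c 2)) • z := ⟨_, rfl⟩
    have hv'0 : v' ≠ 0 := by
      intro h0
      rw [LinearIndependent.pair_iff] at hli
      have h3 := hli (c 1 / (2 * c 2)) 1 (by
        rw [one_smul, add_comm, ← hv', h0])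
      exact one_ne_zero h3.2
    have htan : ∀ w, tri F v' v' w = ((c 1 / (2 * c 2)) ^ 2 - c 0 / c 2) * tri F z z w := by
      intro w
      rw [hv']
      simp only [tri_add1, tri_add2, tri_smul1, tri_smul2]
      rw [tri_swap12 F v z w]
      have h3 := hrel' w
      field_simp
      linear_combination 4 * c 2 * h3
    have hW' : l.W = Submodule.span E {z, v'} := by
      rw [hW, hv']
      exact span_add_Thru z v _
    refine cod_le_Thru (fun δ hδ => ker_Thru hW' (hD hδ) ?_) 1
    obtain ⟨μ, hμ⟩ := mem_one_Thru (gauss_pt hF hv'0 _ htan (hD hδ))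
    rw [hμ, hW']
    exact Submodule.smul_mem _ _ (Submodule.subset_span (by simp))
  have h1 : c 1 ≠ 0 := by
    intro h1
    have h0 : c 0 ≠ 0 := by
      intro h0
      apply hc
      funext i
      fin_cases i
      · exact h0
      · exact h1
      · exact h2
    apply hz
    refine tri_ns_all hF fun w => ?_
    have h3 := hrel' w
    rw [h1, h2, zero_mul, zero_mul, add_zero, add_zero] at h3
    exact (mul_eq_zero.1 h3).resolve_left h0
  obtain ⟨v', hv'⟩ : ∃ v', v' = v + (c 0 / c 1) • z := ⟨_, rfl⟩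
  have hv'N : v' ∈ kH F z := by
    intro w
    rw [hv', tri_add2, tri_smul2]
    have h3 := hrel' w
    rw [h2, zero_mul, add_zero] at h3
    field_simp
    linear_combination h3
  have hW' : l.W = Submodule.span E {z, v'} := by
    rw [hW, hv']
    exact span_add_Thru z v _
  have hv'W : v' ∈ l.W := by
    rw [hW']
    exact Submodule.subset_span (by simp)
  have hv'0 : v' ≠ 0 := by
    intro h0
    rw [LinearIndependent.pair_iff] at hli
    have h3 := hli (c 0 / c 1) 1 (by
      rw [one_smul, add_comm, ← hv', h0])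
    exact one_ne_zero h3.2
  have hzN : z ∉ kH F z := fun h => hz (tri_ns_all hF fun w => h w)
  -- the derivations preserve `kH F z`
  have hDN : ∀ δ ∈ D, ∀ n ∈ kH F z, dr δ n ∈ kH F z := by
    intro δ hδ n hn w
    refine tri_const_Thru (fun i => ?_) w
    obtain ⟨μ, hμ⟩ := mem_one_Thru (hD hδ)
    have h3 := dr_tri F δ z n (Pi.single i 1)
    rw [dr_single_Thru, tri_zero3, add_zero, hn, map_zero, hμ, tri_smul1, hn, mul_zero,
      zero_add] at h3
    exact h3.symm
  have hNz : ∀ n ∈ kH F z, tri F z z n = 0 := fun n hn => by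
    rw [tri_swap23]
    exact hn z
  have hinf : ∀ x ∈ l.W, x ∈ kH F z → ∃ a : E, x = a • v' := by
    intro x hx hxN
    rw [hW'] at hx
    obtain ⟨s, t, rfl⟩ := Submodule.mem_span_pair.1 hx
    have h3 : s • z ∈ kH F z := by
      have h4 := Submodule.sub_mem _ hxN (Submodule.smul_mem _ t hv'N)
      rwa [add_sub_cancel_right] at h4
    have hs : s = 0 := by
      by_contra hs
      exact hzN ((Submodule.smul_mem_iff _ hs).1 h3)
    exact ⟨t, by rw [hs, zero_smul, zero_add]⟩
  have hinf1 : finrank E ↥(kH F z ⊓ l.W) = 1 := by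
    have h3 : kH F z ⊓ l.W = Submodule.span E {v'} := by
      refine le_antisymm (fun x hx => ?_) ?_
      · obtain ⟨a, rfl⟩ := hinf x hx.2 hx.1
        exact Submodule.smul_mem _ _ (Submodule.mem_span_singleton_self _)
      · rw [Submodule.span_singleton_le_iff_mem]
        exact ⟨hv'N, hv'W⟩
    rw [h3, finrank_span_singleton hv'0]
  have hsup : finrank E ↥(kH F z ⊔ Submodule.span E {z}) = finrank E (kH F z) + 1 := by
    have h3 := Submodule.finrank_sup_add_finrank_inf_eq (kH F z) (Submodule.span E {z})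
    have h4 : kH F z ⊓ Submodule.span E {z} = ⊥ := by
      rw [Submodule.eq_bot_iff]
      rintro x ⟨hx, hx'⟩
      obtain ⟨s, rfl⟩ := Submodule.mem_span_singleton.1 hx'
      by_contra hs
      have hs' : s ≠ 0 := fun h => hs (by rw [h, zero_smul])
      exact hzN ((Submodule.smul_mem_iff _ hs').1 hx)
    rw [h4, finrank_bot, finrank_span_singleton hz] at h3
    omega
  have hN3 : finrank E (kH F z) ≤ 3 := by
    by_contra hcon
    have hle : kH F z ⊔ Submodule.span E {z} ≤ LinearMap.ker (trl F z z) := by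
      refine sup_le (fun n hn => hNz n hn) ?_
      rw [Submodule.span_singleton_le_iff_mem]
      exact hzzz
    have h5 : finrank E (LinearMap.ker (trl F z z)) ≤ 5 := by
      by_contra h6
      have h7 : finrank E (LinearMap.ker (trl F z z)) = 6 := by
        have h8 := Submodule.finrank_le (LinearMap.ker (trl F z z))
        rw [finrank_fin_fun] at h8
        omega
      have h9 : LinearMap.ker (trl F z z) = ⊤ := by
        apply Submodule.eq_top_of_finrank_eq
        rw [h7, finrank_fin_fun]
      apply hz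
      refine tri_ns_all hF fun w => ?_
      have h10 : w ∈ LinearMap.ker (trl F z z) := by
        rw [h9]
        exact Submodule.mem_top
      exact h10
    have heq : kH F z ⊔ Submodule.span E {z} = LinearMap.ker (trl F z z) :=
      Submodule.eq_of_le_of_finrank_le hle (by omega)
    apply hE
    intro u w hu hw
    have hu' : u ∈ kH F z ⊔ Submodule.span E {z} := by
      rw [heq]
      exact hu
    obtain ⟨n, hn, y, hy, rfl⟩ := Submodule.mem_sup.1 hu'
    obtain ⟨a, rfl⟩ := Submodule.mem_span_singleton.1 hy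
    rw [tri_add2, tri_smul2, hn, hw, mul_zero, add_zero]
  -- the span of the values of `mkQ ∘ drL v'`
  have hmap := fr_map_Thru (kH F z) l.W
  rw [hinf1] at hmap
  have hθ : D.map (l.W.mkQ.comp (drL v')) ≤ (kH F z).map l.W.mkQ := by
    rintro _ ⟨δ, hδ, rfl⟩
    exact Submodule.mem_map_of_mem (hDN δ hδ v' hv'N)
  by_cases hR : finrank E (D.map (l.W.mkQ.comp (drL v'))) ≤ 1
  · refine cod_of_map (l.W.mkQ.comp (drL v')) (D.map (l.W.mkQ.comp (drL v'))) hR
      (fun δ hδ => Submodule.mem_map_of_mem hδ) fun δ hδ h0 => ?_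
    refine ker_Thru hW' (hD hδ) ?_
    rw [LinearMap.comp_apply, Submodule.mkQ_apply, Submodule.Quotient.mk_eq_zero] at h0
    exact h0
  exfalso
  have hR2 := Submodule.finrank_mono hθ
  have hRN : D.map (l.W.mkQ.comp (drL v')) = (kH F z).map l.W.mkQ :=
    Submodule.eq_of_le_of_finrank_le hθ (by omega)
  have hspan : ∀ n ∈ kH F z, ∃ δ ∈ D, ∃ a : E, n = dr δ v' + a • v' := by
    intro n hn
    have h3 : l.W.mkQ n ∈ D.map (l.W.mkQ.comp (drL v')) := by
      rw [hRN]
      exact Submodule.mem_map_of_mem hn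
    obtain ⟨δ, hδ, h4⟩ := h3
    rw [LinearMap.comp_apply, Submodule.mkQ_apply, Submodule.mkQ_apply,
      Submodule.Quotient.eq] at h4
    obtain ⟨a, ha⟩ := hinf _ h4 (Submodule.sub_mem _ (hDN δ hδ v' hv'N) hn)
    refine ⟨δ, hδ, -a, ?_⟩
    rw [neg_smul, ← ha]
    change n = dr δ v' + -(dr δ v' - n)
    abel
  have hvvv : tri F v' v' v' = 0 := l.tri_zero hF hv'W hv'W hv'W
  have e1 : ∀ n ∈ kH F z, tri F v' v' n = 0 := by
    intro n hn
    obtain ⟨δ, hδ, a, rfl⟩ := hspan n hn
    rw [tri_add3, tri_smul3, hvvv, mul_zero, add_zero]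
    exact (vals_Thru hF hl hv'W (hD hδ)).2.2
  have e2 : ∀ n ∈ kH F z, ∀ u ∈ kH F z, tri F n v' u = 0 := by
    intro n hn u hu
    obtain ⟨δ, hδ, a, rfl⟩ := hspan n hn
    rw [tri_add1, tri_smul1, e1 u hu, mul_zero, add_zero]
    have h3 := dr_tri F δ v' v' u
    rw [e1 u hu, map_zero, e1 _ (hDN δ hδ u hu), add_zero, tri_swap12 F v' (dr δ v') u] at h3
    have h4 : (2 : E) * tri F (dr δ v') v' u = 0 := by linear_combination -h3
    exact (mul_eq_zero.1 h4).resolve_left two_ne_zero
  have e3 : ∀ n ∈ kH F z, ∀ n' ∈ kH F z, ∀ u ∈ kH F z, tri F n n' u = 0 := by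
    intro n hn n' hn' u hu
    obtain ⟨δ, hδ, a, rfl⟩ := hspan n' hn'
    rw [tri_add2, tri_smul2, e2 n hn u hu, mul_zero, add_zero]
    have h3 := dr_tri F δ n v' u
    rw [e2 n hn u hu, map_zero, e2 _ (hDN δ hδ n hn) u hu, e2 n hn _ (hDN δ hδ u hu), add_zero,
      zero_add] at h3
    exact h3.symm
  have h4 := no_P3 hF (U := kH F z ⊔ Submodule.span E {z}) (by
    intro u hu
    obtain ⟨n, hn, y, hy, rfl⟩ := Submodule.mem_sup.1 hu
    obtain ⟨a, rfl⟩ := Submodule.mem_span_singleton.1 hy
    have k1 : ∀ w, tri F z n w = 0 := fun w => hn w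
    have k2 : ∀ w, tri F n z w = 0 := fun w => by rw [tri_swap12, k1]
    have k3 : ∀ w, tri F w n z = 0 := fun w => by
      rw [tri_swap12, tri_swap23, k2]
    have k4 : tri F n n n = 0 := e3 n hn n hn n hn
    have k5 : tri F z z n = 0 := hNz n hn
    simp only [tri_add1, tri_add2, tri_add3, tri_smul1, tri_smul2, tri_smul3, k1, k2, k3, k4, k5,
      hzzz, mul_zero, add_zero])
  omega

theorem eck_thru (hF : Smooth F) {z : Fin 6 → E} (hz : z ≠ 0) (hE : Eck F z) {l : Ln F E}
    (hl : z ∈ l.W) (D : Submodule E (Derivation k E E)) [FiniteDimensional E D] :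
    Cod D (st l.W) 2 := by
  obtain ⟨v, hv, hli, hW⟩ := exists_second_Thru hz hl
  have hzzz : tri F z z z = 0 := l.tri_zero hF hl hl hl
  have hD : ∀ δ : Derivation k E E, δ ∈ st (Submodule.span E {z}) :=
    fun δ => eck_const hF hz hzzz hE δ
  have hv0 : v ≠ 0 := by
    intro h0
    rw [LinearIndependent.pair_iff] at hli
    have h3 := hli 0 1 (by rw [h0, smul_zero, zero_smul, add_zero])
    exact one_ne_zero h3.2
  rcases dich_Thru ![trl F z z, trl F v v] with ⟨c, hc, hrel⟩ | hdim
  · have hrel' : ∀ w, c 0 * tri F z z w + c 1 * tri F v v w = 0 := by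
      intro w
      have h1 := hrel w
      rw [Fin.sum_univ_two] at h1
      exact h1
    have h1 : c 1 ≠ 0 := by
      intro h1
      have h0 : c 0 ≠ 0 := by
        intro h0
        apply hc
        funext i
        fin_cases i
        · exact h0
        · exact h1
      apply hz
      refine tri_ns_all hF fun w => ?_
      have h3 := hrel' w
      rw [h1, zero_mul, add_zero] at h3
      exact (mul_eq_zero.1 h3).resolve_left h0
    have htan : ∀ w, tri F v v w = (-(c 0 / c 1)) * tri F z z w := by
      intro w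
      have h3 := hrel' w
      field_simp
      linear_combination h3
    refine cod_le_Thru (fun δ _ => ker_Thru hW (hD δ) ?_) 2
    obtain ⟨μ, hμ⟩ := mem_one_Thru (gauss_pt hF hv0 _ htan (hD δ))
    rw [hμ]
    exact Submodule.smul_mem _ _ hv
  · refine cod_of_map (l.W.mkQ.comp (drL v))
      ((LinearMap.ker (LinearMap.pi ![trl F z z, trl F v v])).map l.W.mkQ)
      (map_le_Thru l.two ?_ (by omega)) (fun δ hδ => ?_) fun δ hδ h0 => ?_
    · intro x hx
      rw [LinearMap.mem_ker]
      funext i
      fin_cases i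
      · exact l.tri_zero hF hl hl hx
      · exact l.tri_zero hF hv hv hx
    · refine Submodule.mem_map_of_mem ?_
      obtain ⟨h1, h2, h3⟩ := vals_Thru hF hl hv (hD δ)
      rw [LinearMap.mem_ker]
      funext i
      fin_cases i
      · exact h1
      · exact h3
    · refine ker_Thru hW (hD δ) ?_
      rw [LinearMap.comp_apply, Submodule.mkQ_apply, Submodule.Quotient.mk_eq_zero] at h0
      exact h0

end Pool.Agent.CUB.FLN
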