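import Pool.Agent.FLN.Phi
import Pool.Agent.TInf.MoveAlg

/-!
# Homogeneous polynomials on a plane and their resultant

`bp A e` is the polynomial `A (X e 0 + Y e 1 + e 2)`, a polynomial in `X` the coefficients of which are
polynomials in `Y`.
-/

set_option autoImplicit false

noncomputable section

namespace Pool.Agent.CUB.FLN.T15

open Polynomial Pool.Agent.ZCyc
open Pool.Agent.VFP (Om tt)

section Lp

variable {k : Type} [Field k] {R : Type} [CommRing R] [Algebra k R] {ι : Type}

/-- the polynomial `A (X a + b)` -/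
def lp (A : MvPolynomial ι k) (a b : ι → R) : R[X] :=
  MvPolynomial.aeval (fun i => X * C (a i) + C (b i)) A

theorem lp_eval (A : MvPolynomial ι k) (a b : ι → R) (x : R) :
    (lp A a b).eval x = MvPolynomial.aeval (fun i => x * a i + b i) A := by
  unfold lp
  induction A using MvPolynomial.induction_on with
  | C c =>
    rw [MvPolynomial.aeval_C, MvPolynomial.aeval_C, IsScalarTower.algebraMap_apply k R R[X]]
    simp
  | add p q hp hq => rw [map_add, eval_add, hp, hq, map_add]
  | mul_X p i hp =>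
    rw [map_mul, eval_mul, hp, map_mul, MvPolynomial.aeval_X, MvPolynomial.aeval_X]
    simp only [eval_add, eval_mul, eval_X, eval_C]

theorem lp_map {S : Type} [CommRing S] [Algebra k S] (φ : R →ₐ[k] S) (A : MvPolynomial ι k)
    (a b : ι → R) : (lp A a b).map (φ : R →+* S) = lp A (fun i => φ (a i)) fun i => φ (b i) := by
  unfold lp
  induction A using MvPolynomial.induction_on with
  | C c =>
    rw [MvPolynomial.aeval_C, MvPolynomial.aeval_C, IsScalarTower.algebraMap_apply k R R[X],
      IsScalarTower.algebraMap_apply k S S[X]]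
    simp
  | add p q hp hq => rw [map_add, Polynomial.map_add, hp, hq, map_add]
  | mul_X p i hp =>
    rw [map_mul, Polynomial.map_mul, hp, map_mul, MvPolynomial.aeval_X, MvPolynomial.aeval_X]
    simp

/-- `A (X e 0 + Y e 1 + e 2)` -/
def bp (A : MvPolynomial ι k) (e : Fin 3 → ι → R) : R[X][X] :=
  lp (R := R[X]) A (fun i => C (e 0 i)) fun i => X * C (e 1 i) + C (e 2 i)

theorem bp_spec (A : MvPolynomial ι k) (e : Fin 3 → ι → R) (s : R) :
    (bp A e).map (evalRingHom s) = lp A (e 0) fun i => s * e 1 i + e 2 i := by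
  have h := lp_map (((Polynomial.aeval s : R[X] →ₐ[R] R).restrictScalars k)) A
    (fun i => C (e 0 i)) fun i => X * C (e 1 i) + C (e 2 i)
  have h1 : ((((Polynomial.aeval s : R[X] →ₐ[R] R).restrictScalars k) : R[X] →ₐ[k] R) :
      R[X] →+* R) = evalRingHom s := by
    ext
    · simp
    · simp
  rw [h1] at h
  unfold bp
  rw [h]
  congr 1
  · funext i
    rw [AlgHom.restrictScalars_apply, aeval_C]
    rfl
  · funext i
    rw [AlgHom.restrictScalars_apply, map_add, map_mul, aeval_X, aeval_C, aeval_C]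
    rfl

theorem bp_map {S : Type} [CommRing S] [Algebra k S] (φ : R →ₐ[k] S) (A : MvPolynomial ι k)
    (e : Fin 3 → ι → R) :
    (bp A e).map (mapRingHom (φ : R →+* S)) = bp A fun i j => φ (e i j) := by
  have h := lp_map (Polynomial.mapAlgHom φ) A
    (fun i => C (e 0 i)) fun i => X * C (e 1 i) + C (e 2 i)
  have h1 : ((Polynomial.mapAlgHom φ : R[X] →ₐ[k] S[X]) : R[X] →+* S[X]) =
      mapRingHom (φ : R →+* S) := by
    ext
    · simp
    · simp
  rw [h1] at h
  unfold bp
  rw [h]
  congr 1
  · funext i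
    simp
  · funext i
    simp

variable [Fintype ι]

private theorem lp_mono (a b : ι → R) (m : ι →₀ ℕ) :
    (∏ i, (X * C (a i) + C (b i)) ^ m i : R[X]).natDegree ≤ ∑ i, m i ∧
    (∏ i, (X * C (a i) + C (b i)) ^ m i : R[X]).coeff (∑ i, m i) = ∏ i, a i ^ m i := by
  have h1 : ∀ i, (X * C (a i) + C (b i) : R[X]).natDegree ≤ 1 := by
    intro i
    refine (natDegree_add_le _ _).trans (max_le ?_ ?_)
    · exact (natDegree_mul_C_le _ _).trans natDegree_X_le
    · rw [natDegree_C]
      exact zero_le
  have h2 : ∀ i, ((X * C (a i) + C (b i) : R[X]) ^ m i).natDegree ≤ m i := by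
    intro i
    refine natDegree_pow_le.trans ?_
    calc m i * (X * C (a i) + C (b i) : R[X]).natDegree ≤ m i * 1 :=
          Nat.mul_le_mul_left _ (h1 i)
      _ = m i := mul_one _
  have h3 : ∀ i, ((X * C (a i) + C (b i) : R[X]) ^ m i).coeff (m i) = a i ^ m i := by
    intro i
    have h4 := coeff_pow_of_natDegree_le (m := m i) (h1 i)
    rw [mul_one] at h4
    rw [h4]
    congr 1
    simp [coeff_C]
  refine ⟨(natDegree_prod_le _ _).trans (Finset.sum_le_sum fun i _ => h2 i), ?_⟩
  have h5 : ∀ s : Finset ι, (∏ i ∈ s, (X * C (a i) + C (b i)) ^ m i : R[X]).coeff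
      (∑ i ∈ s, m i) = ∏ i ∈ s, a i ^ m i := by
    classical
    intro s
    induction s using Finset.induction_on with
    | empty => simp
    | insert j s hj ih =>
      rw [Finset.prod_insert hj, Finset.sum_insert hj, Finset.prod_insert hj,
        coeff_mul_add_eq_of_natDegree_le (h2 j)
          ((natDegree_prod_le _ _).trans (Finset.sum_le_sum fun i _ => h2 i)), ih, h3]
  exact h5 _

private theorem supp_sum {A : MvPolynomial ι k} {d : ℕ} (hA : A.IsHomogeneous d) :
    ∀ m ∈ A.support, ∑ i, m i = d := by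
  intro m hm
  have h2 := hA (MvPolynomial.mem_support_iff.1 hm)
  rw [Finsupp.weight_apply, Finsupp.sum_fintype _ _ (fun i => by simp)] at h2
  simpa using h2

private theorem lp_eq (A : MvPolynomial ι k) (a b : ι → R) :
    lp A a b = ∑ m ∈ A.support, C (algebraMap k R (A.coeff m)) *
      ∏ i, (X * C (a i) + C (b i)) ^ m i := by
  unfold lp
  rw [MvPolynomial.aeval_def, MvPolynomial.eval₂_eq']
  refine Finset.sum_congr rfl fun m _ => ?_
  rw [IsScalarTower.algebraMap_apply k R R[X]]
  rfl

theorem lp_deg {A : MvPolynomial ι k} {d : ℕ} (hA : A.IsHomogeneous d) (a b : ι → R) :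
    (lp A a b).natDegree ≤ d ∧ (lp A a b).coeff d = MvPolynomial.aeval a A := by
  have hm := supp_sum hA
  rw [lp_eq, finsetSum_coeff, MvPolynomial.aeval_def, MvPolynomial.eval₂_eq']
  refine ⟨natDegree_sum_le_of_forall_le _ _ fun m hmem => ?_,
    Finset.sum_congr rfl fun m hmem => ?_⟩
  · refine (natDegree_C_mul_le _ _).trans ?_
    rw [← hm m hmem]
    exact (lp_mono a b m).1
  · rw [coeff_C_mul]
    congr 1
    conv_lhs => rw [← hm m hmem]
    exact (lp_mono a b m).2

/-- the total degree is at most `n` -/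
def WD (n : ℕ) (f : R[X][X]) : Prop := ∀ i j, n < i + j → (f.coeff i).coeff j = 0

omit [Algebra k R] [Fintype ι] in
private theorem WD.mul {m n : ℕ} {f g : R[X][X]} (hf : WD m f) (hg : WD n g) :
    WD (m + n) (f * g) := by
  intro i j h
  rw [coeff_mul, finsetSum_coeff]
  refine Finset.sum_eq_zero fun x hx => ?_
  rw [coeff_mul]
  refine Finset.sum_eq_zero fun y hy => ?_
  rw [Finset.HasAntidiagonal.mem_antidiagonal] at hx hy
  rcases Nat.lt_or_ge m (x.1 + y.1) with h1 | h1
  · rw [hf _ _ h1, zero_mul]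
  · rw [hg x.2 y.2 (by omega), mul_zero]

private theorem WD.sum {n : ℕ} {T : Type} {s : Finset T} {f : T → R[X][X]}
    (h : ∀ x ∈ s, WD n (f x)) : WD n (∑ x ∈ s, f x) := by
  intro i j hij
  rw [finsetSum_coeff, finsetSum_coeff]
  exact Finset.sum_eq_zero fun x hx => h x hx i j hij

private theorem WD.pow {n : ℕ} {f : R[X][X]} (hf : WD n f) (m : ℕ) : WD (m * n) (f ^ m) := by
  induction m with
  | zero =>
    intro i j h
    rw [pow_zero, coeff_one]
    split_ifs with h1
    · rw [coeff_one, if_neg]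
      omega
    · rfl
  | succ m ih =>
    rw [pow_succ, add_mul, one_mul]
    exact ih.mul hf

private theorem WD.prod {T : Type} {s : Finset T} {f : T → R[X][X]} {n : T → ℕ}
    (h : ∀ x ∈ s, WD (n x) (f x)) : WD (∑ x ∈ s, n x) (∏ x ∈ s, f x) := by
  classical
  induction s using Finset.induction_on with
  | empty =>
    have h1 := WD.pow (R := R) (n := 0) (f := 1) (fun i j h => by
      rw [coeff_one]
      split_ifs with h1
      · rw [coeff_one, if_neg]
        omega
      · rfl) 0
    simpa using h1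
  | insert j s hj ih =>
    rw [Finset.prod_insert hj, Finset.sum_insert hj]
    exact (h j (Finset.mem_insert_self _ _)).mul
      (ih fun x hx => h x (Finset.mem_insert_of_mem hx))

theorem bp_wd {A : MvPolynomial ι k} {d : ℕ} (hA : A.IsHomogeneous d) (e : Fin 3 → ι → R) :
    WD d (bp A e) := by
  unfold bp
  rw [lp_eq]
  refine WD.sum fun m hm => ?_
  rw [← supp_sum hA m hm]
  have h1 : WD 0 (C (algebraMap k R[X] (A.coeff m)) : R[X][X]) := by
    intro i j h
    rw [coeff_C]
    split_ifs with h1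
    · rw [IsScalarTower.algebraMap_apply k R R[X], Polynomial.algebraMap_eq, coeff_C, if_neg]
      omega
    · rfl
  have h2 : ∀ i ∈ (Finset.univ : Finset ι), WD (m i)
      ((X * C (C (e 0 i)) + C (X * C (e 1 i) + C (e 2 i)) : R[X][X]) ^ m i) := by
    intro i _
    have h3 : WD 1 (X * C (C (e 0 i)) + C (X * C (e 1 i) + C (e 2 i)) : R[X][X]) := by
      intro a b hab
      rw [coeff_add, coeff_mul_C, coeff_X, coeff_C, coeff_add]
      have h4 : ((if 1 = a then (1 : R[X]) else 0) * C (e 0 i)).coeff b = 0 := by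
        split_ifs with h5
        · rw [one_mul, coeff_C, if_neg]
          omega
        · rw [zero_mul, coeff_zero]
      rw [h4, zero_add]
      split_ifs with h5
      · rw [coeff_add, coeff_mul_C, coeff_X, coeff_C, if_neg, if_neg]
        · rw [zero_mul, zero_add]
        · omega
        · omega
      · rfl
    have h4 := h3.pow (m i)
    rwa [mul_one] at h4
  have h3 := h1.mul (WD.prod h2)
  rwa [zero_add] at h3

theorem bp_deg {A : MvPolynomial ι k} {d : ℕ} (hA : A.IsHomogeneous d) (e : Fin 3 → ι → R) :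
    (bp A e).natDegree ≤ d :=
  (lp_deg hA _ _).1

end Lp

section Res

variable {R : Type} [CommRing R]

private theorem wd_nat {n i : ℕ} {f : R[X][X]} (hf : WD n f) (h : f.coeff i ≠ 0) :
    (f.coeff i).natDegree + i ≤ n := by
  by_contra hc
  apply h
  have h1 : (f.coeff i).leadingCoeff = 0 := hf i _ (by omega)
  exact leadingCoeff_eq_zero.1 h1

/-- The resultant of two polynomials of the total degrees three and five. -/
theorem res_deg {f g : R[X][X]} (hf : WD 3 f) (hg : WD 5 g) :
    (resultant f g 3 5).natDegree ≤ 15 := by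
  let c : Fin (3 + 5) → ℕ := Fin.addCases (fun j => 5 + (j : ℕ)) fun j => 3 + (j : ℕ)
  have hc : ∑ j, c j = 43 := by
    rw [Fin.sum_univ_add]
    simp only [c, Fin.addCases_left, Fin.addCases_right, Fin.sum_univ_succ]
    simp
  have hM : ∀ i j, sylvester f g 3 5 i j ≠ 0 →
      (sylvester f g 3 5 i j).natDegree + (i : ℕ) ≤ c j := by
    intro i j
    induction j using Fin.addCases with
    | left j =>
      simp only [sylvester, Matrix.of_apply, Fin.addCases_left, c]
      split_ifs with h1
      · intro h2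
        have h3 := wd_nat hg h2
        rw [Set.mem_Icc] at h1
        omega
      · intro h2
        exact absurd rfl h2
    | right j =>
      simp only [sylvester, Matrix.of_apply, Fin.addCases_right, c]
      split_ifs with h1
      · intro h2
        have h3 := wd_nat hf h2
        rw [Set.mem_Icc] at h1
        omega
      · intro h2
        exact absurd rfl h2
  rw [resultant, Matrix.det_apply]
  refine natDegree_sum_le_of_forall_le _ _ fun τ _ => ?_
  refine (natDegree_smul_le _ _).trans ?_
  by_cases h0 : ∃ i, sylvester f g 3 5 (τ i) i = 0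
  · obtain ⟨i, hi⟩ := h0
    have h1 : ∏ i, sylvester f g 3 5 (τ i) i = 0 :=
      Finset.prod_eq_zero (i := i) (Finset.mem_univ i) hi
    rw [h1, natDegree_zero]
    exact Nat.zero_le _
  · push Not at h0
    refine (natDegree_prod_le _ _).trans ?_
    have h1 : ∑ i, ((sylvester f g 3 5 (τ i) i).natDegree + ((τ i : Fin (3 + 5)) : ℕ)) ≤ 43 := by
      rw [← hc]
      exact Finset.sum_le_sum fun i _ => hM _ _ (h0 i)
    rw [Finset.sum_add_distrib, Equiv.sum_comp τ fun i : Fin (3 + 5) => (i : ℕ)] at h1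
    have h2 : ∑ i : Fin (3 + 5), (i : ℕ) = 28 := by decide
    omega

theorem common_root {L : Type} [Field L] [IsAlgClosed L] {f g : L[X]} (hf : f.natDegree = 3)
    (hg : g.natDegree ≤ 5) (h : resultant f g 3 5 = 0) : ∃ a, f.eval a = 0 ∧ g.eval a = 0 := by
  have h1 := resultant_eq_prod_eval f g 5 hg (IsAlgClosed.splits f)
  rw [hf, h] at h1
  have h2 : f ≠ 0 := by
    rintro rfl
    simp at hf
  have h3 := (mul_eq_zero.1 h1.symm).resolve_left
    (pow_ne_zero _ (leadingCoeff_ne_zero.2 h2))
  rw [Multiset.prod_eq_zero_iff, Multiset.mem_map] at h3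
  obtain ⟨a, ha, h4⟩ := h3
  exact ⟨a, (mem_roots'.1 ha).2, h4⟩

end Res

section Eval

variable {k : Type} [Field k] {R : Type} [CommRing R] [Algebra k R] {ι : Type}

/-- the resultant of two forms on a plane -/
def rsl (A B : MvPolynomial ι k) (e : Fin 3 → ι → R) : R[X] :=
  resultant (bp A e) (bp B e) 3 5

theorem rsl_eval (A B : MvPolynomial ι k) (e : Fin 3 → ι → R) (s : R) :
    (rsl A B e).eval s = resultant (lp A (e 0) fun i => s * e 1 i + e 2 i)
      (lp B (e 0) fun i => s * e 1 i + e 2 i) 3 5 := by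
  unfold rsl
  rw [← bp_spec, ← bp_spec, resultant_map_map]
  rfl

theorem rsl_map {S : Type} [CommRing S] [Algebra k S] (φ : R →ₐ[k] S) (A B : MvPolynomial ι k)
    (e : Fin 3 → ι → R) :
    (rsl A B e).map (φ : R →+* S) = rsl A B fun i j => φ (e i j) := by
  unfold rsl
  rw [← bp_map, ← bp_map, resultant_map_map]
  rfl

theorem rsl_deg [Fintype ι] {A B : MvPolynomial ι k} (hA : A.IsHomogeneous 3)
    (hB : B.IsHomogeneous 5) (e : Fin 3 → ι → R) : (rsl A B e).natDegree ≤ 15 :=
  res_deg (bp_wd hA e) (bp_wd hB e)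

/-- the pairs of an element of the field and its value -/
private def atAlg (v : Place k (Om k)) : Subalgebra k (Om k × k) where
  carrier := {p | v.At p.1 p.2}
  mul_mem' := fun ha hb => ha.mul hb
  add_mem' := fun ha hb => ha.add hb
  algebraMap_mem' := fun c => Place.at_const c

private theorem rsl_at' {v : Place k (Om k)} {S : Type} [CommRing S] [Algebra k S]
    (f1 : S →ₐ[k] Om k) (f2 : S →ₐ[k] k) (h : ∀ x, v.At (f1 x) (f2 x)) (G : Fin 3 → ι → S)
    (A B : MvPolynomial ι k) (n : ℕ) : v.At ((rsl A B fun i j => f1 (G i j)).coeff n)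
      ((rsl A B fun i j => f2 (G i j)).coeff n) := by
  rw [← rsl_map, ← rsl_map, coeff_map, coeff_map]
  exact h _

theorem rsl_at {v : Place k (Om k)} {E : Fin 3 → ι → Om k} {e : Fin 3 → ι → k}
    (h : ∀ i j, v.At (E i j) (e i j)) (A B : MvPolynomial ι k) (n : ℕ) :
    v.At ((rsl A B E).coeff n) ((rsl A B e).coeff n) := by
  let G : Fin 3 → ι → atAlg v := fun i j => ⟨(E i j, e i j), h i j⟩
  let f1 : atAlg v →ₐ[k] Om k := (AlgHom.fst k (Om k) k).comp (atAlg v).val
  let f2 : atAlg v →ₐ[k] k := (AlgHom.snd k (Om k) k).comp (atAlg v).val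
  exact rsl_at' f1 f2 (fun x => x.2) G A B n

private theorem lp_at' {v : Place k (Om k)} {S : Type} [CommRing S] [Algebra k S]
    (f1 : S →ₐ[k] Om k) (f2 : S →ₐ[k] k) (h : ∀ x, v.At (f1 x) (f2 x)) (G G' : ι → S)
    (A : MvPolynomial ι k) (n : ℕ) : v.At ((lp A (fun i => f1 (G i)) fun i => f1 (G' i)).coeff n)
      ((lp A (fun i => f2 (G i)) fun i => f2 (G' i)).coeff n) := by
  rw [← lp_map, ← lp_map, coeff_map, coeff_map]
  exact h _

theorem lp_at {v : Place k (Om k)} {a b : ι → Om k} {a' b' : ι → k}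
    (ha : ∀ i, v.At (a i) (a' i)) (hb : ∀ i, v.At (b i) (b' i)) (A : MvPolynomial ι k) (n : ℕ) :
    v.At ((lp A a b).coeff n) ((lp A a' b').coeff n) := by
  let G : ι → atAlg v := fun i => ⟨(a i, a' i), ha i⟩
  let G' : ι → atAlg v := fun i => ⟨(b i, b' i), hb i⟩
  let f1 : atAlg v →ₐ[k] Om k := (AlgHom.fst k (Om k) k).comp (atAlg v).val
  let f2 : atAlg v →ₐ[k] k := (AlgHom.snd k (Om k) k).comp (atAlg v).val
  exact lp_at' f1 f2 (fun x => x.2) G G' A n

end Eval

end Pool.Agent.CUB.FLN.T15
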