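import Pool.Agent.FLN.TriA

/-!
# A plane section and a line: the frame

Lines `a 0`, `a 1`, `a 2` in a plane `P`, a line `y`. We choose a basis `e` of `P` such that the projection
from `e 0` separates the points of the plane section on the quintic `dd = 0`.
-/

set_option autoImplicit false

noncomputable section

namespace Pool.Agent.CUB.FLN.T15

open Polynomial Pool.Agent.ZCyc Pool.Agent.Dess Pool.Agent.GT Module
open Pool.Agent.VFP (Om tt)

section Dpol

variable {k : Type} [Field k]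

/-- the trilinear form for vectors of polynomials -/
private def ptri (F : MvPolynomial (Fin 6) k) (x y z : Fin 6 → MvPolynomial (Fin 6) k) :
    MvPolynomial (Fin 6) k :=
  ∑ i, ∑ j, ∑ l, MvPolynomial.C (cf F i j l) * x i * y j * z l

private theorem ptri_hom (F : MvPolynomial (Fin 6) k) {x y z : Fin 6 → MvPolynomial (Fin 6) k}
    {a b c : ℕ} (hx : ∀ i, (x i).IsHomogeneous a) (hy : ∀ i, (y i).IsHomogeneous b)
    (hz : ∀ i, (z i).IsHomogeneous c) : (ptri F x y z).IsHomogeneous (a + b + c) := by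
  unfold ptri
  refine MvPolynomial.IsHomogeneous.sum _ _ _ fun i _ => MvPolynomial.IsHomogeneous.sum _ _ _
    fun j _ => MvPolynomial.IsHomogeneous.sum _ _ _ fun l _ => ?_
  refine MvPolynomial.IsHomogeneous.mul (MvPolynomial.IsHomogeneous.mul ?_ (hy j)) (hz l)
  have h := (MvPolynomial.isHomogeneous_C (Fin 6) (cf F i j l)).mul (hx i)
  rwa [zero_add] at h

private theorem ptri_aeval (F : MvPolynomial (Fin 6) k) (x y z : Fin 6 → MvPolynomial (Fin 6) k)
    {L : Type} [Field L] [Algebra k L] (v : Fin 6 → L) : MvPolynomial.aeval v (ptri F x y z) =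
      tri F (fun i => MvPolynomial.aeval v (x i)) (fun i => MvPolynomial.aeval v (y i))
        fun i => MvPolynomial.aeval v (z i) := by
  unfold ptri tri
  simp only [map_sum, map_mul, MvPolynomial.aeval_C]

/-- the quintic form as a polynomial -/
theorem exists_dpol (F : MvPolynomial (Fin 6) k) (w : Fin 2 → Fin 6 → k) :
    ∃ D : MvPolynomial (Fin 6) k, D.IsHomogeneous 5 ∧ ∀ (L : Type) [Field L] [Algebra k L]
      (z : Fin 6 → L), MvPolynomial.aeval z D = dd F (fun i => em L (w i)) z := by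
  let X : Fin 6 → MvPolynomial (Fin 6) k := fun i => MvPolynomial.X i
  let W : Fin 2 → Fin 6 → MvPolynomial (Fin 6) k := fun i j => MvPolynomial.C (w i j)
  let Y : Fin 6 → MvPolynomial (Fin 6) k := fun i =>
    ptri F X X (W 0) * W 1 i - ptri F X X (W 1) * W 0 i
  have hX : ∀ i, (X i).IsHomogeneous 1 := fun i => MvPolynomial.isHomogeneous_X k i
  have hW : ∀ j i, (W j i).IsHomogeneous 0 := fun j i =>
    MvPolynomial.isHomogeneous_C (Fin 6) (w j i)
  have hY : ∀ i, (Y i).IsHomogeneous 2 := fun i =>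
    ((ptri_hom F hX hX (hW 0)).mul (hW 1 i)).sub ((ptri_hom F hX hX (hW 1)).mul (hW 0 i))
  refine ⟨ptri F X Y Y, ptri_hom F hX hY hY, ?_⟩
  intro L _ _ z
  have h1 : (fun i => MvPolynomial.aeval z (X i)) = z := by
    funext i
    exact MvPolynomial.aeval_X z i
  have h2 : ∀ j, (fun i => MvPolynomial.aeval z (W j i)) = em L (w j) := by
    intro j
    funext i
    exact MvPolynomial.aeval_C z (w j i)
  have h3 : (fun i => MvPolynomial.aeval z (Y i)) = ys F (fun i => em L (w i)) z := by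
    funext i
    change MvPolynomial.aeval z (ptri F X X (W 0) * W 1 i - ptri F X X (W 1) * W 0 i) = _
    have h4 : ∀ j, MvPolynomial.aeval z (W j i) = em L (w j) i := fun j => congrFun (h2 j) i
    rw [map_sub, map_mul, map_mul, ptri_aeval, ptri_aeval, h1, h2, h2, h4, h4]
    rfl
  rw [ptri_aeval, h1, h3]
  rfl

end Dpol

section Vgl

variable {k : Type} [Field k] {F : MvPolynomial (Fin 6) k} {L : Type} [Field L] [Algebra k L]

theorem ys_smul (w : Fin 2 → Fin 6 → L) (c : L) (z : Fin 6 → L) :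
    ys F w (c • z) = c ^ 2 • ys F w z := by
  unfold ys
  rw [tri_smul1, tri_smul1, tri_smul2, tri_smul2, smul_sub, smul_smul, smul_smul]
  congr 1
  · congr 1
    ring
  · congr 1
    ring

theorem dd_smul (w : Fin 2 → Fin 6 → L) (c : L) (z : Fin 6 → L) :
    dd F w (c • z) = c ^ 5 * dd F w z := by
  unfold dd
  rw [ys_smul, tri_smul1, tri_smul2, tri_smul3]
  ring

theorem ys_mem {y : Ln F L} {w : Fin 2 → Fin 6 → L} (hw : Bas y w) (z : Fin 6 → L) :
    ys F w z ∈ y.W := by
  rw [hw.2]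
  unfold ys
  exact Submodule.sub_mem _ (Submodule.smul_mem _ _ (Submodule.subset_span (by simp)))
    (Submodule.smul_mem _ _ (Submodule.subset_span (by simp)))

theorem tri_ys (w : Fin 2 → Fin 6 → L) (z : Fin 6 → L) : tri F z z (ys F w z) = 0 := by
  unfold ys
  rw [← trl_apply, map_sub, map_smul, map_smul, smul_eq_mul, smul_eq_mul, trl_apply, trl_apply]
  ring

variable [CharZero k]

theorem ys_li (hF : Smooth F) {x y : Ln F L} (h : Vg x y) {w : Fin 2 → Fin 6 → L} (hw : Bas y w)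
    {z : Fin 6 → L} (hz : z ∈ x.W) (hz0 : z ≠ 0) : LinearIndependent L ![z, ys F w z] := by
  obtain ⟨v, hv, hv0⟩ := h.tan z hz hz0
  have h1 : ys F w z ≠ 0 := by
    intro h0
    have h2 := hw.1
    rw [LinearIndependent.pair_iff] at h2
    have h3 := h2 (-(tri F z z (w 1))) (tri F z z (w 0)) (by
      rw [← h0]
      unfold ys
      rw [neg_smul]
      abel)
    apply hv0
    rw [hw.2] at hv
    obtain ⟨a, b, rfl⟩ := Submodule.mem_span_pair.1 hv
    rw [tri_add3, tri_smul3, tri_smul3, h3.2, neg_eq_zero.1 h3.1, mul_zero, mul_zero, add_zero]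
  rw [LinearIndependent.pair_iff]
  intro s t hst
  have hs : s = 0 := by
    by_contra hs
    apply hv0
    have h2 : z ∈ y.W := by
      have h3 : z = (-(s⁻¹ * t)) • ys F w z := by
        have h4 : s • z = -(t • ys F w z) := eq_neg_of_add_eq_zero_left hst
        calc z = s⁻¹ • (s • z) := by rw [smul_smul, inv_mul_cancel₀ hs, one_smul]
          _ = (-(s⁻¹ * t)) • ys F w z := by rw [h4, smul_neg, smul_smul, neg_smul]
      rw [h3]
      exact y.W.smul_mem _ (ys_mem hw z)
    exact y.tri_zero hF h2 h2 hv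
  rw [hs, zero_smul, zero_add] at hst
  exact ⟨hs, (smul_eq_zero.1 hst).resolve_right h1⟩

/-- the line through a point of the quintic -/
theorem exists_tr (hF : Smooth F) {y : Ln F L} {w : Fin 2 → Fin 6 → L} (hw : Bas y w)
    {z : Fin 6 → L} (hz : tri F z z z = 0) (hd : dd F w z = 0)
    (hli : LinearIndependent L ![z, ys F w z]) :
    ∃ m : Ln F L, z ∈ m.W ∧ ys F w z ∈ m.W := by
  obtain ⟨m, hm⟩ := exists_ln hF hli hz (tri_ys w z) hd
    (y.tri_zero hF (ys_mem hw z) (ys_mem hw z) (ys_mem hw z))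
  refine ⟨m, ?_, ?_⟩
  · rw [hm]
    exact Submodule.subset_span (by simp)
  · rw [hm]
    exact Submodule.subset_span (by simp)

omit [CharZero k] in
/-- a line is determined by two independent vectors -/
theorem ln_eq {m m' : Ln F L} {a b : Fin 6 → L} (hli : LinearIndependent L ![a, b])
    (ha : a ∈ m.W) (hb : b ∈ m.W) (ha' : a ∈ m'.W) (hb' : b ∈ m'.W) : m = m' := by
  have hf : finrank L ↥(Submodule.span L {a, b}) = 2 := by
    have h1 := finrank_span_eq_card hli
    rwa [Matrix.range_cons, Matrix.range_cons, Matrix.range_empty, Set.union_empty,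
      Set.singleton_union, Fintype.card_fin] at h1
  have key : ∀ n : Ln F L, a ∈ n.W → b ∈ n.W → n.W = Submodule.span L {a, b} := by
    intro n han hbn
    refine (Submodule.eq_of_le_of_finrank_eq ?_ (by rw [hf, n.two])).symm
    rw [Submodule.span_le]
    rintro z (rfl | rfl)
    · exact han
    · exact hbn
  apply Ln.ext
  rw [key m ha hb, key m' ha' hb']

theorem exists_dd_ne (hF : Smooth F) {x y : Ln F L} (h : Vg x y) {w : Fin 2 → Fin 6 → L}
    (hw : Bas y w) : ∃ z ∈ x.W, z ≠ 0 ∧ dd F w z ≠ 0 := by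
  obtain ⟨z, hz, hz1⟩ := h.fin
  have hz0 : z ≠ 0 := by
    rintro rfl
    have hw0 : w 0 ≠ 0 := hw.1.ne_zero 0
    have hwy : w 0 ∈ y.W := by
      rw [hw.2]
      exact Submodule.subset_span (by simp)
    exact hz1 (w 0) hwy hw0 (tri_zero1 F _ _) (tri_zero1 F _ _)
  have h1 := ys_li hF h hw hz hz0
  exact ⟨z, hz, hz0, hz1 _ (ys_mem hw z) (h1.ne_zero 1) (tri_ys w z)⟩

end Vgl

section Fin

variable {k : Type} [Field k] [CharZero k] {F : MvPolynomial (Fin 6) k}

omit [CharZero k] in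
/-- a line with a given vector has a basis with this vector -/
theorem bas_extend (x : Ln F k) {a : Fin 6 → k} (ha : a ∈ x.W) (ha0 : a ≠ 0) :
    ∃ b, Bas x ![a, b] := by
  have h1 : Submodule.span k {a} < x.W := by
    refine lt_of_le_of_ne ?_ ?_
    · rw [Submodule.span_singleton_le_iff_mem]
      exact ha
    · intro h2
      have h3 := x.two
      rw [← h2, finrank_span_singleton ha0] at h3
      exact absurd h3 (by norm_num)
  obtain ⟨b, hb, hb'⟩ := SetLike.exists_of_lt h1
  have hli : LinearIndependent k ![a, b] := by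
    rw [LinearIndependent.pair_iff]
    intro s t hst
    have ht : t = 0 := by
      by_contra ht
      apply hb'
      rw [Submodule.mem_span_singleton]
      refine ⟨-(t⁻¹ * s), ?_⟩
      have h4 : t • b = -(s • a) := eq_neg_of_add_eq_zero_right hst
      calc (-(t⁻¹ * s)) • a = t⁻¹ • (-(s • a)) := by rw [smul_neg, smul_smul, neg_smul]
        _ = b := by rw [← h4, smul_smul, inv_mul_cancel₀ ht, one_smul]
    rw [ht, zero_smul, add_zero] at hst
    exact ⟨(smul_eq_zero.1 hst).resolve_right ha0, ht⟩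
  refine ⟨b, hli, ?_⟩
  refine (Submodule.eq_of_le_of_finrank_eq ?_ ?_).symm
  · rw [Submodule.span_le]
    rintro z (rfl | rfl)
    · exact ha
    · exact hb
  · have h5 := finrank_span_eq_card hli
    rw [Matrix.range_cons, Matrix.range_cons, Matrix.range_empty, Set.union_empty,
      Set.singleton_union, Fintype.card_fin] at h5
    rw [x.two]
    exact h5

/-- the zeros of the quintic form on a line -/
theorem zeros_fin (hF : Smooth F) {x y : Ln F k} (h : Vg x y) {w : Fin 2 → Fin 6 → k}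
    (hw : Bas y w) : ∃ Q : Finset (Fin 6 → k), ∀ z ∈ x.W, z ≠ 0 → dd F w z = 0 →
      ∃ q ∈ Q, ∃ c : k, z = c • q := by
  classical
  obtain ⟨a, ha, ha0, hda⟩ := exists_dd_ne hF h hw
  obtain ⟨b, hab⟩ := bas_extend x ha ha0
  obtain ⟨D, hD, hDe⟩ := exists_dpol F w
  have hem : ∀ i, em k (w i) = w i := fun i => rfl
  have hDk : ∀ z : Fin 6 → k, MvPolynomial.aeval z D = dd F w z := fun z => hDe k z
  have hp : lp D a b ≠ 0 := by
    intro h0
    have h1 := (lp_deg hD a b).2
    rw [h0, coeff_zero, hDk] at h1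
    exact hda h1.symm
  refine ⟨(lp D a b).roots.toFinset.image fun s => s • a + b, fun z hz hz0 hdz => ?_⟩
  rw [hab.2] at hz
  obtain ⟨s, t, rfl⟩ := Submodule.mem_span_pair.1 hz
  change s • a + t • b ≠ 0 at hz0
  change dd F w (s • a + t • b) = 0 at hdz
  have ht : t ≠ 0 := by
    rintro rfl
    rw [zero_smul, add_zero, dd_smul] at hdz
    rcases mul_eq_zero.1 hdz with h1 | h1
    · rw [pow_eq_zero_iff (by norm_num)] at h1
      rw [h1, zero_smul, zero_smul, add_zero] at hz0
      exact hz0 rfl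
    · exact hda h1
  have he : s • a + t • b = t • ((t⁻¹ * s) • a + b) := by
    rw [smul_add, smul_smul, mul_inv_cancel_left₀ ht]
  refine ⟨(t⁻¹ * s) • a + b, ?_, t, he⟩
  rw [Finset.mem_image]
  refine ⟨t⁻¹ * s, ?_, rfl⟩
  rw [Multiset.mem_toFinset, mem_roots hp, IsRoot.def, lp_eval]
  have h1 : (fun i => t⁻¹ * s * a i + b i) = (t⁻¹ * s) • a + b := rfl
  rw [h1, hDk]
  rw [he, dd_smul] at hdz
  exact (mul_eq_zero.1 hdz).resolve_left (pow_ne_zero _ ht)

omit [CharZero k] in
private theorem avoid [Infinite k] {ι : Type} (s : Finset ι)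
    (N : ι → Submodule k (Fin 6 → k)) (P : Submodule k (Fin 6 → k))
    (h : ∀ i ∈ s, ¬ P ≤ N i) : ∃ x ∈ P, ∀ i ∈ s, x ∉ N i := by
  classical
  let S : Finset (Submodule k P) := s.image fun i => (N i).comap P.subtype
  have h1 : (⊤ : Submodule k P) ∉ S := by
    intro h2
    rw [Finset.mem_image] at h2
    obtain ⟨i, hi, h3⟩ := h2
    apply h i hi
    intro x hx
    have h4 : (⟨x, hx⟩ : P) ∈ (N i).comap P.subtype := by
      rw [h3]
      exact Submodule.mem_top
    exact h4
  have h2 := Subspace.biUnion_ne_univ_of_top_notMem h1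
  obtain ⟨x, hx⟩ := (Set.ne_univ_iff_exists_notMem _).1 h2
  refine ⟨x.1, x.2, fun i hi hxi => hx ?_⟩
  rw [Set.mem_iUnion₂]
  exact ⟨(N i).comap P.subtype, Finset.mem_image_of_mem _ hi, hxi⟩

omit [CharZero k] in
private theorem not_le_pair {P : Submodule k (Fin 6 → k)} (hP : finrank k P = 3)
    (a b : Fin 6 → k) : ¬ P ≤ Submodule.span k {a, b} := by
  intro h
  have h1 := Submodule.finrank_mono h
  have h2 : finrank k ↥(Submodule.span k {a, b}) ≤ 2 := by
    have h3 := finrank_range_le_card (R := k) (b := ![a, b])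
    rwa [Set.finrank, Matrix.range_cons, Matrix.range_cons, Matrix.range_empty, Set.union_empty,
      Set.singleton_union, Fintype.card_fin] at h3
  omega

/-- an admissible frame of the plane `P` -/
structure Frm (F : MvPolynomial (Fin 6) k) (w : Fin 2 → Fin 6 → k)
    (P : Submodule k (Fin 6 → k)) (l : Fin 3 → (Fin 6 → k) →ₗ[k] k) (e : Fin 3 → Fin 6 → k) :
    Prop where
  mem : ∀ i, e i ∈ P
  li : ∀ a b c : k, a • e 0 + b • e 1 + c • e 2 = 0 → a = 0 ∧ b = 0 ∧ c = 0
  ne : ∀ j, l j (e 0) ≠ 0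
  uniq : ∀ s a b : k, tri F (a • e 0 + s • e 1 + e 2) (a • e 0 + s • e 1 + e 2)
      (a • e 0 + s • e 1 + e 2) = 0 → dd F w (a • e 0 + s • e 1 + e 2) = 0 →
    tri F (b • e 0 + s • e 1 + e 2) (b • e 0 + s • e 1 + e 2) (b • e 0 + s • e 1 + e 2) = 0 →
    dd F w (b • e 0 + s • e 1 + e 2) = 0 → a = b
  lead : ∀ j, dd F w (e 1 - (l j (e 1) / l j (e 0)) • e 0) ≠ 0

theorem exists_frm (hF : Smooth F) {a : Fin 3 → Ln F k} {y : Ln F k} (hV : ∀ j, Vg (a j) y)
    {w : Fin 2 → Fin 6 → k} (hw : Bas y w) {P : Submodule k (Fin 6 → k)}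
    {l : Fin 3 → (Fin 6 → k) →ₗ[k] k} (hP : finrank k P = 3)
    (hm : ∀ i x, x ∈ (a i).W ↔ x ∈ P ∧ l i x = 0)
    (hp : ∀ x ∈ P, MvPolynomial.aeval x F = ∏ i, l i x) : ∃ e, Frm F w P l e := by
  classical
  have hinf : Infinite k := inferInstance
  choose Q₀ hQ₀ using fun j => zeros_fin hF (hV j) hw
  let Q : Finset (Fin 6 → k) := Finset.univ.biUnion Q₀
  have hQ : ∀ z ∈ P, z ≠ 0 → tri F z z z = 0 → dd F w z = 0 → ∃ q ∈ Q, ∃ c : k, z = c • q := by
    intro z hz hz0 h1 h2
    rw [tri_self hF.hom, hp z hz, Finset.prod_eq_zero_iff] at h1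
    obtain ⟨j, -, hj⟩ := h1
    obtain ⟨q, hq, c, hc⟩ := hQ₀ j z ((hm j z).2 ⟨hz, hj⟩) hz0 h2
    exact ⟨q, Finset.mem_biUnion.2 ⟨j, Finset.mem_univ _, hq⟩, c, hc⟩
  -- the vector `e 0`
  obtain ⟨e0, he0, h0⟩ := avoid (Finset.univ : Finset (Fin 3 ⊕ Q × Q))
    (Sum.elim (fun j => LinearMap.ker (l j)) fun q => Submodule.span k {q.1.1, q.2.1}) P (by
      rintro (j | q) -
      · intro h1
        have h2 : P ≤ (a j).W := fun x hx => (hm j x).2 ⟨hx, h1 hx⟩
        have h3 := Submodule.finrank_mono h2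
        rw [hP, (a j).two] at h3
        omega
      · exact not_le_pair hP _ _)
  have h0l : ∀ j, l j e0 ≠ 0 := fun j h1 => h0 (Sum.inl j) (Finset.mem_univ _) h1
  have h0q : ∀ q ∈ Q, ∀ q' ∈ Q, e0 ∉ Submodule.span k {q, q'} := fun q hq q' hq' h1 =>
    h0 (Sum.inr (⟨q, hq⟩, ⟨q', hq'⟩)) (Finset.mem_univ _) h1
  have h00 : e0 ≠ 0 := by
    rintro rfl
    exact h0l 0 (map_zero _)
  -- the vector `e 1`
  obtain ⟨e1, he1, h1⟩ := avoid (Finset.univ : Finset (Option Q))
    (fun q => match q with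
      | none => Submodule.span k {e0, e0}
      | some q => Submodule.span k {e0, q.1}) P (by
      rintro (_ | q) -
      · exact not_le_pair hP _ _
      · exact not_le_pair hP _ _)
  have h1n : e1 ∉ Submodule.span k {e0, e0} := h1 none (Finset.mem_univ _)
  have h1q : ∀ q ∈ Q, e1 ∉ Submodule.span k {e0, q} := fun q hq =>
    h1 (some ⟨q, hq⟩) (Finset.mem_univ _)
  -- the vector `e 2`
  obtain ⟨e2, he2, h2⟩ := avoid (Finset.univ : Finset Unit)
    (fun _ => Submodule.span k {e0, e1}) P (fun _ _ => not_le_pair hP _ _)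
  have h2n : e2 ∉ Submodule.span k {e0, e1} := h2 () (Finset.mem_univ _)
  have hli : ∀ a b c : k, a • e0 + b • e1 + c • e2 = 0 → a = 0 ∧ b = 0 ∧ c = 0 := by
    intro a b c h3
    have hc : c = 0 := by
      by_contra hc
      apply h2n
      rw [Submodule.mem_span_pair]
      refine ⟨-(c⁻¹ * a), -(c⁻¹ * b), ?_⟩
      have h4 : c • e2 = -(a • e0 + b • e1) := eq_neg_of_add_eq_zero_right h3
      calc (-(c⁻¹ * a)) • e0 + (-(c⁻¹ * b)) • e1 = c⁻¹ • -(a • e0 + b • e1) := by
            rw [smul_neg, smul_add, smul_smul, smul_smul, neg_smul, neg_smul, neg_add]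
        _ = e2 := by rw [← h4, smul_smul, inv_mul_cancel₀ hc, one_smul]
    rw [hc, zero_smul, add_zero] at h3
    have hb : b = 0 := by
      by_contra hb
      apply h1n
      rw [Submodule.mem_span_pair]
      refine ⟨-(b⁻¹ * a), 0, ?_⟩
      have h4 : b • e1 = -(a • e0) := eq_neg_of_add_eq_zero_right h3
      calc (-(b⁻¹ * a)) • e0 + (0 : k) • e0 = b⁻¹ • -(a • e0) := by
            rw [smul_neg, smul_smul, neg_smul, zero_smul, add_zero]
        _ = e1 := by rw [← h4, smul_smul, inv_mul_cancel₀ hb, one_smul]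
    rw [hb, zero_smul, add_zero] at h3
    exact ⟨(smul_eq_zero.1 h3).resolve_right h00, hb, hc⟩
  refine ⟨![e0, e1, e2], ?_, hli, h0l, ?_, ?_⟩
  · intro i
    fin_cases i
    · exact he0
    · exact he1
    · exact he2
  · intro s a b h3 h4 h5 h6
    change tri F (a • e0 + s • e1 + e2) (a • e0 + s • e1 + e2) (a • e0 + s • e1 + e2) = 0 at h3
    change dd F w (a • e0 + s • e1 + e2) = 0 at h4
    change tri F (b • e0 + s • e1 + e2) (b • e0 + s • e1 + e2) (b • e0 + s • e1 + e2) = 0 at h5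
    change dd F w (b • e0 + s • e1 + e2) = 0 at h6
    have hmem : ∀ c : k, c • e0 + s • e1 + e2 ∈ P := fun c =>
      P.add_mem (P.add_mem (P.smul_mem _ he0) (P.smul_mem _ he1)) he2
    have hne : ∀ c : k, c • e0 + s • e1 + e2 ≠ 0 := by
      intro c h7
      have h8 := hli c s 1 (by rw [one_smul]; exact h7)
      exact one_ne_zero h8.2.2
    obtain ⟨q, hq, c, hc⟩ := hQ _ (hmem a) (hne a) h3 h4
    obtain ⟨q', hq', c', hc'⟩ := hQ _ (hmem b) (hne b) h5 h6
    by_contra hab
    apply h0q q hq q' hq'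
    rw [Submodule.mem_span_pair]
    have h7 : (a - b) • e0 = c • q - c' • q' := by
      rw [← hc, ← hc', sub_smul]
      abel
    have h8 : a - b ≠ 0 := sub_ne_zero.2 hab
    refine ⟨(a - b)⁻¹ * c, -((a - b)⁻¹ * c'), ?_⟩
    calc ((a - b)⁻¹ * c) • q + (-((a - b)⁻¹ * c')) • q' = (a - b)⁻¹ • (c • q - c' • q') := by
          rw [smul_sub, smul_smul, smul_smul, neg_smul, ← sub_eq_add_neg]
      _ = e0 := by rw [← h7, smul_smul, inv_mul_cancel₀ h8, one_smul]
  · intro j h3
    change dd F w (e1 - (l j e1 / l j e0) • e0) = 0 at h3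
    set μ := l j e1 / l j e0 with hμ
    have h4 : e1 - μ • e0 ∈ (a j).W := by
      rw [hm j]
      refine ⟨P.sub_mem he1 (P.smul_mem _ he0), ?_⟩
      rw [map_sub, map_smul, smul_eq_mul, hμ, div_mul_cancel₀ _ (h0l j), sub_self]
    have h5 : e1 - μ • e0 ≠ 0 := by
      intro h6
      have h7 := hli (-μ) 1 0 (by
        rw [one_smul, zero_smul, add_zero, neg_smul, ← h6]
        abel)
      exact one_ne_zero h7.2.1
    obtain ⟨q, hq, c, hc⟩ := hQ _ ((hm j _).1 h4).1 h5 ((a j).tri_zero hF h4 h4 h4) h3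
    apply h1q q hq
    rw [Submodule.mem_span_pair]
    exact ⟨μ, c, by rw [← hc]; abel⟩

end Fin

end Pool.Agent.CUB.FLN.T15
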