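import Pool.Agent.FLN.TriB

/-!
# The transversals at a plane section

The resultant is the product of the three quintic forms of the lines `a j`, so its zeros are the
coordinates of the transversals.
-/

set_option autoImplicit false

noncomputable section

namespace Pool.Agent.CUB.FLN.T15

open Polynomial Pool.Agent.ZCyc Pool.Agent.Dess Pool.Agent.GT Module
open Pool.Agent.VFP (Om tt)

/-- a point of the plane with the frame `e` -/
def pq {L : Type} [Field L] (e : Fin 3 → Fin 6 → L) (b s : L) : Fin 6 → L :=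
  b • e 0 + s • e 1 + e 2

variable {k : Type} [Field k] [CharZero k] {F : MvPolynomial (Fin 6) k}

omit [CharZero k] in
private theorem bas_of_li {x : Ln F k} {u : Fin 2 → Fin 6 → k}
    (h : LinearIndependent k ![u 0, u 1]) (h0 : u 0 ∈ x.W) (h1 : u 1 ∈ x.W) : Bas x u := by
  refine ⟨h, (Submodule.eq_of_le_of_finrank_eq ?_ ?_).symm⟩
  · rw [Submodule.span_le]
    rintro z (rfl | rfl)
    · exact h0
    · exact h1
  · have h5 := finrank_span_eq_card h
    rw [Matrix.range_cons, Matrix.range_cons, Matrix.range_empty, Set.union_empty,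
      Set.singleton_union, Fintype.card_fin] at h5
    rw [x.two]
    exact h5

/-- the basis of the line `a j` given by the frame -/
def fu (l : Fin 3 → (Fin 6 → k) →ₗ[k] k) (e : Fin 3 → Fin 6 → k) (j : Fin 3) :
    Fin 2 → Fin 6 → k :=
  ![e 1 - (l j (e 1) / l j (e 0)) • e 0, e 2 - (l j (e 2) / l j (e 0)) • e 0]

omit [CharZero k] in
theorem fu_pq (l : Fin 3 → (Fin 6 → k) →ₗ[k] k) (e : Fin 3 → Fin 6 → k) (j : Fin 3) (s : k) :
    s • fu l e j 0 + fu l e j 1 =
      pq e (-(s * (l j (e 1) / l j (e 0)) + l j (e 2) / l j (e 0))) s := by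
  funext i
  simp only [fu, pq, Matrix.cons_val_zero, Matrix.cons_val_one, Pi.add_apply, Pi.smul_apply,
    Pi.sub_apply, smul_eq_mul]
  ring

section Prod

variable {P : Submodule k (Fin 6 → k)} {l : Fin 3 → (Fin 6 → k) →ₗ[k] k} {w : Fin 2 → Fin 6 → k}
  {e : Fin 3 → Fin 6 → k}

omit [CharZero k] in
private theorem lp_split [Infinite k] (he : Frm F w P l e)
    (hp : ∀ x ∈ P, MvPolynomial.aeval x F = ∏ i, l i x) (s : k) :
    lp F (e 0) (fun i => s * e 1 i + e 2 i) = C (∏ j, l j (e 0)) *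
      ∏ j, (X - C (-(s * (l j (e 1) / l j (e 0)) + l j (e 2) / l j (e 0)))) := by
  refine Polynomial.funext fun x => ?_
  have h1 : (fun i => x * e 0 i + (s * e 1 i + e 2 i)) = x • e 0 + (s • e 1 + e 2) := rfl
  rw [lp_eval, h1, hp _ (P.add_mem (P.smul_mem _ (he.mem 0))
    (P.add_mem (P.smul_mem _ (he.mem 1)) (he.mem 2))), eval_mul, eval_C, eval_prod,
    ← Finset.prod_mul_distrib]
  refine Finset.prod_congr rfl fun j _ => ?_
  have h2 := he.ne j
  rw [map_add, map_add, map_smul, map_smul, eval_sub, eval_X, eval_C]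
  simp only [smul_eq_mul]
  field_simp
  ring

omit [CharZero k] in
theorem rsl_prod [Infinite k] (he : Frm F w P l e)
    (hp : ∀ x ∈ P, MvPolynomial.aeval x F = ∏ i, l i x) {D : MvPolynomial (Fin 6) k}
    (hD : D.IsHomogeneous 5) :
    rsl F D e = C ((∏ j, l j (e 0)) ^ 5) * ∏ j, lp D (fu l e j 0) (fu l e j 1) := by
  refine Polynomial.funext fun s => ?_
  have hg : (lp D (e 0) fun i => s * e 1 i + e 2 i).natDegree ≤ 5 := (lp_deg hD _ _).1
  have hnat : (∏ j, (X - C (-(s * (l j (e 1) / l j (e 0)) + l j (e 2) / l j (e 0)))) :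
      k[X]).natDegree = 3 := by
    rw [natDegree_prod_of_monic _ _ fun i _ => monic_X_sub_C _,
      Finset.sum_congr rfl fun j _ => natDegree_X_sub_C _]
    simp
  rw [rsl_eval, lp_split he hp, resultant_C_mul_left]
  have h1 := resultant_prod_left Finset.univ
    (fun j => (X - C (-(s * (l j (e 1) / l j (e 0)) + l j (e 2) / l j (e 0))) : k[X]))
    (lp D (e 0) fun i => s * e 1 i + e 2 i) 5
    (Finset.prod_ne_zero_iff.2 fun j _ => by
      rw [leadingCoeff_X_sub_C]
      exact one_ne_zero) hg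
  rw [hnat] at h1
  rw [h1, eval_mul, eval_C, eval_prod]
  congr 1
  refine Finset.prod_congr rfl fun j _ => ?_
  rw [natDegree_X_sub_C, resultant_X_sub_C_left _ _ _ hg, lp_eval, lp_eval]
  congr 1
  have h2 := fu_pq l e j s
  congr 1
  have h3 : (fun i => s * fu l e j 0 i + fu l e j 1 i) = s • fu l e j 0 + fu l e j 1 := rfl
  rw [h3, h2]
  funext i
  simp only [pq, Pi.add_apply, Pi.smul_apply, smul_eq_mul]
  ring

end Prod

theorem end_li (hF : Smooth F) {a : Fin 3 → Ln F k} {y : Ln F k} (hV : ∀ j, Vg (a j) y)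
    {w : Fin 2 → Fin 6 → k} (hw : Bas y w) {P : Submodule k (Fin 6 → k)}
    {l : Fin 3 → (Fin 6 → k) →ₗ[k] k} (hm : ∀ i x, x ∈ (a i).W ↔ x ∈ P ∧ l i x = 0)
    (hp : ∀ x ∈ P, MvPolynomial.aeval x F = ∏ i, l i x) {e : Fin 3 → Fin 6 → k}
    (he : Frm F w P l e) {b s : k} (h : tri F (pq e b s) (pq e b s) (pq e b s) = 0) :
    LinearIndependent k ![pq e b s, ys F w (pq e b s)] := by
  have h1 : pq e b s ∈ P := P.add_mem (P.add_mem (P.smul_mem _ (he.mem 0))
    (P.smul_mem _ (he.mem 1))) (he.mem 2)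
  have h2 : pq e b s ≠ 0 := by
    intro h3
    have h4 := he.li b s 1 (by rw [one_smul]; exact h3)
    exact one_ne_zero h4.2.2
  rw [tri_self hF.hom, hp _ h1, Finset.prod_eq_zero_iff] at h
  obtain ⟨j, -, hj⟩ := h
  exact ys_li hF (hV j) hw ((hm j _).2 ⟨h1, hj⟩) h2

/-- the transversals of the three lines of a plane section -/
theorem end_sum [IsAlgClosed k] (hF : Smooth F) {a : Fin 3 → Ln F k} {y : Ln F k} (hV : ∀ j, Vg (a j) y)
    {w : Fin 2 → Fin 6 → k} (hw : Bas y w) {P : Submodule k (Fin 6 → k)}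
    {l : Fin 3 → (Fin 6 → k) →ₗ[k] k} (hm : ∀ i x, x ∈ (a i).W ↔ x ∈ P ∧ l i x = 0)
    (hp : ∀ x ∈ P, MvPolynomial.aeval x F = ∏ i, l i x) {e : Fin 3 → Fin 6 → k}
    (he : Frm F w P l e) {D : MvPolynomial (Fin 6) k} (hD : D.IsHomogeneous 5)
    (hDe : ∀ z : Fin 6 → k, MvPolynomial.aeval z D = dd F w z) :
    ∃ (c : k) (ρ : Fin 3 × Fin 5 → k) (φ : k → CH (PX F) Unit), c ≠ 0 ∧
      rsl F D e = C c * ∏ p, (X - C (ρ p)) ∧ ∑ j, ph hF (a j) y = ∑ p, φ (ρ p) ∧
      ∀ (b s : k) (n : Ln F k), tri F (pq e b s) (pq e b s) (pq e b s) = 0 →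
        dd F w (pq e b s) = 0 → pq e b s ∈ n.W → ys F w (pq e b s) ∈ n.W → cl hF n = φ s := by
  classical
  have hfu : ∀ j, Bas (a j) (fu l e j) := by
    intro j
    refine bas_of_li ?_ ?_ ?_
    · rw [LinearIndependent.pair_iff]
      intro s t hst
      have h1 := he.li (-(s * (l j (e 1) / l j (e 0)) + t * (l j (e 2) / l j (e 0)))) s t (by
        rw [← hst]
        funext i
        simp only [fu, Matrix.cons_val_zero, Matrix.cons_val_one, Pi.add_apply, Pi.smul_apply,
          Pi.sub_apply, smul_eq_mul]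
        ring)
      exact h1.2
    · rw [hm j]
      refine ⟨P.sub_mem (he.mem 1) (P.smul_mem _ (he.mem 0)), ?_⟩
      change l j (e 1 - (l j (e 1) / l j (e 0)) • e 0) = 0
      rw [map_sub, map_smul, smul_eq_mul, div_mul_cancel₀ _ (he.ne j), sub_self]
    · rw [hm j]
      refine ⟨P.sub_mem (he.mem 2) (P.smul_mem _ (he.mem 0)), ?_⟩
      change l j (e 2 - (l j (e 2) / l j (e 0)) • e 0) = 0
      rw [map_sub, map_smul, smul_eq_mul, div_mul_cancel₀ _ (he.ne j), sub_self]
  -- the zeros of the quintic forms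
  have hc5 : ∀ j, (lp D (fu l e j 0) (fu l e j 1)).coeff 5 = dd F w (fu l e j 0) := fun j => by
    rw [(lp_deg hD _ _).2, hDe]
  have hc0 : ∀ j, dd F w (fu l e j 0) ≠ 0 := fun j => he.lead j
  have hex : ∀ j, ∃ r : Fin 5 → k, lp D (fu l e j 0) (fu l e j 1) =
      C ((lp D (fu l e j 0) (fu l e j 1)).coeff 5) * ∏ i, (X - C (r i)) := fun j =>
    TInf.move_exists_roots (lp_deg hD (fu l e j 0) (fu l e j 1)).1 (by rw [hc5]; exact hc0 j)
  choose ρ hρ using hex
  have hev : ∀ (j : Fin 3) (s : k), dd F w (s • fu l e j 0 + fu l e j 1) =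
      dd F w (fu l e j 0) * ∏ i, (s - ρ j i) := by
    intro j s
    have h1 := congrArg (eval s) (hρ j)
    rw [lp_eval, eval_mul, eval_C, eval_prod, hc5] at h1
    have h2 : (fun i => s * fu l e j 0 i + fu l e j 1 i) = s • fu l e j 0 + fu l e j 1 := rfl
    rw [h2, hDe] at h1
    rw [h1]
    congr 1
    exact Finset.prod_congr rfl fun i _ => by rw [eval_sub, eval_X, eval_C]
  have hzW : ∀ (j : Fin 3) (s : k), s • fu l e j 0 + fu l e j 1 ∈ (a j).W := by
    intro j s
    rw [(hfu j).2, Submodule.mem_span_pair]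
    exact ⟨s, 1, by rw [one_smul]⟩
  have hz0 : ∀ (j : Fin 3) (s : k), s • fu l e j 0 + fu l e j 1 ≠ 0 := by
    intro j s h0
    have h1 := (hfu j).1
    rw [LinearIndependent.pair_iff] at h1
    exact one_ne_zero (h1 s 1 (by rw [one_smul]; exact h0)).2
  have hdz : ∀ j i, dd F w (ρ j i • fu l e j 0 + fu l e j 1) = 0 := by
    intro j i
    rw [hev, Finset.prod_eq_zero (Finset.mem_univ i) (sub_self _), mul_zero]
  choose m hm1 hm2 using fun j i => exists_tr hF hw
    ((a j).tri_zero hF (hzW j (ρ j i)) (hzW j (ρ j i)) (hzW j (ρ j i))) (hdz j i)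
    (ys_li hF (hV j) hw (hzW j (ρ j i)) (hz0 j (ρ j i)))
  have hcmb : ∀ j i, cmb (fu l e j) ![ρ j i, 1] = ρ j i • fu l e j 0 + fu l e j 1 := by
    intro j i
    simp only [cmb, Matrix.cons_val_zero, Matrix.cons_val_one, one_smul]
  have hphi : ∀ j, IsPhi (a j) y (m j) := by
    intro j
    refine ⟨fu l e j, w, dd F w (fu l e j 0), fun i => ![ρ j i, 1], hfu j, hw, hc0 j, ?_, ?_, ?_⟩
    · intro i h0
      have h1 := congrFun h0 1
      simp at h1
    · intro s
      simp only [Matrix.cons_val_zero, Matrix.cons_val_one, mul_one]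
      by_cases h1 : s 1 = 0
      · have h2 : cmb (fu l e j) s = s 0 • fu l e j 0 := by
          rw [cmb, h1, zero_smul, add_zero]
        rw [h2, dd_smul, h1]
        simp only [zero_mul, sub_zero, Finset.prod_const, Finset.card_univ, Fintype.card_fin]
        ring
      · have h2 : cmb (fu l e j) s = s 1 • ((s 0 / s 1) • fu l e j 0 + fu l e j 1) := by
          rw [cmb, smul_add, smul_smul, mul_div_cancel₀ _ h1]
        rw [h2, dd_smul, hev]
        have h3 : ∏ i, (s 0 - s 1 * ρ j i) = s 1 ^ 5 * ∏ i, (s 0 / s 1 - ρ j i) := by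
          have h4 : ∀ i, s 0 - s 1 * ρ j i = s 1 * (s 0 / s 1 - ρ j i) := by
            intro i
            field_simp
          rw [Finset.prod_congr rfl fun i _ => h4 i, Finset.prod_mul_distrib, Finset.prod_const,
            Finset.card_univ, Fintype.card_fin]
        rw [h3]
        ring
    · intro i
      rw [hcmb]
      exact ⟨hm1 j i, hm2 j i⟩
  -- the function on the parameter line
  let Pr : k → Ln F k → Prop := fun s n => ∃ b : k,
    tri F (pq e b s) (pq e b s) (pq e b s) = 0 ∧ dd F w (pq e b s) = 0 ∧ pq e b s ∈ n.W ∧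
      ys F w (pq e b s) ∈ n.W
  let φ : k → CH (PX F) Unit := fun s => if h : ∃ n, Pr s n then cl hF h.choose else 0
  have hφ : ∀ s n, Pr s n → cl hF n = φ s := by
    intro s n h
    have h1 : ∃ n, Pr s n := ⟨n, h⟩
    have h2 : φ s = cl hF h1.choose := dif_pos h1
    rw [h2]
    congr 1
    obtain ⟨b, hb1, hb2, hb3, hb4⟩ := h
    obtain ⟨b', hb1', hb2', hb3', hb4'⟩ := h1.choose_spec
    have h3 : b = b' := he.uniq s b b' hb1 hb2 hb1' hb2'
    subst h3
    exact ln_eq (end_li hF hV hw hm hp he hb1) hb3 hb4 hb3' hb4'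
  refine ⟨(∏ j, l j (e 0)) ^ 5 * ∏ j, dd F w (fu l e j 0), fun p => ρ p.1 p.2, φ, ?_, ?_, ?_, ?_⟩
  · exact mul_ne_zero (pow_ne_zero _ (Finset.prod_ne_zero_iff.2 fun j _ => he.ne j))
      (Finset.prod_ne_zero_iff.2 fun j _ => hc0 j)
  · rw [rsl_prod he hp hD, map_mul, map_prod, mul_assoc]
    congr 1
    rw [Fintype.prod_prod_type, ← Finset.prod_mul_distrib]
    refine Finset.prod_congr rfl fun j _ => ?_
    conv_lhs => rw [hρ j]
    rw [hc5]
  · rw [Fintype.sum_prod_type]
    refine Finset.sum_congr rfl fun j _ => ?_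
    rw [ph_eq hF (hV j) (hphi j)]
    refine Finset.sum_congr rfl fun i _ => ?_
    refine hφ _ _ ⟨-(ρ j i * (l j (e 1) / l j (e 0)) + l j (e 2) / l j (e 0)), ?_⟩
    rw [← fu_pq]
    exact ⟨(a j).tri_zero hF (hzW j _) (hzW j _) (hzW j _), hdz j i, hm1 j i, hm2 j i⟩
  · intro b s n h1 h2 h3 h4
    exact hφ s n ⟨b, h1, h2, h3, h4⟩

end Pool.Agent.CUB.FLN.T15
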