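import Pool.Agent.FLN.TriC

/-!
# Plane sections and transversals

`tri_ph`: the sum of the classes of the transversals of the three lines of a plane section and of a
line `y` does not depend on the plane section. Frames `e`, `e'` of the planes, the frame
`E = (1 - t) e + t e'` over `Om k`; the fifteen zeros of the resultant give fifteen lines over `Om k`, their
values at `t = 0` and `t = 1` are the transversals (`end_sum`).
-/

set_option autoImplicit false

noncomputable section

namespace Pool.Agent.CUB.FLN.T15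

open Polynomial Pool.Agent.ZCyc Pool.Agent.Dess Pool.Agent.GT Module
open Pool.Agent.VFP (Om tt)

variable {k : Type} [Field k] {F : MvPolynomial (Fin 6) k}

private theorem at_zero' {v : Place k (Om k)} {c : k} (h : v.At 0 c) : c = 0 := by
  have h1 := Place.at_const (v := v) (0 : k)
  rw [map_zero] at h1
  exact h.unique h1

private theorem at_ne' {v : Place k (Om k)} {f : Om k} {c : k} (h : v.At f c) (hc : c ≠ 0) :
    f ≠ 0 := by
  rintro rfl
  exact hc (at_zero' h)

private theorem li_iff' {L : Type} [Field L] {ι : Type} {a b : ι → L} :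
    LinearIndependent L ![a, b] ↔ ∃ i j, a i * b j - a j * b i ≠ 0 := by
  rw [LinearIndependent.pair_iff]
  constructor
  · intro h
    by_contra hcon
    push Not at hcon
    have ha : a ≠ 0 := by
      rintro rfl
      have h1 := h 1 0 (by rw [smul_zero, zero_smul, add_zero])
      exact one_ne_zero h1.1
    obtain ⟨i, hi⟩ : ∃ i, a i ≠ 0 := by
      by_contra h2
      push Not at h2
      exact ha (funext h2)
    have h1 := h (b i) (-(a i)) (by
      funext j
      have h2 := hcon i j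
      simp only [Pi.add_apply, Pi.smul_apply, smul_eq_mul, Pi.zero_apply]
      linear_combination -h2)
    exact hi (neg_eq_zero.1 h1.2)
  · rintro ⟨i, j, hij⟩ s t hst
    have hi := congrFun hst i
    have hj := congrFun hst j
    simp only [Pi.add_apply, Pi.smul_apply, smul_eq_mul, Pi.zero_apply] at hi hj
    have h1 : s * (a i * b j - a j * b i) = 0 := by linear_combination b j * hi - b i * hj
    have h2 : t * (a i * b j - a j * b i) = 0 := by linear_combination a i * hj - a j * hi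
    exact ⟨(mul_eq_zero.1 h1).resolve_right hij, (mul_eq_zero.1 h2).resolve_right hij⟩

private theorem li_at {v : Place k (Om k)} {a b : Fin 6 → Om k} {a' b' : Fin 6 → k}
    (ha : ∀ i, v.At (a i) (a' i)) (hb : ∀ i, v.At (b i) (b' i))
    (h : LinearIndependent k ![a', b']) : LinearIndependent (Om k) ![a, b] := by
  obtain ⟨i, j, hij⟩ := li_iff'.1 h
  exact li_iff'.2 ⟨i, j, at_ne' (((ha i).mul (hb j)).sub ((ha j).mul (hb i))) hij⟩

private theorem ys_at {v : Place k (Om k)} (w : Fin 2 → Fin 6 → k) {z : Fin 6 → Om k}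
    {z' : Fin 6 → k} (hz : ∀ i, v.At (z i) (z' i)) (i : Fin 6) :
    v.At (ys F (fun j => em (Om k) (w j)) z i) (ys F w z' i) := by
  have hw : ∀ j i, v.At (em (Om k) (w j) i) (w j i) := fun j i => Place.at_const _
  unfold ys
  simp only [Pi.sub_apply, Pi.smul_apply, smul_eq_mul]
  exact ((tri_at F hz hz (hw 0)).mul (hw 1 i)).sub ((tri_at F hz hz (hw 1)).mul (hw 0 i))

private theorem dd_at {v : Place k (Om k)} (w : Fin 2 → Fin 6 → k) {z : Fin 6 → Om k}
    {z' : Fin 6 → k} (hz : ∀ i, v.At (z i) (z' i)) :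
    v.At (dd F (fun j => em (Om k) (w j)) z) (dd F w z') :=
  tri_at F hz (ys_at w hz) (ys_at w hz)

variable [IsAlgClosed k] [CharZero k]

/-- a root of a polynomial whose value has the same degree has a value -/
private theorem root_at {v : Place k (Om k)} {p : (Om k)[X]} {q : k[X]} {n : ℕ}
    (h : ∀ i, v.At (p.coeff i) (q.coeff i)) (hd : p.natDegree ≤ n) (h0 : q.coeff n ≠ 0)
    {x : Om k} (hx : p.eval x = 0) : ∃ x', v.At x x' := by
  have hn : p.coeff n ≠ 0 := at_ne' (h n) h0
  obtain ⟨r, hr⟩ := TInf.move_exists_roots hd hn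
  obtain ⟨r', hr', -⟩ := TInf.move_roots_at v h h0 _ r hr
  rw [hr, eval_mul, eval_C, eval_prod] at hx
  have h1 := (mul_eq_zero.1 hx).resolve_left hn
  rw [Finset.prod_eq_zero_iff] at h1
  obtain ⟨i, -, hi⟩ := h1
  rw [eval_sub, eval_X, eval_C, sub_eq_zero] at hi
  exact ⟨r' i, hi ▸ hr' i⟩

omit [IsAlgClosed k] [CharZero k] in
/-- the sum of a function over the roots depends only on the polynomial -/
private theorem sum_roots {κ κ' : Type} [Fintype κ] [Fintype κ'] {c c' : k} (hc : c ≠ 0)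
    (hc' : c' ≠ 0) {r : κ → k} {r' : κ' → k}
    (h : C c * ∏ i, (X - C (r i)) = C c' * ∏ i, (X - C (r' i))) {A : Type} [AddCommMonoid A]
    (φ : k → A) : ∑ i, φ (r i) = ∑ i, φ (r' i) := by
  have key : ∀ {κ : Type} [Fintype κ] {c : k} (_ : c ≠ 0) (r : κ → k),
      (C c * ∏ i, (X - C (r i))).roots = (Finset.univ : Finset κ).val.map r := by
    intro κ _ c hc r
    rw [roots_C_mul _ hc, roots_prod _ _ (Finset.prod_ne_zero_iff.2 fun i _ => X_sub_C_ne_zero _)]
    simp only [roots_X_sub_C, Multiset.bind_singleton]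
  have h1 := key hc r
  rw [h, key hc' r'] at h1
  have h2 := congrArg (fun s => (Multiset.map φ s).sum) h1
  simp only [Multiset.map_map] at h2
  exact h2.symm

/-- the limit at an end -/
private theorem lim_end (hF : Smooth F) {a : Fin 3 → Ln F k} {y : Ln F k}
    (hV : ∀ j, Vg (a j) y) {w : Fin 2 → Fin 6 → k} (hw : Bas y w)
    {P : Submodule k (Fin 6 → k)} {l : Fin 3 → (Fin 6 → k) →ₗ[k] k}
    (hm : ∀ i x, x ∈ (a i).W ↔ x ∈ P ∧ l i x = 0)
    (hp : ∀ x ∈ P, MvPolynomial.aeval x F = ∏ i, l i x) {e : Fin 3 → Fin 6 → k}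
    (he : Frm F w P l e) {D : MvPolynomial (Fin 6) k} (hD : D.IsHomogeneous 5)
    (hDe : ∀ z : Fin 6 → k, MvPolynomial.aeval z D = dd F w z) {v : Place k (Om k)}
    {E : Fin 3 → Fin 6 → Om k} (hE : ∀ i j, v.At (E i j) (e i j)) {c : Om k}
    {r : Fin 15 → Om k} (hr : rsl F D E = C c * ∏ i, (X - C (r i))) {α : Fin 15 → Om k}
    (h1 : ∀ i, tri F (pq E (α i) (r i)) (pq E (α i) (r i)) (pq E (α i) (r i)) = 0)
    (h2 : ∀ i, dd F (fun j => em (Om k) (w j)) (pq E (α i) (r i)) = 0) :
    (∀ i, LinearIndependent (Om k) ![pq E (α i) (r i),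
      ys F (fun j => em (Om k) (w j)) (pq E (α i) (r i))]) ∧
    ∀ n : Fin 15 → Ln F (Om k), (∀ i, pq E (α i) (r i) ∈ (n i).W ∧
      ys F (fun j => em (Om k) (w j)) (pq E (α i) (r i)) ∈ (n i).W) →
      lim1 (hom_PX hF) v (∑ i, Finsupp.single ((pe hF (Om k)).symm (n i)) 1) =
        ∑ j, ph hF (a j) y := by
  obtain ⟨c₀, ρ, φ, hc₀, hρ, hsum, hφ⟩ := end_sum hF hV hw hm hp he hD hDe
  have hc15 : (rsl F D e).coeff 15 = c₀ := by
    have hmon : (∏ p, (X - C (ρ p))).Monic := monic_prod_of_monic _ _ fun i _ => monic_X_sub_C _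
    have hdeg : (∏ p, (X - C (ρ p))).natDegree = 15 := by
      rw [natDegree_prod_of_monic _ _ fun i _ => monic_X_sub_C _,
        Finset.sum_congr rfl fun j _ => natDegree_X_sub_C _]
      simp
    rw [hρ, coeff_C_mul]
    have h3 := hmon.coeff_natDegree
    rw [hdeg] at h3
    rw [h3, mul_one]
  obtain ⟨r', hr', hre⟩ := TInf.move_roots_at v (rsl_at hE F D) (by rw [hc15]; exact hc₀) c r hr
  -- the values of `α`
  have hα : ∀ i, ∃ x', v.At (α i) x' := by
    intro i
    have hb : ∀ j, v.At (r i * E 1 j + E 2 j) (r' i * e 1 j + e 2 j) := fun j =>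
      ((hr' i).mul (hE 1 j)).add (hE 2 j)
    refine root_at (p := lp F (E 0) fun j => r i * E 1 j + E 2 j)
      (q := lp F (e 0) fun j => r' i * e 1 j + e 2 j) (n := 3)
      (lp_at (hE 0) hb F) (lp_deg hF.hom _ _).1 ?_ ?_
    · rw [(lp_deg hF.hom _ _).2, hp _ (he.mem 0)]
      exact Finset.prod_ne_zero_iff.2 fun j _ => he.ne j
    · have h3 : (fun j => α i * E 0 j + (r i * E 1 j + E 2 j)) = pq E (α i) (r i) := by
        funext j
        simp only [pq, Pi.add_apply, Pi.smul_apply, smul_eq_mul]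
        ring
      rw [lp_eval, h3, ← tri_self hF.hom]
      exact h1 i
  choose α' hα' using hα
  have hz : ∀ i j, v.At (pq E (α i) (r i) j) (pq e (α' i) (r' i) j) := by
    intro i j
    simp only [pq, Pi.add_apply, Pi.smul_apply, smul_eq_mul]
    exact (((hα' i).mul (hE 0 j)).add ((hr' i).mul (hE 1 j))).add (hE 2 j)
  have g1 : ∀ i, tri F (pq e (α' i) (r' i)) (pq e (α' i) (r' i)) (pq e (α' i) (r' i)) = 0 := by
    intro i
    have h3 := tri_at F (hz i) (hz i) (hz i)
    rw [h1 i] at h3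
    exact at_zero' h3
  have g2 : ∀ i, dd F w (pq e (α' i) (r' i)) = 0 := by
    intro i
    have h3 := dd_at (F := F) w (hz i)
    rw [h2 i] at h3
    exact at_zero' h3
  have g3 : ∀ i, LinearIndependent k ![pq e (α' i) (r' i), ys F w (pq e (α' i) (r' i))] :=
    fun i => end_li hF hV hw hm hp he (g1 i)
  refine ⟨fun i => li_at (hz i) (ys_at w (hz i)) (g3 i), fun n hn => ?_⟩
  choose n' hn' using fun i => exists_val hF v (n i)
  have h4 : ∀ i, lim1 (hom_PX hF) v (Finsupp.single ((pe hF (Om k)).symm (n i)) 1) =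
      φ (r' i) := by
    intro i
    rw [cl_lim hF (hn' i)]
    exact hφ (α' i) (r' i) (n' i) (g1 i) (g2 i) (hn' i _ (hn i).1 _ (hz i))
      (hn' i _ (hn i).2 _ (ys_at w (hz i)))
  rw [map_sum, Finset.sum_congr rfl fun i _ => h4 i, hsum]
  refine sum_roots (c := c₀) (c' := c₀) hc₀ hc₀ ?_ φ
  rw [← hρ, ← hc15]
  exact hre.symm

theorem tri_ph (hF : Smooth F) {a b : Fin 3 → Ln F k} (ha : Tri a) (hb : Tri b) {y : Ln F k}
    (h : ∀ i, Vg (a i) y) (h' : ∀ i, Vg (b i) y) :
    ∑ i, ph hF (a i) y = ∑ i, ph hF (b i) y := by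
  obtain ⟨P, l, hP, hm, hp⟩ := ha
  obtain ⟨P', l', hP', hm', hp'⟩ := hb
  obtain ⟨w, hw⟩ := exists_bas y
  obtain ⟨D, hD, hDe⟩ := exists_dpol F w
  have hDk : ∀ z : Fin 6 → k, MvPolynomial.aeval z D = dd F w z := fun z => hDe k z
  obtain ⟨e, he⟩ := exists_frm hF h hw hP hm hp
  obtain ⟨e', he'⟩ := exists_frm hF h' hw hP' hm' hp'
  obtain ⟨y', hy', -⟩ := exists_base hF (Om k) y
  let E : Fin 3 → Fin 6 → Om k := fun i j =>
    (1 - tt k) * algebraMap k (Om k) (e i j) + tt k * algebraMap k (Om k) (e' i j)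
  have hone : ∀ v : Place k (Om k), v.At (1 : Om k) 1 := fun v => VFP.at_one
  have hE0 : ∀ v : Place k (Om k), v.At (tt k) 0 → ∀ i j, v.At (E i j) (e i j) := by
    intro v hv i j
    have h1 := (((hone v).sub hv).mul (Place.at_const (e i j))).add
      (hv.mul (Place.at_const (e' i j)))
    rwa [sub_zero, one_mul, zero_mul, add_zero] at h1
  have hE1 : ∀ v : Place k (Om k), v.At (tt k) 1 → ∀ i j, v.At (E i j) (e' i j) := by
    intro v hv i j
    have h1 := (((hone v).sub hv).mul (Place.at_const (e i j))).add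
      (hv.mul (Place.at_const (e' i j)))
    rwa [sub_self, zero_mul, one_mul, zero_add] at h1
  obtain ⟨v₀, hv₀⟩ := exists_place (F := Om k) (VFP.tt_transc (k := k)) 0
  -- the resultant over `Om k`
  have hc15 : (rsl F D E).coeff 15 ≠ 0 := by
    obtain ⟨c₀, ρ, φ, hc₀, hρ, -, -⟩ := end_sum hF h hw hm hp he hD hDk
    have hmon : (∏ p, (X - C (ρ p))).Monic := monic_prod_of_monic _ _ fun i _ => monic_X_sub_C _
    have hdeg : (∏ p, (X - C (ρ p))).natDegree = 15 := by
      rw [natDegree_prod_of_monic _ _ fun i _ => monic_X_sub_C _,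
        Finset.sum_congr rfl fun j _ => natDegree_X_sub_C _]
      simp
    refine at_ne' (rsl_at (hE0 v₀ hv₀) F D 15) ?_
    rw [hρ, coeff_C_mul]
    have h3 := hmon.coeff_natDegree
    rw [hdeg] at h3
    rw [h3, mul_one]
    exact hc₀
  obtain ⟨r, hr⟩ := TInf.move_exists_roots (rsl_deg hF.hom hD E) hc15
  have hα : ∀ i, ∃ x, (lp F (E 0) fun j => r i * E 1 j + E 2 j).eval x = 0 ∧
      (lp D (E 0) fun j => r i * E 1 j + E 2 j).eval x = 0 := by
    intro i
    refine common_root ?_ (lp_deg hD _ _).1 ?_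
    · refine le_antisymm (lp_deg hF.hom _ _).1 (le_natDegree_of_ne_zero ?_)
      have h1 := lp_at (hE0 v₀ hv₀ 0) (fun j => Place.at_const (v := v₀) ((0 : Fin 6 → k) j)) F 3
      rw [(lp_deg hF.hom _ _).2, (lp_deg hF.hom _ _).2, hp _ (he.mem 0)] at h1
      rw [(lp_deg hF.hom _ _).2]
      exact at_ne' h1 (Finset.prod_ne_zero_iff.2 fun j _ => he.ne j)
    · rw [← rsl_eval, hr, eval_mul, eval_prod, Finset.prod_eq_zero (Finset.mem_univ i), mul_zero]
      rw [eval_sub, eval_X, eval_C, sub_self]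
  choose α hα1 hα2 using hα
  have hpq : ∀ i, (fun j => α i * E 0 j + (r i * E 1 j + E 2 j)) = pq E (α i) (r i) := by
    intro i
    funext j
    simp only [pq, Pi.add_apply, Pi.smul_apply, smul_eq_mul]
    ring
  have g1 : ∀ i, tri F (pq E (α i) (r i)) (pq E (α i) (r i)) (pq E (α i) (r i)) = 0 := by
    intro i
    have h1 := hα1 i
    rw [lp_eval, hpq] at h1
    rw [tri_self hF.hom]
    exact h1
  have g2 : ∀ i, dd F (fun j => em (Om k) (w j)) (pq E (α i) (r i)) = 0 := by
    intro i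
    have h1 := hα2 i
    rw [lp_eval, hpq, hDe] at h1
    exact h1
  have hli := (lim_end hF h hw hm hp he hD hDk (hE0 v₀ hv₀) hr g1 g2).1
  have hwm : ∀ j, w j ∈ y.W := by
    intro j
    rw [hw.2]
    fin_cases j
    · exact Submodule.subset_span (by simp)
    · exact Submodule.subset_span (by simp)
  have hys : ∀ z : Fin 6 → Om k, ys F (fun j => em (Om k) (w j)) z ∈ y'.W := fun z =>
    y'.W.sub_mem (y'.W.smul_mem _ (hy' _ (hwm 1))) (y'.W.smul_mem _ (hy' _ (hwm 0)))
  have hln : ∀ i, ∃ n : Ln F (Om k), pq E (α i) (r i) ∈ n.W ∧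
      ys F (fun j => em (Om k) (w j)) (pq E (α i) (r i)) ∈ n.W := by
    intro i
    obtain ⟨n, hn⟩ := exists_ln hF (hli i) (g1 i) (tri_ys _ _) (g2 i)
      (y'.tri_zero hF (hys _) (hys _) (hys _))
    refine ⟨n, ?_, ?_⟩
    · rw [hn]
      exact Submodule.subset_span (by simp)
    · rw [hn]
      exact Submodule.subset_span (by simp)
  choose n hn using hln
  exact bridge (hom_PX hF) (Finsupp.lmapDomain ℚ ℚ (fun x (_ : Unit) => x)
    (∑ i, Finsupp.single ((pe hF (Om k)).symm (n i)) 1))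
    (fun v hv => (lim_end hF h hw hm hp he hD hDk (hE0 v hv) hr g1 g2).2 n hn)
    (fun v hv => (lim_end hF h' hw hm' hp' he' hD hDk (hE1 v hv) hr g1 g2).2 n hn)

end Pool.Agent.CUB.FLN.T15
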